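import Mathlib

set_option autoImplicit false

open MeasureTheory Set Filter Topology
open scoped ENNReal NNReal

namespace Pool.Agent.KS6_84.OB

/-- Lebesgue measure on the unit interval. -/
noncomputable def mu : Measure ℝ := volume.restrict (Icc (0:ℝ) 1)

instance : IsProbabilityMeasure mu := ⟨by simp [mu]⟩

/-- index of the base 8 cell of level `n` that contains `y` -/
noncomputable def idx (n : ℕ) (y : ℝ) : ℕ := ⌊(8:ℝ) ^ n * y⌋₊

/-- indicator function of the cell number `i` of level `n` -/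
noncomputable def ind (n i : ℕ) (y : ℝ) : ℝ := if idx n y = i then 1 else 0

/-- functions that depend only on the cell of level `n` -/
def Step (n : ℕ) (f : ℝ → ℝ) : Prop := ∃ F : ℕ → ℝ, ∀ y, f y = F (idx n y)

/-- Rademacher type function of the digit number `n` -/
noncomputable def rad (n : ℕ) (y : ℝ) : ℝ := if idx n y % 8 < 4 then 1 else -1

theorem idx_div (n m : ℕ) (y : ℝ) : idx n y = idx (n + m) y / 8 ^ m := by
  unfold idx
  have h : (8:ℝ) ^ n * y = ((8:ℝ) ^ (n + m) * y) / ((8 ^ m : ℕ) : ℝ) := by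
    push_cast
    rw [pow_add]
    field_simp
  rw [h, Nat.floor_div_natCast]

theorem idx_div' {n m : ℕ} (h : n ≤ m) (y : ℝ) : idx n y = idx m y / 8 ^ (m - n) := by
  have := idx_div n (m - n) y
  rwa [Nat.add_sub_cancel' h] at this

theorem measurable_idx (n : ℕ) : Measurable (idx n) := by
  unfold idx
  exact Nat.measurable_floor.comp (measurable_const.mul measurable_id)

theorem Step.mono {n m : ℕ} (h : n ≤ m) {f : ℝ → ℝ} (hf : Step n f) : Step m f := by
  obtain ⟨F, hF⟩ := hf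
  exact ⟨fun i => F (i / 8 ^ (m - n)), fun y => by rw [hF, idx_div' h]⟩

theorem Step.measurable {n : ℕ} {f : ℝ → ℝ} (hf : Step n f) : Measurable f := by
  obtain ⟨F, hF⟩ := hf
  have : f = F ∘ idx n := funext hF
  rw [this]
  exact (measurable_from_nat).comp (measurable_idx n)

theorem step_const (n : ℕ) (c : ℝ) : Step n (fun _ => c) := ⟨fun _ => c, fun _ => rfl⟩

theorem step_ind (n i : ℕ) : Step n (ind n i) := ⟨fun k => if k = i then 1 else 0, fun _ => rfl⟩

theorem step_rad (n : ℕ) : Step n (rad n) := ⟨fun k => if k % 8 < 4 then 1 else -1, fun _ => rfl⟩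

theorem Step.comp {n : ℕ} {f : ℝ → ℝ} (hf : Step n f) (φ : ℝ → ℝ) : Step n (fun y => φ (f y)) := by
  obtain ⟨F, hF⟩ := hf
  exact ⟨fun i => φ (F i), fun y => by simp only [hF]⟩

theorem Step.comp₂ {n : ℕ} {f g : ℝ → ℝ} (hf : Step n f) (hg : Step n g) (φ : ℝ → ℝ → ℝ) :
    Step n (fun y => φ (f y) (g y)) := by
  obtain ⟨F, hF⟩ := hf
  obtain ⟨G, hG⟩ := hg
  exact ⟨fun i => φ (F i) (G i), fun y => by simp only [hF, hG]⟩

theorem Step.add {n : ℕ} {f g : ℝ → ℝ} (hf : Step n f) (hg : Step n g) :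
    Step n (fun y => f y + g y) := hf.comp₂ hg (· + ·)

theorem Step.mul {n : ℕ} {f g : ℝ → ℝ} (hf : Step n f) (hg : Step n g) :
    Step n (fun y => f y * g y) := hf.comp₂ hg (· * ·)

theorem step_sum {ι : Type*} {n : ℕ} (s : Finset ι) {f : ι → ℝ → ℝ} (hf : ∀ i ∈ s, Step n (f i)) :
    Step n (fun y => ∑ i ∈ s, f i y) := by
  classical
  induction s using Finset.induction_on with
  | empty => simpa using step_const n 0
  | insert a s ha ih =>
    simp only [Finset.sum_insert ha]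
    exact (hf a (Finset.mem_insert_self _ _)).add
      (ih fun i hi => hf i (Finset.mem_insert_of_mem hi))

theorem ind_nonneg (n i : ℕ) (y : ℝ) : 0 ≤ ind n i y := by unfold ind; split_ifs <;> norm_num

theorem ind_le_one (n i : ℕ) (y : ℝ) : ind n i y ≤ 1 := by unfold ind; split_ifs <;> norm_num

theorem ind_sq (n i : ℕ) (y : ℝ) : ind n i y ^ 2 = ind n i y := by unfold ind; split_ifs <;> norm_num

theorem rad_sq (n : ℕ) (y : ℝ) : rad n y ^ 2 = 1 := by unfold rad; split_ifs <;> norm_num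

theorem abs_rad (n : ℕ) (y : ℝ) : |rad n y| = 1 := by unfold rad; split_ifs <;> norm_num

/-- nested cells: the indicator of a coarser ancestor dominates -/
theorem ind_anti {n m B j : ℕ} (hnm : n ≤ m) (hm : m ≤ B) (y : ℝ) :
    ind m (j / 8 ^ (B - m)) y ≤ ind n (j / 8 ^ (B - n)) y := by
  unfold ind
  by_cases h : idx m y = j / 8 ^ (B - m)
  · rw [if_pos h, if_pos]
    rw [idx_div' hnm, h, Nat.div_div_eq_div_mul, ← pow_add]
    congr 2
    omega
  · rw [if_neg h]
    split_ifs <;> norm_num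

/-- preimage of a point -/
theorem idx_preimage (n i : ℕ) : {y : ℝ | idx n y = i} ∩ Ico (0:ℝ) 1 =
    Ico ((i:ℝ) / 8 ^ n) (((i:ℝ) + 1) / 8 ^ n) ∩ Ico (0:ℝ) 1 := by
  ext y
  simp only [mem_inter_iff, mem_ofPred_eq, mem_Ico, and_congr_left_iff]
  rintro ⟨h0, h1⟩
  have h8 : (0:ℝ) < 8 ^ n := by positivity
  unfold idx
  rw [Nat.floor_eq_iff (by positivity), div_le_iff₀ h8, lt_div_iff₀ h8]
  constructor
  · rintro ⟨a, b⟩; constructor <;> linarith
  · rintro ⟨a, b⟩; constructor <;> linarith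

theorem mu_cell {n i : ℕ} (hi : i < 8 ^ n) : mu {y | idx n y = i} = ENNReal.ofReal ((8:ℝ) ^ n)⁻¹ := by
  have hm : MeasurableSet {y : ℝ | idx n y = i} := measurable_idx n (measurableSet_singleton i)
  have h8 : (0:ℝ) < 8 ^ n := by positivity
  have hae : mu {y | idx n y = i} = volume ({y : ℝ | idx n y = i} ∩ Ico (0:ℝ) 1) := by
    unfold mu
    rw [← Measure.restrict_congr_set (μ := volume) (s := Ico (0:ℝ) 1) (t := Icc 0 1) Ico_ae_eq_Icc,
      Measure.restrict_apply hm]
  rw [hae, idx_preimage]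
  have hi' : ((i:ℝ) + 1) / 8 ^ n ≤ 1 := by
    rw [div_le_one h8]
    exact_mod_cast hi
  have : Ico ((i:ℝ) / 8 ^ n) (((i:ℝ) + 1) / 8 ^ n) ∩ Ico (0:ℝ) 1 =
      Ico ((i:ℝ) / 8 ^ n) (((i:ℝ) + 1) / 8 ^ n) := by
    apply inter_eq_left.2
    intro y hy
    exact ⟨le_trans (by positivity) hy.1, lt_of_lt_of_le hy.2 hi'⟩
  rw [this, Real.volume_Ico]
  congr 1
  field_simp
  ring

theorem mu_real_cell {n i : ℕ} (hi : i < 8 ^ n) : mu.real {y | idx n y = i} = ((8:ℝ) ^ n)⁻¹ := by
  rw [measureReal_def, mu_cell hi, ENNReal.toReal_ofReal (by positivity)]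

theorem ae_idx_lt (n : ℕ) : ∀ᵐ y ∂mu, idx n y < 8 ^ n := by
  have : ∀ᵐ y ∂(volume.restrict (Ico (0:ℝ) 1)), idx n y < 8 ^ n := by
    rw [ae_restrict_iff' measurableSet_Ico]
    refine Eventually.of_forall fun y hy => ?_
    unfold idx
    rw [Nat.floor_lt (by have := hy.1; positivity)]
    push_cast
    have h8 : (0:ℝ) < 8 ^ n := by positivity
    nlinarith [hy.2]
  rwa [Measure.restrict_congr_set (Ico_ae_eq_Icc (μ := volume) (a := (0:ℝ)) (b := 1))] at this

theorem Step.integrable {n : ℕ} {f : ℝ → ℝ} (hf : Step n f) : Integrable f mu := by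
  obtain ⟨F, hF⟩ := id hf
  refine Integrable.of_bound hf.measurable.aestronglyMeasurable
    (∑ i ∈ Finset.range (8 ^ n), |F i|) ?_
  filter_upwards [ae_idx_lt n] with y hy
  rw [Real.norm_eq_abs, hF]
  exact Finset.single_le_sum (f := fun i => |F i|) (fun i _ => abs_nonneg _)
    (Finset.mem_range.2 hy)

theorem integral_idx (n : ℕ) (F : ℕ → ℝ) :
    ∫ y, F (idx n y) ∂mu = ((8:ℝ) ^ n)⁻¹ * ∑ i ∈ Finset.range (8 ^ n), F i := by
  have h1 : ∀ᵐ y ∂mu, F (idx n y) = ∑ i ∈ Finset.range (8 ^ n), F i * ind n i y := by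
    filter_upwards [ae_idx_lt n] with y hy
    rw [Finset.sum_eq_single (idx n y)]
    · simp [ind]
    · intro i _ hi
      simp [ind, Ne.symm hi]
    · intro h
      exact absurd (Finset.mem_range.2 hy) h
  rw [integral_congr_ae h1, integral_finsetSum _ (fun i _ => (step_ind n i).integrable.const_mul _),
    Finset.mul_sum]
  refine Finset.sum_congr rfl fun i hi => ?_
  rw [integral_const_mul]
  have h2 : ∫ y, ind n i y ∂mu = ((8:ℝ) ^ n)⁻¹ := by
    have : ind n i = {y | idx n y = i}.indicator (fun _ => (1:ℝ)) := by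
      funext y
      simp [ind, indicator]
    have hm : MeasurableSet {y : ℝ | idx n y = i} := measurable_idx n (measurableSet_singleton i)
    rw [this, integral_indicator hm, setIntegral_const,
      mu_real_cell (Finset.mem_range.1 hi)]
    simp
  rw [h2]; ring

theorem integral_ind {n i : ℕ} (hi : i < 8 ^ n) : ∫ y, ind n i y ∂mu = ((8:ℝ) ^ n)⁻¹ := by
  have h := integral_idx n (fun k => if k = i then (1:ℝ) else 0)
  have h2 : ∑ k ∈ Finset.range (8 ^ n), (if k = i then (1:ℝ) else 0) = 1 := by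
    rw [Finset.sum_ite_eq' (Finset.range (8 ^ n)) i (fun _ => (1:ℝ)), if_pos (Finset.mem_range.2 hi)]
  rw [h2, mul_one] at h
  exact h

/-- the mean of a Rademacher function over a coarser cell vanishes -/
theorem integral_mul_rad {n : ℕ} {f : ℝ → ℝ} (hf : Step n f) :
    ∫ y, f y * rad (n + 1) y ∂mu = 0 := by
  obtain ⟨F, hF⟩ := hf
  have h1 : ∀ y, f y * rad (n + 1) y =
      (fun i : ℕ => F (i / 8) * (if i % 8 < 4 then (1:ℝ) else -1)) (idx (n + 1) y) := by
    intro y
    rw [hF, idx_div n 1 y, pow_one]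
    rfl
  rw [integral_congr_ae (Eventually.of_forall h1),
    integral_idx (n + 1) (fun i : ℕ => F (i / 8) * (if i % 8 < 4 then (1:ℝ) else -1))]
  have h2 : ∑ i ∈ Finset.range (8 ^ (n + 1)), F (i / 8) * (if i % 8 < 4 then (1:ℝ) else -1) = 0 := by
    have h3 : ∀ m : ℕ, ∑ i ∈ Finset.range (8 * m), F (i / 8) * (if i % 8 < 4 then (1:ℝ) else -1) = 0 := by
      intro m
      induction m with
      | zero => simp
      | succ m ih =>
        rw [show 8 * (m + 1) = 8 * m + 1 + 1 + 1 + 1 + 1 + 1 + 1 + 1 by ring]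
        simp only [Finset.sum_range_succ]
        rw [ih]
        have e0 : (8 * m) / 8 = m := by omega
        have e1 : (8 * m + 1) / 8 = m := by omega
        have e2 : (8 * m + 1 + 1) / 8 = m := by omega
        have e3 : (8 * m + 1 + 1 + 1) / 8 = m := by omega
        have e4 : (8 * m + 1 + 1 + 1 + 1) / 8 = m := by omega
        have e5 : (8 * m + 1 + 1 + 1 + 1 + 1) / 8 = m := by omega
        have e6 : (8 * m + 1 + 1 + 1 + 1 + 1 + 1) / 8 = m := by omega
        have e7 : (8 * m + 1 + 1 + 1 + 1 + 1 + 1 + 1) / 8 = m := by omega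
        rw [e0, e1, e2, e3, e4, e5, e6, e7]
        rw [if_pos (by omega : 8 * m % 8 < 4), if_pos (by omega : (8 * m + 1) % 8 < 4),
          if_pos (by omega : (8 * m + 1 + 1) % 8 < 4), if_pos (by omega : (8 * m + 1 + 1 + 1) % 8 < 4),
          if_neg (by omega : ¬ (8 * m + 1 + 1 + 1 + 1) % 8 < 4),
          if_neg (by omega : ¬ (8 * m + 1 + 1 + 1 + 1 + 1) % 8 < 4),
          if_neg (by omega : ¬ (8 * m + 1 + 1 + 1 + 1 + 1 + 1) % 8 < 4),
          if_neg (by omega : ¬ (8 * m + 1 + 1 + 1 + 1 + 1 + 1 + 1) % 8 < 4)]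
        ring
    rw [pow_succ, mul_comm (8 ^ n) 8]
    exact h3 _
  rw [h2, mul_zero]

/-- more generally for a deeper digit -/
theorem integral_mul_rad' {n m : ℕ} (h : n < m) {f : ℝ → ℝ} (hf : Step n f) :
    ∫ y, f y * rad m y ∂mu = 0 := by
  obtain ⟨k, rfl⟩ : ∃ k, m = k + 1 := ⟨m - 1, by omega⟩
  exact integral_mul_rad (hf.mono (by omega))

end Pool.Agent.KS6_84.OB
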