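import Mathlib

/-!
Definitions for operator blocks in Lorentz spaces on `[0,1]`.
Functions are classes `x : ℝ →ₘ[leb] ℝ` of real measurable functions modulo equality almost
everywhere for Lebesgue measure `leb` on `[0,1]`.
-/

set_option autoImplicit false

open MeasureTheory Set
open scoped ENNReal NNReal

namespace Pool.Agent.KS6_84.OBL

/-- Lebesgue measure on the unit interval `[0,1]`. -/
noncomputable def leb : Measure ℝ := volume.restrict (Icc (0:ℝ) 1)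

/-- the non-increasing rearrangement `x*(t) = inf {l : m{|x| > l} ≤ t}` -/
noncomputable def rearr (x : ℝ →ₘ[leb] ℝ) (t : ℝ) : ℝ≥0∞ :=
  sInf {l : ℝ≥0∞ | leb {s | l < ‖x s‖ₑ} ≤ ENNReal.ofReal t}

/-- the Lorentz quasinorm `‖x‖_{p,q} = (∫₀¹ (t^{1/p} x*(t))^q dt/t)^{1/q}`,
for `q = ∞` the supremum of `t^{1/p} x*(t)` over `0 < t ≤ 1`; values in `[0,∞]` -/
noncomputable def lnorm (p : ℝ) (q : ℝ≥0∞) (x : ℝ →ₘ[leb] ℝ) : ℝ≥0∞ :=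
  if q = ∞ then ⨆ t ∈ Ioc (0:ℝ) 1, ENNReal.ofReal (t ^ (1 / p)) * rearr x t
  else (∫⁻ t in Ioc (0:ℝ) 1, (ENNReal.ofReal (t ^ (1 / p)) * rearr x t) ^ q.toReal *
    ENNReal.ofReal (1 / t)) ^ (1 / q.toReal)

/-- the Lorentz space `L^{p,q}`: the classes `x` with `‖x‖_{p,q} < ∞` -/
def Lor (p : ℝ) (q : ℝ≥0∞) : Set (ℝ →ₘ[leb] ℝ) := {x | lnorm p q x < ∞}

/-- `Q_e x = χ_e x`, multiplication by the indicator function of the measurable set `e` -/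
noncomputable def Q (e : Set ℝ) (he : MeasurableSet e) (x : ℝ →ₘ[leb] ℝ) : ℝ →ₘ[leb] ℝ :=
  AEEqFun.mk (e.indicator x) (x.aestronglyMeasurable.indicator he)

/-- the norm of an operator `S` on `L^{p,q}`: the supremum of `‖S x‖_{p,q}` over
`‖x‖_{p,q} ≤ 1` -/
noncomputable def opn (p : ℝ) (q : ℝ≥0∞) (S : (ℝ →ₘ[leb] ℝ) → (ℝ →ₘ[leb] ℝ)) : ℝ≥0∞ :=
  ⨆ (x : ℝ →ₘ[leb] ℝ) (_ : lnorm p q x ≤ 1), lnorm p q (S x)

/-- `T` is a bounded linear operator from `L^{p,q}` to `L^{p,q}` (its values outside `L^{p,q}`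
are irrelevant) -/
def IsBddLin (p : ℝ) (q : ℝ≥0∞) (T : (ℝ →ₘ[leb] ℝ) → (ℝ →ₘ[leb] ℝ)) : Prop :=
  (∀ x ∈ Lor p q, T x ∈ Lor p q) ∧
  (∀ x ∈ Lor p q, ∀ y ∈ Lor p q, T (x + y) = T x + T y) ∧
  (∀ c : ℝ, ∀ x ∈ Lor p q, T (c • x) = c • T x) ∧
  opn p q T < ∞

/-- `σ(T, L^{p,q}) = inf ‖Q_e T Q_f‖` over measurable `e, f ⊆ [0,1]` with `m(e) m(f) > 0` -/
noncomputable def sigma (p : ℝ) (q : ℝ≥0∞) (T : (ℝ →ₘ[leb] ℝ) → (ℝ →ₘ[leb] ℝ)) : ℝ≥0∞ :=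
  ⨅ (e : Set ℝ) (f : Set ℝ) (he : MeasurableSet e) (hf : MeasurableSet f)
    (_ : e ⊆ Icc 0 1) (_ : f ⊆ Icc 0 1) (_ : 0 < volume e * volume f),
    opn p q (fun x => Q e he (T (Q f hf x)))

/-- `D(L^{p,q})`: the bounded linear operators `T` on `L^{p,q}` with `σ(T, L^{p,q}) > 0` -/
def D (p : ℝ) (q : ℝ≥0∞) : Set ((ℝ →ₘ[leb] ℝ) → (ℝ →ₘ[leb] ℝ)) :=
  {T | IsBddLin p q T ∧ 0 < sigma p q T}

end Pool.Agent.KS6_84.OBL
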