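import Pool.Agent.KS6_84.OB.Basic

/-!
Moments of Rademacher sums with coefficients depending on a coarse cell, and towers.
-/

set_option autoImplicit false

open MeasureTheory Set Filter Topology
open scoped ENNReal NNReal

namespace Pool.Agent.KS6_84.OB

/-- a tower of nested cells with geometric heights -/
noncomputable def tw (ρ : ℝ) (lo hi B j : ℕ) (y : ℝ) : ℝ :=
  ∑ m ∈ Finset.Ico lo hi, ρ ^ m * ind m (j / 8 ^ (B - m)) y

theorem step_tw (ρ : ℝ) (lo hi B j : ℕ) {K : ℕ} (h : hi ≤ K) : Step K (tw ρ lo hi B j) := by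
  refine step_sum _ fun m hm => ?_
  rw [Finset.mem_Ico] at hm
  exact ((step_ind m _).comp (fun x => ρ ^ m * x)).mono (by omega)

theorem tw_nonneg {ρ : ℝ} (hρ : 0 ≤ ρ) (lo hi B j : ℕ) (y : ℝ) : 0 ≤ tw ρ lo hi B j y :=
  Finset.sum_nonneg fun _ _ => mul_nonneg (by positivity) (ind_nonneg _ _ _)

/-- the signed sum of step functions -/
noncomputable def W (B n : ℕ) (G : ℕ → ℝ → ℝ) (y : ℝ) : ℝ :=
  ∑ j ∈ Finset.range n, G j y * rad (B + j + 1) y

theorem step_W {B : ℕ} {G : ℕ → ℝ → ℝ} (hG : ∀ j, Step B (G j)) (n : ℕ) :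
    Step (B + n) (W B n G) := by
  refine step_sum _ fun j hj => ?_
  rw [Finset.mem_range] at hj
  exact ((hG j).mono (by omega)).mul ((step_rad _).mono (by omega))

theorem W_succ (B n : ℕ) (G : ℕ → ℝ → ℝ) (y : ℝ) :
    W B (n + 1) G y = W B n G y + G n y * rad (B + n + 1) y := by
  unfold W
  rw [Finset.sum_range_succ]

/-- orthogonality -/
theorem orth {B : ℕ} {G : ℕ → ℝ → ℝ} (hG : ∀ j, Step B (G j)) (n : ℕ) :
    ∫ y, (W B n G y) ^ 2 ∂mu = ∑ j ∈ Finset.range n, ∫ y, (G j y) ^ 2 ∂mu := by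
  induction n with
  | zero => simp [W]
  | succ n ih =>
    rw [Finset.sum_range_succ, ← ih]
    have h1 : ∀ y, (W B (n + 1) G y) ^ 2 = (W B n G y) ^ 2 +
        2 * ((W B n G y * G n y) * rad (B + n + 1) y) + (G n y) ^ 2 := by
      intro y
      rw [W_succ]
      have := rad_sq (B + n + 1) y
      linear_combination (G n y) ^ 2 * this
    have s1 : Step (B + n) (fun y => W B n G y * G n y) :=
      (step_W hG n).mul ((hG n).mono (by omega))
    have s2 : Step (B + n + 1) (fun y => (W B n G y * G n y) * rad (B + n + 1) y) :=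
      (s1.mono (by omega)).mul (step_rad _)
    have i0 : Integrable (fun y => (W B n G y) ^ 2) mu := ((step_W hG n).comp (fun x => x ^ 2)).integrable
    have i1 : Integrable (fun y => 2 * ((W B n G y * G n y) * rad (B + n + 1) y)) mu :=
      s2.integrable.const_mul 2
    have i2 : Integrable (fun y => (G n y) ^ 2) mu := ((hG n).comp (fun x => x ^ 2)).integrable
    have h2 : ∫ y, (W B n G y * G n y) * rad (B + n + 1) y ∂mu = 0 := integral_mul_rad s1
    calc ∫ y, (W B (n + 1) G y) ^ 2 ∂mu = ∫ y, ((W B n G y) ^ 2 +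
        2 * ((W B n G y * G n y) * rad (B + n + 1) y) + (G n y) ^ 2) ∂mu := by simp_rw [h1]
      _ = (∫ y, (W B n G y) ^ 2 ∂mu) + ∫ y, (G n y) ^ 2 ∂mu := by
        have e1 : ∫ y, ((W B n G y) ^ 2 + 2 * ((W B n G y * G n y) * rad (B + n + 1) y) +
            (G n y) ^ 2) ∂mu = (∫ y, ((W B n G y) ^ 2 +
            2 * ((W B n G y * G n y) * rad (B + n + 1) y)) ∂mu) + ∫ y, (G n y) ^ 2 ∂mu :=
          integral_add (i0.add i1) i2
        have e2 : ∫ y, ((W B n G y) ^ 2 + 2 * ((W B n G y * G n y) * rad (B + n + 1) y)) ∂mu =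
            (∫ y, (W B n G y) ^ 2 ∂mu) + ∫ y, 2 * ((W B n G y * G n y) * rad (B + n + 1) y) ∂mu :=
          integral_add i0 i1
        rw [e1, e2, integral_const_mul, h2]
        ring

/-- exponential moments -/
theorem exp_moment {B : ℕ} {G : ℕ → ℝ → ℝ} (hG : ∀ j, Step B (G j)) (n : ℕ) :
    ∀ χ : ℝ → ℝ, Step B χ → (∀ y, 0 ≤ χ y) →
    ∫ y, χ y * Real.exp (W B n G y) ∂mu ≤
      ∫ y, χ y * Real.exp ((∑ j ∈ Finset.range n, (G j y) ^ 2) / 2) ∂mu := by
  induction n with
  | zero => intro χ _ _; simp [W]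
  | succ n ih =>
    intro χ hχ hχ0
    have hexp : ∀ y, Real.exp (G n y * rad (B + n + 1) y) =
        Real.cosh (G n y) + Real.sinh (G n y) * rad (B + n + 1) y := by
      intro y
      unfold rad
      split_ifs
      · rw [mul_one, mul_one, Real.cosh_add_sinh]
      · rw [mul_neg, mul_one, mul_neg, mul_one, ← sub_eq_add_neg, Real.cosh_sub_sinh]
    have h1 : ∀ y, χ y * Real.exp (W B (n + 1) G y) =
        χ y * Real.exp (W B n G y) * Real.cosh (G n y) +
        (χ y * Real.exp (W B n G y) * Real.sinh (G n y)) * rad (B + n + 1) y := by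
      intro y
      rw [W_succ, Real.exp_add, hexp]
      ring
    have sE : Step (B + n) (fun y => χ y * Real.exp (W B n G y)) :=
      (hχ.mono (by omega)).mul ((step_W hG n).comp Real.exp)
    have s1 : Step (B + n) (fun y => χ y * Real.exp (W B n G y) * Real.cosh (G n y)) :=
      sE.mul (((hG n).comp Real.cosh).mono (by omega))
    have s2 : Step (B + n) (fun y => χ y * Real.exp (W B n G y) * Real.sinh (G n y)) :=
      sE.mul (((hG n).comp Real.sinh).mono (by omega))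
    have s3 : Step (B + n + 1) (fun y => (χ y * Real.exp (W B n G y) * Real.sinh (G n y)) *
        rad (B + n + 1) y) := (s2.mono (by omega)).mul (step_rad _)
    have e1 : ∫ y, χ y * Real.exp (W B (n + 1) G y) ∂mu =
        ∫ y, χ y * Real.exp (W B n G y) * Real.cosh (G n y) ∂mu := by
      simp_rw [h1]
      rw [integral_add s1.integrable s3.integrable, integral_mul_rad s2, add_zero]
    rw [e1]
    have sχ : Step B (fun y => χ y * Real.exp ((G n y) ^ 2 / 2)) :=
      hχ.mul ((hG n).comp (fun x => Real.exp (x ^ 2 / 2)))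
    calc ∫ y, χ y * Real.exp (W B n G y) * Real.cosh (G n y) ∂mu
        ≤ ∫ y, (χ y * Real.exp ((G n y) ^ 2 / 2)) * Real.exp (W B n G y) ∂mu := by
          refine integral_mono s1.integrable
            (((sχ.mono (by omega)).mul ((step_W hG n).comp Real.exp)).integrable) fun y => ?_
          have := Real.cosh_le_exp_half_sq (G n y)
          have h2 := hχ0 y
          have h3 := (Real.exp_pos (W B n G y)).le
          calc χ y * Real.exp (W B n G y) * Real.cosh (G n y)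
              ≤ χ y * Real.exp (W B n G y) * Real.exp ((G n y) ^ 2 / 2) := by gcongr
            _ = _ := by ring
      _ ≤ ∫ y, (χ y * Real.exp ((G n y) ^ 2 / 2)) *
            Real.exp ((∑ j ∈ Finset.range n, (G j y) ^ 2) / 2) ∂mu :=
          ih _ sχ (fun y => mul_nonneg (hχ0 y) (Real.exp_pos _).le)
      _ = _ := by
          refine integral_congr_ae (Eventually.of_forall fun y => ?_)
          simp only
          rw [Finset.sum_range_succ, mul_assoc, ← Real.exp_add]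
          congr 2
          ring

/-- Khintchine inequality for even moments -/
theorem khin {B : ℕ} {G : ℕ → ℝ → ℝ} (hG : ∀ j, Step B (G j)) (n l : ℕ) :
    ∫ y, (W B n G y) ^ (2 * l) ∂mu ≤ (2 * (2 * l).factorial * Real.exp (1 / 2)) *
      ∫ y, (∑ j ∈ Finset.range n, (G j y) ^ 2) ^ l ∂mu := by
  set s : ℝ → ℝ := fun y => ∑ j ∈ Finset.range n, (G j y) ^ 2 with hs
  have hs0 : ∀ y, 0 ≤ s y := fun y => Finset.sum_nonneg fun _ _ => sq_nonneg _
  have hstep : Step B s := step_sum _ fun j _ => (hG j).comp (fun x => x ^ 2)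
  -- normalised coefficients
  set G' : ℕ → ℝ → ℝ := fun j y => G j y / Real.sqrt (s y) with hG'
  have hG's : ∀ j, Step B (G' j) := fun j => (hG j).comp₂ hstep (fun a b => a / Real.sqrt b)
  have hsq : ∀ y, ∑ j ∈ Finset.range n, (G' j y) ^ 2 ≤ 1 := by
    intro y
    rw [hG']
    simp only [div_pow, Real.sq_sqrt (hs0 y)]
    rw [← Finset.sum_div]
    exact div_self_le_one _
  have hscale : ∀ y, W B n G y = Real.sqrt (s y) * W B n G' y := by
    intro y
    unfold W
    rw [Finset.mul_sum]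
    refine Finset.sum_congr rfl fun j hj => ?_
    rw [hG']
    simp only
    by_cases h : s y = 0
    · have : G j y = 0 := by
        have h1 : (G j y) ^ 2 ≤ s y :=
          Finset.single_le_sum (f := fun j => (G j y) ^ 2) (fun _ _ => sq_nonneg _) hj
        rw [h] at h1
        nlinarith [sq_nonneg (G j y), pow_eq_zero_iff (two_ne_zero) |>.1 (le_antisymm h1 (sq_nonneg _))]
      rw [this]; simp
    · have : Real.sqrt (s y) ≠ 0 := by
        rw [Real.sqrt_ne_zero (hs0 y)]; exact h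
      field_simp
  have hpow : ∀ y, (W B n G y) ^ (2 * l) = (s y) ^ l * (W B n G' y) ^ (2 * l) := by
    intro y
    rw [hscale, mul_pow, pow_mul, Real.sq_sqrt (hs0 y)]
  have hx : ∀ x : ℝ, x ^ (2 * l) ≤ (2 * l).factorial * (Real.exp x + Real.exp (-x)) := by
    intro x
    have h1 := Real.pow_div_factorial_le_exp |x| (abs_nonneg x) (2 * l)
    rw [div_le_iff₀ (by positivity)] at h1
    have h2 : |x| ^ (2 * l) = x ^ (2 * l) := by
      rw [pow_mul, sq_abs, ← pow_mul]
    rw [h2] at h1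
    have h3 : Real.exp |x| ≤ Real.exp x + Real.exp (-x) := by
      rcases abs_cases x with ⟨h, _⟩ | ⟨h, _⟩
      · rw [h]; linarith [Real.exp_pos (-x)]
      · rw [h]; linarith [Real.exp_pos x]
    calc x ^ (2 * l) ≤ Real.exp |x| * (2 * l).factorial := h1
      _ ≤ (Real.exp x + Real.exp (-x)) * (2 * l).factorial := by gcongr
      _ = _ := by ring
  have hneg : ∀ y, W B n (fun j y => -G' j y) y = -W B n G' y := by
    intro y
    unfold W
    rw [← Finset.sum_neg_distrib]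
    exact Finset.sum_congr rfl fun j _ => by ring
  have sχ : Step B (fun y => (s y) ^ l) := hstep.comp (fun x => x ^ l)
  have hχ0 : ∀ y, 0 ≤ (s y) ^ l := fun y => pow_nonneg (hs0 y) l
  have b1 := exp_moment hG's n _ sχ hχ0
  have b2 := exp_moment (G := fun j y => -G' j y) (fun j => (hG's j).comp (fun x => -x)) n _ sχ hχ0
  have sW := step_W hG's n
  have i1 : Integrable (fun y => (s y) ^ l * Real.exp (W B n G' y)) mu :=
    ((sχ.mono (by omega)).mul (sW.comp Real.exp)).integrable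
  have i2 : Integrable (fun y => (s y) ^ l * Real.exp (-W B n G' y)) mu :=
    ((sχ.mono (by omega)).mul (sW.comp (fun x => Real.exp (-x)))).integrable
  have b3 : ∫ y, (s y) ^ l * Real.exp ((∑ j ∈ Finset.range n, (G' j y) ^ 2) / 2) ∂mu ≤
      Real.exp (1 / 2) * ∫ y, (s y) ^ l ∂mu := by
    rw [← integral_const_mul]
    refine integral_mono ?_ (sχ.integrable.const_mul _) fun y => ?_
    · exact (sχ.mul ((step_sum _ fun j _ => (hG's j).comp (fun x => x ^ 2)).comp
        (fun x => Real.exp (x / 2)))).integrable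
    · have h1 : Real.exp ((∑ j ∈ Finset.range n, (G' j y) ^ 2) / 2) ≤ Real.exp (1 / 2) := by
        apply Real.exp_le_exp.2
        linarith [hsq y]
      calc (s y) ^ l * Real.exp ((∑ j ∈ Finset.range n, (G' j y) ^ 2) / 2)
          ≤ (s y) ^ l * Real.exp (1 / 2) := mul_le_mul_of_nonneg_left h1 (hχ0 y)
        _ = _ := mul_comm _ _
  simp_rw [hneg, neg_sq] at b2
  calc ∫ y, (W B n G y) ^ (2 * l) ∂mu
      = ∫ y, (s y) ^ l * (W B n G' y) ^ (2 * l) ∂mu := by simp_rw [hpow]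
    _ ≤ ∫ y, (2 * l).factorial * ((s y) ^ l * Real.exp (W B n G' y) +
          (s y) ^ l * Real.exp (-W B n G' y)) ∂mu := by
        refine integral_mono ?_ ((i1.add i2).const_mul _) fun y => ?_
        · exact ((sχ.mono (by omega)).mul (sW.comp (fun x => x ^ (2 * l)))).integrable
        · have := mul_le_mul_of_nonneg_left (hx (W B n G' y)) (hχ0 y)
          calc _ ≤ _ := this
            _ = _ := by ring
    _ = (2 * l).factorial * ((∫ y, (s y) ^ l * Real.exp (W B n G' y) ∂mu) +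
          ∫ y, (s y) ^ l * Real.exp (-W B n G' y) ∂mu) := by
        rw [integral_const_mul, integral_add i1 i2]
    _ ≤ (2 * l).factorial * (Real.exp (1 / 2) * (∫ y, (s y) ^ l ∂mu) +
          Real.exp (1 / 2) * ∫ y, (s y) ^ l ∂mu) := by
        gcongr
        · exact b1.trans b3
        · exact b2.trans b3
    _ = _ := by ring

theorem add_pow_le_mvt {x y : ℝ} (hx : 0 ≤ x) (hy : 0 ≤ y) (l : ℕ) :
    (x + y) ^ (l + 1) ≤ x ^ (l + 1) + (l + 1) * y * (x + y) ^ l := by
  induction l with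
  | zero => simp
  | succ l ih =>
    have h1 : x * (x + y) ^ (l + 1) ≤ x * (x ^ (l + 1) + (l + 1) * y * (x + y) ^ l) := by gcongr
    have h2 : x * ((l + 1) * y * (x + y) ^ l) ≤ (x + y) * ((l + 1) * y * (x + y) ^ l) := by
      gcongr; linarith
    push_cast
    calc (x + y) ^ (l + 1 + 1) = x * (x + y) ^ (l + 1) + y * (x + y) ^ (l + 1) := by ring
      _ ≤ x * (x ^ (l + 1) + (l + 1) * y * (x + y) ^ l) + y * (x + y) ^ (l + 1) := by linarith
      _ ≤ x ^ (l + 1 + 1) + (x + y) * ((l + 1) * y * (x + y) ^ l) + y * (x + y) ^ (l + 1) := by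
          have : x * (x ^ (l + 1) + (l + 1) * y * (x + y) ^ l) =
            x ^ (l + 1 + 1) + x * ((l + 1) * y * (x + y) ^ l) := by ring
          linarith
      _ = _ := by ring

theorem geo_le {r : ℝ} (hr : 1 < r) (lo hi : ℕ) :
    ∑ m ∈ Finset.Ico lo hi, r ^ m ≤ r ^ hi / (r - 1) := by
  have h1 : ∑ m ∈ Finset.Ico lo hi, r ^ m ≤ ∑ m ∈ Finset.range hi, r ^ m := by
    refine Finset.sum_le_sum_of_subset_of_nonneg ?_ fun _ _ _ => by positivity
    intro x hx
    rw [Finset.mem_Ico] at hx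
    exact Finset.mem_range.2 hx.2
  refine h1.trans ?_
  rw [geom_sum_eq hr.ne']
  have : 0 < r - 1 := by linarith
  gcongr
  linarith

theorem geo_le' {r : ℝ} (hr0 : 0 < r) (hr : r < 1) (lo hi : ℕ) :
    ∑ m ∈ Finset.Ico lo hi, r ^ m ≤ r ^ lo / (1 - r) := by
  have h1 : 0 < 1 - r := by linarith
  rcases le_or_gt hi lo with h | h
  · rw [Finset.Ico_eq_empty (by omega), Finset.sum_empty]
    positivity
  · rw [Finset.sum_Ico_eq_sum_range]
    have h2 : ∑ k ∈ Finset.range (hi - lo), r ^ (lo + k) =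
        r ^ lo * ∑ k ∈ Finset.range (hi - lo), r ^ k := by
      rw [Finset.mul_sum]
      exact Finset.sum_congr rfl fun k _ => pow_add _ _ _
    have h4 : (r ^ (hi - lo) - 1) / (r - 1) ≤ (1 - r)⁻¹ := by
      rw [← neg_div_neg_eq, neg_sub, neg_sub, div_eq_mul_inv]
      have : 0 < (1 - r)⁻¹ := by positivity
      have h3 : 0 < r ^ (hi - lo) := by positivity
      nlinarith
    rw [h2, geom_sum_eq hr.ne, div_eq_mul_inv (r ^ lo)]
    gcongr

/-- powers of geometric sums with coefficients in `[0,1]` -/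
theorem geo_pow {r : ℝ} (hr : 1 < r) (l : ℕ) (lo hi : ℕ) (a : ℕ → ℝ)
    (ha : ∀ m, 0 ≤ a m) (ha1 : ∀ m, a m ≤ 1) :
    (∑ m ∈ Finset.Ico lo hi, r ^ m * a m) ^ (l + 1) ≤
      ((l + 1) * (r / (r - 1)) ^ l) * ∑ m ∈ Finset.Ico lo hi, (r ^ (l + 1)) ^ m * a m := by
  have hr0 : 0 < r - 1 := by linarith
  induction hi with
  | zero => simp
  | succ h ih =>
    rcases Nat.lt_or_ge h lo with hlt | hge
    · rw [Finset.Ico_eq_empty (by omega)]
      simp
    · rw [Finset.sum_Ico_succ_top hge, Finset.sum_Ico_succ_top hge]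
      set x := ∑ m ∈ Finset.Ico lo h, r ^ m * a m with hx
      have hx0 : 0 ≤ x := Finset.sum_nonneg fun m _ => mul_nonneg (by positivity) (ha m)
      have hy0 : 0 ≤ r ^ h * a h := mul_nonneg (by positivity) (ha h)
      have hx1 : x ≤ r ^ h / (r - 1) := by
        refine le_trans (Finset.sum_le_sum fun m _ => ?_) (geo_le hr lo h)
        exact mul_le_of_le_one_right (by positivity) (ha1 m)
      have hy1 : r ^ h * a h ≤ r ^ h := mul_le_of_le_one_right (by positivity) (ha1 h)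
      have hsum : x + r ^ h * a h ≤ r / (r - 1) * r ^ h := by
        calc x + r ^ h * a h ≤ r ^ h / (r - 1) + r ^ h := add_le_add hx1 hy1
          _ = _ := by field_simp; ring
      have h1 := add_pow_le_mvt hx0 hy0 l
      have h2 : (x + r ^ h * a h) ^ l ≤ (r / (r - 1) * r ^ h) ^ l := by gcongr
      calc (x + r ^ h * a h) ^ (l + 1)
          ≤ x ^ (l + 1) + (l + 1) * (r ^ h * a h) * (x + r ^ h * a h) ^ l := h1
        _ ≤ ((l + 1) * (r / (r - 1)) ^ l) * (∑ m ∈ Finset.Ico lo h, (r ^ (l + 1)) ^ m * a m) +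
            (l + 1) * (r ^ h * a h) * (r / (r - 1) * r ^ h) ^ l := by gcongr
        _ = _ := by
            rw [mul_add, mul_pow (r / (r - 1)), ← pow_mul r h l, ← pow_mul r (l + 1) h]
            ring

/-- `∫` of squares of towers -/
theorem int_tw_sq {ρ : ℝ} (hρ : 1 < ρ) {lo hi B j : ℕ} (hhi : hi ≤ B) (hj : j < 8 ^ B) :
    ∫ y, (tw ρ lo hi B j y) ^ 2 ∂mu ≤
      (2 * (ρ / (ρ - 1))) * ∑ m ∈ Finset.Ico lo hi, (ρ ^ 2 / 8) ^ m := by
  have h1 : ∀ y, (tw ρ lo hi B j y) ^ 2 ≤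
      (2 * (ρ / (ρ - 1))) * ∑ m ∈ Finset.Ico lo hi, (ρ ^ 2) ^ m * ind m (j / 8 ^ (B - m)) y := by
    intro y
    have := geo_pow hρ 1 lo hi (fun m => ind m (j / 8 ^ (B - m)) y)
      (fun m => ind_nonneg _ _ _) (fun m => ind_le_one _ _ _)
    norm_num at this
    unfold tw
    refine this.trans (le_of_eq ?_)
    ring
  have hst : ∀ m ∈ Finset.Ico lo hi, Step B (fun y => (ρ ^ 2) ^ m * ind m (j / 8 ^ (B - m)) y) := by
    intro m hm
    rw [Finset.mem_Ico] at hm
    exact ((step_ind m _).comp (fun x => (ρ ^ 2) ^ m * x)).mono (by omega)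
  calc ∫ y, (tw ρ lo hi B j y) ^ 2 ∂mu
      ≤ ∫ y, (2 * (ρ / (ρ - 1))) * ∑ m ∈ Finset.Ico lo hi, (ρ ^ 2) ^ m * ind m (j / 8 ^ (B - m)) y ∂mu :=
        integral_mono ((step_tw ρ lo hi B j hhi).comp (fun x => x ^ 2)).integrable
          ((step_sum _ hst).integrable.const_mul _) h1
    _ = _ := by
        rw [integral_const_mul, integral_finsetSum _ (fun m hm => (hst m hm).integrable)]
        congr 1
        refine Finset.sum_congr rfl fun m hm => ?_
        rw [Finset.mem_Ico] at hm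
        rw [integral_const_mul, integral_ind, div_pow, div_eq_mul_inv]
        rw [Nat.div_lt_iff_lt_mul (by positivity), ← pow_add]
        rwa [show m + (B - m) = B by omega]

/-- second moments of signed towers -/
theorem tower_L2 {ρ : ℝ} (hρ : 1 < ρ) {B B' n : ℕ} (hB : B' ≤ B) {lo hi : ℕ → ℕ}
    (hhi : ∀ j, hi j ≤ B') (pos : ℕ → ℕ) (hpos : ∀ j, j < n → pos j < 8 ^ B') (c : ℕ → ℝ) :
    ∫ y, (W B n (fun j y => c j * tw ρ (lo j) (hi j) B' (pos j) y) y) ^ 2 ∂mu ≤
      (2 * (ρ / (ρ - 1))) * ∑ j ∈ Finset.range n, (c j) ^ 2 *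
        ∑ m ∈ Finset.Ico (lo j) (hi j), (ρ ^ 2 / 8) ^ m := by
  rw [orth (fun j => (step_tw ρ (lo j) (hi j) B' (pos j) ((hhi j).trans hB)).comp
    (fun x => c j * x)), Finset.mul_sum]
  refine Finset.sum_le_sum fun j hj => ?_
  simp only [mul_pow]
  rw [integral_const_mul]
  calc (c j) ^ 2 * ∫ y, (tw ρ (lo j) (hi j) B' (pos j) y) ^ 2 ∂mu ≤
        (c j) ^ 2 * ((2 * (ρ / (ρ - 1))) * ∑ m ∈ Finset.Ico (lo j) (hi j), (ρ ^ 2 / 8) ^ m) := by
        gcongr
        exact int_tw_sq hρ (hhi j) (hpos j (Finset.mem_range.1 hj))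
    _ = _ := by ring

/-- the constant in the bound for high moments -/
noncomputable def Kc (ρ : ℝ) (l : ℕ) : ℝ :=
  (2 * (2 * (l + 1)).factorial * Real.exp (1 / 2)) * ((2 * (ρ / (ρ - 1))) ^ (l + 1) *
    ((l + 1) * (ρ ^ 2 / (ρ ^ 2 - 1)) ^ l))

/-- high moments of signed towers -/
theorem tower_L2l {ρ : ℝ} (hρ : 1 < ρ) {B n lo hi : ℕ} (hhi : hi ≤ B) (hn : n ≤ 8 ^ B) (d : ℕ → ℝ)
    {D : ℝ} (hD : 0 < D) (hd : ∑ j ∈ Finset.range n, (d j) ^ 2 ≤ D ^ 2) (l : ℕ) :
    ∫ y, (W B n (fun j y => d j * tw ρ lo hi B j y) y) ^ (2 * (l + 1)) ∂mu ≤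
      Kc ρ l * D ^ (2 * (l + 1)) * ∑ m ∈ Finset.Ico lo hi, (ρ ^ (2 * (l + 1)) / 8) ^ m := by
  have hρ0 : 0 < ρ - 1 := by linarith
  have hρ2 : 1 < ρ ^ 2 := by nlinarith
  set a : ℝ → ℕ → ℝ := fun y m => (∑ j ∈ Finset.range n, (d j) ^ 2 * ind m (j / 8 ^ (B - m)) y) / D ^ 2
    with ha
  have ha0 : ∀ y m, 0 ≤ a y m := fun y m =>
    div_nonneg (Finset.sum_nonneg fun _ _ => mul_nonneg (sq_nonneg _) (ind_nonneg _ _ _)) (sq_nonneg _)
  have ha1 : ∀ y m, a y m ≤ 1 := by
    intro y m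
    rw [ha]
    simp only
    rw [div_le_one (by positivity)]
    refine le_trans (Finset.sum_le_sum fun j _ => ?_) hd
    exact mul_le_of_le_one_right (sq_nonneg _) (ind_le_one _ _ _)
  -- pointwise bound of the square function
  have h1 : ∀ y, ∑ j ∈ Finset.range n, (d j * tw ρ lo hi B j y) ^ 2 ≤
      (2 * (ρ / (ρ - 1))) * D ^ 2 * ∑ m ∈ Finset.Ico lo hi, (ρ ^ 2) ^ m * a y m := by
    intro y
    calc ∑ j ∈ Finset.range n, (d j * tw ρ lo hi B j y) ^ 2
        ≤ ∑ j ∈ Finset.range n, (d j) ^ 2 * ((2 * (ρ / (ρ - 1))) *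
          ∑ m ∈ Finset.Ico lo hi, (ρ ^ 2) ^ m * ind m (j / 8 ^ (B - m)) y) := by
          refine Finset.sum_le_sum fun j _ => ?_
          rw [mul_pow]
          have h2 := geo_pow hρ 1 lo hi (fun m => ind m (j / 8 ^ (B - m)) y)
            (fun m => ind_nonneg _ _ _) (fun m => ind_le_one _ _ _)
          norm_num at h2
          have h3 : (tw ρ lo hi B j y) ^ 2 ≤ (2 * (ρ / (ρ - 1))) *
            ∑ m ∈ Finset.Ico lo hi, (ρ ^ 2) ^ m * ind m (j / 8 ^ (B - m)) y := by
            unfold tw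
            refine h2.trans (le_of_eq ?_)
            ring
          gcongr
      _ = _ := by
          rw [ha]
          simp only [Finset.mul_sum, Finset.sum_div]
          rw [Finset.sum_comm]
          refine Finset.sum_congr rfl fun m _ => Finset.sum_congr rfl fun j _ => ?_
          field_simp
  have h2 : ∀ y, (∑ j ∈ Finset.range n, (d j * tw ρ lo hi B j y) ^ 2) ^ (l + 1) ≤
      ((2 * (ρ / (ρ - 1))) * D ^ 2) ^ (l + 1) * (((l + 1) * (ρ ^ 2 / (ρ ^ 2 - 1)) ^ l) *
        ∑ m ∈ Finset.Ico lo hi, ((ρ ^ 2) ^ (l + 1)) ^ m * a y m) := by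
    intro y
    have h3 := geo_pow hρ2 l lo hi (a y) (ha0 y) (ha1 y)
    calc _ ≤ ((2 * (ρ / (ρ - 1))) * D ^ 2 * ∑ m ∈ Finset.Ico lo hi, (ρ ^ 2) ^ m * a y m) ^ (l + 1) := by
          have : 0 ≤ ∑ j ∈ Finset.range n, (d j * tw ρ lo hi B j y) ^ 2 :=
            Finset.sum_nonneg fun _ _ => sq_nonneg _
          exact pow_le_pow_left₀ this (h1 y) _
      _ = ((2 * (ρ / (ρ - 1))) * D ^ 2) ^ (l + 1) *
          (∑ m ∈ Finset.Ico lo hi, (ρ ^ 2) ^ m * a y m) ^ (l + 1) := mul_pow _ _ _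
      _ ≤ _ := by gcongr
  have hsta : ∀ m ∈ Finset.Ico lo hi, Step B (fun y => ((ρ ^ 2) ^ (l + 1)) ^ m * a y m) := by
    intro m hm
    rw [Finset.mem_Ico] at hm
    have s1 : Step B (fun y => ∑ j ∈ Finset.range n, (d j) ^ 2 * ind m (j / 8 ^ (B - m)) y) :=
      step_sum _ fun j _ => ((step_ind m _).comp (fun x => (d j) ^ 2 * x)).mono (by omega)
    exact s1.comp (fun x => ((ρ ^ 2) ^ (l + 1)) ^ m * (x / D ^ 2))
  have hstG : ∀ j, Step B (fun y => d j * tw ρ lo hi B j y) := fun j =>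
    (step_tw ρ lo hi B j hhi).comp (fun x => d j * x)
  have h4 : ∀ m ∈ Finset.Ico lo hi, ∫ y, ((ρ ^ 2) ^ (l + 1)) ^ m * a y m ∂mu ≤
      (ρ ^ (2 * (l + 1)) / 8) ^ m := by
    intro m hm
    rw [Finset.mem_Ico] at hm
    have s1 : ∀ j ∈ Finset.range n, Step B (fun y => (d j) ^ 2 * ind m (j / 8 ^ (B - m)) y) :=
      fun j _ => ((step_ind m _).comp (fun x => (d j) ^ 2 * x)).mono (by omega)
    have e1 : ∫ y, ∑ j ∈ Finset.range n, (d j) ^ 2 * ind m (j / 8 ^ (B - m)) y ∂mu =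
        (∑ j ∈ Finset.range n, (d j) ^ 2) * ((8:ℝ) ^ m)⁻¹ := by
      rw [integral_finsetSum _ (fun j hj => (s1 j hj).integrable), Finset.sum_mul]
      refine Finset.sum_congr rfl fun j hj => ?_
      rw [Finset.mem_range] at hj
      rw [integral_const_mul, integral_ind]
      rw [Nat.div_lt_iff_lt_mul (by positivity), ← pow_add]
      rw [show m + (B - m) = B by omega]
      omega
    rw [integral_const_mul]
    rw [ha]
    simp only
    rw [integral_div, e1, div_pow, div_eq_mul_inv (((ρ ^ (2 * (l + 1))) ^ m)), pow_mul ρ 2 (l + 1)]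
    gcongr
    rw [mul_div_right_comm]
    have : (∑ j ∈ Finset.range n, (d j) ^ 2) / D ^ 2 ≤ 1 := by
      rw [div_le_one (by positivity)]; exact hd
    have h8 : (0:ℝ) ≤ ((8:ℝ) ^ m)⁻¹ := by positivity
    nlinarith
  calc ∫ y, (W B n (fun j y => d j * tw ρ lo hi B j y) y) ^ (2 * (l + 1)) ∂mu
      ≤ (2 * (2 * (l + 1)).factorial * Real.exp (1 / 2)) *
        ∫ y, (∑ j ∈ Finset.range n, (d j * tw ρ lo hi B j y) ^ 2) ^ (l + 1) ∂mu := khin hstG n (l + 1)
    _ ≤ (2 * (2 * (l + 1)).factorial * Real.exp (1 / 2)) *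
        (((2 * (ρ / (ρ - 1))) * D ^ 2) ^ (l + 1) * (((l + 1) * (ρ ^ 2 / (ρ ^ 2 - 1)) ^ l) *
        ∑ m ∈ Finset.Ico lo hi, (ρ ^ (2 * (l + 1)) / 8) ^ m)) := by
        gcongr
        calc ∫ y, (∑ j ∈ Finset.range n, (d j * tw ρ lo hi B j y) ^ 2) ^ (l + 1) ∂mu
            ≤ ∫ y, ((2 * (ρ / (ρ - 1))) * D ^ 2) ^ (l + 1) * (((l + 1) * (ρ ^ 2 / (ρ ^ 2 - 1)) ^ l) *
              ∑ m ∈ Finset.Ico lo hi, ((ρ ^ 2) ^ (l + 1)) ^ m * a y m) ∂mu := by
              refine integral_mono ?_ ?_ h2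
              · exact ((step_sum _ fun j _ => (hstG j).comp (fun x => x ^ 2)).comp
                  (fun x => x ^ (l + 1))).integrable
              · exact (((step_sum _ hsta).integrable).const_mul _).const_mul _
          _ = ((2 * (ρ / (ρ - 1))) * D ^ 2) ^ (l + 1) * (((l + 1) * (ρ ^ 2 / (ρ ^ 2 - 1)) ^ l) *
              ∑ m ∈ Finset.Ico lo hi, ∫ y, ((ρ ^ 2) ^ (l + 1)) ^ m * a y m ∂mu) := by
              rw [integral_const_mul, integral_const_mul,
                integral_finsetSum _ (fun m hm => (hsta m hm).integrable)]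
          _ ≤ _ := by
              have hpos : 0 ≤ (ρ ^ 2 / (ρ ^ 2 - 1)) := div_nonneg (by positivity) (by linarith)
              gcongr with m hm
              exact h4 m hm
    _ = _ := by
        unfold Kc
        rw [mul_pow (2 * (ρ / (ρ - 1))) (D ^ 2), ← pow_mul D]
        ring

/-- Chebyshev inequality -/
theorem cheb {B : ℕ} {f : ℝ → ℝ} (hf : Step B f) {l : ℝ} (hl : 0 < l) (n : ℕ) :
    mu.real {y | l < |f y|} ≤ (∫ y, (f y) ^ (2 * n) ∂mu) / l ^ (2 * n) := by
  rw [le_div_iff₀ (by positivity), mul_comm]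
  have h1 := mul_meas_ge_le_integral_of_nonneg (μ := mu) (f := fun y => (f y) ^ (2 * n))
    (Eventually.of_forall fun y => by
      show (0:ℝ) ≤ (f y) ^ (2 * n)
      rw [pow_mul]; positivity) (hf.comp (fun x => x ^ (2 * n))).integrable (l ^ (2 * n))
  refine le_trans ?_ h1
  gcongr
  · exact measure_ne_top _ _
  · intro hy
    have hy' : l < |f _| := hy
    rw [← (even_two_mul n).pow_abs (f _)]
    exact pow_le_pow_left₀ hl.le hy'.le _

end Pool.Agent.KS6_84.OB
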