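import Pool.Agent.KS6_84.OB.Gen
import Pool.Agent.KS6_84.OB.Orth

/-!
The full operator, and lower bounds for its blocks.
-/

set_option autoImplicit false

open MeasureTheory Set Filter Topology
open scoped ENNReal NNReal

namespace Pool.Agent.KS6_84.OB

theorem summable_of_enorm (f : ℕ → ℝ) (h : ∑' n, ‖f n‖ₑ < ⊤) : Summable f := by
  have h1 : Summable (fun n => ‖f n‖₊) := by
    refine ENNReal.tsum_coe_ne_top_iff_summable.1 ?_
    exact h.ne
  exact Summable.of_nnnorm h1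

/-- data of the operator: levels and profiles -/
structure Data where
  B : ℕ → ℕ
  φ : ℕ → ℕ → ℝ → ℝ
  ψ : ℕ → ℕ → ℝ → ℝ
  hB : ∀ n, B n + 8 ^ (B n) ≤ B (n + 1)
  hφ : ∀ n j, Step (B n) (φ n j)
  hψ : ∀ n j, Step (B n) (ψ n j)
  hb : ∀ n j, ∃ b, ∀ y, |φ n j y| ≤ b

namespace Data

variable (S : Data)

noncomputable def Φ (n j : ℕ) (y : ℝ) : ℝ := S.φ n j y * rad (S.B n + j + 1) y

noncomputable def Ψ (n j : ℕ) (y : ℝ) : ℝ := S.ψ n j y * rad (S.B n + j + 1) y

noncomputable def T (n : ℕ) (f : ℝ → ℝ) (y : ℝ) : ℝ := Tg (8 ^ (S.B n)) (S.Φ n) (S.Ψ n) f y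

noncomputable def TT (f : ℝ → ℝ) (y : ℝ) : ℝ := ∑' n, S.T n f y

theorem Φ_meas (n j : ℕ) : Measurable (S.Φ n j) :=
  (S.hφ n j).measurable.mul (step_rad _).measurable

theorem Ψ_meas (n j : ℕ) : Measurable (S.Ψ n j) :=
  (S.hψ n j).measurable.mul (step_rad _).measurable

theorem Φ_bdd (n j : ℕ) : ∃ b, ∀ y, |S.Φ n j y| ≤ b := by
  obtain ⟨b, hb⟩ := S.hb n j
  refine ⟨b, fun y => ?_⟩
  unfold Φ
  rw [abs_mul, abs_rad, mul_one]
  exact hb y

theorem T_meas (n : ℕ) (f : ℝ → ℝ) : Measurable (S.T n f) := by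
  unfold T Tg
  exact Finset.measurable_sum _ fun j _ => (S.Ψ_meas n j).const_mul _

theorem TT_meas (f : ℝ → ℝ) : Measurable (S.TT f) :=
  Measurable.tsum fun n => S.T_meas n f

theorem int_Φ (n j : ℕ) {f : ℝ → ℝ} (hf : Integrable f mu) :
    Integrable (fun y => f y * S.Φ n j y) mu := by
  obtain ⟨b, hb⟩ := S.Φ_bdd n j
  have := hf.bdd_mul (S.Φ_meas n j).aestronglyMeasurable (c := b)
    (Eventually.of_forall fun y => by rw [Real.norm_eq_abs]; exact hb y)
  refine this.congr (Eventually.of_forall fun y => ?_)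
  show S.Φ n j y * f y = f y * S.Φ n j y
  ring

theorem cf_add (n j : ℕ) {f g : ℝ → ℝ} (hf : Integrable f mu) (hg : Integrable g mu) :
    cf (S.Φ n) (fun y => f y + g y) j = cf (S.Φ n) f j + cf (S.Φ n) g j := by
  unfold cf
  rw [← integral_add (S.int_Φ n j hf) (S.int_Φ n j hg)]
  refine integral_congr_ae (Eventually.of_forall fun y => ?_)
  simp only
  ring

theorem cf_smul (n j : ℕ) (c : ℝ) (f : ℝ → ℝ) :
    cf (S.Φ n) (fun y => c * f y) j = c * cf (S.Φ n) f j := by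
  unfold cf
  rw [← integral_const_mul]
  refine integral_congr_ae (Eventually.of_forall fun y => ?_)
  simp only
  ring

theorem cf_congr (n j : ℕ) {f g : ℝ → ℝ} (h : f =ᵐ[mu] g) :
    cf (S.Φ n) f j = cf (S.Φ n) g j := by
  unfold cf
  refine integral_congr_ae ?_
  filter_upwards [h] with y hy
  rw [hy]

theorem T_congr (n : ℕ) {f g : ℝ → ℝ} (h : f =ᵐ[mu] g) (y : ℝ) : S.T n f y = S.T n g y := by
  unfold T Tg
  exact Finset.sum_congr rfl fun j _ => by rw [S.cf_congr n j h]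

theorem TT_congr {f g : ℝ → ℝ} (h : f =ᵐ[mu] g) : S.TT f = S.TT g := by
  funext y
  unfold TT
  exact tsum_congr fun n => S.T_congr n h y

theorem T_smul (n : ℕ) (c : ℝ) (f : ℝ → ℝ) (y : ℝ) :
    S.T n (fun y => c * f y) y = c * S.T n f y := by
  unfold T Tg
  rw [Finset.mul_sum]
  exact Finset.sum_congr rfl fun j _ => by rw [S.cf_smul]; ring

theorem T_add (n : ℕ) {f g : ℝ → ℝ} (hf : Integrable f mu) (hg : Integrable g mu) (y : ℝ) :
    S.T n (fun y => f y + g y) y = S.T n f y + S.T n g y := by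
  unfold T Tg
  rw [← Finset.sum_add_distrib]
  exact Finset.sum_congr rfl fun j _ => by rw [S.cf_add n j hf hg]; ring

theorem TT_smul (c : ℝ) (f : ℝ → ℝ) : S.TT (fun y => c * f y) = fun y => c * S.TT f y := by
  funext y
  unfold TT
  simp_rw [S.T_smul]
  rw [tsum_mul_left]

/-- the boundedness property of the generations -/
def Bdd (p q C : ℝ) : Prop := ∀ f : ℝ → ℝ, Measurable f → A p q (fun y => ‖f y‖ₑ) ≤ 1 →
  A p q (fun y => ∑' n, ‖S.T n f y‖ₑ) ≤ ENNReal.ofReal C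

variable {S} {p q p' q' C : ℝ}

theorem A_enorm_smul (hp : 0 < p) (hq : 0 < q) {c : ℝ} (hc : 0 < c) (f : ℝ → ℝ) :
    A p q (fun y => ‖c * f y‖ₑ) = ENNReal.ofReal (c ^ q) * A p q (fun y => ‖f y‖ₑ) := by
  rw [← A_const_mul hp hq hc]
  congr 1
  funext y
  rw [enorm_mul, Real.enorm_of_nonneg hc.le]

theorem A_le_one_scale (hp : 0 < p) (hq : 0 < q) {f : ℝ → ℝ} {ε : ℝ} (hε : 0 < ε)
    (h : A p q (fun y => ‖f y‖ₑ) ≤ ENNReal.ofReal ε) :
    A p q (fun y => ‖ε ^ (-1 / q) * f y‖ₑ) ≤ 1 := by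
  rw [A_enorm_smul hp hq (by positivity), ← Real.rpow_mul hε.le, div_mul_cancel₀ _ hq.ne',
    Real.rpow_neg_one]
  calc _ ≤ ENNReal.ofReal ε⁻¹ * ENNReal.ofReal ε := by gcongr
    _ = 1 := by
        rw [← ENNReal.ofReal_mul (by positivity), inv_mul_cancel₀ hε.ne', ENNReal.ofReal_one]

theorem ae_summable (hp : p.HolderConjugate p') (hq : q.HolderConjugate q') (hC : S.Bdd p q C)
    {f : ℝ → ℝ} (hf : Measurable f) (hA : A p q (fun y => ‖f y‖ₑ) ≠ ∞) :
    ∀ᵐ y ∂mu, Summable fun n => S.T n f y := by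
  obtain ⟨ε, hε, hAε⟩ : ∃ ε : ℝ, 0 < ε ∧ A p q (fun y => ‖f y‖ₑ) ≤ ENNReal.ofReal ε := by
    refine ⟨(A p q (fun y => ‖f y‖ₑ)).toReal + 1, by positivity, ?_⟩
    rw [ENNReal.le_ofReal_iff_toReal_le hA (by positivity)]
    linarith
  set c := ε ^ (-1 / q) with hc
  have hc0 : 0 < c := by positivity
  have h1 := hC (fun y => c * f y) (hf.const_mul c) (A_le_one_scale hp.pos hq.pos hε hAε)
  have hFm : Measurable (fun y => ∑' n, ‖S.T n (fun y => c * f y) y‖ₑ) :=
    Measurable.tsum fun n => (S.T_meas n _).enorm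
  have h2 := hoelder hp hq (F := fun y => ∑' n, ‖S.T n (fun y => c * f y) y‖ₑ) (G := fun _ => 1)
    hFm measurable_const
  simp only [mul_one] at h2
  have h3 : ∫⁻ y, ∑' n, ‖S.T n (fun y => c * f y) y‖ₑ ∂mu ≠ ∞ := by
    refine ne_top_of_le_ne_top ?_ h2
    rw [LF_eq hp.pos hq.pos, LF_eq hp.symm.pos hq.symm.pos]
    have hq0 := hq.pos
    have hq0' := hq.symm.pos
    refine ENNReal.mul_ne_top ?_ ?_
    · refine ENNReal.rpow_ne_top_of_nonneg (by positivity) (ENNReal.mul_ne_top ENNReal.ofReal_ne_top ?_)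
      exact ne_top_of_le_ne_top ENNReal.ofReal_ne_top h1
    · refine ENNReal.rpow_ne_top_of_nonneg (by positivity) (ENNReal.mul_ne_top ENNReal.ofReal_ne_top ?_)
      exact ne_top_of_le_ne_top ENNReal.ofReal_ne_top (A_one hp.symm.pos hq.symm.pos)
  filter_upwards [ae_lt_top hFm h3] with y hy
  have h4 := summable_of_enorm _ hy
  simp only [S.T_smul] at h4
  exact (summable_mul_left_iff hc0.ne').1 h4

theorem TT_add (hp : p.HolderConjugate p') (hq : q.HolderConjugate q') (hC : S.Bdd p q C)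
    {f g : ℝ → ℝ} (hf : Measurable f) (hg : Measurable g) (hA : A p q (fun y => ‖f y‖ₑ) ≠ ∞)
    (hA' : A p q (fun y => ‖g y‖ₑ) ≠ ∞) :
    S.TT (fun y => f y + g y) =ᵐ[mu] fun y => S.TT f y + S.TT g y := by
  filter_upwards [ae_summable hp hq hC hf hA, ae_summable hp hq hC hg hA'] with y h1 h2
  unfold TT
  rw [← h1.tsum_add h2]
  exact tsum_congr fun n => S.T_add n (A_integrable hp hq hf hA) (A_integrable hp hq hg hA') y

theorem TT_A (hp : 0 < p) (hq : 0 < q) (hC : S.Bdd p q C) {f : ℝ → ℝ}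
    (hf : Measurable f) {ε : ℝ} (hε : 0 < ε) (h : A p q (fun y => ‖f y‖ₑ) ≤ ENNReal.ofReal ε) :
    A p q (fun y => ‖S.TT f y‖ₑ) ≤ ENNReal.ofReal (C * ε) := by
  set c := ε ^ (-1 / q) with hc
  have hc0 : 0 < c := by positivity
  have h1 := hC (fun y => c * f y) (hf.const_mul c) (A_le_one_scale hp hq hε h)
  have h2 : A p q (fun y => ‖c * S.TT f y‖ₑ) ≤ ENNReal.ofReal C := by
    refine (A_mono hp hq (Eventually.of_forall fun y => ?_)).trans h1
    have h3 : c * S.TT f y = S.TT (fun y => c * f y) y := by rw [S.TT_smul]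
    show ‖c * S.TT f y‖ₑ ≤ _
    rw [h3]
    exact enorm_tsum_le_tsum_enorm
  rw [A_enorm_smul hp hq hc0, hc, ← Real.rpow_mul hε.le, div_mul_cancel₀ _ hq.ne',
    Real.rpow_neg_one] at h2
  calc A p q (fun y => ‖S.TT f y‖ₑ) = ENNReal.ofReal ε * (ENNReal.ofReal ε⁻¹ *
        A p q (fun y => ‖S.TT f y‖ₑ)) := by
        rw [← mul_assoc, ← ENNReal.ofReal_mul hε.le, mul_inv_cancel₀ hε.ne', ENNReal.ofReal_one,
          one_mul]
    _ ≤ ENNReal.ofReal ε * ENNReal.ofReal C := by gcongr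
    _ = _ := by rw [← ENNReal.ofReal_mul hε.le, mul_comm]

variable (S)

theorem B_lt {n n' : ℕ} (h : n < n') : S.B n + 8 ^ (S.B n) ≤ S.B n' := by
  have hmono : Monotone S.B := monotone_nat_of_le_succ fun k =>
    le_trans (Nat.le_add_right _ _) (S.hB k)
  exact (S.hB n).trans (hmono h)

/-- coefficients of a test function -/
theorem cf_other {n j : ℕ} (hj : j < 8 ^ (S.B n)) {v : ℝ → ℝ} (hv : Step (S.B n) v) {n' j' : ℕ}
    (hj' : j' < 8 ^ (S.B n')) (hne : ¬ (n' = n ∧ j' = j)) :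
    cf (S.Φ n') (fun y => v y * rad (S.B n + j + 1) y) j' = 0 := by
  unfold cf Φ
  rcases lt_trichotomy n n' with h | h | h
  · have hB := S.B_lt h
    have hs : Step (S.B n' + j') (fun y => v y * rad (S.B n + j + 1) y * S.φ n' j' y) :=
      ((hv.mono (by omega)).mul ((step_rad _).mono (by omega))).mul ((S.hφ n' j').mono (by omega))
    have := integral_mul_rad hs
    rw [← this]
    refine integral_congr_ae (Eventually.of_forall fun y => ?_)
    simp only
    ring
  · subst h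
    have hne' : j' ≠ j := fun h => hne ⟨rfl, h⟩
    rcases lt_or_gt_of_ne hne' with h | h
    · have hs : Step (S.B n + j) (fun y => v y * S.φ n j' y * rad (S.B n + j' + 1) y) :=
        ((hv.mono (by omega)).mul ((S.hφ n j').mono (by omega))).mul ((step_rad _).mono (by omega))
      have := integral_mul_rad hs
      rw [← this]
      refine integral_congr_ae (Eventually.of_forall fun y => ?_)
      simp only
      ring
    · have hs : Step (S.B n + j') (fun y => v y * rad (S.B n + j + 1) y * S.φ n j' y) :=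
        ((hv.mono (by omega)).mul ((step_rad _).mono (by omega))).mul ((S.hφ n j').mono (by omega))
      have := integral_mul_rad hs
      rw [← this]
      refine integral_congr_ae (Eventually.of_forall fun y => ?_)
      simp only
      ring
  · have hB := S.B_lt h
    have hs : Step (S.B n + j) (fun y => v y * (S.φ n' j' y * rad (S.B n' + j' + 1) y)) :=
      (hv.mono (by omega)).mul (((S.hφ n' j').mono (by omega)).mul ((step_rad _).mono (by omega)))
    have := integral_mul_rad hs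
    rw [← this]
    refine integral_congr_ae (Eventually.of_forall fun y => ?_)
    simp only
    ring

theorem cf_self {n j : ℕ} {v : ℝ → ℝ} :
    cf (S.Φ n) (fun y => v y * rad (S.B n + j + 1) y) j = ∫ y, v y * S.φ n j y ∂mu := by
  unfold cf Φ
  refine integral_congr_ae (Eventually.of_forall fun y => ?_)
  have := rad_sq (S.B n + j + 1) y
  simp only
  linear_combination (v y * S.φ n j y) * this

theorem TT_test {n j : ℕ} (hj : j < 8 ^ (S.B n)) {v : ℝ → ℝ} (hv : Step (S.B n) v) (y : ℝ) :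
    S.TT (fun y => v y * rad (S.B n + j + 1) y) y = (∫ y, v y * S.φ n j y ∂mu) * S.Ψ n j y := by
  unfold TT
  rw [tsum_eq_single n]
  · unfold T Tg
    rw [Finset.sum_eq_single j]
    · rw [S.cf_self]
    · intro j' hj' hne
      rw [S.cf_other hj hv (Finset.mem_range.1 hj') (fun h => hne h.2), zero_mul]
    · intro h
      exact absurd (Finset.mem_range.2 hj) h
  · intro n' hn'
    unfold T Tg
    refine Finset.sum_eq_zero fun j' hj' => ?_
    rw [S.cf_other hj hv (Finset.mem_range.1 hj') (fun h => hn' h.1), zero_mul]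

variable {S}

/-- the property behind the lower bound for the blocks -/
def Low (S : Data) (p q c0 C1 : ℝ) : Prop :=
  ∀ δ : ℝ, 0 < δ → ∀ e f : Set ℝ, MeasurableSet e → MeasurableSet f → mu e ≠ 0 → mu f ≠ 0 →
    ∃ n j, j < 8 ^ (S.B n) ∧ ∃ v : ℝ → ℝ, Step (S.B n) v ∧
      A p q (fun y => ‖v y‖ₑ) ≤ ENNReal.ofReal C1 ∧
      A p q (fun y => ‖(fᶜ).indicator v y‖ₑ) ≤ ENNReal.ofReal δ ∧
      ENNReal.ofReal c0 ≤ A p q (fun y => ‖e.indicator (fun y => (∫ y, v y * S.φ n j y ∂mu) *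
        S.ψ n j y) y‖ₑ)

theorem lower (hp : p.HolderConjugate p') (hq : q.HolderConjugate q') (hC0 : 0 ≤ C)
    (hC : S.Bdd p q C) {c0 C1 : ℝ} (hc0 : 0 < c0) (hlow : S.Low p q c0 C1) :
    ∃ c1 : ℝ, 0 < c1 ∧ ∀ e f : Set ℝ, MeasurableSet e → MeasurableSet f → mu e ≠ 0 → mu f ≠ 0 →
      ∃ g : ℝ → ℝ, Measurable g ∧ A p q (fun y => ‖g y‖ₑ) ≤ ENNReal.ofReal C1 ∧
        ENNReal.ofReal c1 ≤ A p q (fun y => ‖e.indicator (S.TT (f.indicator g)) y‖ₑ) := by
  have hp0 := hp.pos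
  have hq0 := hq.pos
  set K : ℝ := 2 ^ (q / p) * 2 ^ q with hK
  have hK0 : 0 < K := by positivity
  set δ : ℝ := c0 / (2 * K * (C + 1)) with hδ
  have hδ0 : 0 < δ := by positivity
  refine ⟨c0 / (2 * K), by positivity, fun e f he hf he0 hf0 => ?_⟩
  obtain ⟨n, j, hj, v, hv, h1, h2, h3⟩ := hlow δ hδ0 e f he hf he0 hf0
  set g : ℝ → ℝ := fun y => v y * rad (S.B n + j + 1) y with hg
  have hgm : Measurable g := hv.measurable.mul (step_rad _).measurable
  have hgabs : ∀ y, ‖g y‖ₑ = ‖v y‖ₑ := by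
    intro y
    rw [hg]
    simp only
    rw [enorm_mul, Real.enorm_eq_ofReal_abs (rad _ _), abs_rad]
    simp
  have hAg : A p q (fun y => ‖g y‖ₑ) ≤ ENNReal.ofReal C1 := by
    simp_rw [hgabs]; exact h1
  refine ⟨g, hgm, hAg, ?_⟩
  have hAgc : A p q (fun y => ‖(fᶜ).indicator g y‖ₑ) ≤ ENNReal.ofReal δ := by
    refine le_trans (le_of_eq ?_) h2
    congr 1
    funext y
    by_cases h : y ∈ fᶜ
    · rw [indicator_of_mem h, indicator_of_mem h, hgabs]
    · rw [indicator_of_notMem h, indicator_of_notMem h]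
  have hAgi : A p q (fun y => ‖f.indicator g y‖ₑ) ≠ ∞ := by
    refine ne_top_of_le_ne_top ENNReal.ofReal_ne_top (le_trans (A_mono hp0 hq0
      (Eventually.of_forall fun y => ?_)) hAg)
    exact enorm_indicator_le_enorm_self _ _
  have hadd := TT_add hp hq hC (hgm.indicator hf) (hgm.indicator hf.compl) hAgi
    (ne_top_of_le_ne_top ENNReal.ofReal_ne_top hAgc)
  have hgsum : (fun y => f.indicator g y + (fᶜ).indicator g y) = g := by
    funext y
    exact congrFun (indicator_self_add_compl f g) y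
  rw [hgsum] at hadd
  have hTg : ∀ y, ‖S.TT g y‖ₑ = ‖(∫ y, v y * S.φ n j y ∂mu) * S.ψ n j y‖ₑ := by
    intro y
    rw [hg, S.TT_test hj hv, Ψ, ← mul_assoc, enorm_mul, Real.enorm_eq_ofReal_abs (rad _ _), abs_rad]
    simp
  have h4 : A p q (fun y => ‖e.indicator (fun y => (∫ y, v y * S.φ n j y ∂mu) * S.ψ n j y) y‖ₑ) ≤
      A p q (fun y => ‖e.indicator (S.TT (f.indicator g)) y‖ₑ + ‖S.TT ((fᶜ).indicator g) y‖ₑ) := by
    refine A_mono hp0 hq0 ?_
    filter_upwards [hadd] with y hy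
    by_cases h : y ∈ e
    · rw [indicator_of_mem h, indicator_of_mem h, ← hTg, hy]
      exact enorm_add_le _ _
    · rw [indicator_of_notMem h]
      simp
  have h5 := TT_A hp0 hq0 hC (hgm.indicator hf.compl) hδ0 hAgc
  set X := A p q (fun y => ‖e.indicator (S.TT (f.indicator g)) y‖ₑ) with hX
  have h6 : ENNReal.ofReal c0 ≤ ENNReal.ofReal K * (X + ENNReal.ofReal (C * δ)) := by
    refine h3.trans (h4.trans ((A_add hp0 hq0 _ _).trans ?_))
    gcongr
  by_contra hcon
  push Not at hcon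
  have hXt : X ≠ ∞ := ne_top_of_lt hcon
  have h7 : X.toReal < c0 / (2 * K) := (ENNReal.lt_ofReal_iff_toReal_lt hXt).1 hcon
  rw [← ENNReal.ofReal_toReal hXt, ← ENNReal.ofReal_add ENNReal.toReal_nonneg (by positivity),
    ← ENNReal.ofReal_mul hK0.le, ENNReal.ofReal_le_ofReal_iff (by positivity)] at h6
  have h8 : K * (C * δ) ≤ c0 / 2 := by
    rw [hδ]
    have : K * (C * (c0 / (2 * K * (C + 1)))) = c0 / 2 * (C / (C + 1)) := by
      field_simp
    rw [this]
    have h9 : C / (C + 1) ≤ 1 := by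
      rw [div_le_one (by positivity)]; linarith
    nlinarith
  have h10 : K * X.toReal < c0 / 2 := by
    calc K * X.toReal < K * (c0 / (2 * K)) := by gcongr
      _ = c0 / 2 := by field_simp
  linarith [mul_add K X.toReal (C * δ)]

end Data

end Pool.Agent.KS6_84.OB
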