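import Pool.Agent.KS6_84.OB.Defs
import Pool.Agent.KS6_84.OB.Oper

/-!
From the bounds for measurable functions to the spaces of classes.
-/

set_option autoImplicit false

open MeasureTheory Set Filter Topology
open scoped ENNReal NNReal

namespace Pool.Agent.KS6_84.OBL

open Pool.Agent.KS6_84.OB

variable {p q p' q' : ℝ}

theorem Q_coe (e : Set ℝ) (he : MeasurableSet e) (x : ℝ →ₘ[leb] ℝ) :
    Q e he x =ᵐ[leb] e.indicator x := AEEqFun.coeFn_mk _ _

theorem lnorm_eq (hp : 0 < p) (hq : 0 < q) (x : ℝ →ₘ[leb] ℝ) :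
    lnorm p (ENNReal.ofReal q) x = (ENNReal.ofReal p * A p q (fun s => ‖x s‖ₑ)) ^ (1 / q) := by
  unfold lnorm
  rw [if_neg ENNReal.ofReal_ne_top, ENNReal.toReal_ofReal hq.le, ← LF_eq hp hq]
  rfl

theorem lnorm_lt_iff (hp : 0 < p) (hq : 0 < q) (x : ℝ →ₘ[leb] ℝ) :
    lnorm p (ENNReal.ofReal q) x < ∞ ↔ A p q (fun s => ‖x s‖ₑ) ≠ ∞ := by
  rw [lnorm_eq hp hq, ENNReal.rpow_lt_top_iff_of_pos (by positivity)]
  constructor
  · intro h h2
    rw [h2, ENNReal.mul_top (by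
      rw [Ne, ENNReal.ofReal_eq_zero, not_le]; exact hp)] at h
    exact lt_irrefl _ h
  · intro h
    exact ENNReal.mul_lt_top ENNReal.ofReal_lt_top h.lt_top

theorem mem_fin (hp : 0 < p) (hq : 0 < q) {x : ℝ →ₘ[leb] ℝ} (hx : x ∈ Lor p (ENNReal.ofReal q)) :
    A p q (fun s => ‖x s‖ₑ) ≠ ∞ := (lnorm_lt_iff hp hq _).1 hx

open Classical in
/-- the operator on classes -/
noncomputable def opT (S : Data) (p q : ℝ) (x : ℝ →ₘ[leb] ℝ) : ℝ →ₘ[leb] ℝ :=
  if x ∈ Lor p (ENNReal.ofReal q) then AEEqFun.mk (S.TT x) (S.TT_meas x).aestronglyMeasurable else 0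

theorem opT_coe (S : Data) {x : ℝ →ₘ[leb] ℝ} (hx : x ∈ Lor p (ENNReal.ofReal q)) :
    opT S p q x =ᵐ[leb] S.TT x := by
  unfold opT
  rw [if_pos hx]
  exact AEEqFun.coeFn_mk _ _

theorem A_coe (hp : 0 < p) (hq : 0 < q) {f g : ℝ → ℝ} (h : f =ᵐ[leb] g) :
    A p q (fun s => ‖f s‖ₑ) = A p q (fun s => ‖g s‖ₑ) :=
  A_congr hp hq (h.mono fun y hy => by show ‖f y‖ₑ = ‖g y‖ₑ; rw [hy])

theorem le_real {a : ℝ≥0∞} (h : a ≠ ∞) : ∃ ε : ℝ, 0 < ε ∧ a ≤ ENNReal.ofReal ε := by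
  refine ⟨a.toReal + 1, by positivity, ?_⟩
  rw [ENNReal.le_ofReal_iff_toReal_le h (by positivity)]
  linarith

theorem lnorm_add_lt' (hp : 0 < p) (hq : 0 < q) {x y : ℝ →ₘ[leb] ℝ}
    (hx : x ∈ Lor p (ENNReal.ofReal q)) (hy : y ∈ Lor p (ENNReal.ofReal q)) :
    x + y ∈ Lor p (ENNReal.ofReal q) := by
  have hx' := mem_fin hp hq hx
  have hy' := mem_fin hp hq hy
  refine (lnorm_lt_iff hp hq _).2 ?_
  rw [A_coe hp hq (AEEqFun.coeFn_add x y)]
  refine ne_top_of_le_ne_top ?_ ((A_mono hp hq (Eventually.of_forall fun s => ?_)).trans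
    (A_add hp hq (fun s => ‖x s‖ₑ) (fun s => ‖y s‖ₑ)))
  · exact ENNReal.mul_ne_top ENNReal.ofReal_ne_top (ENNReal.add_ne_top.2 ⟨hx', hy'⟩)
  · exact enorm_add_le _ _

theorem A_abs_smul (hp : 0 < p) (hq : 0 < q) (c : ℝ) (f : ℝ → ℝ) :
    A p q (fun s => ‖c * f s‖ₑ) ≤ ENNReal.ofReal (|c| ^ q) * A p q (fun s => ‖f s‖ₑ) := by
  have : (fun s => ‖c * f s‖ₑ) = fun s => ENNReal.ofReal |c| * ‖f s‖ₑ := by
    funext s
    rw [enorm_mul, Real.enorm_eq_ofReal_abs]
  rw [this]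
  exact A_const_mul_le hp hq (abs_nonneg c) _

theorem nonempty_of (hp : p.HolderConjugate p') (hq : q.HolderConjugate q') {S : Data} {C c0 C1 : ℝ}
    (hC0 : 0 ≤ C) (hC : S.Bdd p q C) (hc0 : 0 < c0) (hC1 : 0 < C1) (hlow : S.Low p q c0 C1) :
    (D p (ENNReal.ofReal q)).Nonempty := by
  have hp0 := hp.pos
  have hq0 := hq.pos
  have hpne : ENNReal.ofReal p ≠ 0 := by
    rw [Ne, ENNReal.ofReal_eq_zero, not_le]; exact hp0
  refine ⟨opT S p q, ⟨fun x hx => ?_, fun x hx y hy => ?_, fun c x hx => ?_, ?_⟩, ?_⟩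
  · -- values in the space
    refine (lnorm_lt_iff hp0 hq0 _).2 ?_
    rw [A_coe hp0 hq0 (opT_coe S hx)]
    obtain ⟨ε, hε, hA⟩ := le_real (mem_fin hp0 hq0 hx)
    exact ne_top_of_le_ne_top ENNReal.ofReal_ne_top (Data.TT_A hp0 hq0 hC x.measurable hε hA)
  · have hxy := lnorm_add_lt' hp0 hq0 hx hy
    apply AEEqFun.ext
    have h := S.TT_congr (f := (x + y : ℝ →ₘ[leb] ℝ)) (g := fun s => x s + y s)
      (AEEqFun.coeFn_add x y)
    have h2 : S.TT (fun s => x s + y s) =ᵐ[leb] fun s => S.TT x s + S.TT y s :=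
      Data.TT_add hp hq hC x.measurable y.measurable (mem_fin hp0 hq0 hx) (mem_fin hp0 hq0 hy)
    filter_upwards [opT_coe S hxy, opT_coe S hx, opT_coe S hy,
      AEEqFun.coeFn_add (opT S p q x) (opT S p q y), h2] with s h3 h4 h5 h6 h7
    rw [h3, h, h7, h6, Pi.add_apply, h4, h5]
  · have hcx : c • x ∈ Lor p (ENNReal.ofReal q) := by
      refine (lnorm_lt_iff hp0 hq0 _).2 ?_
      rw [A_coe hp0 hq0 (AEEqFun.coeFn_smul c x)]
      refine ne_top_of_le_ne_top ?_ (A_abs_smul hp0 hq0 c x)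
      exact ENNReal.mul_ne_top ENNReal.ofReal_ne_top (mem_fin hp0 hq0 hx)
    apply AEEqFun.ext
    have h := S.TT_congr (f := (c • x : ℝ →ₘ[leb] ℝ)) (g := fun s => c * x s)
      (AEEqFun.coeFn_smul c x)
    filter_upwards [opT_coe S hcx, opT_coe S hx, AEEqFun.coeFn_smul c (opT S p q x)] with s h3 h4 h5
    rw [h3, h, S.TT_smul, h5, Pi.smul_apply, h4, smul_eq_mul]
  · -- finite operator norm
    refine lt_of_le_of_lt (b := (ENNReal.ofReal p * ENNReal.ofReal (C * p⁻¹)) ^ (1 / q)) ?_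
      (ENNReal.rpow_lt_top_of_nonneg (by positivity)
        (ENNReal.mul_ne_top ENNReal.ofReal_ne_top ENNReal.ofReal_ne_top))
    unfold opn
    refine iSup₂_le fun x hx => ?_
    have hmem : x ∈ Lor p (ENNReal.ofReal q) := lt_of_le_of_lt hx ENNReal.one_lt_top
    rw [lnorm_eq hp0 hq0] at hx ⊢
    apply ENNReal.rpow_le_rpow _ (by positivity)
    rw [A_coe hp0 hq0 (opT_coe S hmem)]
    gcongr
    refine Data.TT_A hp0 hq0 hC x.measurable (by positivity) ?_
    have h1 : ENNReal.ofReal p * A p q (fun s => ‖x s‖ₑ) ≤ 1 := by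
      by_contra hcon
      push Not at hcon
      exact absurd hx (not_le.2 (ENNReal.one_lt_rpow hcon (by positivity)))
    rw [ENNReal.ofReal_inv_of_pos hp0, ← one_div, ENNReal.le_div_iff_mul_le (Or.inl hpne)
      (Or.inl ENNReal.ofReal_ne_top), mul_comm]
    exact h1
  · -- lower bound
    obtain ⟨c1, hc1, hlow'⟩ := Data.lower hp hq hC0 hC hc0 hlow
    set t : ℝ := (p * C1) ^ (-1 / q) with ht
    have ht0 : 0 < t := by positivity
    have htq : t ^ q = (p * C1)⁻¹ := by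
      rw [ht, ← Real.rpow_mul (by positivity), div_mul_cancel₀ _ hq0.ne', Real.rpow_neg_one]
    refine lt_of_lt_of_le (b := (ENNReal.ofReal p * ENNReal.ofReal (t ^ q * c1)) ^ (1 / q)) ?_ ?_
    · apply ENNReal.rpow_pos
      · rw [← ENNReal.ofReal_mul hp0.le]
        exact ENNReal.ofReal_pos.2 (by positivity)
      · exact ENNReal.mul_ne_top ENNReal.ofReal_ne_top ENNReal.ofReal_ne_top
    unfold sigma
    refine le_iInf fun e => le_iInf fun f => le_iInf fun he => le_iInf fun hf =>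
      le_iInf fun he1 => le_iInf fun hf1 => le_iInf fun hpos => ?_
    have hve : ∀ s : Set ℝ, s ⊆ Icc 0 1 → MeasurableSet s → OB.mu s = volume s := by
      intro s hs hsm
      unfold OB.mu
      rw [Measure.restrict_apply hsm, inter_eq_left.2 hs]
    have he0 : OB.mu e ≠ 0 := by
      rw [hve e he1 he]
      intro h
      rw [h, zero_mul] at hpos
      exact lt_irrefl _ hpos
    have hf0 : OB.mu f ≠ 0 := by
      rw [hve f hf1 hf]
      intro h
      rw [h, mul_zero] at hpos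
      exact lt_irrefl _ hpos
    obtain ⟨g, hgm, hgA, hlow⟩ := hlow' e f he hf he0 hf0
    set z : ℝ → ℝ := fun s => t * g s with hz
    have hzm : Measurable z := hgm.const_mul _
    set x : ℝ →ₘ[leb] ℝ := AEEqFun.mk z hzm.aestronglyMeasurable with hx
    have hxc : x =ᵐ[leb] z := AEEqFun.coeFn_mk _ _
    have hxA : A p q (fun s => ‖x s‖ₑ) = ENNReal.ofReal (t ^ q) * A p q (fun s => ‖g s‖ₑ) := by
      rw [A_coe hp0 hq0 hxc, hz, Data.A_enorm_smul hp0 hq0 ht0]
    have hle : lnorm p (ENNReal.ofReal q) x ≤ 1 := by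
      rw [lnorm_eq hp0 hq0, hxA]
      refine ENNReal.rpow_le_one ?_ (by positivity)
      calc ENNReal.ofReal p * (ENNReal.ofReal (t ^ q) * A p q (fun s => ‖g s‖ₑ))
          ≤ ENNReal.ofReal p * (ENNReal.ofReal (t ^ q) * ENNReal.ofReal C1) := by gcongr
        _ = 1 := by
            rw [← ENNReal.ofReal_mul (by positivity), ← ENNReal.ofReal_mul (by positivity),
              ← ENNReal.ofReal_one, htq]
            congr 1
            field_simp
    have h1 : Q f hf x =ᵐ[leb] fun s => t * f.indicator g s := by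
      filter_upwards [Q_coe f hf x, hxc] with s h3 h4
      rw [h3]
      by_cases h : s ∈ f
      · simp only [indicator_of_mem h]
        rw [h4]
      · simp only [indicator_of_notMem h, mul_zero]
    have hmem : Q f hf x ∈ Lor p (ENNReal.ofReal q) := by
      refine (lnorm_lt_iff hp0 hq0 _).2 ?_
      rw [A_coe hp0 hq0 h1, Data.A_enorm_smul hp0 hq0 ht0]
      refine ENNReal.mul_ne_top ENNReal.ofReal_ne_top (ne_top_of_le_ne_top ENNReal.ofReal_ne_top
        (le_trans (A_mono hp0 hq0 (Eventually.of_forall fun y => ?_)) hgA))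
      exact enorm_indicator_le_enorm_self _ _
    have h2 : Q e he (opT S p q (Q f hf x)) =ᵐ[leb]
        fun s => t * e.indicator (S.TT (f.indicator g)) s := by
      filter_upwards [Q_coe e he (opT S p q (Q f hf x)), opT_coe S hmem] with s h4 h5
      rw [h4]
      by_cases h : s ∈ e
      · simp only [indicator_of_mem h]
        rw [h5, S.TT_congr h1, S.TT_smul]
      · simp only [indicator_of_notMem h, mul_zero]
    unfold opn
    refine le_trans ?_ (le_iSup₂ (f := fun (x : ℝ →ₘ[leb] ℝ) (_ : lnorm p (ENNReal.ofReal q) x ≤ 1) =>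
        lnorm p (ENNReal.ofReal q) (Q e he (opT S p q (Q f hf x)))) x hle)
    rw [lnorm_eq hp0 hq0, A_coe hp0 hq0 h2, Data.A_enorm_smul hp0 hq0 ht0]
    apply ENNReal.rpow_le_rpow _ (by positivity)
    rw [ENNReal.ofReal_mul (by positivity)]
    gcongr

end Pool.Agent.KS6_84.OBL
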