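import Pool.Agent.KS6_84.OB.Low
import Pool.Agent.KS6_84.OB.Main

/-!
`D(L^{p,q})` is non-empty for `1 < p < ∞`, `p ≠ 2`, `1 < q < ∞`.
-/

set_option autoImplicit false

open MeasureTheory Set Filter Topology
open scoped ENNReal NNReal

namespace Pool.Agent.KS6_84.OB

noncomputable def c0c (ρ p q : ℝ) : ℝ := 1 / 2 * ((ρ - 1) * (1 / (2 * ρ)) ^ q * (1 / 2) ^ (q / p))

theorem c0c_pos {ρ p q : ℝ} (hρ : 1 < ρ) : 0 < c0c ρ p q := by
  unfold c0c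
  have : 0 < ρ - 1 := by linarith
  positivity

theorem low_core {p q p' q' : ℝ} (hp : p.HolderConjugate p') (hq : q.HolderConjugate q')
    {ρ ρ' : ℝ} (hρ : ρ = 8 ^ (1 / p)) (hρ' : ρ' = 8 ^ (1 / p'))
    {M : ℕ} (hM : 1 ≤ M) {a b lo hi B1 j1 : ℕ} (hlo : lo ≤ a) (hhi : b ≤ hi) (hB1 : hi ≤ B1)
    (hj1 : j1 < 8 ^ B1) (hab : a ≤ b) (hb3 : b ≤ 3 * M) (hlen1 : M ≤ 2 * (b - a))
    {b0 lo2 hi2 B2 j2 : ℕ} (hlo2 : lo2 ≤ b0) (hhi2 : hi2 ≤ B2) (hj2 : j2 < 8 ^ B2)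
    (hlen2 : M ≤ 2 * (hi2 - b0)) {δ : ℝ} (hδ : 0 ≤ δ) (hδ2 : δ ≤ 1 / 2) {e f : Set ℝ}
    (he : MeasurableSet e)
    (hf : ∀ m, a ≤ m → m < b → mu.real ({y | idx m y = j1 / 8 ^ (B1 - m)} \ f) ≤ δ * ((8:ℝ) ^ m)⁻¹)
    (hE : ∀ m, b0 ≤ m → m < hi2 → mu.real ({y | idx m y = j2 / 8 ^ (B2 - m)} \ e) ≤ δ * ((8:ℝ) ^ m)⁻¹) :
    A p q (fun y => ‖(M:ℝ) ^ (-1 / q) * tw ρ a b B1 j1 y‖ₑ) ≤ ENNReal.ofReal (Ct ρ q) ∧
    A p q (fun y => ‖(fᶜ).indicator (fun y => (M:ℝ) ^ (-1 / q) * tw ρ a b B1 j1 y) y‖ₑ) ≤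
      ENNReal.ofReal (δ ^ (q / p) * Ct ρ q) ∧
    ENNReal.ofReal (c0c ρ p q) ≤ A p q (fun y => ‖e.indicator (fun y =>
      (∫ y, ((M:ℝ) ^ (-1 / q) * tw ρ a b B1 j1 y) * ((M:ℝ) ^ (-1 / q') * tw ρ' lo hi B1 j1 y) ∂mu) *
        ((M:ℝ) ^ (-1 / q) * tw ρ lo2 hi2 B2 j2 y)) y‖ₑ) := by
  have hp0 := hp.pos
  have hp1 := hp.lt
  have hq0 := hq.pos
  have hp0' := hp.symm.pos
  have hq0' := hq.symm.pos
  have hρ1 : 1 < ρ := by rw [hρ]; exact rho_gt hp0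
  have hρ8 : ρ ≤ 8 := by rw [hρ]; exact rho_le hp1
  have hρp : ρ ^ p = 8 := by rw [hρ]; exact rho_p hp0
  have hρ1' : 1 < ρ' := by rw [hρ']; exact rho_gt hp0'
  have hρρ : ρ * ρ' = 8 := by
    rw [hρ, hρ', ← Real.rpow_add (by norm_num)]
    have : 1 / p + 1 / p' = 1 := by
      rw [one_div, one_div]; exact hp.inv_add_inv_eq_one
    rw [this, Real.rpow_one]
  have hM0 : (0:ℝ) < M := by exact_mod_cast hM
  refine ⟨?_, ?_, ?_⟩
  · have h := tower_A (q := q) hp0 hq0 hρ1 hρ8 hρp hM (a := a) (j := j1) (hhi.trans hB1) hb3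
      (G := univ) (δ := 1) zero_le_one (fun m _ hm2 => by
        rw [inter_univ, one_mul, mu_real_cell (cell_lt (by omega) hj1)])
    simpa using h
  · exact tower_A (q := q) hp0 hq0 hρ1 hρ8 hρp hM (hhi.trans hB1) hb3 hδ (fun m hm1 hm2 => by
      rw [← sdiff_eq]
      exact hf m hm1 hm2)
  · refine tower_low hp0 hq.lt.le hρ1 hρp hM hlo2 hhi2 hlen2 hj2 he (fun m hm1 hm2 => ?_) ?_
    · refine (hE m hm1 hm2).trans ?_
      gcongr
    · have h1 := tower_pair (by linarith) (by linarith) hρρ hlo hhi hB1 hj1 hab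
      have h2 : ∫ y, ((M:ℝ) ^ (-1 / q) * tw ρ a b B1 j1 y) * ((M:ℝ) ^ (-1 / q') * tw ρ' lo hi B1 j1 y) ∂mu =
          (M:ℝ)⁻¹ * ∫ y, tw ρ a b B1 j1 y * tw ρ' lo hi B1 j1 y ∂mu := by
        rw [← integral_const_mul]
        refine integral_congr_ae (Eventually.of_forall fun y => ?_)
        simp only
        have h3 : (M:ℝ) ^ (-1 / q) * (M:ℝ) ^ (-1 / q') = (M:ℝ)⁻¹ := by
          rw [← Real.rpow_add hM0]
          have : -1 / q + -1 / q' = -1 := by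
            have := hq.inv_add_inv_eq_one
            rw [neg_div, neg_div, one_div, one_div]
            linarith
          rw [this, Real.rpow_neg_one]
        rw [← h3]
        ring
      rw [h2]
      have h4 : (M:ℝ) ≤ 2 * ((b - a : ℕ) : ℝ) := by exact_mod_cast hlen1
      calc (1:ℝ) / 2 ≤ (M:ℝ)⁻¹ * ((b - a : ℕ) : ℝ) := by
            rw [inv_mul_eq_div, le_div_iff₀ hM0]
            linarith
        _ ≤ _ := by gcongr

/-- choice of the density defect -/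
theorem choose_delta {p q c δ : ℝ} (hp : 0 < p) (hq : 0 < q) (hc : 0 < c) (hδ : 0 < δ) :
    ∃ δ' : ℝ, 0 < δ' ∧ δ' ≤ 1 / 2 ∧ δ' ^ (q / p) * c ≤ δ := by
  refine ⟨min (1 / 2) ((δ / c) ^ (p / q)), lt_min (by norm_num) (by positivity), min_le_left _ _, ?_⟩
  have h1 : (min (1 / 2) ((δ / c) ^ (p / q))) ^ (q / p) ≤ ((δ / c) ^ (p / q)) ^ (q / p) :=
    Real.rpow_le_rpow (le_min (by norm_num) (by positivity)) (min_le_right _ _) (by positivity)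
  rw [← Real.rpow_mul (by positivity), show p / q * (q / p) = 1 by field_simp, Real.rpow_one,
    le_div_iff₀ hc] at h1
  exact h1

theorem low_lt {p q p' q' : ℝ} (hp : p.HolderConjugate p') (hq : q.HolderConjugate q')
    {M : ℕ → ℕ} {hM : ∀ n, 1 ≤ M n} {hB : ∀ n, 3 * M n + 8 ^ (3 * M n) ≤ 3 * M (n + 1)}
    (hMn : ∀ n, n ≤ M n) (hΦ : Prof p' (thV (8 ^ (1 / p')))) (hΨ : Prof p (thU (8 ^ (1 / p)))) :
    (dataOf q q' M hM hB hΦ hΨ).Low p q (c0c (8 ^ (1 / p)) p q) (Ct (8 ^ (1 / p)) q) := by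
  have hp0 := hp.pos
  have hq0 := hq.pos
  intro δ hδ e f he hf he0 hf0
  obtain ⟨δ', hδ'0, hδ'2, hδ'⟩ := choose_delta hp0 hq0 (Ct_pos (rho_gt hp0) hq0) hδ
  obtain ⟨l0, n0, hsel⟩ := selection he hf he0 hf0 hδ'0
  set n := max n0 (2 * l0) with hn
  have hMn' := hMn n
  have h1 : n0 ≤ M n := (le_max_left _ _).trans hMn'
  have h2 : 2 * l0 ≤ M n := (le_max_right _ _).trans hMn'
  obtain ⟨_, j, hj, hje, hjf⟩ := hsel (M n) h1
  refine ⟨n, j, hj, fun y => (M n : ℝ) ^ (-1 / q) *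
    tw (8 ^ (1 / p)) (2 * M n) (3 * M n) (3 * M n) j y, ?_, ?_⟩
  · exact (step_tw _ _ _ _ _ le_rfl).comp (fun x => (M n : ℝ) ^ (-1 / q) * x)
  · have h := low_core hp hq rfl rfl (hM n) (a := 2 * M n) (b := 3 * M n) (lo := 2 * M n)
      (hi := 3 * M n) (B1 := 3 * M n) (j1 := j) le_rfl le_rfl le_rfl hj (by omega) le_rfl
      (by omega) (b0 := l0) (lo2 := 0) (hi2 := M n) (B2 := M n) (j2 := xp (M n) j) (Nat.zero_le _)
      le_rfl (xp_lt _ _) (by omega) hδ'0.le hδ'2 (e := e) (f := f) he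
      (fun m hm1 hm2 => hjf m hm1 hm2.le) (fun m hm1 hm2 => hje m hm1 hm2.le)
    exact ⟨h.1, h.2.1.trans (ENNReal.ofReal_le_ofReal hδ'), h.2.2⟩

theorem low_gt {p q p' q' : ℝ} (hp : p.HolderConjugate p') (hq : q.HolderConjugate q')
    {M : ℕ → ℕ} {hM : ∀ n, 1 ≤ M n} {hB : ∀ n, 3 * M n + 8 ^ (3 * M n) ≤ 3 * M (n + 1)}
    (hMn : ∀ n, n ≤ M n) (hΦ : Prof p' (thU (8 ^ (1 / p')))) (hΨ : Prof p (thV (8 ^ (1 / p)))) :
    (dataOf q q' M hM hB hΦ hΨ).Low p q (c0c (8 ^ (1 / p)) p q) (Ct (8 ^ (1 / p)) q) := by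
  have hp0 := hp.pos
  have hq0 := hq.pos
  intro δ hδ e f he hf he0 hf0
  obtain ⟨δ', hδ'0, hδ'2, hδ'⟩ := choose_delta hp0 hq0 (Ct_pos (rho_gt hp0) hq0) hδ
  obtain ⟨l0, n0, hsel⟩ := selection hf he hf0 he0 hδ'0
  set n := max n0 (2 * l0) with hn
  have hMn' := hMn n
  have h1 : n0 ≤ M n := (le_max_left _ _).trans hMn'
  have h2 : 2 * l0 ≤ M n := (le_max_right _ _).trans hMn'
  obtain ⟨_, j, hj, hjf, hje⟩ := hsel (M n) h1
  refine ⟨n, j, hj, fun y => (M n : ℝ) ^ (-1 / q) * tw (8 ^ (1 / p)) l0 (M n) (M n) (xp (M n) j) y,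
    ?_, ?_⟩
  · exact (step_tw _ _ _ _ _ (by show M n ≤ 3 * M n; omega)).comp (fun x => (M n : ℝ) ^ (-1 / q) * x)
  · have h := low_core hp hq rfl rfl (hM n) (a := l0) (b := M n) (lo := 0)
      (hi := M n) (B1 := M n) (j1 := xp (M n) j) (Nat.zero_le _) le_rfl le_rfl (xp_lt _ _)
      (by omega) (by omega) (by omega) (b0 := 2 * M n) (lo2 := 2 * M n) (hi2 := 3 * M n)
      (B2 := 3 * M n) (j2 := j) le_rfl le_rfl hj (by omega) hδ'0.le hδ'2 (e := e) (f := f) he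
      (fun m hm1 hm2 => hjf m hm1 hm2.le) (fun m hm1 hm2 => hje m hm1 hm2.le)
    exact ⟨h.1, h.2.1.trans (ENNReal.ofReal_le_ofReal hδ'), h.2.2⟩

end Pool.Agent.KS6_84.OB

namespace Pool.Agent.KS6_84.OBL

open Pool.Agent.KS6_84.OB

theorem nonempty_ne_two {p q : ℝ} (hp : 1 < p) (hp2 : p ≠ 2) (hq : 1 < q) :
    (D p (ENNReal.ofReal q)).Nonempty := by
  have hpc := Real.HolderConjugate.conjExponent hp
  have hqc := Real.HolderConjugate.conjExponent hq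
  set p' := p.conjExponent with hp'
  set q' := q.conjExponent with hq'
  have hp0 := hpc.pos
  rcases lt_or_gt_of_ne hp2 with h | h
  · have h2 : 2 < p' := by
      rw [hp', Real.conjExponent, lt_div_iff₀ (by linarith)]
      linarith
    obtain ⟨M, hM, hB, C, hMn, hC0, hC⟩ := exists_data hpc hqc (profV h2) (profU hp h)
    exact nonempty_of hpc hqc hC0 hC (c0c_pos (rho_gt hp0)) (Ct_pos (rho_gt hp0) hqc.pos)
      (low_lt hpc hqc hMn _ _)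
  · have h2 : p' < 2 := by
      rw [hp', Real.conjExponent, div_lt_iff₀ (by linarith)]
      linarith
    obtain ⟨M, hM, hB, C, hMn, hC0, hC⟩ := exists_data hpc hqc (profU hpc.symm.lt h2) (profV h)
    exact nonempty_of hpc hqc hC0 hC (c0c_pos (rho_gt hp0)) (Ct_pos (rho_gt hp0) hqc.pos)
      (low_gt hpc hqc hMn _ _)

end Pool.Agent.KS6_84.OBL
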