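import Pool.Agent.KS6_84.OB.Lac

/-!
Boundedness of a sum of finite rank operators acting on very different scales.
-/

set_option autoImplicit false

open MeasureTheory Set Filter Topology
open scoped ENNReal NNReal

namespace Pool.Agent.KS6_84.OB

/-- conditions on the scale sequences -/
structure LacOK (p q : ℝ) (L ω η : ℕ → ℝ) : Prop where
  hL : ∀ k, 1 ≤ L k
  hω : ∀ k, 0 ≤ ω k
  hη : ∀ k, 0 ≤ η k
  hs : ∀ k, ∑' i, ENNReal.ofReal (ω (k + 1 + i) * (4 * 2 ^ (i + 1)) ^ p) ≤ ENNReal.ofReal (η k)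
  hlog : ∑' k, ENNReal.ofReal ((η k) ^ (q / p) *
      Real.log (4 * ∑ i ∈ Finset.range (k + 1), L i)) ≤ 1

/-- coefficient functional -/
noncomputable def cf (Φ : ℕ → ℝ → ℝ) (f : ℝ → ℝ) (j : ℕ) : ℝ := ∫ y, f y * Φ j y ∂mu

/-- one generation of the operator -/
noncomputable def Tg (n : ℕ) (Φ Ψ : ℕ → ℝ → ℝ) (f : ℝ → ℝ) (y : ℝ) : ℝ :=
  ∑ j ∈ Finset.range n, cf Φ f j * Ψ j y

theorem A_one {p q : ℝ} (hp : 0 < p) (hq : 0 < q) :
    A p q (fun _ => 1) ≤ ENNReal.ofReal (1 / q) := by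
  have h := A_of_weak (p := p) (q := q) hp hq (F := fun _ => 1) (W := 1) (H := 1) zero_le_one le_rfl
    (fun l hl => by
      by_cases h1 : l < 1
      · refine (mu_le_one _).trans ?_
        rw [one_mul, ← ENNReal.ofReal_one]
        apply ENNReal.ofReal_le_ofReal
        exact Real.one_le_rpow_of_pos_of_le_one_of_nonpos hl h1.le (by linarith)
      · have : {y : ℝ | ENNReal.ofReal l < (fun _ => (1:ℝ≥0∞)) y} = ∅ := by
          ext y
          simp only [mem_ofPred_eq, mem_empty_iff_false, iff_false, not_lt]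
          rw [← ENNReal.ofReal_one]
          exact ENNReal.ofReal_le_ofReal (not_lt.1 h1)
        rw [this, measure_empty]
        exact zero_le)
    (Eventually.of_forall fun y => by simp)
  simpa using h

theorem A_integrable {p q p' q' : ℝ} (hp : p.HolderConjugate p') (hq : q.HolderConjugate q')
    {f : ℝ → ℝ} (hf : Measurable f) (hA : A p q (fun y => ‖f y‖ₑ) ≠ ∞) : Integrable f mu := by
  refine ⟨hf.aestronglyMeasurable, ?_⟩
  rw [hasFiniteIntegral_iff_enorm]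
  have h1 := hoelder hp hq (F := fun y => ‖f y‖ₑ) (G := fun _ => 1) hf.enorm measurable_const
  simp only [mul_one] at h1
  refine h1.trans_lt ?_
  rw [LF_eq hp.pos hq.pos, LF_eq hp.symm.pos hq.symm.pos]
  have hq0 := hq.pos
  have hq0' := hq.symm.pos
  refine ENNReal.mul_lt_top ?_ ?_
  · exact ENNReal.rpow_lt_top_of_nonneg (by positivity) (ENNReal.mul_ne_top ENNReal.ofReal_ne_top hA)
  · refine ENNReal.rpow_lt_top_of_nonneg (by positivity) (ENNReal.mul_ne_top ENNReal.ofReal_ne_top ?_)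
    exact ne_top_of_le_ne_top ENNReal.ofReal_ne_top (A_one hp.symm.pos hq.symm.pos)

theorem A_zero {p q : ℝ} (hp : 0 < p) (hq : 0 < q) : A p q (fun _ => 0) = 0 := by
  unfold A
  simp only [not_lt_zero, Set.ofPred_false, measure_empty]
  have hr : 0 < q / p := by positivity
  simp [ENNReal.zero_rpow_of_pos hr]

theorem A_const_mul_le {p q : ℝ} (hp : 0 < p) (hq : 0 < q) {c : ℝ} (hc : 0 ≤ c) (F : ℝ → ℝ≥0∞) :
    A p q (fun y => ENNReal.ofReal c * F y) ≤ ENNReal.ofReal (c ^ q) * A p q F := by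
  rcases eq_or_lt_of_le hc with h | h
  · rw [← h]
    simp only [ENNReal.ofReal_zero, zero_mul]
    rw [A_zero hp hq]
    exact zero_le
  · exact (A_const_mul hp hq h F).le

/-- first step: the coefficients of a function of norm at most one -/
theorem coef_bound {p q p' q' : ℝ} (hp : p.HolderConjugate p') (hq : q.HolderConjugate q')
    {J : ℕ → ℕ} {Φ : ℕ → ℕ → ℝ → ℝ} {N : ℕ → (ℝ → ℝ) → ℝ} {L ω η : ℕ → ℝ} {Ca : ℝ}
    (hN0 : ∀ n f, 0 ≤ N n f) (hΦm : ∀ n j, Measurable (Φ n j)) (hΦb : ∀ n j, ∃ b, ∀ y, |Φ n j y| ≤ b)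
    (hlac : LacOK p' q' L ω η)
    (hin : ∀ n (f : ℝ → ℝ), Measurable f → A p q (fun y => ‖f y‖ₑ) ≤ 1 →
      ∃ d : ℕ → ℝ, N n f ≤ ∑ j ∈ Finset.range (J n), cf (Φ n) f j * d j ∧
      (∀ l : ℝ, 0 < l → l ≤ ∑ i ∈ Finset.range n, L i →
        mu {y | ENNReal.ofReal l < ‖∑ j ∈ Finset.range (J n), d j * Φ n j y‖ₑ} ≤
        ENNReal.ofReal (ω n * l ^ (-p'))) ∧
      A p' q' (fun y => ‖∑ j ∈ Finset.range (J n), d j * Φ n j y‖ₑ) ≤ ENNReal.ofReal Ca ∧
      ∀ y, ‖∑ j ∈ Finset.range (J n), d j * Φ n j y‖ₑ ≤ ENNReal.ofReal (L n)) :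
    ∃ C : ℝ, 0 ≤ C ∧ ∀ f : ℝ → ℝ, Measurable f → A p q (fun y => ‖f y‖ₑ) ≤ 1 →
      ∀ K : ℕ, ∑ n ∈ Finset.range K, (N n f) ^ q ≤ C := by
  have hq0 := hq.pos
  have hq0' := hq.symm.pos
  have hp0 := hp.pos
  have hp0' := hp.symm.pos
  -- the constant
  set B : ℝ≥0∞ := (ENNReal.ofReal p * 1) ^ (1 / q) * (ENNReal.ofReal p' * (ENNReal.ofReal (1 / q') +
      2 ^ (q' / p') * (ENNReal.ofReal (4 ^ q') * ENNReal.ofReal Ca + 1))) ^ (1 / q') with hB
  have hBtop : B ≠ ∞ := by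
    have h2 : (2:ℝ≥0∞) ^ (q' / p') ≠ ∞ := ENNReal.rpow_ne_top_of_nonneg (by positivity) (by norm_num)
    rw [hB]
    refine ENNReal.mul_ne_top (ENNReal.rpow_ne_top_of_nonneg (by positivity)
      (ENNReal.mul_ne_top ENNReal.ofReal_ne_top (by norm_num))) ?_
    refine ENNReal.rpow_ne_top_of_nonneg (by positivity) (ENNReal.mul_ne_top ENNReal.ofReal_ne_top ?_)
    refine ENNReal.add_ne_top.2 ⟨ENNReal.ofReal_ne_top, ENNReal.mul_ne_top h2 ?_⟩
    exact ENNReal.add_ne_top.2 ⟨ENNReal.mul_ne_top ENNReal.ofReal_ne_top ENNReal.ofReal_ne_top,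
      by norm_num⟩
  refine ⟨B.toReal ^ q, by positivity, fun f hf hA K => ?_⟩
  set x : ℕ → ℝ := fun n => N n f with hx
  have hx0 : ∀ n, 0 ≤ x n := fun n => hN0 n _
  set Z := ∑ n ∈ Finset.range K, (x n) ^ q with hZ
  have hZ0 : 0 ≤ Z := Finset.sum_nonneg fun n _ => by have := hx0 n; positivity
  rcases eq_or_lt_of_le hZ0 with hz | hz
  · rw [← hz]; positivity
  choose d hd1 hd2 hd3 hd4 using fun n => hin n f hf hA
  set a : ℕ → ℝ := fun n => (x n) ^ (q - 1) / Z ^ (1 / q') with ha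
  have ha0 : ∀ n, 0 ≤ a n := fun n => by have := hx0 n; rw [ha]; positivity
  have hconj : (q - 1) * q' = q := hq.sub_one_mul_conj
  have haq : ∀ n, (a n) ^ q' = (x n) ^ q / Z := by
    intro n
    rw [ha]
    simp only
    rw [Real.div_rpow (by have := hx0 n; positivity) (by positivity), ← Real.rpow_mul (hx0 n), hconj,
      ← Real.rpow_mul hZ0, one_div_mul_cancel hq0'.ne', Real.rpow_one]
  have hasum : ∑ n ∈ Finset.range K, (a n) ^ q' = 1 := by
    simp_rw [haq]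
    rw [← Finset.sum_div, div_self hz.ne']
  have ha1 : ∀ n ∈ Finset.range K, a n ≤ 1 := by
    intro n hn
    have h1 : (a n) ^ q' ≤ 1 := by
      rw [← hasum]
      exact Finset.single_le_sum (f := fun n => (a n) ^ q') (fun n _ => by
        have := ha0 n; positivity) hn
    by_contra hcon
    push Not at hcon
    exact absurd h1 (not_le.2 (Real.one_lt_rpow hcon hq0'))
  set G : ℕ → ℝ → ℝ := fun n y => ∑ j ∈ Finset.range (J n), d n j * Φ n j y with hG
  set F : ℕ → ℝ → ℝ≥0∞ := fun n y => if n < K then ENNReal.ofReal (a n) * ‖G n y‖ₑ else 0 with hF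
  have hGm : ∀ n, Measurable (G n) := fun n =>
    Finset.measurable_sum _ fun j _ => (hΦm n j).const_mul _
  have hFle : ∀ n y, F n y ≤ ‖G n y‖ₑ := by
    intro n y
    rw [hF]
    simp only
    split_ifs with h
    · calc _ ≤ 1 * ‖G n y‖ₑ := by
            gcongr
            rw [← ENNReal.ofReal_one]
            exact ENNReal.ofReal_le_ofReal (ha1 n (Finset.mem_range.2 h))
        _ = _ := one_mul _
    · exact zero_le
  have hFA : ∀ n, A p' q' (F n) ≤ if n < K then ENNReal.ofReal ((a n) ^ q') * ENNReal.ofReal Ca else 0 := by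
    intro n
    rw [hF]
    simp only
    split_ifs with h
    · refine (A_const_mul_le hp0' hq0' (ha0 n) _).trans ?_
      gcongr
      exact hd3 n
    · rw [A_zero hp0' hq0']
  have hlacF := lac hp0' hq0' (F := F) hlac.hL (fun k y => (hFle k y).trans (hd4 k y)) hlac.hω hlac.hη
    (fun k l hl hl2 => (measure_mono fun y hy => lt_of_lt_of_le hy (hFle k y)).trans (hd2 k l hl hl2))
    hlac.hs hlac.hlog
  have hsumA : ∑' k, A p' q' (F k) ≤ ENNReal.ofReal Ca := by
    refine (ENNReal.tsum_le_tsum hFA).trans ?_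
    rw [tsum_eq_sum (s := Finset.range K) (fun n hn => by
      rw [Finset.mem_range] at hn
      rw [if_neg hn])]
    rw [Finset.sum_congr rfl (fun n hn => if_pos (Finset.mem_range.1 hn)), ← Finset.sum_mul,
      ← ENNReal.ofReal_sum_of_nonneg (fun n _ => by have := ha0 n; positivity), hasum,
      ENNReal.ofReal_one, one_mul]
  have hfi : Integrable f mu := A_integrable hp hq hf (ne_top_of_le_ne_top (by norm_num) hA)
  have hfΦ : ∀ n j, Integrable (fun y => f y * Φ n j y) mu := by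
    intro n j
    obtain ⟨b, hb⟩ := hΦb n j
    have := hfi.bdd_mul (hΦm n j).aestronglyMeasurable (c := b)
      (Eventually.of_forall fun y => by rw [Real.norm_eq_abs]; exact hb y)
    refine this.congr (Eventually.of_forall fun y => ?_)
    show Φ n j y * f y = f y * Φ n j y
    ring
  -- pairing
  have hpair : ∑ n ∈ Finset.range K, a n * x n ≤
      ∫ y, f y * ∑ n ∈ Finset.range K, a n * G n y ∂mu := by
    have e1 : ∫ y, f y * ∑ n ∈ Finset.range K, a n * G n y ∂mu =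
        ∑ n ∈ Finset.range K, a n * ∑ j ∈ Finset.range (J n), cf (Φ n) f j * d n j := by
      have e2 : ∀ y, f y * ∑ n ∈ Finset.range K, a n * G n y =
          ∑ n ∈ Finset.range K, ∑ j ∈ Finset.range (J n), (a n * d n j) * (f y * Φ n j y) := by
        intro y
        rw [Finset.mul_sum]
        refine Finset.sum_congr rfl fun n _ => ?_
        rw [hG]
        simp only
        rw [Finset.mul_sum, Finset.mul_sum]
        exact Finset.sum_congr rfl fun j _ => by ring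
      simp_rw [e2]
      rw [integral_finsetSum _ (fun n _ => integrable_finsetSum _ fun j _ => (hfΦ n j).const_mul _)]
      refine Finset.sum_congr rfl fun n _ => ?_
      rw [integral_finsetSum _ (fun j _ => (hfΦ n j).const_mul _), Finset.mul_sum]
      refine Finset.sum_congr rfl fun j _ => ?_
      rw [integral_const_mul]
      unfold cf
      ring
    rw [e1]
    exact Finset.sum_le_sum fun n _ => mul_le_mul_of_nonneg_left (hd1 n) (ha0 n)
  have hZq : ∑ n ∈ Finset.range K, a n * x n = Z ^ (1 / q) := by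
    have h1 : ∀ n, a n * x n = (x n) ^ q / Z ^ (1 / q') := by
      intro n
      rw [ha]
      simp only
      rcases eq_or_lt_of_le (hx0 n) with h | h
      · rw [← h, Real.zero_rpow hq0.ne']; simp
      · rw [div_mul_eq_mul_div]
        congr 1
        rw [← Real.rpow_add_one h.ne']
        congr 1
        ring
    simp_rw [h1]
    rw [← Finset.sum_div, ← hZ, div_eq_iff (by positivity), ← Real.rpow_add hz]
    have : 1 / q + 1 / q' = 1 := by
      rw [one_div, one_div]; exact hq.inv_add_inv_eq_one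
    rw [this, Real.rpow_one]
  have hfin : ENNReal.ofReal (Z ^ (1 / q)) ≤ B := by
    rw [← hZq]
    calc ENNReal.ofReal (∑ n ∈ Finset.range K, a n * x n)
        ≤ ENNReal.ofReal (∫ y, f y * ∑ n ∈ Finset.range K, a n * G n y ∂mu) :=
          ENNReal.ofReal_le_ofReal hpair
      _ ≤ ‖∫ y, f y * ∑ n ∈ Finset.range K, a n * G n y ∂mu‖ₑ := by
          rw [Real.enorm_eq_ofReal_abs]
          exact ENNReal.ofReal_le_ofReal (le_abs_self _)
      _ ≤ ∫⁻ y, ‖f y * ∑ n ∈ Finset.range K, a n * G n y‖ₑ ∂mu := enorm_integral_le_lintegral_enorm _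
      _ ≤ ∫⁻ y, ‖f y‖ₑ * ∑' n, F n y ∂mu := by
          refine lintegral_mono fun y => ?_
          rw [enorm_mul]
          gcongr
          calc ‖∑ n ∈ Finset.range K, a n * G n y‖ₑ ≤ ∑ n ∈ Finset.range K, ‖a n * G n y‖ₑ :=
                enorm_sum_le _ _
            _ = ∑ n ∈ Finset.range K, F n y := by
                refine Finset.sum_congr rfl fun n hn => ?_
                rw [hF]
                simp only
                rw [if_pos (Finset.mem_range.1 hn), enorm_mul, Real.enorm_of_nonneg (ha0 n)]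
            _ ≤ _ := ENNReal.sum_le_tsum _
      _ ≤ (LF p q (fun y => ‖f y‖ₑ)) ^ (1 / q) * (LF p' q' (fun y => ∑' n, F n y)) ^ (1 / q') := by
          refine hoelder hp hq hf.enorm (Measurable.ennreal_tsum fun n => ?_)
          rw [hF]
          simp only
          split_ifs
          · exact (hGm n).enorm.const_mul _
          · exact measurable_const
      _ ≤ B := by
          rw [LF_eq hp0 hq0, LF_eq hp0' hq0', hB]
          gcongr
          refine hlacF.trans ?_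
          gcongr
  have h1 : Z ^ (1 / q) ≤ B.toReal := (ENNReal.ofReal_le_iff_le_toReal hBtop).1 hfin
  calc Z = (Z ^ (1 / q)) ^ q := by
        rw [← Real.rpow_mul hZ0, one_div_mul_cancel hq0.ne', Real.rpow_one]
    _ ≤ B.toReal ^ q := Real.rpow_le_rpow (by positivity) h1 hq0.le

/-- the sum of the generations is bounded -/
theorem sum_bound {p q p' q' : ℝ} (hp : p.HolderConjugate p') (hq : q.HolderConjugate q')
    {J : ℕ → ℕ} {Φ Ψ : ℕ → ℕ → ℝ → ℝ} {N : ℕ → (ℝ → ℝ) → ℝ} {L ω η L' ω' η' ε : ℕ → ℝ} {Ca Cb : ℝ}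
    (hCb : 0 ≤ Cb) (hε : ∀ n, 0 ≤ ε n) (hεs : ∑' n, ENNReal.ofReal (ε n) ≤ 1)
    (hN0 : ∀ n f, 0 ≤ N n f) (hΦm : ∀ n j, Measurable (Φ n j)) (hΦb : ∀ n j, ∃ b, ∀ y, |Φ n j y| ≤ b)
    (hlac' : LacOK p' q' L' ω' η') (hlac : LacOK p q L ω η)
    (hin : ∀ n (f : ℝ → ℝ), Measurable f → A p q (fun y => ‖f y‖ₑ) ≤ 1 →
      ∃ d : ℕ → ℝ, N n f ≤ ∑ j ∈ Finset.range (J n), cf (Φ n) f j * d j ∧
      (∀ l : ℝ, 0 < l → l ≤ ∑ i ∈ Finset.range n, L' i →
        mu {y | ENNReal.ofReal l < ‖∑ j ∈ Finset.range (J n), d j * Φ n j y‖ₑ} ≤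
        ENNReal.ofReal (ω' n * l ^ (-p'))) ∧
      A p' q' (fun y => ‖∑ j ∈ Finset.range (J n), d j * Φ n j y‖ₑ) ≤ ENNReal.ofReal Ca ∧
      ∀ y, ‖∑ j ∈ Finset.range (J n), d j * Φ n j y‖ₑ ≤ ENNReal.ofReal (L' n))
    (hout : ∀ n (f : ℝ → ℝ), Measurable f → A p q (fun y => ‖f y‖ₑ) ≤ 1 →
      A p q (fun y => ‖Tg (J n) (Φ n) (Ψ n) f y‖ₑ) ≤ ENNReal.ofReal (Cb * (N n f) ^ q + ε n) ∧
      (∀ l : ℝ, 0 < l → l ≤ ∑ i ∈ Finset.range n, L i →
        mu {y | ENNReal.ofReal l < ‖Tg (J n) (Φ n) (Ψ n) f y‖ₑ} ≤ ENNReal.ofReal (ω n * l ^ (-p))) ∧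
      ∀ y, ‖Tg (J n) (Φ n) (Ψ n) f y‖ₑ ≤ ENNReal.ofReal (L n)) :
    ∃ C : ℝ, 0 ≤ C ∧ ∀ f : ℝ → ℝ, Measurable f → A p q (fun y => ‖f y‖ₑ) ≤ 1 →
      A p q (fun y => ∑' n, ‖Tg (J n) (Φ n) (Ψ n) f y‖ₑ) ≤ ENNReal.ofReal C := by
  obtain ⟨C0, hC0, hC0'⟩ := coef_bound hp hq hN0 hΦm hΦb hlac' hin
  have hq0 := hq.pos
  have hp0 := hp.pos
  have h2 : (2:ℝ≥0∞) ^ (q / p) ≠ ∞ := ENNReal.rpow_ne_top_of_nonneg (by positivity) (by norm_num)
  set B : ℝ≥0∞ := ENNReal.ofReal (1 / q) +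
      2 ^ (q / p) * (ENNReal.ofReal (4 ^ q) * (ENNReal.ofReal (Cb * C0) + 1) + 1) with hB
  have hBtop : B ≠ ∞ := by
    rw [hB]
    refine ENNReal.add_ne_top.2 ⟨ENNReal.ofReal_ne_top, ENNReal.mul_ne_top h2 ?_⟩
    exact ENNReal.add_ne_top.2 ⟨ENNReal.mul_ne_top ENNReal.ofReal_ne_top
      (ENNReal.add_ne_top.2 ⟨ENNReal.ofReal_ne_top, by norm_num⟩), by norm_num⟩
  refine ⟨B.toReal, ENNReal.toReal_nonneg, fun f hf hA => ?_⟩
  rw [ENNReal.ofReal_toReal hBtop]
  refine (lac hp0 hq0 (F := fun n y => ‖Tg (J n) (Φ n) (Ψ n) f y‖ₑ) hlac.hL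
    (fun k y => (hout k f hf hA).2.2 y) hlac.hω hlac.hη
    (fun k l hl hl2 => (hout k f hf hA).2.1 l hl hl2) hlac.hs hlac.hlog).trans ?_
  rw [hB]
  gcongr
  have hNq : ∀ n, 0 ≤ Cb * (N n f) ^ q := fun n => mul_nonneg hCb (by have := hN0 n f; positivity)
  refine (ENNReal.tsum_le_tsum fun n => (hout n f hf hA).1).trans ?_
  simp_rw [ENNReal.ofReal_add (hNq _) (hε _)]
  rw [ENNReal.tsum_add]
  refine add_le_add ?_ hεs
  rw [ENNReal.tsum_eq_iSup_nat]
  refine iSup_le fun K => ?_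
  rw [← ENNReal.ofReal_sum_of_nonneg (fun n _ => hNq n)]
  apply ENNReal.ofReal_le_ofReal
  rw [← Finset.mul_sum]
  exact mul_le_mul_of_nonneg_left (hC0' f hf hA K) hCb

end Pool.Agent.KS6_84.OB
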