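import Pool.Agent.KS6_84.OB.Gen

/-!
Choice of the scale sequences.
-/

set_option autoImplicit false

open MeasureTheory Set Filter Topology
open scoped ENNReal NNReal

namespace Pool.Agent.KS6_84.OB

noncomputable def et (p q : ℝ) (k : ℕ) (x : ℝ) : ℝ :=
  ((1 / 2) ^ (k + 1) / Real.log (4 * (k + 1) * x)) ^ (p / q)

theorem log_pos_aux {k : ℕ} {x : ℝ} (hx : 1 ≤ x) : 0 < Real.log (4 * (k + 1) * x) := by
  apply Real.log_pos
  have h0 : (0:ℝ) ≤ k := Nat.cast_nonneg k
  nlinarith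

theorem et_pos (p q : ℝ) (k : ℕ) {x : ℝ} (hx : 1 ≤ x) : 0 < et p q k x := by
  unfold et
  have := log_pos_aux (k := k) hx
  positivity

theorem et_anti {p q : ℝ} (hp : 0 < p) (hq : 0 < q) {k i : ℕ} {x y : ℝ} (hx : 1 ≤ x) (hxy : x ≤ y) :
    et p q (k + i) y ≤ et p q k x := by
  unfold et
  have h1 := log_pos_aux (k := k) hx
  have h0 : (0:ℝ) ≤ k := Nat.cast_nonneg k
  have h0' : (0:ℝ) ≤ i := Nat.cast_nonneg i
  have h2 : Real.log (4 * (k + 1) * x) ≤ Real.log (4 * ((k + i : ℕ) + 1) * y) := by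
    apply Real.log_le_log (by positivity)
    push_cast
    gcongr
    linarith
  apply Real.rpow_le_rpow
  · have := log_pos_aux (k := k + i) (hx.trans hxy)
    positivity
  · have h3 : ((1:ℝ) / 2) ^ (k + i + 1) ≤ (1 / 2) ^ (k + 1) :=
      pow_le_pow_of_le_one (by norm_num) (by norm_num) (by omega)
    exact div_le_div₀ (by positivity) h3 h1 h2
  · positivity

theorem tsum_half (x : ℝ) (hx : 0 ≤ x) :
    ∑' i : ℕ, ENNReal.ofReal (x * (1 / 2) ^ (i + 1)) = ENNReal.ofReal x := by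
  have hs : HasSum (fun i : ℕ => x * (1 / 2 / 2 ^ i)) (x * 1) := (hasSum_geometric_two' (1:ℝ)).mul_left _
  have hs2 : (fun i : ℕ => x * (1 / 2) ^ (i + 1)) = fun i : ℕ => x * (1 / 2 / 2 ^ i) := by
    funext i
    rw [pow_succ, one_div_pow]
    ring
  rw [mul_one, ← hs2] at hs
  rw [← ENNReal.ofReal_tsum_of_nonneg (fun i => by positivity) hs.summable, hs.tsum_eq]

theorem lacOK_of {p q : ℝ} (hp : 0 < p) (hq : 0 < q) {L ω : ℕ → ℝ} (hL : ∀ k, 1 ≤ L k)
    (hmono : Monotone L) (hω : ∀ k, 0 ≤ ω k)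
    (hstep : ∀ k, ω (k + 1) ≤ et p q k (L k) * ((4 * 2 ^ (k + 1)) ^ p)⁻¹ * (1 / 2) ^ (k + 1)) :
    ∃ η, LacOK p q L ω η := by
  refine ⟨fun k => et p q k (L k), hL, hω, fun k => (et_pos p q k (hL k)).le, fun k => ?_, ?_⟩
  · refine le_trans (ENNReal.tsum_le_tsum fun i => ENNReal.ofReal_le_ofReal ?_)
      (tsum_half _ (et_pos p q k (hL k)).le).le
    have h1 := hstep (k + i)
    rw [show k + 1 + i = k + i + 1 by ring]
    have h2 := et_anti (k := k) (i := i) hp hq (hL k) (hmono (show k ≤ k + i by omega))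
    have h3 : (4 * 2 ^ (i + 1) : ℝ) ^ p ≤ (4 * 2 ^ (k + i + 1)) ^ p := by
      apply Real.rpow_le_rpow (by positivity) _ hp.le
      gcongr
      · norm_num
      · omega
    have h4 : ((1:ℝ) / 2) ^ (k + i + 1) ≤ (1 / 2) ^ (i + 1) :=
      pow_le_pow_of_le_one (by norm_num) (by norm_num) (by omega)
    have h5 := et_pos p q (k + i) (hL (k + i))
    calc ω (k + i + 1) * (4 * 2 ^ (i + 1)) ^ p
        ≤ (et p q (k + i) (L (k + i)) * ((4 * 2 ^ (k + i + 1)) ^ p)⁻¹ * (1 / 2) ^ (k + i + 1)) *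
          (4 * 2 ^ (k + i + 1)) ^ p := by
          gcongr
      _ = et p q (k + i) (L (k + i)) * (1 / 2) ^ (k + i + 1) := by
          have : ((4 * 2 ^ (k + i + 1) : ℝ) ^ p) ≠ 0 := by positivity
          field_simp
      _ ≤ et p q k (L k) * (1 / 2) ^ (i + 1) := by
          gcongr
          exact h5.le.trans h2
  · have h1 : ∀ k, ENNReal.ofReal ((et p q k (L k)) ^ (q / p) *
        Real.log (4 * ∑ i ∈ Finset.range (k + 1), L i)) ≤ ENNReal.ofReal (1 * (1 / 2) ^ (k + 1)) := by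
      intro k
      apply ENNReal.ofReal_le_ofReal
      have hlp := log_pos_aux (k := k) (hL k)
      have h0 : (0:ℝ) ≤ k := Nat.cast_nonneg k
      have h2 : (et p q k (L k)) ^ (q / p) = (1 / 2) ^ (k + 1) / Real.log (4 * (k + 1) * L k) := by
        unfold et
        rw [← Real.rpow_mul (by positivity), show p / q * (q / p) = 1 by field_simp, Real.rpow_one]
      have h3 : ∑ i ∈ Finset.range (k + 1), L i ≤ (k + 1) * L k := by
        calc ∑ i ∈ Finset.range (k + 1), L i ≤ ∑ i ∈ Finset.range (k + 1), L k :=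
              Finset.sum_le_sum fun i hi => hmono (by rw [Finset.mem_range] at hi; omega)
          _ = _ := by rw [Finset.sum_const, Finset.card_range, nsmul_eq_mul]; push_cast; ring
      have h4 : (1:ℝ) ≤ ∑ i ∈ Finset.range (k + 1), L i := by
        refine (hL 0).trans (Finset.single_le_sum (f := L) (fun i _ => zero_le_one.trans (hL i)) ?_)
        simp
      have h5 : Real.log (4 * ∑ i ∈ Finset.range (k + 1), L i) ≤ Real.log (4 * (k + 1) * L k) := by
        apply Real.log_le_log (by positivity)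
        rw [mul_assoc]
        gcongr
      rw [h2, one_mul]
      calc (1 / 2) ^ (k + 1) / Real.log (4 * (k + 1) * L k) *
            Real.log (4 * ∑ i ∈ Finset.range (k + 1), L i)
          ≤ (1 / 2) ^ (k + 1) / Real.log (4 * (k + 1) * L k) * Real.log (4 * (k + 1) * L k) := by
            gcongr
        _ = _ := by field_simp
    refine (ENNReal.tsum_le_tsum h1).trans ?_
    rw [tsum_half 1 zero_le_one, ENNReal.ofReal_one]

/-- recursive choice -/
theorem exists_chain {R : ℕ → ℕ → ℕ → Prop} (h : ∀ k m, ∃ m', R k m m') :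
    ∃ M : ℕ → ℕ, M 0 = 1 ∧ ∀ k, R k (M k) (M (k + 1)) := by
  choose g hg using h
  exact ⟨fun n => Nat.rec 1 (fun k m => g k m) n, rfl, fun k => hg k _⟩

theorem eventually_pow_le {K θ ε : ℝ} (hθ : 0 < θ) (hε : 0 < ε) :
    ∀ᶠ m : ℕ in atTop, K * (m:ℝ) ^ (-θ) ≤ ε := by
  have h1 : Tendsto (fun m : ℕ => K * (m:ℝ) ^ (-θ)) atTop (𝓝 (K * 0)) :=
    ((tendsto_rpow_neg_atTop hθ).comp tendsto_natCast_atTop_atTop).const_mul K
  rw [mul_zero] at h1
  filter_upwards [h1.eventually (gt_mem_nhds hε)] with m hm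
  exact hm.le

end Pool.Agent.KS6_84.OB
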