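import Pool.Agent.KS6_84.OB.Prof
import Pool.Agent.KS6_84.OB.Seq

/-!
Boundedness of the operator built from two families of profiles, `p ≠ 2`.
-/

set_option autoImplicit false

open MeasureTheory Set Filter Topology
open scoped ENNReal NNReal

namespace Pool.Agent.KS6_84.OB

/-- the operator data -/
noncomputable def dataOf {p p' : ℝ} (q q' : ℝ) (M : ℕ → ℕ) (hM : ∀ n, 1 ≤ M n)
    (hB : ∀ n, 3 * M n + 8 ^ (3 * M n) ≤ 3 * M (n + 1)) {θΦ θΨ : ℕ → ℕ → ℝ → ℝ}
    (hΦ : Prof p' θΦ) (hΨ : Prof p θΨ) : Data where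
  B n := 3 * M n
  φ n j y := (M n : ℝ) ^ (-1 / q') * θΦ (M n) j y
  ψ n j y := (M n : ℝ) ^ (-1 / q) * θΨ (M n) j y
  hB := hB
  hφ n j := (hΦ.step (M n) j).comp (fun x => (M n : ℝ) ^ (-1 / q') * x)
  hψ n j := (hΨ.step (M n) j).comp (fun x => (M n : ℝ) ^ (-1 / q) * x)
  hb n j := ⟨|(M n : ℝ) ^ (-1 / q')| * 8 ^ (4 * M n), fun y => by
    rw [abs_mul]
    exact mul_le_mul_of_nonneg_left (hΦ.bound (M n) (hM n) j y) (abs_nonneg _)⟩

/-- choice of a dual sequence -/
theorem dual_choice {p p' : ℝ} (hp : p.HolderConjugate p') (M : ℕ) (c : ℕ → ℝ) :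
    ∃ d : ℕ → ℝ, SP M p' d ≤ 1 ∧
      (SP M p c) ^ (1 / p) ≤ ∑ j ∈ Finset.range (8 ^ (3 * M)), c j * d j := by
  have hp0 := hp.pos
  have hp0' := hp.symm.pos
  have hp1 := hp.lt
  have hS := SP_nonneg M p c
  rcases eq_or_lt_of_le hS with h0 | h0
  · refine ⟨fun _ => 0, ?_, ?_⟩
    · have : SP M p' (fun _ => 0) = 0 := by
        unfold SP DJ
        simp [Real.zero_rpow hp0'.ne']
      rw [this]
      exact zero_le_one
    · rw [← h0, Real.zero_rpow (by positivity)]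
      simp
  · set N := (SP M p c) ^ (1 / p) with hN
    have hN0 : 0 < N := by positivity
    have hNp : N ^ p = SP M p c := by
      rw [hN, ← Real.rpow_mul hS, one_div_mul_cancel hp0.ne', Real.rpow_one]
    set a : ℕ → ℝ := fun J => (DJ M c J) ^ (p - 2) / N ^ (p - 1) with ha
    have ha0 : ∀ J, 0 ≤ a J := fun J => by
      have := DJ_nonneg M c J
      rw [ha]; positivity
    refine ⟨fun j => a (j / 8 ^ M) * c j, le_of_eq ?_, ?_⟩
    · unfold SP
      have h1 : ∀ J, (DJ M (fun j => a (j / 8 ^ M) * c j) J) ^ p' = (DJ M c J) ^ p / N ^ p := by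
        intro J
        rw [DJ_scale M c J ha0]
        have hD := DJ_nonneg M c J
        rcases eq_or_lt_of_le hD with hD0 | hD0
        · rw [← hD0, mul_zero, Real.zero_rpow hp0'.ne', Real.zero_rpow hp0.ne', zero_div]
        · rw [ha]
          simp only
          have h2 : (DJ M c J) ^ (p - 2) / N ^ (p - 1) * DJ M c J = (DJ M c J) ^ (p - 1) / N ^ (p - 1) := by
            rw [div_mul_eq_mul_div, ← Real.rpow_add_one hD0.ne']
            congr 2
            ring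
          rw [h2, Real.div_rpow (by positivity) (by positivity), ← Real.rpow_mul hD, ← Real.rpow_mul hN0.le,
            hp.sub_one_mul_conj]
      simp_rw [h1]
      rw [← Finset.sum_div]
      show SP M p c / N ^ p = 1
      rw [hNp, div_self h0.ne']
    · have h1 : ∑ j ∈ Finset.range (8 ^ (3 * M)), c j * (a (j / 8 ^ M) * c j) =
          SP M p c / N ^ (p - 1) := by
        calc _ = ∑ j ∈ Finset.range (8 ^ (3 * M)), (c j) ^ 2 * a (j / 8 ^ M) :=
              Finset.sum_congr rfl fun j _ => by ring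
          _ = ∑ J ∈ Finset.range (8 ^ (2 * M)), (DJ M c J) ^ 2 * a J := by
              rw [sum_blocks M (fun j => (c j) ^ 2) a]
              exact Finset.sum_congr rfl fun J _ => by rw [DJ_sq]
          _ = _ := by
              unfold SP
              rw [Finset.sum_div]
              refine Finset.sum_congr rfl fun J _ => ?_
              have hD := DJ_nonneg M c J
              rw [ha]
              simp only
              rcases eq_or_lt_of_le hD with hD0 | hD0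
              · rw [← hD0, Real.zero_rpow hp0.ne']; simp
              · rw [mul_div_assoc']
                congr 1
                rw [← Real.rpow_two, ← Real.rpow_add hD0]
                congr 1
                ring
      rw [h1, ← hNp, ← Real.rpow_sub hN0]
      have : p - (p - 1) = 1 := by ring
      rw [this, Real.rpow_one]

theorem pair_sum {n : ℕ} {Φ : ℕ → ℝ → ℝ} {f : ℝ → ℝ}
    (hint : ∀ j, Integrable (fun y => f y * Φ j y) mu) (d : ℕ → ℝ) :
    ∑ j ∈ Finset.range n, cf Φ f j * d j = ∫ y, f y * ∑ j ∈ Finset.range n, d j * Φ j y ∂mu := by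
  have e1 : ∀ y, f y * ∑ j ∈ Finset.range n, d j * Φ j y =
      ∑ j ∈ Finset.range n, d j * (f y * Φ j y) := by
    intro y
    rw [Finset.mul_sum]
    exact Finset.sum_congr rfl fun j _ => by ring
  simp_rw [e1]
  rw [integral_finsetSum _ (fun j _ => (hint j).const_mul _)]
  refine Finset.sum_congr rfl fun j _ => ?_
  rw [integral_const_mul]
  unfold cf
  ring

theorem pow_conj {m : ℝ} (hm : 0 < m) (p q : ℝ) : (m ^ (-1 / q)) ^ p = m ^ (-(p / q)) := by
  rw [← Real.rpow_mul hm.le]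
  congr 1
  ring

/-- boundedness -/
theorem exists_data {p q p' q' : ℝ} (hp : p.HolderConjugate p') (hq : q.HolderConjugate q')
    {θΦ θΨ : ℕ → ℕ → ℝ → ℝ} (hΦ : Prof p' θΦ) (hΨ : Prof p θΨ) :
    ∃ (M : ℕ → ℕ) (hM : ∀ n, 1 ≤ M n) (hB : ∀ n, 3 * M n + 8 ^ (3 * M n) ≤ 3 * M (n + 1)) (C : ℝ),
      (∀ n, n ≤ M n) ∧ 0 ≤ C ∧ (dataOf q q' M hM hB hΦ hΨ).Bdd p q C := by
  have hp0 := hp.pos
  have hq0 := hq.pos
  have hp0' := hp.symm.pos
  have hq0' := hq.symm.pos
  obtain ⟨CΦ, hCΦ, hwΦ⟩ := hΦ.weak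
  obtain ⟨CΨ, hCΨ, hwΨ⟩ := hΨ.weak
  obtain ⟨N0, hN0, hpair⟩ := pair_bound hp hq (Cs p' q' CΦ)
  set K1 : ℝ := N0 + 1 with hK1
  have hK1' : 1 ≤ K1 := by linarith
  set R : ℕ → ℕ → ℕ → Prop := fun k m m' =>
    3 * m + 8 ^ (3 * m) ≤ 3 * m' ∧ k + 1 ≤ m' ∧
    CΦ * (m':ℝ) ^ (-(p' / q')) ≤ et p' q' k (8 ^ (7 * m)) * ((4 * 2 ^ (k + 1)) ^ p')⁻¹ * (1 / 2) ^ (k + 1) ∧
    (CΨ * N0 ^ p) * (m':ℝ) ^ (-(p / q)) ≤
      et p q k (K1 * 8 ^ (7 * m)) * ((4 * 2 ^ (k + 1)) ^ p)⁻¹ * (1 / 2) ^ (k + 1) with hR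
  have h8 : ∀ m : ℕ, (1:ℝ) ≤ 8 ^ (7 * m) := fun m => one_le_pow₀ (by norm_num)
  have hK8 : ∀ m : ℕ, (1:ℝ) ≤ K1 * 8 ^ (7 * m) := fun m => one_le_mul_of_one_le_of_one_le hK1' (h8 m)
  have hRex : ∀ k m, ∃ m', R k m m' := by
    intro k m
    have a1 : ∀ᶠ m' : ℕ in atTop, 3 * m + 8 ^ (3 * m) ≤ 3 * m' := by
      filter_upwards [eventually_ge_atTop (3 * m + 8 ^ (3 * m))] with m' hm'
      omega
    have a2 : ∀ᶠ m' : ℕ in atTop, k + 1 ≤ m' := eventually_ge_atTop _
    have a3 := eventually_pow_le (K := CΦ) (θ := p' / q')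
      (ε := et p' q' k (8 ^ (7 * m)) * ((4 * 2 ^ (k + 1)) ^ p')⁻¹ * (1 / 2) ^ (k + 1))
      (by positivity) (by have := et_pos p' q' k (h8 m); positivity)
    have a4 := eventually_pow_le (K := CΨ * N0 ^ p) (θ := p / q)
      (ε := et p q k (K1 * 8 ^ (7 * m)) * ((4 * 2 ^ (k + 1)) ^ p)⁻¹ * (1 / 2) ^ (k + 1))
      (by positivity) (by have := et_pos p q k (hK8 m); positivity)
    obtain ⟨m', b1, b2, b3, b4⟩ := (a1.and (a2.and (a3.and a4))).exists
    exact ⟨m', b1, b2, b3, b4⟩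
  obtain ⟨M, hM0, hMR⟩ := exists_chain hRex
  have hM : ∀ n, 1 ≤ M n := by
    intro n
    cases n with
    | zero => rw [hM0]
    | succ n => have := (hMR n).2.1; omega
  have hMn : ∀ n, n ≤ M n := by
    intro n
    cases n with
    | zero => exact Nat.zero_le _
    | succ n => exact (hMR n).2.1
  have hB : ∀ n, 3 * M n + 8 ^ (3 * M n) ≤ 3 * M (n + 1) := fun n => (hMR n).1
  have hmono : Monotone M := monotone_nat_of_le_succ fun n => by
    have := le_trans (Nat.le_add_right _ _) (hB n)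
    omega
  have hMpos : ∀ n, (0:ℝ) < M n := fun n => by exact_mod_cast hM n
  have hL'mono : Monotone (fun n => (8:ℝ) ^ (7 * M n)) := fun a b hab =>
    pow_le_pow_right₀ (by norm_num) (by have := hmono hab; omega)
  have hLmono : Monotone (fun n => K1 * (8:ℝ) ^ (7 * M n)) := fun a b hab =>
    mul_le_mul_of_nonneg_left (hL'mono hab) (by linarith)
  obtain ⟨η', hlac'⟩ := lacOK_of (p := p') (q := q') hp0' hq0' (L := fun n => (8:ℝ) ^ (7 * M n))
    (ω := fun n => CΦ * (M n : ℝ) ^ (-(p' / q'))) (fun k => h8 (M k)) hL'mono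
    (fun k => by positivity) (fun k => (hMR k).2.2.1)
  obtain ⟨η, hlac⟩ := lacOK_of (p := p) (q := q) hp0 hq0 (L := fun n => K1 * (8:ℝ) ^ (7 * M n))
    (ω := fun n => (CΨ * N0 ^ p) * (M n : ℝ) ^ (-(p / q))) (fun k => hK8 (M k)) hLmono
    (fun k => by positivity) (fun k => (hMR k).2.2.2)
  set S := dataOf q q' M hM hB hΦ hΨ with hS
  have hGeq : ∀ n (d : ℕ → ℝ) y, ∑ j ∈ Finset.range (8 ^ (3 * M n)), d j * S.Φ n j y =
      (M n : ℝ) ^ (-1 / q') * W (3 * M n) (8 ^ (3 * M n)) (fun j y => d j * θΦ (M n) j y) y := by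
    intro n d y
    unfold W
    rw [Finset.mul_sum]
    refine Finset.sum_congr rfl fun j _ => ?_
    show d j * ((M n : ℝ) ^ (-1 / q') * θΦ (M n) j y * rad (3 * M n + j + 1) y) = _
    ring
  have hTeq : ∀ n (f : ℝ → ℝ) y, Tg (8 ^ (3 * M n)) (S.Φ n) (S.Ψ n) f y =
      (M n : ℝ) ^ (-1 / q) * W (3 * M n) (8 ^ (3 * M n))
        (fun j y => cf (S.Φ n) f j * θΨ (M n) j y) y := by
    intro n f y
    unfold W Tg
    rw [Finset.mul_sum]
    refine Finset.sum_congr rfl fun j _ => ?_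
    show cf (S.Φ n) f j * ((M n : ℝ) ^ (-1 / q) * θΨ (M n) j y * rad (3 * M n + j + 1) y) = _
    ring
  have hspos : ∀ n (r : ℝ), 0 < (M n : ℝ) ^ (-1 / r) := fun n r => by
    have := hMpos n; positivity
  have hsle : ∀ n (r : ℝ), 0 < r → (M n : ℝ) ^ (-1 / r) ≤ 1 := fun n r hr => by
    rw [show (-1 / r) = -(1 / r) by ring, Real.rpow_neg (hMpos n).le]
    exact inv_le_one_of_one_le₀ (Real.one_le_rpow (by exact_mod_cast hM n) (by positivity))
  have hSPle : ∀ {n : ℕ} {r : ℝ} {c : ℕ → ℝ} {N : ℝ}, 0 < r → 0 ≤ N → (SP (M n) r c) ^ (1 / r) ≤ N →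
      ∀ j, j < 8 ^ (3 * M n) → |c j| ≤ N := by
    intro n r c N hr hN hle j hj
    have h1 := abs_le_SP hr c hj
    have h2 : |c j| = (|c j| ^ r) ^ (1 / r) := by
      rw [← Real.rpow_mul (abs_nonneg _), mul_one_div_cancel hr.ne', Real.rpow_one]
    rw [h2]
    exact (Real.rpow_le_rpow (by positivity) h1 (by positivity)).trans hle
  -- properties of the dual functions
  have hdual : ∀ n (d : ℕ → ℝ), SP (M n) p' d ≤ 1 →
      (∀ l : ℝ, 0 < l → mu {y | ENNReal.ofReal l < ‖∑ j ∈ Finset.range (8 ^ (3 * M n)), d j * S.Φ n j y‖ₑ} ≤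
        ENNReal.ofReal ((CΦ * (M n : ℝ) ^ (-(p' / q'))) * l ^ (-p'))) ∧
      A p' q' (fun y => ‖∑ j ∈ Finset.range (8 ^ (3 * M n)), d j * S.Φ n j y‖ₑ) ≤
        ENNReal.ofReal (Cs p' q' CΦ) ∧
      ∀ y, ‖∑ j ∈ Finset.range (8 ^ (3 * M n)), d j * S.Φ n j y‖ₑ ≤ ENNReal.ofReal (8 ^ (7 * M n)) := by
    intro n d hd
    refine ⟨fun l hl => ?_, ?_, fun y => ?_⟩
    · simp_rw [hGeq]
      refine (synth_weak (fun l hl => hwΦ (M n) d l hl) (hspos n q') hl).trans ?_
      apply ENNReal.ofReal_le_ofReal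
      rw [pow_conj (hMpos n)]
      have h1 : CΦ * (M n : ℝ) ^ (-(p' / q')) * SP (M n) p' d ≤ CΦ * (M n : ℝ) ^ (-(p' / q')) * 1 := by
        gcongr
      rw [mul_one] at h1
      gcongr
    · simp_rw [hGeq]
      exact synth_A_one hp0' hq0' hCΦ (hM n) (hΦ.bound (M n) (hM n)) (fun l hl => hwΦ (M n) d l hl) hd
    · rw [hGeq]
      have := synth_sup (hΦ.bound (M n) (hM n)) (hspos n q').le (hsle n q' hq0') zero_le_one
        (hSPle (n := n) (r := p') (c := d) hp0' zero_le_one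
          (Real.rpow_le_one (SP_nonneg _ _ _) hd (by positivity))) y
      rwa [one_mul] at this
  -- bound for the coefficients
  have hcoef : ∀ n (f : ℝ → ℝ), Measurable f → A p q (fun y => ‖f y‖ₑ) ≤ 1 →
      (SP (M n) p (cf (S.Φ n) f)) ^ (1 / p) ≤ N0 := by
    intro n f hf hA
    obtain ⟨d, hd1, hd2⟩ := dual_choice hp (M n) (cf (S.Φ n) f)
    have hfi : Integrable f mu := A_integrable hp hq hf (ne_top_of_le_ne_top (by norm_num) hA)
    refine hd2.trans ?_
    rw [pair_sum (fun j => S.int_Φ n j hfi)]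
    exact hpair f _ hf (Finset.measurable_sum _ fun j _ => (S.Φ_meas n j).const_mul _) hA
      (hdual n d hd1).2.1
  obtain ⟨C, hC0, hC⟩ := sum_bound (Φ := S.Φ) (Ψ := S.Ψ) (J := fun n => 8 ^ (3 * M n))
    (N := fun n f => (SP (M n) p (cf (S.Φ n) f)) ^ (1 / p)) (ε := fun _ => 0)
    (Ca := Cs p' q' CΦ) (Cb := Cs p q CΨ) hp hq (Cs_nonneg hq0 hCΨ) (fun _ => le_rfl) (by simp)
    (fun n f => by have := SP_nonneg (M n) p (cf (S.Φ n) f); positivity)
    (fun n j => S.Φ_meas n j) (fun n j => S.Φ_bdd n j) hlac' hlac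
    (fun n f hf hA => by
      obtain ⟨d, hd1, hd2⟩ := dual_choice hp (M n) (cf (S.Φ n) f)
      obtain ⟨b1, b2, b3⟩ := hdual n d hd1
      exact ⟨d, hd2, fun l hl _ => b1 l hl, b2, b3⟩)
    (fun n f hf hA => by
      have hcN := hcoef n f hf hA
      refine ⟨?_, fun l hl _ => ?_, fun y => ?_⟩
      · simp_rw [hTeq]
        rw [add_zero]
        exact synth_A hp0 hq0 hCΨ (hM n) (hΨ.bound (M n) (hM n)) (fun c l hl => hwΨ (M n) c l hl) _
      · simp_rw [hTeq]
        refine (synth_weak (fun l hl => hwΨ (M n) (cf (S.Φ n) f) l hl) (hspos n q) hl).trans ?_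
        apply ENNReal.ofReal_le_ofReal
        rw [pow_conj (hMpos n)]
        have h1 : SP (M n) p (cf (S.Φ n) f) ≤ N0 ^ p := by
          calc SP (M n) p (cf (S.Φ n) f) = ((SP (M n) p (cf (S.Φ n) f)) ^ (1 / p)) ^ p := by
                rw [← Real.rpow_mul (SP_nonneg _ _ _), one_div_mul_cancel hp0.ne', Real.rpow_one]
            _ ≤ N0 ^ p := by
                apply Real.rpow_le_rpow _ hcN hp0.le
                have := SP_nonneg (M n) p (cf (S.Φ n) f)
                positivity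
        calc CΨ * (M n : ℝ) ^ (-(p / q)) * SP (M n) p (cf (S.Φ n) f) * l ^ (-p)
            ≤ CΨ * (M n : ℝ) ^ (-(p / q)) * N0 ^ p * l ^ (-p) := by gcongr
          _ = _ := by ring
      · rw [hTeq]
        refine (synth_sup (hΨ.bound (M n) (hM n)) (hspos n q).le (hsle n q hq0) hN0
          (hSPle (n := n) (r := p) hp0 hN0 hcN) y).trans ?_
        apply ENNReal.ofReal_le_ofReal
        gcongr
        linarith)
  exact ⟨M, hM, hB, C, hMn, hC0, hC⟩

end Pool.Agent.KS6_84.OB
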