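import Pool.Agent.KS6_84.OB.Lac

/-!
Lorentz functionals for `p = 2` controlled by the `L²` norm.
-/

set_option autoImplicit false

open MeasureTheory Set Filter Topology
open scoped ENNReal NNReal

namespace Pool.Agent.KS6_84.OB

/-- layer cake for the `L²` norm -/
theorem A22 {F : ℝ → ℝ≥0∞} (hF : Measurable F) :
    ENNReal.ofReal 2 * A 2 2 F = ∫⁻ y, (F y) ^ (2:ℝ) ∂mu := by
  have h1 : ∫⁻ y, (F y) ^ (2:ℝ) ∂mu = ∫⁻ y, ∫⁻ l in Ioi (0:ℝ),
      (if ENNReal.ofReal l < F y then ENNReal.ofReal (2 * l ^ ((2:ℝ) - 1)) else 0) ∂volume ∂mu :=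
    lintegral_congr fun y => powint _ two_pos
  rw [h1, lintegral_lintegral_swap]
  · unfold A
    rw [← lintegral_const_mul' _ _ ENNReal.ofReal_ne_top]
    refine setLIntegral_congr_fun measurableSet_Ioi fun l hl => ?_
    have hl0 : (0:ℝ) < l := hl
    have hms : MeasurableSet {y | ENNReal.ofReal l < F y} := measurableSet_lt measurable_const hF
    have e1 : ∫⁻ y, (if ENNReal.ofReal l < F y then ENNReal.ofReal (2 * l ^ ((2:ℝ) - 1)) else 0) ∂mu =
        ENNReal.ofReal (2 * l ^ ((2:ℝ) - 1)) * mu {y | ENNReal.ofReal l < F y} := by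
      rw [show (fun y => if ENNReal.ofReal l < F y then ENNReal.ofReal (2 * l ^ ((2:ℝ) - 1)) else 0) =
        {y | ENNReal.ofReal l < F y}.indicator (fun _ => ENNReal.ofReal (2 * l ^ ((2:ℝ) - 1))) from by
          funext y; simp [indicator]]
      rw [lintegral_indicator_const hms]
    rw [e1, ENNReal.ofReal_mul (by norm_num)]
    norm_num
    ring
  · refine Measurable.aemeasurable ?_
    refine Measurable.ite ?_ (by fun_prop) measurable_const
    exact measurableSet_lt (ENNReal.measurable_ofReal.comp measurable_snd)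
      (hF.comp measurable_fst)

theorem A22_le {F : ℝ → ℝ≥0∞} (hF : Measurable F) : A 2 2 F ≤ ∫⁻ y, (F y) ^ (2:ℝ) ∂mu := by
  rw [← A22 hF]
  calc A 2 2 F = 1 * A 2 2 F := (one_mul _).symm
    _ ≤ ENNReal.ofReal 2 * A 2 2 F := by
        gcongr
        rw [← ENNReal.ofReal_one]
        exact ENNReal.ofReal_le_ofReal (by norm_num)

/-- Chebyshev -/
theorem cheb2 {F : ℝ → ℝ≥0∞} (hF : Measurable F) {l : ℝ} (hl : 0 < l) :
    ENNReal.ofReal (l ^ (2:ℝ)) * mu {y | ENNReal.ofReal l < F y} ≤ ∫⁻ y, (F y) ^ (2:ℝ) ∂mu := by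
  have h1 := mul_meas_ge_le_lintegral₀ (μ := mu) (f := fun y => (F y) ^ (2:ℝ))
    (hF.pow_const _).aemeasurable (ENNReal.ofReal (l ^ (2:ℝ)))
  refine le_trans ?_ h1
  gcongr
  intro hy
  have hy' : ENNReal.ofReal l < F _ := hy
  rw [← ENNReal.ofReal_rpow_of_nonneg hl.le (by norm_num)]
  exact ENNReal.rpow_le_rpow hy'.le (by norm_num)

/-- `L² ⊂ L^{2,q}` for `q ≥ 2` -/
theorem A_of_L2_big {q : ℝ} (hq : 2 ≤ q) {F : ℝ → ℝ≥0∞} (hF : Measurable F) :
    A 2 q F ≤ (∫⁻ y, (F y) ^ (2:ℝ) ∂mu) ^ (q / 2) := by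
  set E := ∫⁻ y, (F y) ^ (2:ℝ) ∂mu with hE
  have hr : 0 ≤ q / 2 - 1 := by linarith
  by_cases hEt : E = ∞
  · rw [hEt, ENNReal.top_rpow_of_pos (by linarith)]
    exact le_top
  calc A 2 q F ≤ ∫⁻ l in Ioi (0:ℝ), E ^ (q / 2 - 1) * (ENNReal.ofReal (l ^ ((2:ℝ) - 1)) *
        (mu {y | ENNReal.ofReal l < F y}) ^ ((2:ℝ) / 2)) := by
        unfold A
        refine setLIntegral_mono' measurableSet_Ioi fun l hl => ?_
        have hl0 : (0:ℝ) < l := hl
        set m := mu {y | ENNReal.ofReal l < F y} with hm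
        have e1 : ENNReal.ofReal (l ^ (q - 1)) * m ^ (q / 2) =
            (ENNReal.ofReal (l ^ (2:ℝ)) * m) ^ (q / 2 - 1) * (ENNReal.ofReal (l ^ ((2:ℝ) - 1)) *
              m ^ ((2:ℝ) / 2)) := by
          rw [ENNReal.mul_rpow_of_nonneg _ _ hr, ENNReal.ofReal_rpow_of_nonneg (by positivity) hr,
            ← Real.rpow_mul hl0.le]
          have e2 : m ^ (q / 2) = m ^ (q / 2 - 1) * m ^ ((2:ℝ) / 2) := by
            rw [← ENNReal.rpow_add_of_nonneg _ _ hr (by norm_num)]
            congr 1
            ring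
          have e3 : l ^ (q - 1) = l ^ (2 * (q / 2 - 1)) * l ^ ((2:ℝ) - 1) := by
            rw [← Real.rpow_add hl0]
            congr 1
            ring
          rw [e2, e3, ENNReal.ofReal_mul (by positivity)]
          ring
        rw [e1]
        gcongr
        exact cheb2 hF hl0
    _ = E ^ (q / 2 - 1) * A 2 2 F := by
        rw [lintegral_const_mul' _ _ (ENNReal.rpow_ne_top_of_nonneg hr hEt)]
        rfl
    _ ≤ E ^ (q / 2 - 1) * E := by
        gcongr
        exact A22_le hF
    _ = _ := by
        conv_lhs => rw [← ENNReal.rpow_one E]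
        rw [← ENNReal.rpow_mul, one_mul, ← ENNReal.rpow_add_of_nonneg _ _ hr zero_le_one]
        congr 1
        ring

theorem log_int2 {θ H : ℝ} (hθ : 0 < θ) (hH : θ ≤ H) :
    ∫⁻ l in Ioc θ H, ENNReal.ofReal l⁻¹ = ENNReal.ofReal (Real.log (H / θ)) := by
  rw [← ofReal_integral_eq_lintegral_ofReal]
  · congr 1
    rw [← intervalIntegral.integral_of_le hH, integral_inv_of_pos hθ (by linarith)]
  · have : IntervalIntegrable (fun l : ℝ => l⁻¹) volume θ H := by
      refine intervalIntegral.intervalIntegrable_inv (fun x hx => ?_) continuousOn_id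
      rw [uIcc_of_le hH] at hx
      have := hx.1
      show x ≠ 0
      linarith
    rw [intervalIntegrable_iff_integrableOn_Ioc_of_le hH] at this
    exact this
  · filter_upwards [ae_restrict_mem measurableSet_Ioc] with l hl
    have : 0 < l := lt_trans hθ hl.1
    positivity

/-- bound for `s < 2` through the `L²` norm, the logarithmic range and a tail bound -/
theorem A_small {s θ H E V : ℝ} (hs : 0 < s) (hs2 : s < 2) (hθ : 0 < θ) (hH : θ ≤ H) (hE0 : 0 ≤ E)
    (hV0 : 0 ≤ V) {F : ℝ → ℝ≥0∞} (hF : Measurable F) (hE : ∫⁻ y, (F y) ^ (2:ℝ) ∂mu ≤ ENNReal.ofReal E)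
    (hV : ∀ l : ℝ, H < l → mu {y | ENNReal.ofReal l < F y} ≤ ENNReal.ofReal (V * l ^ (-4:ℝ))) :
    A 2 s F ≤ ENNReal.ofReal (θ ^ s / s + E ^ (s / 2) * (Real.log (H / θ)) ^ (1 - s / 2) +
      V ^ (s / 2) * (H ^ (-s) / s)) := by
  have hH0 : 0 < H := hθ.trans_le hH
  have hlog : 0 ≤ Real.log (H / θ) := Real.log_nonneg (by rw [le_div_iff₀ hθ]; linarith)
  unfold A
  have hsub : Ioi (0:ℝ) ⊆ Ioc 0 θ ∪ (Ioc θ H ∪ Ioi H) := by
    intro l hl
    have hl' : 0 < l := hl
    by_cases h1 : l ≤ θ
    · exact Or.inl ⟨hl', h1⟩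
    · by_cases h2 : l ≤ H
      · exact Or.inr (Or.inl ⟨not_le.1 h1, h2⟩)
      · exact Or.inr (Or.inr (not_le.1 h2))
  refine (lintegral_mono_set hsub).trans ((lintegral_union_le _ _ _).trans ?_)
  have i1 : ∫⁻ l in Ioc (0:ℝ) θ, ENNReal.ofReal (l ^ (s - 1)) *
      (mu {y | ENNReal.ofReal l < F y}) ^ (s / 2) ≤ ENNReal.ofReal (θ ^ s / s) := by
    calc _ ≤ ∫⁻ l in Ioc (0:ℝ) θ, ENNReal.ofReal (1 * l ^ (s - 1)) := by
          refine lintegral_mono fun l => ?_
          rw [one_mul]
          calc _ ≤ ENNReal.ofReal (l ^ (s - 1)) * 1 ^ (s / 2) := by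
                gcongr
                exact mu_le_one _
            _ = _ := by rw [ENNReal.one_rpow, mul_one]
      _ = ∫⁻ l in Ioo (0:ℝ) θ, ENNReal.ofReal (1 * l ^ (s - 1)) :=
          setLIntegral_congr Ioo_ae_eq_Ioc.symm
      _ = _ := by rw [lint_rpow hθ.le hs 1 zero_le_one, one_mul]
  have i2 : ∫⁻ l in Ioc θ H, ENNReal.ofReal (l ^ (s - 1)) *
      (mu {y | ENNReal.ofReal l < F y}) ^ (s / 2) ≤
      ENNReal.ofReal (E ^ (s / 2) * (Real.log (H / θ)) ^ (1 - s / 2)) := by
    have h2s : 0 < 2 - s := by linarith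
    have hconj : (2 / s).HolderConjugate (2 / (2 - s)) := by
      rw [Real.holderConjugate_iff]
      refine ⟨by rw [lt_div_iff₀ hs]; linarith, ?_⟩
      rw [inv_div, inv_div]
      ring
    set u : ℝ → ℝ≥0∞ := fun l => (ENNReal.ofReal l * mu {y | ENNReal.ofReal l < F y}) ^ (s / 2) with hu
    set v : ℝ → ℝ≥0∞ := fun l => (ENNReal.ofReal l⁻¹) ^ (1 - s / 2) with hv
    have hum : Measurable u := (ENNReal.measurable_ofReal.mul (dist_meas F)).pow_const _
    have hvm : Measurable v := (measurable_id.inv.ennreal_ofReal).pow_const _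
    have h1 := ENNReal.lintegral_mul_le_Lp_mul_Lq (volume.restrict (Ioc θ H)) hconj
      hum.aemeasurable hvm.aemeasurable
    calc _ = ∫⁻ l in Ioc θ H, (u * v) l := by
          refine setLIntegral_congr_fun measurableSet_Ioc fun l hl => ?_
          have hl0 : 0 < l := hθ.trans hl.1
          simp only [Pi.mul_apply, hu, hv]
          rw [ENNReal.mul_rpow_of_nonneg _ _ (by positivity),
            ENNReal.ofReal_rpow_of_nonneg hl0.le (by positivity),
            ENNReal.ofReal_rpow_of_nonneg (by positivity) (by linarith)]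
          have e1 : l ^ (s - 1) = l ^ (s / 2) * l⁻¹ ^ (1 - s / 2) := by
            rw [Real.inv_rpow hl0.le, ← Real.rpow_neg hl0.le, ← Real.rpow_add hl0]
            congr 1
            ring
          rw [e1, ENNReal.ofReal_mul (by positivity)]
          ring
      _ ≤ _ := h1
      _ ≤ (ENNReal.ofReal E) ^ (s / 2) * (ENNReal.ofReal (Real.log (H / θ))) ^ (1 - s / 2) := by
          have e2 : 1 / (2 / s) = s / 2 := by rw [one_div_div]
          have e3 : 1 / (2 / (2 - s)) = 1 - s / 2 := by rw [one_div_div]; ring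
          rw [e2, e3]
          gcongr
          · calc ∫⁻ l in Ioc θ H, (u l) ^ (2 / s) ≤ ∫⁻ l in Ioi (0:ℝ), (u l) ^ (2 / s) :=
                  lintegral_mono_set fun l hl => hθ.trans hl.1
              _ = A 2 2 F := by
                  unfold A
                  refine lintegral_congr fun l => ?_
                  simp only [hu]
                  rw [← ENNReal.rpow_mul, show s / 2 * (2 / s) = 1 by field_simp, ENNReal.rpow_one]
                  norm_num
              _ ≤ _ := (A22_le hF).trans hE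
          · linarith
          · rw [← log_int2 hθ hH]
            refine le_of_eq (lintegral_congr fun l => ?_)
            simp only [hv]
            rw [← ENNReal.rpow_mul, show (1 - s / 2) * (2 / (2 - s)) = 1 by field_simp,
              ENNReal.rpow_one]
      _ = _ := by
          rw [ENNReal.ofReal_rpow_of_nonneg hE0 (by positivity),
            ENNReal.ofReal_rpow_of_nonneg hlog (by linarith), ← ENNReal.ofReal_mul (by positivity)]
  have i3 : ∫⁻ l in Ioi H, ENNReal.ofReal (l ^ (s - 1)) *
      (mu {y | ENNReal.ofReal l < F y}) ^ (s / 2) ≤ ENNReal.ofReal (V ^ (s / 2) * (H ^ (-s) / s)) := by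
    calc _ ≤ ∫⁻ l in Ioi H, ENNReal.ofReal (V ^ (s / 2) * l ^ (-s - 1)) := by
          refine setLIntegral_mono' measurableSet_Ioi fun l hl => ?_
          have hl' : H < l := hl
          have hl0 : 0 < l := hH0.trans hl'
          calc _ ≤ ENNReal.ofReal (l ^ (s - 1)) * (ENNReal.ofReal (V * l ^ (-4:ℝ))) ^ (s / 2) := by
                gcongr
                exact hV l hl'
            _ = _ := by
                rw [ENNReal.ofReal_rpow_of_nonneg (by positivity) (by positivity),
                  ← ENNReal.ofReal_mul (by positivity), Real.mul_rpow hV0 (by positivity),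
                  ← Real.rpow_mul hl0.le]
                congr 1
                rw [mul_left_comm, ← Real.rpow_add hl0]
                congr 2
                ring
      _ = _ := by
          have hint := integrableOn_Ioi_rpow_of_lt (show -s - 1 < -1 by linarith) hH0
          rw [← ofReal_integral_eq_lintegral_ofReal]
          · congr 1
            rw [integral_const_mul, integral_Ioi_rpow_of_lt (by linarith) hH0]
            congr 1
            rw [show -s - 1 + 1 = -s by ring, div_neg, neg_div, neg_neg]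
          · exact hint.const_mul _
          · filter_upwards [ae_restrict_mem measurableSet_Ioi] with l hl
            have : 0 < l := hH0.trans hl
            positivity
  calc _ ≤ ENNReal.ofReal (θ ^ s / s) +
        (ENNReal.ofReal (E ^ (s / 2) * (Real.log (H / θ)) ^ (1 - s / 2)) +
          ENNReal.ofReal (V ^ (s / 2) * (H ^ (-s) / s))) :=
        add_le_add i1 ((lintegral_union_le _ _ _).trans (add_le_add i2 i3))
    _ = _ := by
        rw [← ENNReal.ofReal_add (by positivity) (by positivity),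
          ← ENNReal.ofReal_add (by positivity) (by positivity), add_assoc]

/-- functional of an indicator -/
theorem A_ind {p q : ℝ} (hp : 0 < p) (hq : 0 < q) {h : ℝ} (hh : 0 ≤ h) (E : Set ℝ) :
    A p q (fun y => E.indicator (fun _ => ENNReal.ofReal h) y) =
      ENNReal.ofReal (h ^ q / q) * (mu E) ^ (q / p) := by
  have hr : 0 < q / p := by positivity
  unfold A
  have h1 : ∀ l ∈ Ioi (0:ℝ), ENNReal.ofReal (l ^ (q - 1)) *
      (mu {y | ENNReal.ofReal l < E.indicator (fun _ => ENNReal.ofReal h) y}) ^ (q / p) =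
      (Iio h).indicator (fun l => ENNReal.ofReal (1 * l ^ (q - 1))) l * (mu E) ^ (q / p) := by
    intro l hl
    have hl0 : (0:ℝ) < l := hl
    by_cases h2 : l < h
    · rw [indicator_of_mem (show l ∈ Iio h from h2), one_mul]
      congr 3
      ext y
      by_cases hy : y ∈ E
      · simp only [mem_ofPred_eq, indicator_of_mem hy, hy, iff_true]
        exact (ENNReal.ofReal_lt_ofReal_iff_of_nonneg hl0.le).2 h2
      · simp [indicator_of_notMem hy, hy]
    · rw [indicator_of_notMem (show l ∉ Iio h from h2), zero_mul]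
      have : {y | ENNReal.ofReal l < E.indicator (fun _ => ENNReal.ofReal h) y} = ∅ := by
        ext y
        simp only [mem_ofPred_eq, mem_empty_iff_false, iff_false, not_lt]
        by_cases hy : y ∈ E
        · rw [indicator_of_mem hy]
          exact ENNReal.ofReal_le_ofReal (not_lt.1 h2)
        · rw [indicator_of_notMem hy]
          exact zero_le
      rw [this, measure_empty, ENNReal.zero_rpow_of_pos hr, mul_zero]
  rw [setLIntegral_congr_fun measurableSet_Ioi h1, lintegral_mul_const]
  · congr 1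
    rw [lintegral_indicator measurableSet_Iio, Measure.restrict_restrict measurableSet_Iio]
    have h2 : Iio h ∩ Ioi (0:ℝ) = Ioo 0 h := by
      ext l; simp [and_comm]
    rw [h2, lint_rpow hh hq 1 zero_le_one, one_mul]
  · exact (((measurable_id.pow_const _).const_mul _).ennreal_ofReal).indicator measurableSet_Iio

end Pool.Agent.KS6_84.OB
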