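import Pool.Agent.KS6_84.OB.Lor

/-!
Upper `q`-estimate for sums of functions that live on very different scales of values.
-/

set_option autoImplicit false

open MeasureTheory Set Filter Topology
open scoped ENNReal NNReal

namespace Pool.Agent.KS6_84.OB

theorem log_int {H c : ℝ} (hH : 1 ≤ H) (hc : 0 ≤ c) :
    ∫⁻ l in Ioc (1:ℝ) H, ENNReal.ofReal (c * l⁻¹) = ENNReal.ofReal (c * Real.log H) := by
  rw [← ofReal_integral_eq_lintegral_ofReal]
  · congr 1
    rw [← intervalIntegral.integral_of_le hH, intervalIntegral.integral_const_mul,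
      integral_inv_of_pos one_pos (by linarith), div_one]
  · have : IntervalIntegrable (fun l : ℝ => c * l⁻¹) volume 1 H := by
      refine IntervalIntegrable.const_mul ?_ _
      refine intervalIntegral.intervalIntegrable_inv (fun x hx => ?_) continuousOn_id
      rw [uIcc_of_le hH] at hx
      have := hx.1
      show x ≠ 0
      linarith
    rw [intervalIntegrable_iff_integrableOn_Ioc_of_le hH] at this
    exact this
  · filter_upwards [ae_restrict_mem measurableSet_Ioc] with l hl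
    have : 0 < l := lt_trans one_pos hl.1
    positivity

/-- the distribution of the sum on the `k`-th band -/
theorem band {F : ℕ → ℝ → ℝ≥0∞} {L ω η : ℕ → ℝ} {p : ℝ}
    (hL : ∀ k, 1 ≤ L k) (hb : ∀ k y, F k y ≤ ENNReal.ofReal (L k)) (hω : ∀ k, 0 ≤ ω k)
    (hw : ∀ k, ∀ l : ℝ, 0 < l → l ≤ ∑ i ∈ Finset.range k, L i →
      mu {y | ENNReal.ofReal l < F k y} ≤ ENNReal.ofReal (ω k * l ^ (-p)))
    (hsη : ∀ k, ∑' i, ENNReal.ofReal (ω (k + 1 + i) * (4 * 2 ^ (i + 1)) ^ p) ≤ ENNReal.ofReal (η k))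
    (k : ℕ) {l : ℝ} (hl0 : 0 < l) (hl1 : 4 * ∑ i ∈ Finset.range k, L i ≤ l)
    (hl2 : l ≤ 4 * ∑ i ∈ Finset.range (k + 1), L i) :
    mu {y | ENNReal.ofReal l < ∑' i, F i y} ≤
      mu {y | ENNReal.ofReal l < ENNReal.ofReal 4 * F k y} + ENNReal.ofReal (η k * l ^ (-p)) := by
  have hSmono : ∀ i, ∑ j ∈ Finset.range (k + 1), L j ≤ ∑ j ∈ Finset.range (k + 1 + i), L j := by
    intro i
    refine Finset.sum_le_sum_of_subset_of_nonneg ?_ fun j _ _ => (zero_le_one.trans (hL j))
    intro x hx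
    rw [Finset.mem_range] at hx ⊢
    omega
  have hsub : {y | ENNReal.ofReal l < ∑' i, F i y} ⊆
      {y | ENNReal.ofReal l < ENNReal.ofReal 4 * F k y} ∪
        ⋃ i, {y | ENNReal.ofReal (l / (4 * 2 ^ (i + 1))) < F (k + 1 + i) y} := by
    intro y hy
    have hy' : ENNReal.ofReal l < ∑' i, F i y := hy
    by_contra hcon
    rw [mem_union, not_or, mem_iUnion, not_exists] at hcon
    obtain ⟨h1, h2⟩ := hcon
    have h1' : F k y ≤ ENNReal.ofReal (l / 4) := by
      have h3 : ENNReal.ofReal 4 * F k y ≤ ENNReal.ofReal l := not_lt.1 h1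
      have h4 : ENNReal.ofReal l = ENNReal.ofReal 4 * ENNReal.ofReal (l / 4) := by
        rw [← ENNReal.ofReal_mul (by norm_num)]
        congr 1
        ring
      rw [h4] at h3
      exact (ENNReal.mul_le_mul_iff_right (by simp) ENNReal.ofReal_ne_top).1 h3
    have h2' : ∀ i, F (k + 1 + i) y ≤ ENNReal.ofReal (l / (4 * 2 ^ (i + 1))) := fun i =>
      not_lt.1 (h2 i)
    have h5 : ∑' i, F (k + 1 + i) y ≤ ENNReal.ofReal (l / 4) := by
      refine (ENNReal.tsum_le_tsum h2').trans ?_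
      have hs : HasSum (fun i : ℕ => l / 4 * (1 / 2 / 2 ^ i)) (l / 4 * 1) :=
        (hasSum_geometric_two' (1:ℝ)).mul_left _
      have hs2 : (fun i : ℕ => l / (4 * 2 ^ (i + 1))) = fun i : ℕ => l / 4 * (1 / 2 / 2 ^ i) := by
        funext i
        rw [pow_succ]
        field_simp
      rw [mul_one, ← hs2] at hs
      rw [← ENNReal.ofReal_tsum_of_nonneg (fun i => by positivity) hs.summable, hs.tsum_eq]
    have h6 : ∑ i ∈ Finset.range k, F i y ≤ ENNReal.ofReal (l / 4) := by
      calc ∑ i ∈ Finset.range k, F i y ≤ ∑ i ∈ Finset.range k, ENNReal.ofReal (L i) :=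
            Finset.sum_le_sum fun i _ => hb i y
        _ = ENNReal.ofReal (∑ i ∈ Finset.range k, L i) := by
            rw [ENNReal.ofReal_sum_of_nonneg]
            intro i _; exact zero_le_one.trans (hL i)
        _ ≤ _ := ENNReal.ofReal_le_ofReal (by linarith)
    have h7 : ∑' i, F i y = ∑ i ∈ Finset.range (k + 1), F i y + ∑' i, F (i + (k + 1)) y :=
      (ENNReal.summable.sum_add_tsum_nat_add' (k := k + 1) (f := fun i => F i y)).symm
    have h8 : ∑' i, F (i + (k + 1)) y = ∑' i, F (k + 1 + i) y := by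
      refine tsum_congr fun i => ?_
      rw [add_comm]
    rw [h7, h8, Finset.sum_range_succ] at hy'
    have h9 : ∑ i ∈ Finset.range k, F i y + F k y + ∑' i, F (k + 1 + i) y ≤
        ENNReal.ofReal (l / 4) + ENNReal.ofReal (l / 4) + ENNReal.ofReal (l / 4) :=
      add_le_add (add_le_add h6 h1') h5
    rw [← ENNReal.ofReal_add (by positivity) (by positivity),
      ← ENNReal.ofReal_add (by positivity) (by positivity)] at h9
    have h10 : ENNReal.ofReal (l / 4 + l / 4 + l / 4) ≤ ENNReal.ofReal l :=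
      ENNReal.ofReal_le_ofReal (by linarith)
    exact absurd (hy'.trans_le (h9.trans h10)) (lt_irrefl _)
  refine (measure_mono hsub).trans ((measure_union_le _ _).trans ?_)
  gcongr
  refine (measure_iUnion_le _).trans ?_
  have h1 : ∀ i, mu {y | ENNReal.ofReal (l / (4 * 2 ^ (i + 1))) < F (k + 1 + i) y} ≤
      ENNReal.ofReal (ω (k + 1 + i) * (4 * 2 ^ (i + 1)) ^ p) * ENNReal.ofReal (l ^ (-p)) := by
    intro i
    have hpos : (0:ℝ) < 4 * 2 ^ (i + 1) := by positivity
    have h3 : l / (4 * 2 ^ (i + 1)) ≤ ∑ j ∈ Finset.range (k + 1 + i), L j := by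
      refine le_trans ?_ (hSmono i)
      rw [div_le_iff₀ hpos]
      have h4 : (1:ℝ) ≤ 2 ^ (i + 1) := one_le_pow₀ (by norm_num)
      have h5 : 0 ≤ ∑ j ∈ Finset.range (k + 1), L j :=
        Finset.sum_nonneg fun j _ => zero_le_one.trans (hL j)
      nlinarith
    refine (hw (k + 1 + i) _ (by positivity) h3).trans (le_of_eq ?_)
    rw [← ENNReal.ofReal_mul (mul_nonneg (hω _) (by positivity)), mul_assoc]
    congr 2
    rw [Real.div_rpow hl0.le hpos.le, Real.rpow_neg hpos.le, div_inv_eq_mul, mul_comm]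
  refine (ENNReal.tsum_le_tsum h1).trans ?_
  rw [ENNReal.tsum_mul_right]
  have hη0 : 0 ≤ l ^ (-p) := by positivity
  calc _ ≤ ENNReal.ofReal (η k) * ENNReal.ofReal (l ^ (-p)) := by gcongr; exact hsη k
    _ = _ := by rw [ENNReal.ofReal_mul' hη0]

theorem lac {p q : ℝ} (hp : 0 < p) (hq : 0 < q) {F : ℕ → ℝ → ℝ≥0∞} {L ω η : ℕ → ℝ}
    (hL : ∀ k, 1 ≤ L k) (hb : ∀ k y, F k y ≤ ENNReal.ofReal (L k)) (hω : ∀ k, 0 ≤ ω k)
    (hη : ∀ k, 0 ≤ η k)
    (hw : ∀ k, ∀ l : ℝ, 0 < l → l ≤ ∑ i ∈ Finset.range k, L i →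
      mu {y | ENNReal.ofReal l < F k y} ≤ ENNReal.ofReal (ω k * l ^ (-p)))
    (hsη : ∀ k, ∑' i, ENNReal.ofReal (ω (k + 1 + i) * (4 * 2 ^ (i + 1)) ^ p) ≤ ENNReal.ofReal (η k))
    (hlog : ∑' k, ENNReal.ofReal ((η k) ^ (q / p) *
      Real.log (4 * ∑ i ∈ Finset.range (k + 1), L i)) ≤ 1) :
    A p q (fun y => ∑' k, F k y) ≤ ENNReal.ofReal (1 / q) +
      2 ^ (q / p) * (ENNReal.ofReal (4 ^ q) * ∑' k, A p q (F k) + 1) := by
  set S : ℕ → ℝ := fun k => 4 * ∑ i ∈ Finset.range k, L i with hS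
  have hSk : ∀ k : ℕ, (k:ℝ) ≤ S k := by
    intro k
    rw [hS]
    simp only
    have : (k:ℝ) ≤ ∑ i ∈ Finset.range k, L i := by
      calc (k:ℝ) = ∑ i ∈ Finset.range k, (1:ℝ) := by simp
        _ ≤ _ := Finset.sum_le_sum fun i _ => hL i
    have h0 : (0:ℝ) ≤ k := Nat.cast_nonneg k
    linarith
  have hr : 0 < q / p := by positivity
  have hS1 : ∀ k : ℕ, 1 ≤ S (k + 1) := by
    intro k
    have := hSk (k + 1)
    push_cast at this
    have h0 : (0:ℝ) ≤ k := Nat.cast_nonneg k
    linarith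
  have hcov : Ioi (0:ℝ) ⊆ Ioc 0 1 ∪ ⋃ k, (Ioc (S k) (S (k + 1)) ∩ Ioi 1) := by
    intro l hl
    have hl' : 0 < l := hl
    by_cases h1 : l ≤ 1
    · exact Or.inl ⟨hl', h1⟩
    · right
      have hex : ∃ k : ℕ, l ≤ S k := by
        obtain ⟨k, hk⟩ := exists_nat_ge l
        exact ⟨k, hk.trans (hSk k)⟩
      classical
      have hfind := Nat.find_spec hex
      have hne : Nat.find hex ≠ 0 := by
        intro h0
        rw [h0] at hfind
        rw [hS] at hfind
        simp at hfind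
        linarith
      obtain ⟨k, hk⟩ := Nat.exists_eq_succ_of_ne_zero hne
      rw [mem_iUnion]
      refine ⟨k, ⟨?_, ?_⟩, not_le.1 h1⟩
      · have := Nat.find_min hex (m := k) (by omega)
        exact not_le.1 this
      · rw [hk] at hfind
        exact hfind
  unfold A
  refine (lintegral_mono_set hcov).trans ((lintegral_union_le _ _ _).trans ?_)
  have i1 : ∫⁻ l in Ioc (0:ℝ) 1, ENNReal.ofReal (l ^ (q - 1)) *
      (mu {y | ENNReal.ofReal l < ∑' k, F k y}) ^ (q / p) ≤ ENNReal.ofReal (1 / q) := by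
    calc _ ≤ ∫⁻ l in Ioc (0:ℝ) 1, ENNReal.ofReal (1 * l ^ (q - 1)) := by
          refine lintegral_mono fun l => ?_
          rw [one_mul]
          calc _ ≤ ENNReal.ofReal (l ^ (q - 1)) * 1 ^ (q / p) := by
                gcongr
                exact mu_le_one _
            _ = _ := by rw [ENNReal.one_rpow, mul_one]
      _ = ∫⁻ l in Ioo (0:ℝ) 1, ENNReal.ofReal (1 * l ^ (q - 1)) :=
          setLIntegral_congr Ioo_ae_eq_Ioc.symm
      _ = _ := by
          rw [lint_rpow zero_le_one hq 1 zero_le_one, Real.one_rpow, one_mul]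
  refine add_le_add i1 ?_
  refine (lintegral_iUnion_le _ _).trans ?_
  have i2 : ∀ k, ∫⁻ l in Ioc (S k) (S (k + 1)) ∩ Ioi 1, ENNReal.ofReal (l ^ (q - 1)) *
      (mu {y | ENNReal.ofReal l < ∑' k, F k y}) ^ (q / p) ≤
      2 ^ (q / p) * (ENNReal.ofReal (4 ^ q) * A p q (F k) + ENNReal.ofReal ((η k) ^ (q / p) *
      Real.log (4 * ∑ i ∈ Finset.range (k + 1), L i))) := by
    intro k
    calc _ ≤ ∫⁻ l in Ioc (S k) (S (k + 1)) ∩ Ioi 1, 2 ^ (q / p) * (ENNReal.ofReal (l ^ (q - 1)) *
          (mu {y | ENNReal.ofReal l < ENNReal.ofReal 4 * F k y}) ^ (q / p) +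
            ENNReal.ofReal ((η k) ^ (q / p) * l⁻¹)) := by
          refine setLIntegral_mono' (measurableSet_Ioc.inter measurableSet_Ioi) fun l hl => ?_
          have hl0 : 0 < l := lt_trans one_pos hl.2
          have h1 := band (p := p) hL hb hω hw hsη k hl0 hl.1.1.le hl.1.2
          calc _ ≤ ENNReal.ofReal (l ^ (q - 1)) * (2 ^ (q / p) *
                ((mu {y | ENNReal.ofReal l < ENNReal.ofReal 4 * F k y}) ^ (q / p) +
                  (ENNReal.ofReal (η k * l ^ (-p))) ^ (q / p))) := by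
                gcongr
                exact (ENNReal.rpow_le_rpow h1 hr.le).trans (add_rpow_le2 _ _ hr.le)
            _ = 2 ^ (q / p) * (ENNReal.ofReal (l ^ (q - 1)) *
                (mu {y | ENNReal.ofReal l < ENNReal.ofReal 4 * F k y}) ^ (q / p) +
                ENNReal.ofReal (l ^ (q - 1)) * (ENNReal.ofReal (η k * l ^ (-p))) ^ (q / p)) := by
                ring
            _ = _ := by
                congr 2
                rw [ENNReal.ofReal_rpow_of_nonneg (mul_nonneg (hη k) (by positivity)) hr.le,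
                  ← ENNReal.ofReal_mul (by positivity), Real.mul_rpow (hη k) (by positivity),
                  ← Real.rpow_mul hl0.le]
                congr 1
                rw [show -p * (q / p) = -q by field_simp, mul_left_comm, ← Real.rpow_add hl0,
                  show q - 1 + -q = -1 by ring, Real.rpow_neg_one]
      _ = 2 ^ (q / p) * ((∫⁻ l in Ioc (S k) (S (k + 1)) ∩ Ioi 1, ENNReal.ofReal (l ^ (q - 1)) *
          (mu {y | ENNReal.ofReal l < ENNReal.ofReal 4 * F k y}) ^ (q / p)) +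
            ∫⁻ l in Ioc (S k) (S (k + 1)) ∩ Ioi 1, ENNReal.ofReal ((η k) ^ (q / p) * l⁻¹)) := by
          rw [lintegral_const_mul' _ _ (ENNReal.rpow_ne_top_of_nonneg hr.le (by norm_num)),
            lintegral_add_left (A_integrand_meas p q _)]
      _ ≤ _ := by
          gcongr
          · have h2 := A_const_mul hp hq (show (0:ℝ) < 4 by norm_num) (F k)
            rw [← h2]
            unfold A
            refine lintegral_mono_set ?_
            intro l hl
            have h3 : (1:ℝ) < l := hl.2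
            exact lt_trans one_pos h3
          · rw [← log_int (hS1 k) (by have := hη k; positivity)]
            refine lintegral_mono_set ?_
            intro l hl
            exact ⟨hl.2, hl.1.2⟩
  refine (ENNReal.tsum_le_tsum i2).trans ?_
  rw [ENNReal.tsum_mul_left, ENNReal.tsum_add, ENNReal.tsum_mul_left]
  gcongr
  rfl

end Pool.Agent.KS6_84.OB
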