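import Pool.Agent.KS6_84.OB.Basic

/-!
The Lorentz functional of a nonnegative function on `[0,1]`, through the distribution function
(`A`) and through the rearrangement (`LF`).
-/

set_option autoImplicit false

open MeasureTheory Set Filter Topology
open scoped ENNReal NNReal

namespace Pool.Agent.KS6_84.OB

/-- non-increasing rearrangement of a nonnegative function -/
noncomputable def rr (F : ℝ → ℝ≥0∞) (t : ℝ) : ℝ≥0∞ :=
  sInf {l : ℝ≥0∞ | mu {s | l < F s} ≤ ENNReal.ofReal t}

/-- `∫ l^(q-1) m(F > l)^(q/p) dl` -/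
noncomputable def A (p q : ℝ) (F : ℝ → ℝ≥0∞) : ℝ≥0∞ :=
  ∫⁻ l in Ioi (0:ℝ), ENNReal.ofReal (l ^ (q - 1)) * (mu {y | ENNReal.ofReal l < F y}) ^ (q / p)

/-- `∫ (t^(1/p) F*(t))^q dt/t` -/
noncomputable def LF (p q : ℝ) (F : ℝ → ℝ≥0∞) : ℝ≥0∞ :=
  ∫⁻ t in Ioc (0:ℝ) 1, (ENNReal.ofReal (t ^ (1 / p)) * rr F t) ^ q * ENNReal.ofReal (1 / t)

theorem mu_le_one (s : Set ℝ) : mu s ≤ 1 := prob_le_one

theorem rr_anti (F : ℝ → ℝ≥0∞) : Antitone (rr F) := by
  intro t t' htt
  unfold rr
  apply sInf_le_sInf
  intro l hl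
  exact le_trans (show mu {s | l < F s} ≤ ENNReal.ofReal t from hl) (ENNReal.ofReal_le_ofReal htt)

theorem rr_mono {F G : ℝ → ℝ≥0∞} (h : ∀ᵐ s ∂mu, F s ≤ G s) (t : ℝ) : rr F t ≤ rr G t := by
  unfold rr
  apply sInf_le_sInf
  intro l hl
  refine le_trans ?_ (show mu {s | l < G s} ≤ ENNReal.ofReal t from hl)
  apply measure_mono_ae
  filter_upwards [h] with s hs hs2
  exact lt_of_lt_of_le hs2 hs

theorem lt_rr_iff (F : ℝ → ℝ≥0∞) {t : ℝ} (l : ℝ≥0∞) :
    l < rr F t ↔ ENNReal.ofReal t < mu {s | l < F s} := by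
  constructor
  · intro h
    by_contra hc
    exact absurd (sInf_le (not_lt.mp hc) : rr F t ≤ l) (not_le.mpr h)
  · intro h
    have hl : l < ⊤ := by
      rw [lt_top_iff_ne_top]
      rintro rfl
      have : {s | (⊤ : ℝ≥0∞) < F s} = ∅ := by
        ext s; simp
      rw [this, measure_empty] at h
      exact absurd h not_lt_zero
    obtain ⟨u, hu1, hu2, hu3⟩ := exists_seq_strictAnti_tendsto' hl
    have hU : {s | l < F s} = ⋃ n, {s | u n < F s} := by
      ext s
      simp only [mem_iUnion]
      constructor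
      · intro hs
        have hs' : l < F s := hs
        obtain ⟨n, hn⟩ := (hu3.eventually (gt_mem_nhds hs')).exists
        exact ⟨n, hn⟩
      · rintro ⟨n, hn⟩
        exact lt_trans (hu2 n).1 hn
    have hmono : Monotone fun n => {s | u n < F s} := by
      intro a b hab s hs
      exact lt_of_le_of_lt (hu1.antitone hab) hs
    rw [hU, hmono.measure_iUnion, lt_iSup_iff] at h
    obtain ⟨n, hn⟩ := h
    refine lt_of_lt_of_le (hu2 n).1 ?_
    unfold rr
    refine le_sInf fun k hk => ?_
    by_contra hc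
    have h1 : mu {s | k < F s} ≤ ENNReal.ofReal t := hk
    have h2 : mu {s | u n < F s} ≤ mu {s | k < F s} :=
      measure_mono fun s hs => lt_of_le_of_lt (not_le.mp hc).le hs
    exact absurd (lt_of_lt_of_le hn (h2.trans h1)) (lt_irrefl _)

theorem rr_const_mul (c : ℝ) (hc : 0 < c) (F : ℝ → ℝ≥0∞) (t : ℝ) :
    rr (fun y => ENNReal.ofReal c * F y) t = ENNReal.ofReal c * rr F t := by
  have hc0 : ENNReal.ofReal c ≠ 0 := by
    rw [Ne, ENNReal.ofReal_eq_zero, not_le]; exact hc
  have hct : ENNReal.ofReal c ≠ ∞ := ENNReal.ofReal_ne_top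
  apply le_antisymm
  · apply le_of_forall_lt
    intro l hl
    rw [lt_rr_iff] at hl
    have h1 : {s | l < ENNReal.ofReal c * F s} = {s | l / ENNReal.ofReal c < F s} := by
      ext s
      simp only [mem_ofPred_eq]
      rw [ENNReal.div_lt_iff (Or.inl hc0) (Or.inl hct), mul_comm]
    rw [h1, ← lt_rr_iff, ENNReal.div_lt_iff (Or.inl hc0) (Or.inl hct), mul_comm] at hl
    exact hl
  · apply le_of_forall_lt
    intro l hl
    rw [lt_rr_iff]
    have h1 : {s | l < ENNReal.ofReal c * F s} = {s | l / ENNReal.ofReal c < F s} := by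
      ext s
      simp only [mem_ofPred_eq]
      rw [ENNReal.div_lt_iff (Or.inl hc0) (Or.inl hct), mul_comm]
    rw [h1, ← lt_rr_iff, ENNReal.div_lt_iff (Or.inl hc0) (Or.inl hct), mul_comm]
    exact hl

theorem lint_rpow {R s : ℝ} (hR : 0 ≤ R) (hs : 0 < s) (c : ℝ) (hc : 0 ≤ c) :
    ∫⁻ l in Ioo (0:ℝ) R, ENNReal.ofReal (c * l ^ (s - 1)) = ENNReal.ofReal (c * (R ^ s / s)) := by
  rw [← ofReal_integral_eq_lintegral_ofReal]
  · congr 1
    rw [← integral_Ioc_eq_integral_Ioo, ← intervalIntegral.integral_of_le hR,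
      intervalIntegral.integral_const_mul, integral_rpow (Or.inl (by linarith))]
    rw [sub_add_cancel, Real.zero_rpow hs.ne', sub_zero]
  · have : IntervalIntegrable (fun l : ℝ => c * l ^ (s - 1)) volume 0 R :=
      (intervalIntegral.intervalIntegrable_rpow' (by linarith)).const_mul c
    rw [intervalIntegrable_iff_integrableOn_Ioo_of_le hR] at this
    exact this
  · filter_upwards [ae_restrict_mem measurableSet_Ioo] with l hl
    have := hl.1.le
    positivity

/-- layer cake for a power -/
theorem powint (r : ℝ≥0∞) {q : ℝ} (hq : 0 < q) : r ^ q =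
    ∫⁻ l in Ioi (0:ℝ), if ENNReal.ofReal l < r then ENNReal.ofReal (q * l ^ (q - 1)) else 0 := by
  have hfin : ∀ r : ℝ≥0∞, r ≠ ⊤ → r ^ q =
    ∫⁻ l in Ioi (0:ℝ), if ENNReal.ofReal l < r then ENNReal.ofReal (q * l ^ (q - 1)) else 0 := by
    intro r hr
    have h1 : ∀ l ∈ Ioi (0:ℝ), (if ENNReal.ofReal l < r then ENNReal.ofReal (q * l ^ (q - 1)) else 0) =
        (Iio r.toReal).indicator (fun l => ENNReal.ofReal (q * l ^ (q - 1))) l := by
      intro l hl
      have : ENNReal.ofReal l < r ↔ l < r.toReal :=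
        ENNReal.ofReal_lt_iff_lt_toReal (le_of_lt hl) hr
      by_cases h : l < r.toReal
      · rw [if_pos (this.mpr h), indicator_of_mem (show l ∈ Iio _ from h)]
      · rw [if_neg (fun hh => h (this.mp hh)), indicator_of_notMem (show l ∉ Iio _ from h)]
    rw [setLIntegral_congr_fun measurableSet_Ioi h1, lintegral_indicator measurableSet_Iio,
      Measure.restrict_restrict measurableSet_Iio]
    have h2 : Iio r.toReal ∩ Ioi (0:ℝ) = Ioo 0 r.toReal := by
      ext l; simp [and_comm]
    rw [h2, lint_rpow ENNReal.toReal_nonneg hq q hq.le]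
    have h3 : q * (r.toReal ^ q / q) = r.toReal ^ q := by field_simp
    rw [h3, ← ENNReal.ofReal_rpow_of_nonneg ENNReal.toReal_nonneg hq.le,
      ENNReal.ofReal_toReal hr]
  by_cases hr : r = ⊤
  · subst hr
    rw [ENNReal.top_rpow_of_pos hq, eq_comm]
    apply ENNReal.eq_top_of_forall_nnreal_le
    intro x
    have h1 := hfin ((x : ℝ≥0∞) ^ (1 / q)) (ENNReal.rpow_ne_top_of_nonneg (by positivity) (by simp))
    rw [← ENNReal.rpow_mul, one_div_mul_cancel hq.ne', ENNReal.rpow_one] at h1
    rw [h1]
    refine lintegral_mono fun l => ?_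
    split_ifs with h2 h3
    · exact le_rfl
    · exact absurd ENNReal.ofReal_lt_top h3
    · exact zero_le
    · exact le_rfl
  · exact hfin r hr

theorem mint (m : ℝ≥0∞) (hm : m ≤ 1) {s : ℝ} (hs : 0 < s) :
    ∫⁻ t in Ioc (0:ℝ) 1, (if ENNReal.ofReal t < m then ENNReal.ofReal (t ^ (s - 1)) else 0) =
      m ^ s * ENNReal.ofReal (1 / s) := by
  have hmt : m ≠ ⊤ := ne_of_lt (lt_of_le_of_lt hm ENNReal.one_lt_top)
  have h1 : ∀ l ∈ Ioc (0:ℝ) 1, (if ENNReal.ofReal l < m then ENNReal.ofReal (l ^ (s - 1)) else 0) =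
      (Iio m.toReal).indicator (fun l => ENNReal.ofReal (1 * l ^ (s - 1))) l := by
    intro l hl
    have : ENNReal.ofReal l < m ↔ l < m.toReal :=
      ENNReal.ofReal_lt_iff_lt_toReal hl.1.le hmt
    by_cases h : l < m.toReal
    · rw [if_pos (this.mpr h), indicator_of_mem (show l ∈ Iio _ from h), one_mul]
    · rw [if_neg (fun hh => h (this.mp hh)), indicator_of_notMem (show l ∉ Iio _ from h)]
  have hm1 : m.toReal ≤ 1 := by
    have := ENNReal.toReal_mono ENNReal.one_ne_top hm
    simpa using this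
  rw [setLIntegral_congr_fun measurableSet_Ioc h1, lintegral_indicator measurableSet_Iio,
    Measure.restrict_restrict measurableSet_Iio]
  have h2 : Iio m.toReal ∩ Ioc (0:ℝ) 1 = Ioo 0 m.toReal := by
    ext l
    simp only [mem_inter_iff, mem_Iio, mem_Ioc, mem_Ioo]
    constructor
    · rintro ⟨a, b, c⟩; exact ⟨b, a⟩
    · rintro ⟨a, b⟩; exact ⟨b, a, by linarith⟩
  rw [h2, lint_rpow ENNReal.toReal_nonneg hs 1 zero_le_one, one_mul, div_eq_mul_one_div,
    ENNReal.ofReal_mul (by positivity), ← ENNReal.ofReal_rpow_of_nonneg ENNReal.toReal_nonneg hs.le,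
    ENNReal.ofReal_toReal hmt]

/-- the two Lorentz functionals agree up to the factor `p` -/
theorem LF_eq {p q : ℝ} (hp : 0 < p) (hq : 0 < q) (F : ℝ → ℝ≥0∞) :
    LF p q F = ENNReal.ofReal p * A p q F := by
  have hrm : Measurable (rr F) := (rr_anti F).measurable
  unfold LF A
  have e1 : ∀ t ∈ Ioc (0:ℝ) 1, (ENNReal.ofReal (t ^ (1 / p)) * rr F t) ^ q *
      ENNReal.ofReal (1 / t) =
      ∫⁻ l in Ioi (0:ℝ), if ENNReal.ofReal l < rr F t then
        ENNReal.ofReal (t ^ (q / p - 1)) * ENNReal.ofReal (q * l ^ (q - 1)) else 0 := by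
    intro t ht
    have ht0 : 0 < t := ht.1
    rw [ENNReal.mul_rpow_of_nonneg _ _ hq.le, powint (rr F t) hq,
      ENNReal.ofReal_rpow_of_nonneg (by positivity) hq.le, ← Real.rpow_mul ht0.le]
    have e2 : ENNReal.ofReal (t ^ (1 / p * q)) * ENNReal.ofReal (1 / t) =
        ENNReal.ofReal (t ^ (q / p - 1)) := by
      rw [← ENNReal.ofReal_mul (by positivity)]
      congr 1
      rw [Real.rpow_sub ht0, Real.rpow_one, show 1 / p * q = q / p by ring]
      ring
    rw [mul_right_comm, e2, ← lintegral_const_mul' _ _ ENNReal.ofReal_ne_top]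
    refine lintegral_congr fun l => ?_
    rw [mul_ite, mul_zero]
  rw [setLIntegral_congr_fun measurableSet_Ioc e1]
  rw [lintegral_lintegral_swap]
  · rw [← lintegral_const_mul' _ _ ENNReal.ofReal_ne_top]
    refine setLIntegral_congr_fun measurableSet_Ioi fun l hl => ?_
    have hl0 : 0 < l := hl
    have e3 : ∀ t : ℝ, (if ENNReal.ofReal l < rr F t then
        ENNReal.ofReal (t ^ (q / p - 1)) * ENNReal.ofReal (q * l ^ (q - 1)) else 0) =
        ENNReal.ofReal (q * l ^ (q - 1)) *
          (if ENNReal.ofReal t < mu {y | ENNReal.ofReal l < F y} then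
            ENNReal.ofReal (t ^ (q / p - 1)) else 0) := by
      intro t
      have := lt_rr_iff F (t := t) (ENNReal.ofReal l)
      by_cases h : ENNReal.ofReal t < mu {y | ENNReal.ofReal l < F y}
      · rw [if_pos (this.mpr h), if_pos h, mul_comm]
      · rw [if_neg (fun hh => h (this.mp hh)), if_neg h, mul_zero]
    simp_rw [e3]
    rw [lintegral_const_mul' _ _ ENNReal.ofReal_ne_top, mint _ (mu_le_one _) (by positivity)]
    rw [← mul_assoc (ENNReal.ofReal p), ← ENNReal.ofReal_mul hp.le, mul_comm _ (ENNReal.ofReal _),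
      ← mul_assoc, ← ENNReal.ofReal_mul (by positivity)]
    congr 2
    field_simp
  · refine Measurable.aemeasurable ?_
    refine Measurable.ite ?_ (by fun_prop) measurable_const
    exact measurableSet_lt (ENNReal.measurable_ofReal.comp measurable_snd)
      (hrm.comp measurable_fst)

theorem A_mono {p q : ℝ} (hp : 0 < p) (hq : 0 < q) {F G : ℝ → ℝ≥0∞} (h : ∀ᵐ y ∂mu, F y ≤ G y) :
    A p q F ≤ A p q G := by
  refine lintegral_mono fun l => ?_
  refine mul_le_mul_right ?_ _
  refine ENNReal.rpow_le_rpow (measure_mono_ae ?_) (by positivity)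
  filter_upwards [h] with y hy hy'
  exact lt_of_lt_of_le hy' hy

theorem A_congr {p q : ℝ} (hp : 0 < p) (hq : 0 < q) {F G : ℝ → ℝ≥0∞} (h : F =ᵐ[mu] G) :
    A p q F = A p q G :=
  le_antisymm (A_mono hp hq (h.mono fun _ hy => hy.le)) (A_mono hp hq (h.mono fun _ hy => hy.ge))

theorem A_const_mul {p q : ℝ} (hp : 0 < p) (hq : 0 < q) {c : ℝ} (hc : 0 < c) (F : ℝ → ℝ≥0∞) :
    A p q (fun y => ENNReal.ofReal c * F y) = ENNReal.ofReal (c ^ q) * A p q F := by
  have h1 : LF p q (fun y => ENNReal.ofReal c * F y) = ENNReal.ofReal (c ^ q) * LF p q F := by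
    unfold LF
    rw [← lintegral_const_mul' _ _ ENNReal.ofReal_ne_top]
    refine lintegral_congr fun t => ?_
    rw [rr_const_mul c hc, ← mul_assoc, mul_comm _ (ENNReal.ofReal c), mul_assoc,
      ENNReal.mul_rpow_of_nonneg _ _ hq.le, ENNReal.ofReal_rpow_of_nonneg hc.le hq.le, mul_assoc]
  rw [LF_eq hp hq, LF_eq hp hq] at h1
  have hp0 : ENNReal.ofReal p ≠ 0 := by
    rw [Ne, ENNReal.ofReal_eq_zero, not_le]; exact hp
  rw [mul_left_comm] at h1
  exact (ENNReal.mul_right_inj hp0 ENNReal.ofReal_ne_top).1 h1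

theorem add_rpow_le2 (a b : ℝ≥0∞) {r : ℝ} (hr : 0 ≤ r) :
    (a + b) ^ r ≤ 2 ^ r * (a ^ r + b ^ r) := by
  calc (a + b) ^ r ≤ (2 * max a b) ^ r := by
        apply ENNReal.rpow_le_rpow _ hr
        rw [two_mul]
        exact add_le_add (le_max_left _ _) (le_max_right _ _)
    _ = 2 ^ r * (max a b) ^ r := ENNReal.mul_rpow_of_nonneg _ _ hr
    _ ≤ 2 ^ r * (a ^ r + b ^ r) := by
        gcongr
        rcases le_total a b with h | h
        · rw [max_eq_right h]; exact le_add_self
        · rw [max_eq_left h]; exact le_self_add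

theorem dist_meas (F : ℝ → ℝ≥0∞) :
    Measurable (fun l : ℝ => mu {y | ENNReal.ofReal l < F y}) := by
  have : Antitone (fun l : ℝ => mu {y | ENNReal.ofReal l < F y}) := by
    intro a b hab
    exact measure_mono fun y hy => lt_of_le_of_lt (ENNReal.ofReal_le_ofReal hab) hy
  exact this.measurable

theorem A_integrand_meas (p q : ℝ) (F : ℝ → ℝ≥0∞) :
    Measurable (fun l : ℝ => ENNReal.ofReal (l ^ (q - 1)) *
      (mu {y | ENNReal.ofReal l < F y}) ^ (q / p)) :=
  ((measurable_id.pow_const _).ennreal_ofReal).mul ((dist_meas F).pow_const _)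

/-- quasi-triangle inequality -/
theorem A_add {p q : ℝ} (hp : 0 < p) (hq : 0 < q) (F G : ℝ → ℝ≥0∞) :
    A p q (fun y => F y + G y) ≤ ENNReal.ofReal (2 ^ (q / p) * 2 ^ q) * (A p q F + A p q G) := by
  have hr : 0 ≤ q / p := by positivity
  have h1 : A p q (fun y => F y + G y) ≤
      2 ^ (q / p) * (A p q (fun y => ENNReal.ofReal 2 * F y) +
        A p q (fun y => ENNReal.ofReal 2 * G y)) := by
    unfold A
    rw [← lintegral_add_left (A_integrand_meas p q _), ← lintegral_const_mul' _ _
      (ENNReal.rpow_ne_top_of_nonneg hr (by norm_num))]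
    refine lintegral_mono fun l => ?_
    have hsub : {y | ENNReal.ofReal l < F y + G y} ⊆
        {y | ENNReal.ofReal l < ENNReal.ofReal 2 * F y} ∪
        {y | ENNReal.ofReal l < ENNReal.ofReal 2 * G y} := by
      intro y hy
      have hy' : ENNReal.ofReal l < F y + G y := hy
      by_contra hcon
      have h1 : ENNReal.ofReal 2 * F y ≤ ENNReal.ofReal l := by
        by_contra h; exact hcon (Or.inl (not_le.1 h))
      have h2 : ENNReal.ofReal 2 * G y ≤ ENNReal.ofReal l := by
        by_contra h; exact hcon (Or.inr (not_le.1 h))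
      have h3 : ENNReal.ofReal 2 * (F y + G y) ≤ ENNReal.ofReal 2 * ENNReal.ofReal l := by
        rw [mul_add, show ENNReal.ofReal 2 = 2 by simp, two_mul (ENNReal.ofReal l)]
        rw [show ENNReal.ofReal 2 = 2 by simp] at h1 h2
        exact add_le_add h1 h2
      have h4 := (ENNReal.mul_le_mul_iff_right (by simp) ENNReal.ofReal_ne_top).1 h3
      exact absurd hy' (not_lt.2 h4)
    calc ENNReal.ofReal (l ^ (q - 1)) * (mu {y | ENNReal.ofReal l < F y + G y}) ^ (q / p)
        ≤ ENNReal.ofReal (l ^ (q - 1)) * (2 ^ (q / p) *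
          ((mu {y | ENNReal.ofReal l < ENNReal.ofReal 2 * F y}) ^ (q / p) +
            (mu {y | ENNReal.ofReal l < ENNReal.ofReal 2 * G y}) ^ (q / p))) := by
          gcongr
          refine le_trans (ENNReal.rpow_le_rpow ((measure_mono hsub).trans
            (measure_union_le _ _)) hr) (add_rpow_le2 _ _ hr)
      _ = _ := by ring
  refine h1.trans (le_of_eq ?_)
  rw [A_const_mul hp hq (by norm_num), A_const_mul hp hq (by norm_num), ← mul_add, ← mul_assoc,
    ENNReal.ofReal_mul (by positivity)]
  congr 2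
  rw [← ENNReal.ofReal_rpow_of_nonneg (by norm_num) hr]
  simp

/-- Hardy-Littlewood, first half -/
theorem HL_set {G : ℝ → ℝ≥0∞} (hG : Measurable G) {E : Set ℝ} (hE : MeasurableSet E) :
    ∫⁻ y in E, G y ∂mu ≤
      ∫⁻ t in Ioc (0:ℝ) 1, if ENNReal.ofReal t < mu E then rr G t else 0 := by
  have hcake : ∀ r : ℝ≥0∞, r = ∫⁻ l in Ioi (0:ℝ), if ENNReal.ofReal l < r then 1 else 0 := by
    intro r
    have := powint r one_pos
    simpa using this
  have hcake2 : ∀ m : ℝ≥0∞, m ≤ 1 →
      ∫⁻ t in Ioc (0:ℝ) 1, (if ENNReal.ofReal t < m then (1:ℝ≥0∞) else 0) = m := by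
    intro m hm
    have := mint m hm one_pos
    simpa using this
  have hrm : Measurable (rr G) := (rr_anti G).measurable
  calc ∫⁻ y in E, G y ∂mu
      = ∫⁻ y in E, ∫⁻ l in Ioi (0:ℝ), (if ENNReal.ofReal l < G y then 1 else 0) ∂volume ∂mu := by
        refine lintegral_congr fun y => hcake _
    _ = ∫⁻ l in Ioi (0:ℝ), ∫⁻ y in E, (if ENNReal.ofReal l < G y then 1 else 0) ∂mu := by
        rw [lintegral_lintegral_swap]
        refine Measurable.aemeasurable ?_
        refine Measurable.ite ?_ measurable_const measurable_const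
        exact measurableSet_lt (ENNReal.measurable_ofReal.comp measurable_snd)
          (hG.comp measurable_fst)
    _ ≤ ∫⁻ l in Ioi (0:ℝ), ∫⁻ t in Ioc (0:ℝ) 1, (if ENNReal.ofReal t < mu E then
          (if ENNReal.ofReal l < rr G t then (1:ℝ≥0∞) else 0) else 0) := by
        refine lintegral_mono fun l => ?_
        have hms : MeasurableSet {y | ENNReal.ofReal l < G y} := measurableSet_lt measurable_const hG
        have h1 : ∫⁻ y in E, (if ENNReal.ofReal l < G y then (1:ℝ≥0∞) else 0) ∂mu =
            mu ({y | ENNReal.ofReal l < G y} ∩ E) := by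
          rw [show (fun y => if ENNReal.ofReal l < G y then (1:ℝ≥0∞) else 0) =
            {y | ENNReal.ofReal l < G y}.indicator (fun _ => 1) from by
              funext y; simp [indicator]]
          rw [lintegral_indicator hms, lintegral_one, Measure.restrict_restrict hms,
            Measure.restrict_apply MeasurableSet.univ, univ_inter]
        rw [h1]
        have h2 : ∀ t : ℝ, (if ENNReal.ofReal t < mu E then
          (if ENNReal.ofReal l < rr G t then (1:ℝ≥0∞) else 0) else 0) =
            if ENNReal.ofReal t < min (mu E) (mu {y | ENNReal.ofReal l < G y}) then 1 else 0 := by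
          intro t
          by_cases ha : ENNReal.ofReal t < mu E
          · by_cases hb : ENNReal.ofReal l < rr G t
            · rw [if_pos ha, if_pos hb, if_pos (lt_min_iff.2 ⟨ha, (lt_rr_iff G _).1 hb⟩)]
            · rw [if_pos ha, if_neg hb,
                if_neg (fun h => hb ((lt_rr_iff G _).2 (lt_min_iff.1 h).2))]
          · rw [if_neg ha, if_neg (fun h => ha (lt_min_iff.1 h).1)]
        simp_rw [h2]
        rw [hcake2 _ ((min_le_left _ _).trans (mu_le_one _))]
        exact le_min (measure_mono inter_subset_right) (measure_mono inter_subset_left)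
    _ = ∫⁻ t in Ioc (0:ℝ) 1, ∫⁻ l in Ioi (0:ℝ), (if ENNReal.ofReal t < mu E then
          (if ENNReal.ofReal l < rr G t then (1:ℝ≥0∞) else 0) else 0) := by
        rw [lintegral_lintegral_swap]
        refine Measurable.aemeasurable ?_
        refine Measurable.ite ?_ ?_ measurable_const
        · exact measurableSet_lt (ENNReal.measurable_ofReal.comp measurable_snd) measurable_const
        · refine Measurable.ite ?_ measurable_const measurable_const
          exact measurableSet_lt (ENNReal.measurable_ofReal.comp measurable_fst)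
            (hrm.comp measurable_snd)
    _ = _ := by
        refine lintegral_congr fun t => ?_
        by_cases h : ENNReal.ofReal t < mu E
        · simp only [if_pos h]
          exact (hcake _).symm
        · simp only [if_neg h, lintegral_zero]

/-- Hardy-Littlewood inequality -/
theorem HL {F G : ℝ → ℝ≥0∞} (hF : Measurable F) (hG : Measurable G) :
    ∫⁻ y, F y * G y ∂mu ≤ ∫⁻ t in Ioc (0:ℝ) 1, rr F t * rr G t := by
  have hcake : ∀ r : ℝ≥0∞, r = ∫⁻ l in Ioi (0:ℝ), if ENNReal.ofReal l < r then 1 else 0 := by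
    intro r
    have := powint r one_pos
    simpa using this
  have hrF : Measurable (rr F) := (rr_anti F).measurable
  have hrG : Measurable (rr G) := (rr_anti G).measurable
  calc ∫⁻ y, F y * G y ∂mu
      = ∫⁻ y, ∫⁻ l in Ioi (0:ℝ), (if ENNReal.ofReal l < F y then G y else 0) ∂volume ∂mu := by
        refine lintegral_congr fun y => ?_
        have h1 : ∀ l : ℝ, (if ENNReal.ofReal l < F y then G y else 0) =
            (if ENNReal.ofReal l < F y then 1 else 0) * G y := by
          intro l; split_ifs <;> simp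
        simp_rw [h1]
        rw [lintegral_mul_const]
        · rw [← hcake]
        · exact Measurable.ite (measurableSet_lt ENNReal.measurable_ofReal measurable_const)
            measurable_const measurable_const
    _ = ∫⁻ l in Ioi (0:ℝ), ∫⁻ y, (if ENNReal.ofReal l < F y then G y else 0) ∂mu := by
        rw [lintegral_lintegral_swap]
        refine Measurable.aemeasurable ?_
        refine Measurable.ite ?_ (hG.comp measurable_fst) measurable_const
        exact measurableSet_lt (ENNReal.measurable_ofReal.comp measurable_snd)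
          (hF.comp measurable_fst)
    _ ≤ ∫⁻ l in Ioi (0:ℝ), ∫⁻ t in Ioc (0:ℝ) 1,
          (if ENNReal.ofReal l < rr F t then rr G t else 0) := by
        refine lintegral_mono fun l => ?_
        have hms : MeasurableSet {y | ENNReal.ofReal l < F y} := measurableSet_lt measurable_const hF
        have h1 : ∫⁻ y, (if ENNReal.ofReal l < F y then G y else 0) ∂mu =
            ∫⁻ y in {y | ENNReal.ofReal l < F y}, G y ∂mu := by
          rw [← lintegral_indicator hms]
          refine lintegral_congr fun y => ?_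
          simp [indicator]
        rw [h1]
        refine (HL_set hG hms).trans (le_of_eq ?_)
        refine lintegral_congr fun t => ?_
        by_cases h : ENNReal.ofReal l < rr F t
        · rw [if_pos h, if_pos ((lt_rr_iff F _).1 h)]
        · rw [if_neg h, if_neg (fun h' => h ((lt_rr_iff F _).2 h'))]
    _ = ∫⁻ t in Ioc (0:ℝ) 1, ∫⁻ l in Ioi (0:ℝ),
          (if ENNReal.ofReal l < rr F t then rr G t else 0) := by
        rw [lintegral_lintegral_swap]
        refine Measurable.aemeasurable ?_
        refine Measurable.ite ?_ (hrG.comp measurable_snd) measurable_const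
        exact measurableSet_lt (ENNReal.measurable_ofReal.comp measurable_fst)
          (hrF.comp measurable_snd)
    _ = _ := by
        refine lintegral_congr fun t => ?_
        have h1 : ∀ l : ℝ, (if ENNReal.ofReal l < rr F t then rr G t else 0) =
            (if ENNReal.ofReal l < rr F t then 1 else 0) * rr G t := by
          intro l; split_ifs <;> simp
        simp_rw [h1]
        rw [lintegral_mul_const]
        · rw [← hcake]
        · exact Measurable.ite (measurableSet_lt ENNReal.measurable_ofReal measurable_const)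
            measurable_const measurable_const

/-- Hoelder inequality for Lorentz spaces -/
theorem hoelder {p q p' q' : ℝ} (hp : p.HolderConjugate p') (hq : q.HolderConjugate q')
    {F G : ℝ → ℝ≥0∞} (hF : Measurable F) (hG : Measurable G) :
    ∫⁻ y, F y * G y ∂mu ≤ (LF p q F) ^ (1 / q) * (LF p' q' G) ^ (1 / q') := by
  have hrF : Measurable (rr F) := (rr_anti F).measurable
  have hrG : Measurable (rr G) := (rr_anti G).measurable
  have hq0 : 0 < q := hq.pos
  have hq0' : 0 < q' := hq.symm.pos
  have hp0 : 0 < p := hp.pos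
  have hp0' : 0 < p' := hp.symm.pos
  refine (HL hF hG).trans ?_
  set f : ℝ → ℝ≥0∞ := fun t => ENNReal.ofReal (t ^ (1 / p)) * rr F t * (ENNReal.ofReal (1 / t)) ^ (1 / q)
    with hf
  set g : ℝ → ℝ≥0∞ := fun t => ENNReal.ofReal (t ^ (1 / p')) * rr G t *
    (ENNReal.ofReal (1 / t)) ^ (1 / q') with hg
  have hfm : Measurable f := by
    refine (((measurable_id.pow_const _).ennreal_ofReal).mul hrF).mul ?_
    exact ((measurable_const.div measurable_id).ennreal_ofReal).pow_const _
  have hgm : Measurable g := by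
    refine (((measurable_id.pow_const _).ennreal_ofReal).mul hrG).mul ?_
    exact ((measurable_const.div measurable_id).ennreal_ofReal).pow_const _
  have h1 := ENNReal.lintegral_mul_le_Lp_mul_Lq (volume.restrict (Ioc (0:ℝ) 1)) hq
    hfm.aemeasurable hgm.aemeasurable
  have e1 : ∫⁻ t in Ioc (0:ℝ) 1, (f t) ^ q = LF p q F := by
    unfold LF
    refine lintegral_congr fun t => ?_
    rw [hf]
    simp only
    rw [ENNReal.mul_rpow_of_nonneg _ _ hq0.le, ← ENNReal.rpow_mul, one_div_mul_cancel hq0.ne',
      ENNReal.rpow_one]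
  have e2 : ∫⁻ t in Ioc (0:ℝ) 1, (g t) ^ q' = LF p' q' G := by
    unfold LF
    refine lintegral_congr fun t => ?_
    rw [hg]
    simp only
    rw [ENNReal.mul_rpow_of_nonneg _ _ hq0'.le, ← ENNReal.rpow_mul, one_div_mul_cancel hq0'.ne',
      ENNReal.rpow_one]
  rw [e1, e2] at h1
  refine le_trans (le_of_eq ?_) h1
  refine setLIntegral_congr_fun measurableSet_Ioc fun t ht => ?_
  have ht0 : 0 < t := ht.1
  simp only [Pi.mul_apply, hf, hg]
  have h2 : ENNReal.ofReal (t ^ (1 / p)) * ENNReal.ofReal (t ^ (1 / p')) *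
      ((ENNReal.ofReal (1 / t)) ^ (1 / q) * (ENNReal.ofReal (1 / t)) ^ (1 / q')) = 1 := by
    rw [← ENNReal.ofReal_mul (by positivity), ← Real.rpow_add ht0,
      ← ENNReal.rpow_add_of_nonneg _ _ (by positivity) (by positivity)]
    have e3 : 1 / p + 1 / p' = 1 := by
      rw [one_div, one_div]; exact hp.inv_add_inv_eq_one
    have e4 : 1 / q + 1 / q' = 1 := by
      rw [one_div, one_div]; exact hq.inv_add_inv_eq_one
    rw [e3, e4, Real.rpow_one, ENNReal.rpow_one, ← ENNReal.ofReal_mul ht0.le,
      mul_one_div_cancel ht0.ne', ENNReal.ofReal_one]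
  calc rr F t * rr G t = rr F t * rr G t * 1 := by rw [mul_one]
    _ = rr F t * rr G t * (ENNReal.ofReal (t ^ (1 / p)) * ENNReal.ofReal (t ^ (1 / p')) *
      ((ENNReal.ofReal (1 / t)) ^ (1 / q) * (ENNReal.ofReal (1 / t)) ^ (1 / q'))) := by rw [h2]
    _ = _ := by ring

/-- weak type bound and sup bound give a Lorentz bound -/
theorem A_of_weak {p q : ℝ} (hp : 0 < p) (hq : 0 < q) {F : ℝ → ℝ≥0∞} {W H : ℝ} (hW : 0 ≤ W)
    (hH : 1 ≤ H) (hw : ∀ l : ℝ, 0 < l → mu {y | ENNReal.ofReal l < F y} ≤ ENNReal.ofReal (W * l ^ (-p)))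
    (hb : ∀ᵐ y ∂mu, F y ≤ ENNReal.ofReal H) :
    A p q F ≤ ENNReal.ofReal (1 / q + W ^ (q / p) * Real.log H) := by
  unfold A
  have hsub : Ioi (0:ℝ) ⊆ Ioc 0 1 ∪ (Ioc 1 H ∪ Ioi H) := by
    intro l hl
    have hl' : 0 < l := hl
    by_cases h1 : l ≤ 1
    · exact Or.inl ⟨hl', h1⟩
    · by_cases h2 : l ≤ H
      · exact Or.inr (Or.inl ⟨not_le.1 h1, h2⟩)
      · exact Or.inr (Or.inr (not_le.1 h2))
  have hr : 0 < q / p := by positivity
  refine (lintegral_mono_set hsub).trans ((lintegral_union_le _ _ _).trans ?_)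
  have i1 : ∫⁻ l in Ioc (0:ℝ) 1, ENNReal.ofReal (l ^ (q - 1)) *
      (mu {y | ENNReal.ofReal l < F y}) ^ (q / p) ≤ ENNReal.ofReal (1 / q) := by
    calc _ ≤ ∫⁻ l in Ioc (0:ℝ) 1, ENNReal.ofReal (1 * l ^ (q - 1)) := by
          refine lintegral_mono fun l => ?_
          rw [one_mul]
          calc _ ≤ ENNReal.ofReal (l ^ (q - 1)) * 1 ^ (q / p) := by
                gcongr
                exact mu_le_one _
            _ = _ := by rw [ENNReal.one_rpow, mul_one]
      _ = ∫⁻ l in Ioo (0:ℝ) 1, ENNReal.ofReal (1 * l ^ (q - 1)) :=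
          setLIntegral_congr Ioo_ae_eq_Ioc.symm
      _ = _ := by
          rw [lint_rpow zero_le_one hq 1 zero_le_one, Real.one_rpow, one_mul]
  have i2 : ∫⁻ l in Ioc (1:ℝ) H, ENNReal.ofReal (l ^ (q - 1)) *
      (mu {y | ENNReal.ofReal l < F y}) ^ (q / p) ≤ ENNReal.ofReal (W ^ (q / p) * Real.log H) := by
    calc _ ≤ ∫⁻ l in Ioc (1:ℝ) H, ENNReal.ofReal (W ^ (q / p) * l⁻¹) := by
          refine setLIntegral_mono' measurableSet_Ioc fun l hl => ?_
          have hl0 : 0 < l := lt_trans one_pos hl.1
          calc _ ≤ ENNReal.ofReal (l ^ (q - 1)) * (ENNReal.ofReal (W * l ^ (-p))) ^ (q / p) := by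
                gcongr
                exact hw l hl0
            _ = _ := by
                rw [ENNReal.ofReal_rpow_of_nonneg (by positivity) hr.le,
                  ← ENNReal.ofReal_mul (by positivity), Real.mul_rpow hW (by positivity),
                  ← Real.rpow_mul hl0.le]
                congr 1
                rw [show -p * (q / p) = -q by field_simp, mul_left_comm, ← Real.rpow_add hl0,
                  show q - 1 + -q = -1 by ring, Real.rpow_neg_one]
      _ = _ := by
          rw [← ofReal_integral_eq_lintegral_ofReal]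
          · congr 1
            rw [← intervalIntegral.integral_of_le hH, intervalIntegral.integral_const_mul,
              integral_inv_of_pos one_pos (by linarith), div_one]
          · have : IntervalIntegrable (fun l : ℝ => W ^ (q / p) * l⁻¹) volume 1 H := by
              refine IntervalIntegrable.const_mul ?_ _
              refine intervalIntegral.intervalIntegrable_inv (fun x hx => ?_) continuousOn_id
              rw [uIcc_of_le hH] at hx
              have := hx.1
              show x ≠ 0
              linarith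
            rw [intervalIntegrable_iff_integrableOn_Ioc_of_le hH] at this
            exact this
          · filter_upwards [ae_restrict_mem measurableSet_Ioc] with l hl
            have : 0 < l := lt_trans one_pos hl.1
            positivity
  have i3 : ∫⁻ l in Ioi H, ENNReal.ofReal (l ^ (q - 1)) *
      (mu {y | ENNReal.ofReal l < F y}) ^ (q / p) ≤ 0 := by
    calc _ ≤ ∫⁻ l in Ioi H, 0 := by
          refine setLIntegral_mono' measurableSet_Ioi fun l hl => ?_
          have hl' : H < l := hl
          have h0 : mu {y | ENNReal.ofReal l < F y} = 0 := by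
            rw [measure_eq_zero_iff_ae_notMem]
            filter_upwards [hb] with y hy hy2
            have hy3 : ENNReal.ofReal l < F y := hy2
            exact absurd (hy3.trans_le (hy.trans (ENNReal.ofReal_le_ofReal hl'.le))) (lt_irrefl _)
          rw [h0, ENNReal.zero_rpow_of_pos hr, mul_zero]
      _ = 0 := lintegral_zero
  calc _ ≤ ENNReal.ofReal (1 / q) + (ENNReal.ofReal (W ^ (q / p) * Real.log H) + 0) :=
        add_le_add i1 ((lintegral_union_le _ _ _).trans (add_le_add i2 i3))
    _ = _ := by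
        rw [add_zero, ENNReal.ofReal_add (by positivity)
          (mul_nonneg (by positivity) (Real.log_nonneg hH))]

end Pool.Agent.KS6_84.OB
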