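import Pool.Agent.KS6_84.OB.Basic

set_option autoImplicit false

open MeasureTheory Set Filter Topology
open scoped ENNReal NNReal

namespace Pool.Agent.KS6_84.OB


theorem measurableSet_cell (n i : ℕ) : MeasurableSet {y : ℝ | idx n y = i} :=
  measurable_idx n (measurableSet_singleton i)

theorem mem_mu_Ico : ∀ᵐ y ∂mu, y ∈ Ico (0:ℝ) 1 := by
  have : ∀ᵐ y ∂(volume.restrict (Ico (0:ℝ) 1)), y ∈ Ico (0:ℝ) 1 :=
    ae_restrict_mem measurableSet_Ico
  rwa [Measure.restrict_congr_set (Ico_ae_eq_Icc (μ := volume) (a := (0:ℝ)) (b := 1))] at this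

theorem density {E : Set ℝ} (hE : MeasurableSet E) (h0 : mu E ≠ 0) {ε : ℝ} (hε : 0 < ε) :
    ∃ n0, ∀ n ≥ n0, ∃ i < 8 ^ n, mu.real ({y | idx n y = i} \ E) ≤ ε * ((8:ℝ) ^ n)⁻¹ := by
  classical
  have h1 : mu (E ∩ Ico (0:ℝ) 1) ≠ 0 := by
    have : mu (E ∩ Ico (0:ℝ) 1) = mu E := by
      apply measure_congr
      filter_upwards [mem_mu_Ico] with y hy
      apply propext
      constructor
      · rintro ⟨a, _⟩; exact a
      · intro a; exact ⟨a, hy⟩
    rwa [this]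
  obtain ⟨K, hKE, hK, hKpos⟩ := (hE.inter measurableSet_Ico).exists_lt_isCompact (μ := mu)
    (pos_iff_ne_zero.2 h1)
  have hKr : 0 < mu.real K := by
    rw [measureReal_def]
    exact ENNReal.toReal_pos hKpos.ne' (measure_ne_top _ _)
  have hKlt : mu K < ENNReal.ofReal ((1 + ε) * mu.real K) := by
    rw [← ofReal_measureReal (μ := mu) (s := K)]
    apply (ENNReal.ofReal_lt_ofReal_iff (by positivity)).2
    nlinarith
  obtain ⟨U, hKU, hU, hUlt⟩ := K.exists_isOpen_lt_of_lt _ hKlt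
  have hUr : mu.real U < (1 + ε) * mu.real K := by
    rw [measureReal_def]
    rw [ENNReal.lt_ofReal_iff_toReal_lt (measure_ne_top _ _)] at hUlt
    exact hUlt
  obtain ⟨r, hr, hrU⟩ := hK.exists_thickening_subset_open hU hKU
  obtain ⟨n0, hn0⟩ := exists_pow_lt_of_lt_one hr (show (1/8:ℝ) < 1 by norm_num)
  refine ⟨n0, fun n hn => ?_⟩
  by_contra hcon
  push Not at hcon
  set cell : ℕ → Set ℝ := fun i => {y | idx n y = i} with hcell
  have h8 : (0:ℝ) < 8 ^ n := by positivity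
  have h8r : ((8:ℝ) ^ n)⁻¹ < r := by
    calc ((8:ℝ) ^ n)⁻¹ = (1/8:ℝ) ^ n := by rw [one_div, inv_pow]
      _ ≤ (1/8:ℝ) ^ n0 := pow_le_pow_of_le_one (by norm_num) (by norm_num) hn
      _ < r := hn0
  let I := (Finset.range (8 ^ n)).filter (fun i => (cell i ∩ Ico (0:ℝ) 1 ∩ K).Nonempty)
  have hIU : ∀ i ∈ I, cell i ∩ Ico (0:ℝ) 1 ⊆ U := by
    intro i hi y hy
    obtain ⟨z, hz, hzK⟩ := (Finset.mem_filter.1 hi).2
    apply hrU
    rw [Metric.mem_thickening_iff]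
    refine ⟨z, hzK, ?_⟩
    rw [idx_preimage] at hy hz
    have a1 := hy.1.1
    have a2 := hy.1.2
    have b1 := hz.1.1
    have b2 := hz.1.2
    rw [Real.dist_eq, abs_lt]
    have : ((i:ℝ) + 1) / 8 ^ n = (i:ℝ) / 8 ^ n + ((8:ℝ) ^ n)⁻¹ := by
      rw [add_div, one_div]
    constructor <;> linarith
  have hKI : K ⊆ ⋃ i ∈ I, cell i := by
    intro y hy
    have hyI : y ∈ Ico (0:ℝ) 1 := (hKE hy).2
    have hlt : idx n y < 8 ^ n := by
      unfold idx
      rw [Nat.floor_lt (by have := hyI.1; positivity)]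
      push_cast
      nlinarith [hyI.2]
    rw [mem_iUnion₂]
    exact ⟨idx n y, Finset.mem_filter.2 ⟨Finset.mem_range.2 hlt, ⟨y, ⟨rfl, hyI⟩, hy⟩⟩, rfl⟩
  have hK2 : mu.real K ≤ I.card * ((8:ℝ) ^ n)⁻¹ := by
    calc mu.real K ≤ mu.real (⋃ i ∈ I, cell i) := measureReal_mono hKI (measure_ne_top _ _)
      _ ≤ ∑ i ∈ I, mu.real (cell i) := measureReal_biUnion_finset_le _ _
      _ = ∑ i ∈ I, ((8:ℝ) ^ n)⁻¹ := by
          refine Finset.sum_congr rfl fun i hi => ?_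
          exact mu_real_cell (Finset.mem_range.1 (Finset.mem_filter.1 hi).1)
      _ = I.card * ((8:ℝ) ^ n)⁻¹ := by rw [Finset.sum_const, nsmul_eq_mul]
  have hKm : MeasurableSet K := hK.measurableSet
  have hUK : mu.real (U \ K) = mu.real U - mu.real K := by
    rw [measureReal_sdiff hKU hKm]
  have hdisj : (I : Set ℕ).PairwiseDisjoint (fun i => (cell i ∩ Ico (0:ℝ) 1) \ K) := by
    intro i _ j _ hij
    rw [Function.onFun, Set.disjoint_left]
    rintro y ⟨⟨h1, _⟩, _⟩ ⟨⟨h2, _⟩, _⟩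
    exact hij (h1.symm.trans h2)
  have hsum : ∑ i ∈ I, mu.real ((cell i ∩ Ico (0:ℝ) 1) \ K) ≤ mu.real (U \ K) := by
    rw [← measureReal_biUnion_finset hdisj
      (fun i _ => ((measurableSet_cell n i).inter measurableSet_Ico).diff hKm)]
    apply measureReal_mono _ (measure_ne_top _ _)
    intro y hy
    rw [mem_iUnion₂] at hy
    obtain ⟨i, hi, hy⟩ := hy
    exact ⟨hIU i hi hy.1, hy.2⟩
  have hlow : ∀ i ∈ I, ε * ((8:ℝ) ^ n)⁻¹ ≤ mu.real ((cell i ∩ Ico (0:ℝ) 1) \ K) := by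
    intro i hi
    have hi' := Finset.mem_range.1 (Finset.mem_filter.1 hi).1
    refine (hcon i hi').le.trans ?_
    have e1 : mu.real ((cell i ∩ Ico (0:ℝ) 1) \ K) = mu.real (cell i \ K) := by
      apply measureReal_congr
      filter_upwards [mem_mu_Ico] with y hy
      apply propext
      constructor
      · rintro ⟨⟨a, _⟩, b⟩; exact ⟨a, b⟩
      · rintro ⟨a, b⟩; exact ⟨⟨a, hy⟩, b⟩
    rw [e1]
    apply measureReal_mono _ (measure_ne_top _ _)
    intro y hy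
    exact ⟨hy.1, fun h => hy.2 (hKE h).1⟩
  have hsum2 : I.card * (ε * ((8:ℝ) ^ n)⁻¹) ≤ mu.real (U \ K) := by
    refine le_trans ?_ hsum
    rw [← nsmul_eq_mul, ← Finset.sum_const]
    exact Finset.sum_le_sum hlow
  have : mu.real (U \ K) < ε * mu.real K := by rw [hUK]; linarith
  have h3 : ε * mu.real K ≤ ε * (I.card * ((8:ℝ) ^ n)⁻¹) := by gcongr
  linarith [mul_left_comm ε (I.card : ℝ) ((8:ℝ) ^ n)⁻¹]

theorem cell_children (a i : ℕ) (y : ℝ) :
    idx a y = i ↔ ∃ c < 8, idx (a + 1) y = 8 * i + c := by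
  rw [idx_div a 1 y, pow_one]
  constructor
  · intro h
    exact ⟨idx (a + 1) y % 8, Nat.mod_lt _ (by norm_num), by omega⟩
  · rintro ⟨c, hc, h⟩
    omega

theorem measure_children {E : Set ℝ} (hE : MeasurableSet E) (a i : ℕ) :
    mu.real ({y | idx a y = i} \ E) =
      ∑ c ∈ Finset.range 8, mu.real ({y | idx (a + 1) y = 8 * i + c} \ E) := by
  rw [← measureReal_biUnion_finset]
  · congr 1
    ext y
    rw [mem_iUnion₂]
    constructor
    · rintro ⟨h1, h2⟩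
      obtain ⟨c, hc, h⟩ := (cell_children a i y).1 h1
      exact ⟨c, Finset.mem_range.2 hc, h, h2⟩
    · rintro ⟨c, hc, h, h2⟩
      exact ⟨(cell_children a i y).2 ⟨c, Finset.mem_range.1 hc, h⟩, h2⟩
  · intro c _ c' _ hcc
    rw [Function.onFun, Set.disjoint_left]
    rintro y ⟨h1, _⟩ ⟨h2, _⟩
    have h1' : idx (a + 1) y = 8 * i + c := h1
    have h2' : idx (a + 1) y = 8 * i + c' := h2
    omega
  · intro c _
    exact (measurableSet_cell _ _).diff hE

open Classical in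
theorem maximal_aux {E : Set ℝ} (hE : MeasurableSet E) {τ : ℝ} (hτ : 0 < τ) (d : ℕ) :
    ∀ a i : ℕ, (((Finset.range (8 ^ d)).filter (fun x => ∃ m, a ≤ m ∧ m ≤ a + d ∧
      τ * ((8:ℝ) ^ m)⁻¹ <
        mu.real ({y | idx m y = (i * 8 ^ d + x) / 8 ^ (a + d - m)} \ E))).card : ℝ) * τ
      ≤ mu.real ({y | idx a y = i} \ E) * 8 ^ a * 8 ^ d := by
  induction d with
  | zero =>
    intro a i
    by_cases hb : τ * ((8:ℝ) ^ a)⁻¹ < mu.real ({y | idx a y = i} \ E)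
    · have h1 : (((Finset.range (8 ^ 0)).filter (fun x => ∃ m, a ≤ m ∧ m ≤ a + 0 ∧
        τ * ((8:ℝ) ^ m)⁻¹ <
          mu.real ({y | idx m y = (i * 8 ^ 0 + x) / 8 ^ (a + 0 - m)} \ E))).card : ℝ) ≤ 1 := by
        have := Finset.card_filter_le (Finset.range (8 ^ 0)) (fun x => ∃ m, a ≤ m ∧ m ≤ a + 0 ∧
          τ * ((8:ℝ) ^ m)⁻¹ <
            mu.real ({y | idx m y = (i * 8 ^ 0 + x) / 8 ^ (a + 0 - m)} \ E))
        rw [Finset.card_range] at this
        exact_mod_cast this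
      have h2 : τ ≤ mu.real ({y | idx a y = i} \ E) * 8 ^ a := by
        have h8 : (0:ℝ) < 8 ^ a := by positivity
        rw [mul_inv_lt_iff₀ h8] at hb
        exact hb.le
      calc _ ≤ (1:ℝ) * τ := mul_le_mul_of_nonneg_right h1 hτ.le
        _ = τ := one_mul _
        _ ≤ mu.real ({y | idx a y = i} \ E) * 8 ^ a := h2
        _ = _ := by rw [pow_zero, mul_one]
    · have h1 : (Finset.range (8 ^ 0)).filter (fun x => ∃ m, a ≤ m ∧ m ≤ a + 0 ∧
        τ * ((8:ℝ) ^ m)⁻¹ <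
          mu.real ({y | idx m y = (i * 8 ^ 0 + x) / 8 ^ (a + 0 - m)} \ E)) = ∅ := by
        rw [Finset.filter_eq_empty_iff]
        rintro x hx ⟨m, hm1, hm2, hm3⟩
        have hx0 : x = 0 := by simpa using hx
        have hma : m = a := by omega
        subst hma hx0
        apply hb
        simpa using hm3
      rw [h1]
      simp only [Finset.card_empty, Nat.cast_zero, zero_mul]
      positivity
  | succ d ih =>
    intro a i
    have h8a : (0:ℝ) < 8 ^ a := by positivity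
    by_cases hb : τ * ((8:ℝ) ^ a)⁻¹ < mu.real ({y | idx a y = i} \ E)
    · have h1 : (((Finset.range (8 ^ (d+1))).filter (fun x => ∃ m, a ≤ m ∧ m ≤ a + (d + 1) ∧
        τ * ((8:ℝ) ^ m)⁻¹ <
          mu.real ({y | idx m y = (i * 8 ^ (d + 1) + x) / 8 ^ (a + (d + 1) - m)} \ E))).card : ℝ)
          ≤ 8 ^ (d + 1) := by
        have := Finset.card_filter_le (Finset.range (8 ^ (d+1))) (fun x => ∃ m, a ≤ m ∧ m ≤ a + (d+1) ∧
          τ * ((8:ℝ) ^ m)⁻¹ <
            mu.real ({y | idx m y = (i * 8 ^ (d+1) + x) / 8 ^ (a + (d+1) - m)} \ E))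
        rw [Finset.card_range] at this
        exact_mod_cast this
      have h2 : τ ≤ mu.real ({y | idx a y = i} \ E) * 8 ^ a := by
        rw [mul_inv_lt_iff₀ h8a] at hb
        exact hb.le
      calc _ ≤ (8:ℝ) ^ (d + 1) * τ := by gcongr
        _ ≤ 8 ^ (d + 1) * (mu.real ({y | idx a y = i} \ E) * 8 ^ a) := by gcongr
        _ = _ := by ring
    · have hsub : (Finset.range (8 ^ (d+1))).filter (fun x => ∃ m, a ≤ m ∧ m ≤ a + (d + 1) ∧
        τ * ((8:ℝ) ^ m)⁻¹ <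
          mu.real ({y | idx m y = (i * 8 ^ (d + 1) + x) / 8 ^ (a + (d + 1) - m)} \ E)) ⊆
          (Finset.range 8).biUnion (fun c => ((Finset.range (8 ^ d)).filter
            (fun x => ∃ m, a + 1 ≤ m ∧ m ≤ a + 1 + d ∧ τ * ((8:ℝ) ^ m)⁻¹ <
              mu.real ({y | idx m y = ((8 * i + c) * 8 ^ d + x) / 8 ^ (a + 1 + d - m)} \ E))).image
              (fun x => c * 8 ^ d + x)) := by
        intro x hx
        rw [Finset.mem_filter, Finset.mem_range] at hx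
        obtain ⟨hx1, m, hm1, hm2, hm3⟩ := hx
        have hp : 0 < 8 ^ d := by positivity
        have hdm : 8 ^ d * (x / 8 ^ d) + x % 8 ^ d = x := Nat.div_add_mod x (8 ^ d)
        have hc : x / 8 ^ d < 8 := by
          rw [Nat.div_lt_iff_lt_mul hp]
          rw [pow_succ] at hx1
          linarith
        rw [Finset.mem_biUnion]
        refine ⟨x / 8 ^ d, Finset.mem_range.2 hc, ?_⟩
        rw [Finset.mem_image]
        refine ⟨x % 8 ^ d, ?_, by rw [mul_comm]; exact hdm⟩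
        rw [Finset.mem_filter, Finset.mem_range]
        refine ⟨Nat.mod_lt _ hp, m, ?_, by omega, ?_⟩
        · by_contra hlt
          have hma : m = a := by omega
          subst hma
          apply hb
          have e1 : (i * 8 ^ (d + 1) + x) / 8 ^ (m + (d + 1) - m) = i := by
            rw [Nat.add_sub_cancel_left]
            rw [mul_comm, Nat.mul_add_div (by positivity), Nat.div_eq_of_lt hx1, add_zero]
          rwa [e1] at hm3
        · have e1 : (8 * i + x / 8 ^ d) * 8 ^ d + x % 8 ^ d = i * 8 ^ (d + 1) + x := by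
            rw [pow_succ]
            conv_rhs => rw [← hdm]
            ring
          have e2 : a + 1 + d - m = a + (d + 1) - m := by omega
          rw [e1, e2]
          exact hm3
      have hcard := (Finset.card_le_card hsub).trans Finset.card_biUnion_le
      have hcard2 : (((Finset.range (8 ^ (d+1))).filter (fun x => ∃ m, a ≤ m ∧ m ≤ a + (d + 1) ∧
        τ * ((8:ℝ) ^ m)⁻¹ <
          mu.real ({y | idx m y = (i * 8 ^ (d + 1) + x) / 8 ^ (a + (d + 1) - m)} \ E))).card : ℝ) ≤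
          ∑ c ∈ Finset.range 8, (((Finset.range (8 ^ d)).filter
            (fun x => ∃ m, a + 1 ≤ m ∧ m ≤ a + 1 + d ∧ τ * ((8:ℝ) ^ m)⁻¹ <
              mu.real ({y | idx m y = ((8 * i + c) * 8 ^ d + x) / 8 ^ (a + 1 + d - m)} \ E))).card : ℝ) := by
        refine le_trans (Nat.cast_le.2 hcard) ?_
        push_cast
        exact Finset.sum_le_sum fun c _ => by exact_mod_cast Finset.card_image_le
      calc _ ≤ (∑ c ∈ Finset.range 8, (((Finset.range (8 ^ d)).filter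
            (fun x => ∃ m, a + 1 ≤ m ∧ m ≤ a + 1 + d ∧ τ * ((8:ℝ) ^ m)⁻¹ <
              mu.real ({y | idx m y = ((8 * i + c) * 8 ^ d + x) / 8 ^ (a + 1 + d - m)} \ E))).card : ℝ)) * τ := by
            gcongr
        _ = ∑ c ∈ Finset.range 8, (((Finset.range (8 ^ d)).filter
            (fun x => ∃ m, a + 1 ≤ m ∧ m ≤ a + 1 + d ∧ τ * ((8:ℝ) ^ m)⁻¹ <
              mu.real ({y | idx m y = ((8 * i + c) * 8 ^ d + x) / 8 ^ (a + 1 + d - m)} \ E))).card : ℝ) * τ := by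
            rw [Finset.sum_mul]
        _ ≤ ∑ c ∈ Finset.range 8, mu.real ({y | idx (a + 1) y = 8 * i + c} \ E) * 8 ^ (a + 1) * 8 ^ d :=
            Finset.sum_le_sum fun c _ => ih (a + 1) (8 * i + c)
        _ = mu.real ({y | idx a y = i} \ E) * 8 ^ a * 8 ^ (d + 1) := by
            rw [measure_children hE a i, ← Finset.sum_mul, ← Finset.sum_mul]
            ring

open Classical in
/-- maximal inequality: few descendants of level `b` have a bad ancestor -/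
theorem maximal {E : Set ℝ} (hE : MeasurableSet E) {τ δ : ℝ} (hτ : 0 < τ) {a b i : ℕ} (hab : a ≤ b)
    (hi : i < 8 ^ a) (h : mu.real ({y | idx a y = i} \ E) ≤ τ * δ * ((8:ℝ) ^ a)⁻¹) :
    (((Finset.range (8 ^ (b - a))).filter (fun x => ∃ m, a ≤ m ∧ m ≤ b ∧
      τ * ((8:ℝ) ^ m)⁻¹ < mu.real ({y | idx m y = (i * 8 ^ (b - a) + x) / 8 ^ (b - m)} \ E))).card : ℝ)
      ≤ δ * 8 ^ (b - a) := by
  obtain ⟨d, rfl⟩ : ∃ d, b = a + d := ⟨b - a, by omega⟩
  have h1 := maximal_aux hE hτ d a i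
  rw [Nat.add_sub_cancel_left]
  have h8a : (0:ℝ) < 8 ^ a := by positivity
  have h2 : mu.real ({y | idx a y = i} \ E) * 8 ^ a ≤ τ * δ := by
    calc _ ≤ (τ * δ * ((8:ℝ) ^ a)⁻¹) * 8 ^ a := by gcongr
      _ = τ * δ := by field_simp
  have h3 := h1.trans (mul_le_mul_of_nonneg_right h2 (by positivity : (0:ℝ) ≤ 8 ^ d))
  have h4 : τ * δ * 8 ^ d = (δ * 8 ^ d) * τ := by ring
  rw [h4] at h3
  exact le_of_mul_le_mul_right h3 hτ

/-- the cells of level `2 * M` inside a cell of level `M` -/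
theorem sum_sub_cells {F : Set ℝ} (hF : MeasurableSet F) (M P : ℕ) (S : Finset ℕ)
    (hS : ∀ Q ∈ S, Q < 8 ^ M) :
    ∑ Q ∈ S, mu.real ({y | idx (2 * M) y = P * 8 ^ M + Q} \ F) ≤
      mu.real ({y | idx M y = P} \ F) := by
  rw [← measureReal_biUnion_finset]
  · apply measureReal_mono _ (measure_ne_top _ _)
    intro y hy
    rw [mem_iUnion₂] at hy
    obtain ⟨Q, hQ, hy1, hy2⟩ := hy
    refine ⟨?_, hy2⟩
    have hy1' : idx (2 * M) y = P * 8 ^ M + Q := hy1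
    show idx M y = P
    rw [idx_div' (show M ≤ 2 * M by omega), hy1', show 2 * M - M = M by omega, mul_comm,
      Nat.mul_add_div (by positivity), Nat.div_eq_of_lt (hS Q hQ), add_zero]
  · intro c _ c' _ hcc
    rw [Function.onFun, Set.disjoint_left]
    rintro y ⟨h1, _⟩ ⟨h2, _⟩
    have h1' : idx (2 * M) y = P * 8 ^ M + c := h1
    have h2' : idx (2 * M) y = P * 8 ^ M + c' := h2
    omega
  · intro c _
    exact (measurableSet_cell _ _).diff hF

/-- the selection -/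
theorem selection {e F : Set ℝ} (he : MeasurableSet e) (hF : MeasurableSet F) (he0 : mu e ≠ 0)
    (hF0 : mu F ≠ 0) {δ : ℝ} (hδ : 0 < δ) :
    ∃ l0 n0 : ℕ, ∀ M ≥ n0, l0 ≤ M ∧ ∃ j < 8 ^ (3 * M),
      (∀ m, l0 ≤ m → m ≤ M →
        mu.real ({y | idx m y = ((j / 8 ^ M) % 8 ^ M) / 8 ^ (M - m)} \ e) ≤
          δ * ((8:ℝ) ^ m)⁻¹) ∧
      (∀ m, 2 * M ≤ m → m ≤ 3 * M →
        mu.real ({y | idx m y = j / 8 ^ (3 * M - m)} \ F) ≤ δ * ((8:ℝ) ^ m)⁻¹) := by
  classical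
  obtain ⟨l0, hl0⟩ := density he he0 (half_pos hδ)
  obtain ⟨ie, hie, hie2⟩ := hl0 l0 le_rfl
  have h8l : (0:ℝ) < 8 ^ l0 := by positivity
  obtain ⟨n1, hn1⟩ := density hF hF0 (show 0 < δ / 4 * ((8:ℝ) ^ l0)⁻¹ by positivity)
  refine ⟨l0, max l0 n1, fun M hn => ?_⟩
  have hl0M : l0 ≤ M := (le_max_left _ _).trans hn
  have hn1M : n1 ≤ M := (le_max_right _ _).trans hn
  refine ⟨hl0M, ?_⟩
  obtain ⟨P, hP, hP2⟩ := hn1 M hn1M
  -- the good descendants for `e`
  have hmax := maximal he hδ (δ := 1 / 2) hl0M hie (by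
    refine hie2.trans (le_of_eq ?_)
    ring)
  set bad := (Finset.range (8 ^ (M - l0))).filter (fun x => ∃ m, l0 ≤ m ∧ m ≤ M ∧
      δ * ((8:ℝ) ^ m)⁻¹ < mu.real ({y | idx m y = (ie * 8 ^ (M - l0) + x) / 8 ^ (M - m)} \ e)) with hbad
  set good := (Finset.range (8 ^ (M - l0))) \ bad with hgood
  have hgc : (1 / 2 : ℝ) * 8 ^ (M - l0) ≤ (good.card : ℝ) := by
    have h1 : good.card + bad.card = 8 ^ (M - l0) := by
      rw [hgood, Finset.card_sdiff_add_card_eq_card (Finset.filter_subset _ _), Finset.card_range]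
    have h2 : (good.card : ℝ) + bad.card = 8 ^ (M - l0) := by exact_mod_cast h1
    linarith
  have hgm : ∀ x ∈ good, x < 8 ^ (M - l0) ∧ ∀ m, l0 ≤ m → m ≤ M →
      mu.real ({y | idx m y = (ie * 8 ^ (M - l0) + x) / 8 ^ (M - m)} \ e) ≤ δ * ((8:ℝ) ^ m)⁻¹ := by
    intro x hx
    rw [hgood, Finset.mem_sdiff, Finset.mem_range] at hx
    refine ⟨hx.1, fun m hm1 hm2 => ?_⟩
    by_contra hc
    push Not at hc
    exact hx.2 (Finset.mem_filter.2 ⟨Finset.mem_range.2 hx.1, m, hm1, hm2, hc⟩)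
  have hM8 : 8 ^ M = 8 ^ l0 * 8 ^ (M - l0) := by rw [← pow_add]; congr 1; omega
  have hM8r : (8:ℝ) ^ M = 8 ^ l0 * 8 ^ (M - l0) := by exact_mod_cast hM8
  have hQlt : ∀ x < 8 ^ (M - l0), ie * 8 ^ (M - l0) + x < 8 ^ M := by
    intro x hx
    rw [hM8]
    calc ie * 8 ^ (M - l0) + x < ie * 8 ^ (M - l0) + 8 ^ (M - l0) := by omega
      _ = (ie + 1) * 8 ^ (M - l0) := by ring
      _ ≤ 8 ^ l0 * 8 ^ (M - l0) := Nat.mul_le_mul_right _ hie
  -- one of them is good for `F`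
  obtain ⟨x, hx, hxF⟩ : ∃ x ∈ good, mu.real ({y | idx (2 * M) y =
      P * 8 ^ M + (ie * 8 ^ (M - l0) + x)} \ F) ≤ δ * (1 / 2) * ((8:ℝ) ^ (2 * M))⁻¹ := by
    by_contra hcon
    push Not at hcon
    have hne : good.Nonempty := by
      rw [← Finset.card_pos]
      have : (0:ℝ) < good.card := lt_of_lt_of_le (by positivity) hgc
      exact_mod_cast this
    have h1 := sum_sub_cells hF M P (good.image (fun x => ie * 8 ^ (M - l0) + x)) (by
      intro Q hQ
      obtain ⟨x, hx, rfl⟩ := Finset.mem_image.1 hQ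
      exact hQlt x (hgm x hx).1)
    rw [Finset.sum_image (by intro x _ y _ h; simpa using h)] at h1
    have h2 : ∑ x ∈ good, δ * (1 / 2) * ((8:ℝ) ^ (2 * M))⁻¹ <
        ∑ x ∈ good, mu.real ({y | idx (2 * M) y =
          P * 8 ^ M + (ie * 8 ^ (M - l0) + x)} \ F) :=
      Finset.sum_lt_sum_of_nonempty hne hcon
    rw [Finset.sum_const, nsmul_eq_mul] at h2
    have h3 : (1 / 2 : ℝ) * 8 ^ (M - l0) * (δ * (1 / 2) * ((8:ℝ) ^ (2 * M))⁻¹) ≤
        good.card * (δ * (1 / 2) * ((8:ℝ) ^ (2 * M))⁻¹) := by gcongr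
    have h4 : (1 / 2 : ℝ) * 8 ^ (M - l0) * (δ * (1 / 2) * ((8:ℝ) ^ (2 * M))⁻¹) =
        δ / 4 * ((8:ℝ) ^ l0)⁻¹ * ((8:ℝ) ^ M)⁻¹ := by
      have hp : (0:ℝ) < 8 ^ (M - l0) := by positivity
      have : (8:ℝ) ^ (2 * M) = (8 ^ l0 * 8 ^ (M - l0)) * 8 ^ M := by
        rw [← hM8r, two_mul, pow_add]
      rw [this]
      field_simp
      ring
    linarith
  have hQ := hQlt x (hgm x hx).1
  set Q := ie * 8 ^ (M - l0) + x with hQdef
  have hi2 : P * 8 ^ M + Q < 8 ^ (2 * M) := by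
    calc P * 8 ^ M + Q < P * 8 ^ M + 8 ^ M := by omega
      _ = (P + 1) * 8 ^ M := by ring
      _ ≤ 8 ^ M * 8 ^ M := Nat.mul_le_mul_right _ hP
      _ = 8 ^ (2 * M) := by rw [two_mul, pow_add]
  have hmax2 := maximal hF hδ (δ := 1 / 2) (show 2 * M ≤ 3 * M by omega) hi2 hxF
  rw [show 3 * M - 2 * M = M by omega] at hmax2
  obtain ⟨w, hw, hwg⟩ : ∃ w < 8 ^ M, ∀ m, 2 * M ≤ m → m ≤ 3 * M →
      mu.real ({y | idx m y = ((P * 8 ^ M + Q) * 8 ^ M + w) / 8 ^ (3 * M - m)} \ F) ≤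
        δ * ((8:ℝ) ^ m)⁻¹ := by
    by_contra hcon
    push Not at hcon
    have : (Finset.range (8 ^ M)).filter (fun x => ∃ m, 2 * M ≤ m ∧ m ≤ 3 * M ∧
      δ * ((8:ℝ) ^ m)⁻¹ < mu.real ({y | idx m y = ((P * 8 ^ M + Q) * 8 ^ M + x) / 8 ^ (3 * M - m)} \ F))
        = Finset.range (8 ^ M) := by
      rw [Finset.filter_eq_self]
      intro w hw
      obtain ⟨m, h1, h2, h3⟩ := hcon w (Finset.mem_range.1 hw)
      exact ⟨m, h1, h2, h3⟩
    rw [this, Finset.card_range] at hmax2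
    push_cast at hmax2
    have hp : (0:ℝ) < 8 ^ M := by positivity
    linarith
  have hp : 0 < 8 ^ M := by positivity
  have hj1 : ((P * 8 ^ M + Q) * 8 ^ M + w) / 8 ^ M = P * 8 ^ M + Q := by
    rw [mul_comm, Nat.mul_add_div hp, Nat.div_eq_of_lt hw, add_zero]
  have hj2 : (P * 8 ^ M + Q) % 8 ^ M = Q := by
    rw [mul_comm, Nat.mul_add_mod, Nat.mod_eq_of_lt hQ]
  refine ⟨(P * 8 ^ M + Q) * 8 ^ M + w, ?_, ?_, hwg⟩
  · calc (P * 8 ^ M + Q) * 8 ^ M + w < (P * 8 ^ M + Q) * 8 ^ M + 8 ^ M := by omega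
      _ = (P * 8 ^ M + Q + 1) * 8 ^ M := by ring
      _ ≤ 8 ^ (2 * M) * 8 ^ M := Nat.mul_le_mul_right _ hi2
      _ = 8 ^ (3 * M) := by rw [← pow_add]; congr 1; ring
  · intro m hm1 hm2
    rw [hj1, hj2]
    exact (hgm x hx).2 m hm1 hm2

end Pool.Agent.KS6_84.OB

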