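import Pool.Agent.KS6_84.OB.Inst
import Pool.Agent.KS6_84.OB.Select

/-!
Lower bounds for the blocks, `p ≠ 2`.
-/

set_option autoImplicit false

open MeasureTheory Set Filter Topology
open scoped ENNReal NNReal

namespace Pool.Agent.KS6_84.OB

/-- variant of `A_of_weak` with a bound for the measure of the support -/
theorem A_of_weak2 {p q : ℝ} (hp : 0 < p) (hq : 0 < q) {F : ℝ → ℝ≥0∞} {W H δ : ℝ} (hW : 0 ≤ W)
    (hδ : 0 ≤ δ) (hH : 1 ≤ H)
    (hd : ∀ l : ℝ, 0 < l → mu {y | ENNReal.ofReal l < F y} ≤ ENNReal.ofReal δ)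
    (hw : ∀ l : ℝ, 0 < l → mu {y | ENNReal.ofReal l < F y} ≤ ENNReal.ofReal (W * l ^ (-p)))
    (hb : ∀ᵐ y ∂mu, F y ≤ ENNReal.ofReal H) :
    A p q F ≤ ENNReal.ofReal (δ ^ (q / p) * (1 / q) + W ^ (q / p) * Real.log H) := by
  unfold A
  have hsub : Ioi (0:ℝ) ⊆ Ioc 0 1 ∪ (Ioc 1 H ∪ Ioi H) := by
    intro l hl
    have hl' : 0 < l := hl
    by_cases h1 : l ≤ 1
    · exact Or.inl ⟨hl', h1⟩
    · by_cases h2 : l ≤ H
      · exact Or.inr (Or.inl ⟨not_le.1 h1, h2⟩)
      · exact Or.inr (Or.inr (not_le.1 h2))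
  have hr : 0 < q / p := by positivity
  refine (lintegral_mono_set hsub).trans ((lintegral_union_le _ _ _).trans ?_)
  have i1 : ∫⁻ l in Ioc (0:ℝ) 1, ENNReal.ofReal (l ^ (q - 1)) *
      (mu {y | ENNReal.ofReal l < F y}) ^ (q / p) ≤ ENNReal.ofReal (δ ^ (q / p) * (1 / q)) := by
    calc _ ≤ ∫⁻ l in Ioc (0:ℝ) 1, ENNReal.ofReal (δ ^ (q / p) * l ^ (q - 1)) := by
          refine setLIntegral_mono' measurableSet_Ioc fun l hl => ?_
          rw [mul_comm (δ ^ (q / p)), ENNReal.ofReal_mul (by have := hl.1; positivity),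
            ← ENNReal.ofReal_rpow_of_nonneg hδ hr.le]
          gcongr
          exact hd l hl.1
      _ = ∫⁻ l in Ioo (0:ℝ) 1, ENNReal.ofReal (δ ^ (q / p) * l ^ (q - 1)) :=
          setLIntegral_congr Ioo_ae_eq_Ioc.symm
      _ = _ := by
          rw [lint_rpow zero_le_one hq _ (by positivity), Real.one_rpow]
  have i2 : ∫⁻ l in Ioc (1:ℝ) H, ENNReal.ofReal (l ^ (q - 1)) *
      (mu {y | ENNReal.ofReal l < F y}) ^ (q / p) ≤ ENNReal.ofReal (W ^ (q / p) * Real.log H) := by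
    calc _ ≤ ∫⁻ l in Ioc (1:ℝ) H, ENNReal.ofReal (W ^ (q / p) * l⁻¹) := by
          refine setLIntegral_mono' measurableSet_Ioc fun l hl => ?_
          have hl0 : 0 < l := lt_trans one_pos hl.1
          calc _ ≤ ENNReal.ofReal (l ^ (q - 1)) * (ENNReal.ofReal (W * l ^ (-p))) ^ (q / p) := by
                gcongr
                exact hw l hl0
            _ = _ := by
                rw [ENNReal.ofReal_rpow_of_nonneg (by positivity) hr.le,
                  ← ENNReal.ofReal_mul (by positivity), Real.mul_rpow hW (by positivity),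
                  ← Real.rpow_mul hl0.le]
                congr 1
                rw [show -p * (q / p) = -q by field_simp, mul_left_comm, ← Real.rpow_add hl0,
                  show q - 1 + -q = -1 by ring, Real.rpow_neg_one]
      _ = _ := log_int hH (by positivity)
  have i3 : ∫⁻ l in Ioi H, ENNReal.ofReal (l ^ (q - 1)) *
      (mu {y | ENNReal.ofReal l < F y}) ^ (q / p) ≤ 0 := by
    calc _ ≤ ∫⁻ l in Ioi H, 0 := by
          refine setLIntegral_mono' measurableSet_Ioi fun l hl => ?_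
          have hl' : H < l := hl
          have h0 : mu {y | ENNReal.ofReal l < F y} = 0 := by
            rw [measure_eq_zero_iff_ae_notMem]
            filter_upwards [hb] with y hy hy2
            have hy3 : ENNReal.ofReal l < F y := hy2
            exact absurd (hy3.trans_le (hy.trans (ENNReal.ofReal_le_ofReal hl'.le))) (lt_irrefl _)
          rw [h0, ENNReal.zero_rpow_of_pos hr, mul_zero]
      _ = 0 := lintegral_zero
  calc _ ≤ ENNReal.ofReal (δ ^ (q / p) * (1 / q)) +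
        (ENNReal.ofReal (W ^ (q / p) * Real.log H) + 0) :=
        add_le_add i1 ((lintegral_union_le _ _ _).trans (add_le_add i2 i3))
    _ = _ := by
        rw [add_zero, ENNReal.ofReal_add (by positivity)
          (mul_nonneg (by positivity) (Real.log_nonneg hH))]

theorem cell_lt {m B j : ℕ} (hm : m ≤ B) (hj : j < 8 ^ B) : j / 8 ^ (B - m) < 8 ^ m := by
  rw [Nat.div_lt_iff_lt_mul (by positivity), ← pow_add]
  rwa [show m + (B - m) = B by omega]

/-- weak type bound for a single tower on a thin set -/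
theorem tower_weak {p ρ : ℝ} (hp : 0 < p) (hρ : 1 < ρ) (hρp : ρ ^ p = 8) {a b B j : ℕ} (hb : b ≤ B)
    {G : Set ℝ} {δ : ℝ} (hδ : 0 ≤ δ)
    (hG : ∀ m, a ≤ m → m < b → mu.real ({y | idx m y = j / 8 ^ (B - m)} ∩ G) ≤ δ * ((8:ℝ) ^ m)⁻¹)
    {l : ℝ} (hl : 0 < l) :
    mu.real ({y | l < tw ρ a b B j y} ∩ G) ≤ min δ (δ * (ρ / (ρ - 1)) ^ p * l ^ (-p)) := by
  have hρ0 : 0 < ρ := by linarith
  have hρ1 : 0 < ρ - 1 := by linarith
  set c := ρ / (ρ - 1) with hc
  have hc0 : 0 < c := by positivity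
  have hex : ∃ m, a ≤ m ∧ l < c * ρ ^ m := by
    obtain ⟨m, hm⟩ := pow_unbounded_of_one_lt (l / c) hρ
    refine ⟨max a m, le_max_left _ _, ?_⟩
    have h1 : ρ ^ m ≤ ρ ^ (max a m) := pow_le_pow_right₀ hρ.le (le_max_right _ _)
    rw [div_lt_iff₀ hc0] at hm
    nlinarith
  classical
  set m0 := Nat.find hex with hm0
  have hspec := Nat.find_spec hex
  rw [← hm0] at hspec
  have hmin : ∀ k, a ≤ k → k < m0 → c * ρ ^ k ≤ l := by
    intro k hk hk2
    have := Nat.find_min hex hk2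
    push Not at this
    exact this hk
  -- the sum below `m0` is small
  have hsmall : ∀ h y, a ≤ h → h ≤ m0 → tw ρ a h B j y ≤ l := by
    intro h y hah hh
    rcases Nat.lt_or_ge a h with hlt | hge
    · obtain ⟨k, rfl⟩ : ∃ k, h = k + 1 := ⟨h - 1, by omega⟩
      have h1 := hmin k (by omega) (by omega)
      refine le_trans ?_ h1
      unfold tw
      calc ∑ m ∈ Finset.Ico a (k + 1), ρ ^ m * ind m (j / 8 ^ (B - m)) y
          ≤ ∑ m ∈ Finset.Ico a (k + 1), ρ ^ m := by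
            refine Finset.sum_le_sum fun m _ => ?_
            exact mul_le_of_le_one_right (by positivity) (ind_le_one _ _ _)
        _ ≤ ρ ^ (k + 1) / (ρ - 1) := geo_le hρ _ _
        _ = c * ρ ^ k := by rw [hc, pow_succ]; ring
    · have : h = a := by omega
      subst this
      unfold tw
      rw [Finset.Ico_self, Finset.sum_empty]
      exact hl.le
  have hsub : {y | l < tw ρ a b B j y} ∩ G ⊆ if m0 < b then
      ({y | idx m0 y = j / 8 ^ (B - m0)} ∩ G) else ∅ := by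
    rintro y ⟨hy, hyG⟩
    have hy' : l < tw ρ a b B j y := hy
    have hab : a < b := by
      by_contra hcon
      unfold tw at hy'
      rw [Finset.Ico_eq_empty (by omega), Finset.sum_empty] at hy'
      linarith
    split_ifs with h
    · refine ⟨?_, hyG⟩
      by_contra hcon
      rw [tw_split hspec.1 h.le, tw_zero_of (mid := m0) hb, add_zero] at hy'
      · exact absurd (hsmall m0 y hspec.1 le_rfl) (not_le.2 hy')
      · intro _
        unfold ind
        exact if_neg (fun h => hcon h)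
    · exact absurd (hsmall b y hab.le (not_lt.1 h)) (not_le.2 hy')
  split_ifs at hsub with h
  · have h1 : mu.real ({y | l < tw ρ a b B j y} ∩ G) ≤ δ * ((8:ℝ) ^ m0)⁻¹ :=
      (measureReal_mono hsub (measure_ne_top _ _)).trans (hG m0 hspec.1 h)
    refine le_min (h1.trans ?_) (h1.trans ?_)
    · have : ((8:ℝ) ^ m0)⁻¹ ≤ 1 := inv_le_one_of_one_le₀ (one_le_pow₀ (by norm_num))
      nlinarith
    · rw [mul_assoc]
      gcongr
      have h2 : l ^ p ≤ c ^ p * 8 ^ m0 := by
        rw [← rho_pow hρ0 hρp, ← Real.mul_rpow hc0.le (by positivity)]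
        exact Real.rpow_le_rpow hl.le hspec.2.le hp.le
      rw [Real.rpow_neg hl.le, ← div_eq_mul_inv, le_div_iff₀ (by positivity), inv_mul_le_iff₀ (by positivity)]
      linarith
  · have h1 : mu.real ({y | l < tw ρ a b B j y} ∩ G) ≤ 0 := by
      rw [← measureReal_empty (μ := mu)]
      exact measureReal_mono hsub (measure_ne_top _ _)
    exact h1.trans (le_min hδ (by positivity))

/-- constant for a tower -/
noncomputable def Ct (ρ q : ℝ) : ℝ := 1 / q + (ρ / (ρ - 1)) ^ q * (4 * Real.log 8)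

theorem Ct_pos {ρ q : ℝ} (hρ : 1 < ρ) (hq : 0 < q) : 0 < Ct ρ q := by
  unfold Ct
  have : 0 ≤ Real.log 8 := Real.log_nonneg (by norm_num)
  have h1 : 0 < ρ - 1 := by linarith
  positivity

/-- norm of a single tower on a thin set -/
theorem tower_A {p q ρ : ℝ} (hp : 0 < p) (hq : 0 < q) (hρ : 1 < ρ) (hρ8 : ρ ≤ 8) (hρp : ρ ^ p = 8)
    {M : ℕ} (hM : 1 ≤ M) {a b B j : ℕ} (hb : b ≤ B) (hb3 : b ≤ 3 * M)
    {G : Set ℝ} {δ : ℝ} (hδ : 0 ≤ δ)
    (hG : ∀ m, a ≤ m → m < b → mu.real ({y | idx m y = j / 8 ^ (B - m)} ∩ G) ≤ δ * ((8:ℝ) ^ m)⁻¹) :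
    A p q (fun y => ‖G.indicator (fun y => (M:ℝ) ^ (-1 / q) * tw ρ a b B j y) y‖ₑ) ≤
      ENNReal.ofReal (δ ^ (q / p) * Ct ρ q) := by
  have hM0 : (0:ℝ) < M := by exact_mod_cast hM
  have hM1 : (1:ℝ) ≤ M := by exact_mod_cast hM
  have hρ1 : 0 < ρ - 1 := by linarith
  set s := (M:ℝ) ^ (-1 / q) with hs
  have hs0 : 0 < s := by positivity
  have hs1 : s ≤ 1 := by
    rw [hs, show (-1 / q) = -(1 / q) by ring, Real.rpow_neg hM0.le]
    exact inv_le_one_of_one_le₀ (Real.one_le_rpow hM1 (by positivity))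
  have hset : ∀ l : ℝ, 0 < l → {y | ENNReal.ofReal l < ‖G.indicator (fun y => s * tw ρ a b B j y) y‖ₑ} =
      {y | l / s < tw ρ a b B j y} ∩ G := by
    intro l hl
    ext y
    simp only [mem_ofPred_eq, mem_inter_iff]
    by_cases h : y ∈ G
    · rw [indicator_of_mem h, Real.enorm_eq_ofReal_abs, ENNReal.ofReal_lt_ofReal_iff_of_nonneg hl.le,
        abs_of_nonneg (mul_nonneg hs0.le (tw_nonneg (by linarith) _ _ _ _ _)), div_lt_iff₀ hs0, mul_comm]
      simp [h]
    · rw [indicator_of_notMem h]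
      simp [h]
  have h1 := A_of_weak2 (p := p) (q := q) hp hq
    (F := fun y => ‖G.indicator (fun y => s * tw ρ a b B j y) y‖ₑ)
    (W := δ * (ρ / (ρ - 1)) ^ p * s ^ p) (H := 8 ^ (4 * M)) (δ := δ) (by positivity) hδ
    (one_le_pow₀ (by norm_num)) (fun l hl => ?_) (fun l hl => ?_) (Eventually.of_forall fun y => ?_)
  · refine h1.trans (le_of_eq ?_)
    congr 1
    unfold Ct
    rw [Real.mul_rpow (by positivity) (by positivity), Real.mul_rpow hδ (by positivity),
      ← Real.rpow_mul (by positivity), ← Real.rpow_mul (by positivity), hs, ← Real.rpow_mul hM0.le,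
      Real.log_pow]
    have e1 : -1 / q * (p * (q / p)) = -1 := by field_simp
    have e2 : p * (q / p) = q := by field_simp
    rw [e1, e2, Real.rpow_neg_one]
    push_cast
    field_simp
  · rw [hset l hl, ← ofReal_measureReal]
    apply ENNReal.ofReal_le_ofReal
    exact (tower_weak hp hρ hρp hb hδ hG (by positivity)).trans (min_le_left _ _)
  · rw [hset l hl, ← ofReal_measureReal]
    apply ENNReal.ofReal_le_ofReal
    refine (tower_weak hp hρ hρp hb hδ hG (by positivity)).trans ((min_le_right _ _).trans (le_of_eq ?_))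
    rw [Real.div_rpow hl.le hs0.le, Real.rpow_neg hs0.le, div_inv_eq_mul]
    ring
  · refine (enorm_indicator_le_enorm_self _ _).trans ?_
    rw [Real.enorm_eq_ofReal_abs]
    apply ENNReal.ofReal_le_ofReal
    rw [abs_mul, abs_of_pos hs0]
    have := tw_abs_le (B := B) (j := j) (lo := a) hρ.le hρ8 hb3 hM y
    calc s * |tw ρ a b B j y| ≤ 1 * 8 ^ (4 * M) := by gcongr
      _ = _ := one_mul _

/-- pairing of two towers with dual heights -/
theorem tower_pair {ρ ρ' : ℝ} (hρ : 0 < ρ) (hρ' : 0 < ρ') (hρρ : ρ * ρ' = 8) {a b lo hi B j : ℕ}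
    (hlo : lo ≤ a) (hhi : b ≤ hi) (hB : hi ≤ B) (hj : j < 8 ^ B) (hab : a ≤ b) :
    ((b - a : ℕ) : ℝ) ≤ ∫ y, tw ρ a b B j y * tw ρ' lo hi B j y ∂mu := by
  have h1 : ∀ y, ∑ m ∈ Finset.Ico a b, (8:ℝ) ^ m * ind m (j / 8 ^ (B - m)) y ≤
      tw ρ a b B j y * tw ρ' lo hi B j y := by
    intro y
    unfold tw
    rw [Finset.sum_mul]
    refine Finset.sum_le_sum fun m hm => ?_
    rw [Finset.mem_Ico] at hm
    have h2 : ρ' ^ m * ind m (j / 8 ^ (B - m)) y ≤
        ∑ m ∈ Finset.Ico lo hi, ρ' ^ m * ind m (j / 8 ^ (B - m)) y :=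
      Finset.single_le_sum (f := fun m => ρ' ^ m * ind m (j / 8 ^ (B - m)) y)
        (fun m _ => mul_nonneg (by positivity) (ind_nonneg _ _ _)) (Finset.mem_Ico.2 ⟨by omega, by omega⟩)
    calc (8:ℝ) ^ m * ind m (j / 8 ^ (B - m)) y =
          (ρ ^ m * ind m (j / 8 ^ (B - m)) y) * (ρ' ^ m * ind m (j / 8 ^ (B - m)) y) := by
          have h5 := ind_sq m (j / 8 ^ (B - m)) y
          rw [← hρρ, mul_pow]
          linear_combination (-(ρ ^ m * ρ' ^ m)) * h5
      _ ≤ _ := mul_le_mul_of_nonneg_left h2 (mul_nonneg (by positivity) (ind_nonneg _ _ _))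
  have hst : ∀ m ∈ Finset.Ico a b, Step B (fun y => (8:ℝ) ^ m * ind m (j / 8 ^ (B - m)) y) := by
    intro m hm
    rw [Finset.mem_Ico] at hm
    exact ((step_ind m _).comp (fun x => (8:ℝ) ^ m * x)).mono (by omega)
  calc ((b - a : ℕ) : ℝ) = ∫ y, ∑ m ∈ Finset.Ico a b, (8:ℝ) ^ m * ind m (j / 8 ^ (B - m)) y ∂mu := by
        rw [integral_finsetSum _ (fun m hm => (hst m hm).integrable)]
        have h3 : ∀ m ∈ Finset.Ico a b, ∫ y, (8:ℝ) ^ m * ind m (j / 8 ^ (B - m)) y ∂mu = 1 := by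
          intro m hm
          rw [Finset.mem_Ico] at hm
          rw [integral_const_mul, integral_ind (cell_lt (by omega) hj)]
          exact mul_inv_cancel₀ (by positivity)
        rw [Finset.sum_congr rfl h3, Finset.sum_const, Nat.card_Ico, nsmul_eq_mul, mul_one]
    _ ≤ _ := by
        refine integral_mono (step_sum _ hst).integrable ?_ h1
        exact ((step_tw ρ a b B j (by omega)).mul (step_tw ρ' lo hi B j hB)).integrable

/-- lower bound for the norm of a tower on a thick set -/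
theorem tower_low {p q ρ : ℝ} (hp : 0 < p) (hq : 1 ≤ q) (hρ : 1 < ρ) (hρp : ρ ^ p = 8)
    {M : ℕ} (hM : 1 ≤ M) {b0 lo hi B j : ℕ} (hlo : lo ≤ b0) (hhi : hi ≤ B)
    (hlen : M ≤ 2 * (hi - b0)) (hj : j < 8 ^ B)
    {e : Set ℝ} (he : MeasurableSet e)
    (hE : ∀ m, b0 ≤ m → m < hi → mu.real ({y | idx m y = j / 8 ^ (B - m)} \ e) ≤
      1 / 2 * ((8:ℝ) ^ m)⁻¹) {κ : ℝ} (hκ : 1 / 2 ≤ κ) :
    ENNReal.ofReal (1 / 2 * ((ρ - 1) * (1 / (2 * ρ)) ^ q * (1 / 2) ^ (q / p))) ≤
      A p q (fun y => ‖e.indicator (fun y => κ * ((M:ℝ) ^ (-1 / q) * tw ρ lo hi B j y)) y‖ₑ) := by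
  have hρ0 : 0 < ρ := by linarith
  have hρ1 : 0 < ρ - 1 := by linarith
  have hq0 : 0 < q := by linarith
  have hM0 : (0:ℝ) < M := by exact_mod_cast hM
  have hr : 0 < q / p := by positivity
  set s := (M:ℝ) ^ (-1 / q) with hs
  have hs0 : 0 < s := by positivity
  set u : ℕ → ℝ := fun m => (1 / 2) * s * ρ ^ m / ρ with hu
  have hu0 : ∀ m, 0 < u m := fun m => by rw [hu]; positivity
  have humono : Monotone u := by
    refine monotone_nat_of_le_succ fun m => ?_
    rw [hu]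
    simp only
    rw [pow_succ]
    gcongr
    nlinarith [pow_pos hρ0 m]
  have hudiff : ∀ m, u (m + 1) - u m = (ρ - 1) * u m := by
    intro m
    rw [hu]
    simp only
    rw [pow_succ]
    ring
  have hlt : ∀ m, b0 ≤ m → m < hi → ∀ l ∈ Ioo (u m) (u (m + 1)),
      ENNReal.ofReal (1 / 2 * ((8:ℝ) ^ m)⁻¹) ≤ mu {y | ENNReal.ofReal l <
        ‖e.indicator (fun y => κ * (s * tw ρ lo hi B j y)) y‖ₑ} := by
    intro m hm1 hm2 l hl
    have hl0 : 0 < l := (hu0 m).trans hl.1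
    have hcell := mu_real_cell (cell_lt (m := m) (B := B) (by omega) hj)
    have h1 : 1 / 2 * ((8:ℝ) ^ m)⁻¹ ≤ mu.real ({y | idx m y = j / 8 ^ (B - m)} ∩ e) := by
      have h2 := measureReal_inter_add_sdiff (μ := mu) (s := {y | idx m y = j / 8 ^ (B - m)}) he
      have h3 := hE m hm1 hm2
      linarith
    rw [← ofReal_measureReal]
    refine ENNReal.ofReal_le_ofReal (h1.trans (measureReal_mono ?_ (measure_ne_top _ _)))
    rintro y ⟨hy, hye⟩
    show ENNReal.ofReal l < ‖e.indicator (fun y => κ * (s * tw ρ lo hi B j y)) y‖ₑ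
    rw [indicator_of_mem hye, Real.enorm_eq_ofReal_abs, ENNReal.ofReal_lt_ofReal_iff_of_nonneg hl0.le]
    have h4 : ρ ^ m ≤ tw ρ lo hi B j y := by
      unfold tw
      have h5 : ρ ^ m = ρ ^ m * ind m (j / 8 ^ (B - m)) y := by
        unfold ind
        have hy' : idx m y = j / 8 ^ (B - m) := hy
        rw [if_pos hy', mul_one]
      rw [h5]
      exact Finset.single_le_sum (f := fun m => ρ ^ m * ind m (j / 8 ^ (B - m)) y)
        (fun m _ => mul_nonneg (by positivity) (ind_nonneg _ _ _)) (Finset.mem_Ico.2 ⟨by omega, by omega⟩)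
    have h6 : l < 1 / 2 * s * ρ ^ m := by
      have h7 := hl.2
      rw [hu] at h7
      simp only at h7
      rw [pow_succ, ← mul_assoc, mul_div_cancel_right₀ _ hρ0.ne'] at h7
      exact h7
    refine h6.trans_le (le_trans ?_ (le_abs_self _))
    calc 1 / 2 * s * ρ ^ m ≤ κ * s * tw ρ lo hi B j y := by gcongr
      _ = _ := by ring
  have hpiece : ∀ m ∈ Finset.Ico b0 hi,
      ENNReal.ofReal ((ρ - 1) * (1 / (2 * ρ)) ^ q * (1 / 2) ^ (q / p) * (M:ℝ)⁻¹) ≤
      ∫⁻ l in Ioo (u m) (u (m + 1)), ENNReal.ofReal (l ^ (q - 1)) *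
        (mu {y | ENNReal.ofReal l <
        ‖e.indicator (fun y => κ * (s * tw ρ lo hi B j y)) y‖ₑ}) ^ (q / p) := by
    intro m hm
    rw [Finset.mem_Ico] at hm
    calc ENNReal.ofReal ((ρ - 1) * (1 / (2 * ρ)) ^ q * (1 / 2) ^ (q / p) * (M:ℝ)⁻¹)
        = ∫⁻ l in Ioo (u m) (u (m + 1)), ENNReal.ofReal ((u m) ^ (q - 1)) *
            (ENNReal.ofReal (1 / 2 * ((8:ℝ) ^ m)⁻¹)) ^ (q / p) := by
          rw [setLIntegral_const, Real.volume_Ioo, hudiff, ENNReal.ofReal_rpow_of_nonneg (by positivity) hr.le,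
            ← ENNReal.ofReal_mul (by have := hu0 m; positivity),
            ← ENNReal.ofReal_mul (by have := hu0 m; positivity)]
          congr 1
          have e1 : (u m) ^ (q - 1) * (u m) = (u m) ^ q := by
            rw [← Real.rpow_add_one (hu0 m).ne']
            congr 1
            ring
          have e2 : (u m) ^ q = (1 / (2 * ρ)) ^ q * ((M:ℝ)⁻¹ * (ρ ^ m) ^ q) := by
            rw [hu]
            simp only
            rw [show 1 / 2 * s * ρ ^ m / ρ = (1 / (2 * ρ)) * (s * ρ ^ m) by field_simp,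
              Real.mul_rpow (by positivity) (by positivity), Real.mul_rpow hs0.le (by positivity), hs,
              ← Real.rpow_mul hM0.le, div_mul_cancel₀ _ hq0.ne', Real.rpow_neg_one]
          have e3 : (1 / 2 * ((8:ℝ) ^ m)⁻¹) ^ (q / p) = (1 / 2) ^ (q / p) * ((ρ ^ m) ^ q)⁻¹ := by
            rw [Real.mul_rpow (by norm_num) (by positivity), Real.inv_rpow (by positivity),
              ← rho_pow hρ0 hρp, ← Real.rpow_mul (by positivity), show p * (q / p) = q by field_simp]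
          have e4 : (ρ ^ m) ^ q ≠ 0 := by positivity
          calc (ρ - 1) * (1 / (2 * ρ)) ^ q * (1 / 2) ^ (q / p) * (M:ℝ)⁻¹
              = (ρ - 1) * ((1 / (2 * ρ)) ^ q * ((M:ℝ)⁻¹ * (ρ ^ m) ^ q)) *
                ((1 / 2) ^ (q / p) * ((ρ ^ m) ^ q)⁻¹) := by field_simp
            _ = (ρ - 1) * ((u m) ^ (q - 1) * (u m)) * (1 / 2 * ((8:ℝ) ^ m)⁻¹) ^ (q / p) := by
                rw [e1, e2, e3]
            _ = _ := by ring
      _ ≤ _ := by
          refine setLIntegral_mono' measurableSet_Ioo fun l hl => ?_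
          gcongr
          · exact hl.1.le
          · exact hlt m hm.1 hm.2 l hl
  unfold A
  have hdisj : Set.PairwiseDisjoint (↑(Finset.Ico b0 hi)) (fun m => Ioo (u m) (u (m + 1))) := by
    intro i _ k _ hik
    have := humono.pairwise_disjoint_on_Ioc_succ hik
    exact this.mono Ioo_subset_Ioc_self Ioo_subset_Ioc_self
  calc ENNReal.ofReal (1 / 2 * ((ρ - 1) * (1 / (2 * ρ)) ^ q * (1 / 2) ^ (q / p)))
      ≤ ∑ m ∈ Finset.Ico b0 hi,
        ENNReal.ofReal ((ρ - 1) * (1 / (2 * ρ)) ^ q * (1 / 2) ^ (q / p) * (M:ℝ)⁻¹) := by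
        rw [Finset.sum_const, Nat.card_Ico, nsmul_eq_mul, ← ENNReal.ofReal_natCast,
          ← ENNReal.ofReal_mul (by positivity)]
        apply ENNReal.ofReal_le_ofReal
        have h1 : (1:ℝ) / 2 ≤ ((hi - b0 : ℕ) : ℝ) * (M:ℝ)⁻¹ := by
          rw [← div_eq_mul_inv, le_div_iff₀ hM0]
          have : (M:ℝ) ≤ 2 * ((hi - b0 : ℕ) : ℝ) := by exact_mod_cast hlen
          linarith
        have h2 : 0 ≤ (ρ - 1) * (1 / (2 * ρ)) ^ q * (1 / 2) ^ (q / p) := by positivity
        calc 1 / 2 * ((ρ - 1) * (1 / (2 * ρ)) ^ q * (1 / 2) ^ (q / p)) ≤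
              (((hi - b0 : ℕ) : ℝ) * (M:ℝ)⁻¹) * ((ρ - 1) * (1 / (2 * ρ)) ^ q * (1 / 2) ^ (q / p)) := by
              gcongr
          _ = _ := by ring
    _ ≤ ∑ m ∈ Finset.Ico b0 hi, ∫⁻ l in Ioo (u m) (u (m + 1)), ENNReal.ofReal (l ^ (q - 1)) *
        (mu {y | ENNReal.ofReal l <
        ‖e.indicator (fun y => κ * (s * tw ρ lo hi B j y)) y‖ₑ}) ^ (q / p) :=
        Finset.sum_le_sum hpiece
    _ = ∫⁻ l in ⋃ m ∈ Finset.Ico b0 hi, Ioo (u m) (u (m + 1)), ENNReal.ofReal (l ^ (q - 1)) *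
        (mu {y | ENNReal.ofReal l <
        ‖e.indicator (fun y => κ * (s * tw ρ lo hi B j y)) y‖ₑ}) ^ (q / p) := by
        rw [lintegral_biUnion_finset hdisj (fun _ _ => measurableSet_Ioo)]
    _ ≤ _ := by
        refine lintegral_mono_set ?_
        intro l hl
        rw [mem_iUnion₂] at hl
        obtain ⟨m, _, hl⟩ := hl
        exact (hu0 m).trans hl.1

end Pool.Agent.KS6_84.OB
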