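import Pool.Agent.KS6_84.OB.L2
import Pool.Agent.KS6_84.OB.Low

/-!
The case `p = 2`: towers and bumps.
-/

set_option autoImplicit false

open MeasureTheory Set Filter Topology
open scoped ENNReal NNReal

namespace Pool.Agent.KS6_84.OB

noncomputable def r8 : ℝ := 8 ^ (1 / (2:ℝ))

theorem r8_p : r8 ^ (2:ℝ) = 8 := rho_p two_pos

theorem r8_sq : r8 ^ 2 = 8 := by rw [← Real.rpow_two]; exact r8_p

theorem r8_gt : 1 < r8 := rho_gt two_pos

theorem r8_pos : 0 < r8 := zero_lt_one.trans r8_gt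

theorem r8_le : r8 ≤ 8 := rho_le one_lt_two

/-- deep towers -/
noncomputable def thD (a M j : ℕ) (y : ℝ) : ℝ := tw r8 a (a + M) (a + M) j y

/-- bumps -/
noncomputable def thB (M j : ℕ) (y : ℝ) : ℝ := r8 ^ M * ind M (j % 8 ^ M) y

noncomputable def WD (a M : ℕ) (c : ℕ → ℝ) (y : ℝ) : ℝ :=
  W (a + M) (8 ^ (a + M)) (fun j y => c j * thD a M j y) y

noncomputable def WB (a M : ℕ) (c : ℕ → ℝ) (y : ℝ) : ℝ :=
  W (a + M) (8 ^ (a + M)) (fun j y => c j * thB M j y) y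

/-- sum of squares of the coefficients -/
noncomputable def S2 (a M : ℕ) (c : ℕ → ℝ) : ℝ := ∑ j ∈ Finset.range (8 ^ (a + M)), (c j) ^ 2

noncomputable def C1 : ℝ := 2 * (r8 / (r8 - 1))

theorem C1_pos : 0 < C1 := by
  unfold C1
  have := r8_gt
  have h : 0 < r8 - 1 := by linarith
  have := r8_pos
  positivity

theorem S2_nonneg (a M : ℕ) (c : ℕ → ℝ) : 0 ≤ S2 a M c := Finset.sum_nonneg fun _ _ => sq_nonneg _

theorem step_thD (a M j : ℕ) : Step (a + M) (thD a M j) := step_tw _ _ _ _ _ le_rfl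

theorem step_thB (a M j : ℕ) : Step (a + M) (thB M j) :=
  ((step_ind M _).comp (fun x => r8 ^ M * x)).mono (by omega)

theorem step_WD (a M : ℕ) (c : ℕ → ℝ) : Step (a + M + 8 ^ (a + M)) (WD a M c) :=
  step_W (fun j => (step_thD a M j).comp (fun x => c j * x)) _

theorem step_WB (a M : ℕ) (c : ℕ → ℝ) : Step (a + M + 8 ^ (a + M)) (WB a M c) :=
  step_W (fun j => (step_thB a M j).comp (fun x => c j * x)) _

theorem WD_L2 (a M : ℕ) (c : ℕ → ℝ) : ∫ y, (WD a M c y) ^ 2 ∂mu ≤ C1 * M * S2 a M c := by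
  have h := tower_L2 (ρ := r8) r8_gt (B := a + M) (B' := a + M) (n := 8 ^ (a + M)) le_rfl
    (lo := fun _ => a) (hi := fun _ => a + M) (fun _ => le_rfl) (fun j => j) (fun j hj => hj) c
  refine h.trans (le_of_eq ?_)
  have h1 : r8 ^ 2 / 8 = 1 := by rw [r8_sq]; norm_num
  have h2 : ∑ m ∈ Finset.Ico a (a + M), (r8 ^ 2 / 8) ^ m = (M:ℝ) := by
    rw [h1]
    simp
  simp_rw [h2]
  rw [← Finset.sum_mul]
  unfold C1 S2
  ring

theorem WB_L2 (a M : ℕ) (c : ℕ → ℝ) : ∫ y, (WB a M c y) ^ 2 ∂mu = S2 a M c := by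
  unfold WB
  rw [orth (fun j => (step_thB a M j).comp (fun x => c j * x))]
  unfold S2
  refine Finset.sum_congr rfl fun j _ => ?_
  have h1 : ∀ y, (c j * thB M j y) ^ 2 = ((c j) ^ 2 * 8 ^ M) * ind M (j % 8 ^ M) y := by
    intro y
    unfold thB
    rw [mul_pow, mul_pow, ind_sq, ← pow_mul, mul_comm M 2, pow_mul, r8_sq]
    ring
  simp_rw [h1]
  rw [integral_const_mul, integral_ind (Nat.mod_lt _ (by positivity))]
  have : (8:ℝ) ^ M ≠ 0 := by positivity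
  field_simp

theorem lint_sq {K : ℕ} {f : ℝ → ℝ} (hf : Step K f) :
    ∫⁻ y, (‖f y‖ₑ) ^ (2:ℝ) ∂mu = ENNReal.ofReal (∫ y, (f y) ^ 2 ∂mu) := by
  rw [ofReal_integral_eq_lintegral_ofReal]
  · refine lintegral_congr fun y => ?_
    rw [Real.enorm_eq_ofReal_abs, ENNReal.ofReal_rpow_of_nonneg (abs_nonneg _) (by norm_num),
      Real.rpow_two, sq_abs]
  · exact (hf.comp (fun x => x ^ 2)).integrable
  · exact Eventually.of_forall fun y => sq_nonneg _

theorem set_enorm (f : ℝ → ℝ) {l : ℝ} (hl : 0 ≤ l) :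
    {y | ENNReal.ofReal l < ‖f y‖ₑ} = {y | l < |f y|} := by
  ext y
  simp only [mem_ofPred_eq]
  rw [Real.enorm_eq_ofReal_abs, ENNReal.ofReal_lt_ofReal_iff_of_nonneg hl]

theorem weak_of_L2 {K : ℕ} {f : ℝ → ℝ} (hf : Step K f) {E : ℝ} (hE : ∫ y, (f y) ^ 2 ∂mu ≤ E)
    {l : ℝ} (hl : 0 < l) :
    mu {y | ENNReal.ofReal l < ‖f y‖ₑ} ≤ ENNReal.ofReal (E * l ^ (-2:ℝ)) := by
  rw [set_enorm f hl.le, ← ofReal_measureReal]
  apply ENNReal.ofReal_le_ofReal
  refine (cheb hf hl 1).trans ?_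
  rw [mul_one, Real.rpow_neg hl.le, Real.rpow_two, ← div_eq_mul_inv]
  gcongr

/-- the number of descendants -/
theorem card_desc (n k i : ℕ) : ((Finset.range n).filter (fun j => j / 8 ^ k = i)).card ≤ 8 ^ k := by
  have hp : 0 < 8 ^ k := by positivity
  have hsub : (Finset.range n).filter (fun j => j / 8 ^ k = i) ⊆ Finset.Ico (i * 8 ^ k) ((i + 1) * 8 ^ k) := by
    intro j hj
    rw [Finset.mem_filter] at hj
    rw [Finset.mem_Ico]
    have h := hj.2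
    constructor
    · rw [← h]; exact Nat.div_mul_le_self _ _
    · rw [← h]
      exact (Nat.div_lt_iff_lt_mul hp).1 (Nat.lt_succ_self _)
  refine (Finset.card_le_card hsub).trans ?_
  rw [Nat.card_Ico, ← Nat.sub_mul]
  simp

/-- pointwise bound of the square function for flat coefficients -/
theorem sq_flat (a M : ℕ) {c : ℕ → ℝ} {Λ : ℝ} (hΛ : 0 ≤ Λ)
    (hc : ∀ j, j < 8 ^ (a + M) → (c j) ^ 2 ≤ Λ * ((8:ℝ) ^ M)⁻¹) (y : ℝ) :
    ∑ j ∈ Finset.range (8 ^ (a + M)), (c j * thD a M j y) ^ 2 ≤ C1 * M * (8 ^ a * Λ) := by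
  have hC := C1_pos
  have h1 : ∀ j, (thD a M j y) ^ 2 ≤ C1 *
      ∑ m ∈ Finset.Ico a (a + M), (8:ℝ) ^ m * ind m (j / 8 ^ (a + M - m)) y := by
    intro j
    have h2 := geo_pow r8_gt 1 a (a + M) (fun m => ind m (j / 8 ^ (a + M - m)) y)
      (fun m => ind_nonneg _ _ _) (fun m => ind_le_one _ _ _)
    norm_num at h2
    unfold thD tw
    refine h2.trans (le_of_eq ?_)
    simp_rw [r8_sq]
    unfold C1
    ring
  calc ∑ j ∈ Finset.range (8 ^ (a + M)), (c j * thD a M j y) ^ 2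
      ≤ ∑ j ∈ Finset.range (8 ^ (a + M)), (Λ * ((8:ℝ) ^ M)⁻¹) * (C1 *
        ∑ m ∈ Finset.Ico a (a + M), (8:ℝ) ^ m * ind m (j / 8 ^ (a + M - m)) y) := by
        refine Finset.sum_le_sum fun j hj => ?_
        rw [mul_pow]
        exact mul_le_mul (hc j (Finset.mem_range.1 hj)) (h1 j) (sq_nonneg _) (by positivity)
    _ = (Λ * ((8:ℝ) ^ M)⁻¹) * C1 * ∑ m ∈ Finset.Ico a (a + M), (8:ℝ) ^ m *
        ∑ j ∈ Finset.range (8 ^ (a + M)), ind m (j / 8 ^ (a + M - m)) y := by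
        rw [← Finset.mul_sum, ← Finset.mul_sum, Finset.sum_comm, ← mul_assoc]
        simp_rw [Finset.mul_sum]
    _ ≤ (Λ * ((8:ℝ) ^ M)⁻¹) * C1 * ∑ m ∈ Finset.Ico a (a + M), (8:ℝ) ^ m * 8 ^ (a + M - m) := by
        gcongr with m hm
        have h3 : ∑ j ∈ Finset.range (8 ^ (a + M)), ind m (j / 8 ^ (a + M - m)) y =
            (((Finset.range (8 ^ (a + M))).filter (fun j => j / 8 ^ (a + M - m) = idx m y)).card : ℝ) := by
          rw [Finset.card_filter]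
          push_cast
          refine Finset.sum_congr rfl fun j _ => ?_
          unfold ind
          simp only [eq_comm]
        rw [h3]
        exact_mod_cast card_desc _ _ _
    _ = (Λ * ((8:ℝ) ^ M)⁻¹) * C1 * ∑ m ∈ Finset.Ico a (a + M), (8:ℝ) ^ (a + M) := by
        congr 1
        refine Finset.sum_congr rfl fun m hm => ?_
        rw [Finset.mem_Ico] at hm
        rw [← pow_add]
        congr 1
        omega
    _ = _ := by
        rw [Finset.sum_const, Nat.card_Ico, nsmul_eq_mul, pow_add]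
        have : (8:ℝ) ^ M ≠ 0 := by positivity
        field_simp
        simp

noncomputable def K4 : ℝ := 2 * (2 * 2).factorial * Real.exp (1 / 2)

theorem K4_pos : 0 < K4 := by unfold K4; positivity

/-- tail bound for flat coefficients -/
theorem tail_flat (a M : ℕ) {c : ℕ → ℝ} {Λ : ℝ} (hΛ : 0 ≤ Λ)
    (hc : ∀ j, j < 8 ^ (a + M) → (c j) ^ 2 ≤ Λ * ((8:ℝ) ^ M)⁻¹) {t l : ℝ} (ht : 0 < t) (hl : 0 < l) :
    mu {y | ENNReal.ofReal l < ‖t * WD a M c y‖ₑ} ≤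
      ENNReal.ofReal (K4 * (C1 * M * (8 ^ a * Λ)) ^ 2 * t ^ 4 * l ^ (-4:ℝ)) := by
  have hset : {y | ENNReal.ofReal l < ‖t * WD a M c y‖ₑ} = {y | l / t < |WD a M c y|} := by
    rw [set_enorm _ hl.le]
    ext y
    simp only [mem_ofPred_eq]
    rw [abs_mul, abs_of_pos ht, div_lt_iff₀ ht, mul_comm]
  rw [hset, ← ofReal_measureReal]
  apply ENNReal.ofReal_le_ofReal
  refine (cheb (step_WD a M c) (by positivity) 2).trans ?_
  have h1 : ∫ y, (WD a M c y) ^ (2 * 2) ∂mu ≤ K4 * (C1 * M * (8 ^ a * Λ)) ^ 2 := by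
    refine (khin (fun j => (step_thD a M j).comp (fun x => c j * x)) (8 ^ (a + M)) 2).trans ?_
    unfold K4
    gcongr
    have hC := C1_pos
    calc ∫ y, (∑ j ∈ Finset.range (8 ^ (a + M)), (c j * thD a M j y) ^ 2) ^ 2 ∂mu
        ≤ ∫ y, (C1 * M * (8 ^ a * Λ)) ^ 2 ∂mu := by
          refine integral_mono ?_ (integrable_const _) fun y => ?_
          · exact ((step_sum _ fun j _ => (step_thD a M j).comp (fun x => (c j * x) ^ 2)).comp
              (fun x => x ^ 2)).integrable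
          · have h2 := sq_flat a M hΛ hc y
            have h3 : 0 ≤ ∑ j ∈ Finset.range (8 ^ (a + M)), (c j * thD a M j y) ^ 2 :=
              Finset.sum_nonneg fun _ _ => sq_nonneg _
            exact pow_le_pow_left₀ h3 h2 2
      _ = _ := by simp
  have h4 : l ^ (-4:ℝ) = (l ^ 4)⁻¹ := by
    rw [Real.rpow_neg hl.le]
    norm_cast
  rw [h4, div_le_iff₀ (by positivity)]
  refine h1.trans (le_of_eq ?_)
  rw [div_pow]
  field_simp
  ring

/-- `(★)`: normalised sums of towers with flat coefficients are small in `L^{2,s}`, `s < 2` -/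
theorem star {s : ℝ} (hs : 0 < s) (hs2 : s < 2) {ε : ℝ} (hε : 0 < ε) (a : ℕ) {Λ : ℝ} (hΛ : 0 ≤ Λ) :
    ∀ᶠ M : ℕ in atTop, ∀ d : ℕ → ℝ, (∀ j, j < 8 ^ (a + M) → (d j) ^ 2 ≤ Λ * ((8:ℝ) ^ M)⁻¹) →
      A 2 s (fun y => ‖(M:ℝ) ^ (-1 / s) * WD a M d y‖ₑ) ≤ ENNReal.ofReal ε := by
  set θ : ℝ := (s * ε / 2) ^ (1 / s) with hθ
  have hθ0 : 0 < θ := by positivity
  have hθs : θ ^ s / s = ε / 2 := by
    rw [hθ, ← Real.rpow_mul (by positivity), one_div_mul_cancel hs.ne', Real.rpow_one]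
    field_simp
  have hC := C1_pos
  have hK := K4_pos
  set K : ℝ := (K4 * (C1 * (8 ^ a * Λ)) ^ 2) ^ (s / 2) * (θ ^ (-s) / s) with hK'
  have h1 := eventually_pow_le (K := K) (θ := 2 - s) (ε := ε / 2) (by linarith) (by positivity)
  filter_upwards [h1, eventually_ge_atTop 1] with M hM hM1 d hd
  have hM0 : (0:ℝ) < M := by exact_mod_cast hM1
  set t : ℝ := (M:ℝ) ^ (-1 / s) with ht
  have ht0 : 0 < t := by positivity
  set V : ℝ := K4 * (C1 * M * (8 ^ a * Λ)) ^ 2 * t ^ 4 with hV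
  have hV0 : 0 ≤ V := by positivity
  have h2 := A_small (s := s) (θ := θ) (H := θ) (E := ∫ y, (t * WD a M d y) ^ 2 ∂mu) (V := V) hs hs2
    hθ0 le_rfl (integral_nonneg fun y => sq_nonneg _) hV0
    (F := fun y => ‖t * WD a M d y‖ₑ) ((step_WD a M d).measurable.const_mul t).enorm
    (le_of_eq (lint_sq ((step_WD a M d).comp (fun x => t * x))))
    (fun l hl => tail_flat a M hΛ hd ht0 (hθ0.trans hl))
  refine h2.trans (ENNReal.ofReal_le_ofReal ?_)
  rw [div_self hθ0.ne', Real.log_one, Real.zero_rpow (by linarith), mul_zero, add_zero, hθs]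
  have h3 : V ^ (s / 2) * (θ ^ (-s) / s) = K * (M:ℝ) ^ (-(2 - s)) := by
    have e1 : V = (K4 * (C1 * (8 ^ a * Λ)) ^ 2) * ((M:ℝ) ^ (2 - 4 / s)) := by
      rw [hV, ht]
      have e2 : ((M:ℝ) ^ (-1 / s)) ^ 4 = (M:ℝ) ^ (-4 / s) := by
        rw [← Real.rpow_natCast, ← Real.rpow_mul hM0.le]
        congr 1
        push_cast
        ring
      have e3 : (M:ℝ) ^ (2 - 4 / s) = (M:ℝ) ^ 2 * (M:ℝ) ^ (-4 / s) := by
        rw [← Real.rpow_two, ← Real.rpow_add hM0]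
        congr 1
        ring
      rw [e2, e3]
      ring
    rw [e1, Real.mul_rpow (by positivity) (by positivity), ← Real.rpow_mul hM0.le, hK']
    have e4 : (2 - 4 / s) * (s / 2) = -(2 - s) := by
      field_simp
      ring
    rw [e4]
    ring
  rw [h3]
  linarith

theorem r8pow_le (M : ℕ) : r8 ^ M ≤ 8 ^ M := pow_le_pow_left₀ r8_pos.le r8_le M

theorem thB_abs (M j : ℕ) (y : ℝ) : |thB M j y| ≤ 8 ^ (4 * M) := by
  unfold thB
  have := r8_pos
  rw [abs_of_nonneg (mul_nonneg (by positivity) (ind_nonneg _ _ _))]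
  calc r8 ^ M * ind M (j % 8 ^ M) y ≤ r8 ^ M * 1 := by
        gcongr
        exact ind_le_one _ _ _
    _ = r8 ^ M := mul_one _
    _ ≤ 8 ^ M := r8pow_le M
    _ ≤ 8 ^ (4 * M) := pow_le_pow_right₀ (by norm_num) (by omega)

theorem thD_abs {a M : ℕ} (hM : 1 ≤ M) (ha : a ≤ M) (j : ℕ) (y : ℝ) : |thD a M j y| ≤ 8 ^ (4 * M) :=
  tw_abs_le r8_gt.le r8_le (by omega) hM y

/-- sup bound -/
theorem W_sup {a M : ℕ} (ha : a ≤ M) {θ : ℕ → ℝ → ℝ} (hθ : ∀ j y, |θ j y| ≤ 8 ^ (4 * M))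
    {c : ℕ → ℝ} {N t : ℝ} (hN : 0 ≤ N) (hc : S2 a M c ≤ N ^ 2) (ht0 : 0 ≤ t) (ht : t ≤ 1) (y : ℝ) :
    ‖t * W (a + M) (8 ^ (a + M)) (fun j y => c j * θ j y) y‖ₑ ≤ ENNReal.ofReal (N * 8 ^ (6 * M)) := by
  rw [Real.enorm_eq_ofReal_abs]
  apply ENNReal.ofReal_le_ofReal
  rw [abs_mul, abs_of_nonneg ht0]
  have hcj : ∀ j ∈ Finset.range (8 ^ (a + M)), |c j| ≤ N := by
    intro j hj
    apply abs_le_of_sq_le_sq _ hN
    refine le_trans ?_ hc
    exact Finset.single_le_sum (f := fun j => (c j) ^ 2) (fun _ _ => sq_nonneg _) hj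
  have h1 : |W (a + M) (8 ^ (a + M)) (fun j y => c j * θ j y) y| ≤ N * 8 ^ (6 * M) := by
    unfold W
    calc _ ≤ ∑ j ∈ Finset.range (8 ^ (a + M)), |c j * θ j y * rad (a + M + j + 1) y| :=
          Finset.abs_sum_le_sum_abs _ _
      _ ≤ ∑ j ∈ Finset.range (8 ^ (a + M)), N * 8 ^ (4 * M) := by
          refine Finset.sum_le_sum fun j hj => ?_
          rw [abs_mul, abs_rad, mul_one, abs_mul]
          exact mul_le_mul (hcj j hj) (hθ j y) (abs_nonneg _) hN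
      _ = 8 ^ (a + M) * (N * 8 ^ (4 * M)) := by
          rw [Finset.sum_const, Finset.card_range, nsmul_eq_mul]
          push_cast
          ring
      _ ≤ 8 ^ (2 * M) * (N * 8 ^ (4 * M)) := by
          gcongr
          · norm_num
          · omega
      _ = _ := by
          rw [show 6 * M = 2 * M + 4 * M by ring, pow_add]
          ring
  calc t * |W (a + M) (8 ^ (a + M)) (fun j y => c j * θ j y) y| ≤ 1 * (N * 8 ^ (6 * M)) := by
        gcongr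
    _ = _ := one_mul _

/-- the constant of the normalised synthesis of towers -/
noncomputable def CD (s : ℝ) : ℝ := 1 / s + C1 ^ (s / 2) * (6 * Real.log 8) ^ (1 - s / 2)

theorem CD_nonneg {s : ℝ} (hs : 0 < s) : 0 ≤ CD s := by
  unfold CD
  have : 0 ≤ Real.log 8 := Real.log_nonneg (by norm_num)
  have := C1_pos
  positivity

theorem scale_le {M : ℕ} (hM : 1 ≤ M) {s : ℝ} (hs : 0 < s) : (M:ℝ) ^ (-1 / s) ≤ 1 := by
  have hM0 : (0:ℝ) < M := by exact_mod_cast hM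
  have hM1 : (1:ℝ) ≤ M := by exact_mod_cast hM
  rw [show (-1 / s) = -(1 / s) by ring, Real.rpow_neg hM0.le]
  exact inv_le_one_of_one_le₀ (Real.one_le_rpow hM1 (by positivity))

theorem WD_L2' {a M : ℕ} (hM : 1 ≤ M) (s : ℝ) (c : ℕ → ℝ) :
    ∫ y, ((M:ℝ) ^ (-1 / s) * WD a M c y) ^ 2 ∂mu ≤ C1 * (M:ℝ) ^ (-(2 / s - 1)) * S2 a M c := by
  have hM0 : (0:ℝ) < M := by exact_mod_cast hM
  have h1 : ∀ y, ((M:ℝ) ^ (-1 / s) * WD a M c y) ^ 2 = ((M:ℝ) ^ (-1 / s)) ^ 2 * (WD a M c y) ^ 2 :=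
    fun y => mul_pow _ _ _
  simp_rw [h1]
  rw [integral_const_mul]
  have h2 : ((M:ℝ) ^ (-1 / s)) ^ 2 * M = (M:ℝ) ^ (-(2 / s - 1)) := by
    rw [← Real.rpow_natCast, ← Real.rpow_mul hM0.le, ← Real.rpow_add_one hM0.ne']
    congr 1
    push_cast
    ring
  rw [← h2]
  calc ((M:ℝ) ^ (-1 / s)) ^ 2 * ∫ y, (WD a M c y) ^ 2 ∂mu ≤
        ((M:ℝ) ^ (-1 / s)) ^ 2 * (C1 * M * S2 a M c) := by
        gcongr
        exact WD_L2 a M c
    _ = _ := by ring

theorem WD_A_one {s : ℝ} (hs : 0 < s) (hs2 : s < 2) {a M : ℕ} (hM : 1 ≤ M) (ha : a ≤ M) {c : ℕ → ℝ}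
    (hc : S2 a M c ≤ 1) :
    A 2 s (fun y => ‖(M:ℝ) ^ (-1 / s) * WD a M c y‖ₑ) ≤ ENNReal.ofReal (CD s) := by
  have hM0 : (0:ℝ) < M := by exact_mod_cast hM
  have hC := C1_pos
  have hl8 : 0 < Real.log 8 := Real.log_pos (by norm_num)
  set t : ℝ := (M:ℝ) ^ (-1 / s) with ht
  have ht0 : 0 < t := by positivity
  have hE : ∫ y, (t * WD a M c y) ^ 2 ∂mu ≤ C1 * (M:ℝ) ^ (-(2 / s - 1)) := by
    refine (WD_L2' hM s c).trans ?_
    have h0 : 0 ≤ C1 * (M:ℝ) ^ (-(2 / s - 1)) := by positivity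
    nlinarith
  have h2 := A_small (s := s) (θ := 1) (H := 8 ^ (6 * M)) (E := C1 * (M:ℝ) ^ (-(2 / s - 1))) (V := 0)
    hs hs2 one_pos (one_le_pow₀ (by norm_num)) (by positivity) le_rfl
    (F := fun y => ‖t * WD a M c y‖ₑ) ((step_WD a M c).measurable.const_mul t).enorm
    (by
      rw [lint_sq ((step_WD a M c).comp (fun x => t * x))]
      exact ENNReal.ofReal_le_ofReal hE)
    (fun l hl => by
      have h3 : {y | ENNReal.ofReal l < ‖t * WD a M c y‖ₑ} = ∅ := by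
        ext y
        simp only [mem_ofPred_eq, mem_empty_iff_false, iff_false, not_lt]
        have h4 := W_sup ha (thD_abs hM ha) (c := c) zero_le_one (by rw [one_pow]; exact hc) ht0.le
          (scale_le hM hs) y
        rw [one_mul] at h4
        exact h4.trans (ENNReal.ofReal_le_ofReal hl.le)
      rw [h3, measure_empty]
      exact zero_le)
  refine h2.trans (ENNReal.ofReal_le_ofReal (le_of_eq ?_))
  unfold CD
  rw [Real.one_rpow, div_one, Real.log_pow, Real.zero_rpow (by positivity), zero_mul, add_zero]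
  congr 1
  rw [Real.mul_rpow hC.le (by positivity), ← Real.rpow_mul hM0.le]
  have e1 : ((6 * M : ℕ) : ℝ) * Real.log 8 = M * (6 * Real.log 8) := by push_cast; ring
  rw [e1, Real.mul_rpow hM0.le (by positivity)]
  have e2 : -(2 / s - 1) * (s / 2) = -(1 - s / 2) := by field_simp
  rw [e2, Real.rpow_neg hM0.le]
  field_simp

theorem S2_smul (a M : ℕ) (t : ℝ) (c : ℕ → ℝ) : S2 a M (fun j => t * c j) = t ^ 2 * S2 a M c := by
  unfold S2
  rw [Finset.mul_sum]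
  exact Finset.sum_congr rfl fun j _ => mul_pow _ _ _

theorem WD_smul (a M : ℕ) (t : ℝ) (c : ℕ → ℝ) (y : ℝ) : WD a M (fun j => t * c j) y = t * WD a M c y :=
  W_smul _ _ _ _ _ _

theorem WB_smul (a M : ℕ) (t : ℝ) (c : ℕ → ℝ) (y : ℝ) : WB a M (fun j => t * c j) y = t * WB a M c y :=
  W_smul _ _ _ _ _ _

theorem zero_of_S2 {a M : ℕ} {c : ℕ → ℝ} (h : S2 a M c = 0) : ∀ j, j < 8 ^ (a + M) → c j = 0 := by
  intro j hj
  have h1 : (c j) ^ 2 ≤ 0 := by
    rw [← h]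
    exact Finset.single_le_sum (f := fun j => (c j) ^ 2) (fun _ _ => sq_nonneg _) (Finset.mem_range.2 hj)
  exact pow_eq_zero_iff (two_ne_zero) |>.1 (le_antisymm h1 (sq_nonneg _))

theorem W_zero {B n : ℕ} {c : ℕ → ℝ} {θ : ℕ → ℝ → ℝ} (h : ∀ j, j < n → c j = 0) (y : ℝ) :
    W B n (fun j y => c j * θ j y) y = 0 := by
  unfold W
  refine Finset.sum_eq_zero fun j hj => ?_
  simp only
  rw [h j (Finset.mem_range.1 hj)]
  ring

/-- synthesis of towers, `s < 2` -/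
theorem WD_A {s : ℝ} (hs : 0 < s) (hs2 : s < 2) {a M : ℕ} (hM : 1 ≤ M) (ha : a ≤ M) (c : ℕ → ℝ) :
    A 2 s (fun y => ‖(M:ℝ) ^ (-1 / s) * WD a M c y‖ₑ) ≤
      ENNReal.ofReal (CD s * (Real.sqrt (S2 a M c)) ^ s) := by
  have hS := S2_nonneg a M c
  rcases eq_or_lt_of_le hS with h0 | h0
  · have : (fun y => ‖(M:ℝ) ^ (-1 / s) * WD a M c y‖ₑ) = fun _ => 0 := by
      funext y
      unfold WD
      rw [W_zero (zero_of_S2 h0.symm)]
      simp
    rw [this, A_zero two_pos hs]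
    exact zero_le
  · set N := Real.sqrt (S2 a M c) with hN
    have hN0 : 0 < N := Real.sqrt_pos.2 h0
    have hNN : N ^ 2 = S2 a M c := Real.sq_sqrt hS
    have h1 := WD_A_one hs hs2 hM ha (c := fun j => N⁻¹ * c j) (by
      rw [S2_smul, ← hNN]
      have : N ≠ 0 := hN0.ne'
      field_simp
      rfl)
    have h2 : ∀ y, ‖(M:ℝ) ^ (-1 / s) * WD a M c y‖ₑ =
        ‖N * ((M:ℝ) ^ (-1 / s) * WD a M (fun j => N⁻¹ * c j) y)‖ₑ := by
      intro y
      rw [WD_smul]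
      congr 1
      field_simp
    simp_rw [h2]
    rw [Data.A_enorm_smul two_pos hs hN0, ENNReal.ofReal_mul (CD_nonneg hs), mul_comm]
    gcongr

/-- synthesis of bumps, `q ≥ 2` -/
theorem WB_A {q : ℝ} (hq : 2 ≤ q) (a M : ℕ) (c : ℕ → ℝ) :
    A 2 q (fun y => ‖WB a M c y‖ₑ) ≤ ENNReal.ofReal ((Real.sqrt (S2 a M c)) ^ q) := by
  refine (A_of_L2_big hq (step_WB a M c).measurable.enorm).trans (le_of_eq ?_)
  rw [lint_sq (step_WB a M c), WB_L2, ENNReal.ofReal_rpow_of_nonneg (S2_nonneg _ _ _) (by linarith)]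
  congr 1
  rw [Real.sqrt_eq_rpow, ← Real.rpow_mul (S2_nonneg _ _ _)]
  congr 1
  ring

/-- large and small coefficients -/
noncomputable def hi (Λ : ℝ) (M : ℕ) (c : ℕ → ℝ) (j : ℕ) : ℝ :=
  if Λ * ((8:ℝ) ^ M)⁻¹ < (c j) ^ 2 then c j else 0

noncomputable def lw (Λ : ℝ) (M : ℕ) (c : ℕ → ℝ) (j : ℕ) : ℝ :=
  if Λ * ((8:ℝ) ^ M)⁻¹ < (c j) ^ 2 then 0 else c j

theorem hi_add_lw (Λ : ℝ) (M : ℕ) (c : ℕ → ℝ) (j : ℕ) : hi Λ M c j + lw Λ M c j = c j := by
  unfold hi lw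
  split_ifs <;> simp

theorem lw_sq {Λ : ℝ} (hΛ : 0 ≤ Λ) (M : ℕ) (c : ℕ → ℝ) (j : ℕ) :
    (lw Λ M c j) ^ 2 ≤ Λ * ((8:ℝ) ^ M)⁻¹ := by
  unfold lw
  split_ifs with h
  · rw [zero_pow two_ne_zero]; positivity
  · exact not_lt.1 h

theorem hi_mul (Λ : ℝ) (M : ℕ) (c : ℕ → ℝ) (j : ℕ) : c j * hi Λ M c j = (hi Λ M c j) ^ 2 := by
  unfold hi
  split_ifs <;> ring

theorem lw_mul (Λ : ℝ) (M : ℕ) (c : ℕ → ℝ) (j : ℕ) : c j * lw Λ M c j = (lw Λ M c j) ^ 2 := by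
  unfold lw
  split_ifs <;> ring

theorem S2_hi_le (Λ : ℝ) (a M : ℕ) (c : ℕ → ℝ) : S2 a M (hi Λ M c) ≤ S2 a M c := by
  unfold S2
  refine Finset.sum_le_sum fun j _ => ?_
  unfold hi
  split_ifs
  · exact le_rfl
  · rw [zero_pow two_ne_zero]; exact sq_nonneg _

theorem S2_lw_le (Λ : ℝ) (a M : ℕ) (c : ℕ → ℝ) : S2 a M (lw Λ M c) ≤ S2 a M c := by
  unfold S2
  refine Finset.sum_le_sum fun j _ => ?_
  unfold lw
  split_ifs
  · rw [zero_pow two_ne_zero]; exact sq_nonneg _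
  · exact le_rfl

/-- the set where a sum of bumps with large coefficients does not vanish is small -/
theorem WB_supp {Λ : ℝ} (hΛ : 0 < Λ) {a M : ℕ} {c d : ℕ → ℝ} {N : ℝ} (hc : S2 a M c ≤ N)
    (hd : ∀ j, j < 8 ^ (a + M) → hi Λ M c j = 0 → d j = 0) :
    mu {y | WB a M d y ≠ 0} ≤ ENNReal.ofReal (N / Λ) := by
  classical
  set H := (Finset.range (8 ^ (a + M))).filter (fun j => Λ * ((8:ℝ) ^ M)⁻¹ < (c j) ^ 2) with hH
  have h8 : (0:ℝ) < 8 ^ M := by positivity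
  have hsub : {y | WB a M d y ≠ 0} ⊆ ⋃ j ∈ H, {y | idx M y = j % 8 ^ M} := by
    intro y hy
    by_contra hcon
    apply hy
    unfold WB W
    refine Finset.sum_eq_zero fun j hj => ?_
    simp only
    rw [mem_iUnion₂] at hcon
    push Not at hcon
    by_cases hjH : j ∈ H
    · have h1 := hcon j hjH
      have h2 : ind M (j % 8 ^ M) y = 0 := by
        unfold ind
        exact if_neg (fun h => h1 h)
      unfold thB
      rw [h2]
      ring
    · have h1 : hi Λ M c j = 0 := by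
        unfold hi
        rw [if_neg]
        intro h
        exact hjH (Finset.mem_filter.2 ⟨hj, h⟩)
      rw [hd j (Finset.mem_range.1 hj) h1]
      ring
  refine (measure_mono hsub).trans ((measure_biUnion_finset_le _ _).trans ?_)
  have h1 : ∀ j ∈ H, mu {y | idx M y = j % 8 ^ M} = ENNReal.ofReal ((8:ℝ) ^ M)⁻¹ :=
    fun j _ => mu_cell (Nat.mod_lt _ (by positivity))
  rw [Finset.sum_congr rfl h1, Finset.sum_const, nsmul_eq_mul, ← ENNReal.ofReal_natCast,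
    ← ENNReal.ofReal_mul (Nat.cast_nonneg _)]
  apply ENNReal.ofReal_le_ofReal
  rw [le_div_iff₀ hΛ]
  calc (H.card : ℝ) * ((8:ℝ) ^ M)⁻¹ * Λ = ∑ j ∈ H, Λ * ((8:ℝ) ^ M)⁻¹ := by
        rw [Finset.sum_const, nsmul_eq_mul]
        ring
    _ ≤ ∑ j ∈ H, (c j) ^ 2 := Finset.sum_le_sum fun j hj => (Finset.mem_filter.1 hj).2.le
    _ ≤ S2 a M c := Finset.sum_le_sum_of_subset_of_nonneg (Finset.filter_subset _ _)
        (fun _ _ _ => sq_nonneg _)
    _ ≤ N := hc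

end Pool.Agent.KS6_84.OB
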