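import Pool.Agent.KS6_84.OB.P2a

/-!
The case `p = 2`: coefficients and synthesis for one generation.
-/

set_option autoImplicit false

open MeasureTheory Set Filter Topology
open scoped ENNReal NNReal

namespace Pool.Agent.KS6_84.OB

noncomputable def ΦD (s : ℝ) (a M j : ℕ) (y : ℝ) : ℝ :=
  ((M:ℝ) ^ (-1 / s) * thD a M j y) * rad (a + M + j + 1) y

noncomputable def ΦB (a M j : ℕ) (y : ℝ) : ℝ := thB M j y * rad (a + M + j + 1) y

theorem sum_ΦD (s : ℝ) (a M : ℕ) (d : ℕ → ℝ) (y : ℝ) :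
    ∑ j ∈ Finset.range (8 ^ (a + M)), d j * ΦD s a M j y = (M:ℝ) ^ (-1 / s) * WD a M d y := by
  unfold WD W
  rw [Finset.mul_sum]
  refine Finset.sum_congr rfl fun j _ => ?_
  unfold ΦD
  ring

theorem sum_ΦB (a M : ℕ) (d : ℕ → ℝ) (y : ℝ) :
    ∑ j ∈ Finset.range (8 ^ (a + M)), d j * ΦB a M j y = WB a M d y := by
  unfold WB W
  refine Finset.sum_congr rfl fun j _ => ?_
  unfold ΦB
  ring

theorem step_ΦD (s : ℝ) (a M j : ℕ) : Step (a + M + j + 1) (ΦD s a M j) :=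
  (((step_thD a M j).comp (fun x => (M:ℝ) ^ (-1 / s) * x)).mono (by omega)).mul (step_rad _)

theorem step_ΦB (a M j : ℕ) : Step (a + M + j + 1) (ΦB a M j) :=
  ((step_thB a M j).mono (by omega)).mul (step_rad _)

theorem ΦD_bdd (s : ℝ) (a M j : ℕ) : ∃ b, ∀ y, |ΦD s a M j y| ≤ b := by
  refine ⟨|(M:ℝ) ^ (-1 / s)| * ∑ m ∈ Finset.Ico a (a + M), r8 ^ m, fun y => ?_⟩
  unfold ΦD
  rw [abs_mul, abs_rad, mul_one, abs_mul]
  gcongr
  have h0 := r8_pos
  unfold thD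
  rw [abs_of_nonneg (tw_nonneg h0.le _ _ _ _ _)]
  unfold tw
  refine Finset.sum_le_sum fun m _ => ?_
  exact mul_le_of_le_one_right (by positivity) (ind_le_one _ _ _)

theorem ΦB_bdd (a M j : ℕ) : ∃ b, ∀ y, |ΦB a M j y| ≤ b := by
  refine ⟨8 ^ (4 * M), fun y => ?_⟩
  unfold ΦB
  rw [abs_mul, abs_rad, mul_one]
  exact thB_abs M j y

theorem int_bdd {f g : ℝ → ℝ} (hf : Integrable f mu) (hg : Measurable g) (hb : ∃ b, ∀ y, |g y| ≤ b) :
    Integrable (fun y => f y * g y) mu := by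
  obtain ⟨b, hb⟩ := hb
  have := hf.bdd_mul hg.aestronglyMeasurable (c := b)
    (Eventually.of_forall fun y => by rw [Real.norm_eq_abs]; exact hb y)
  refine this.congr (Eventually.of_forall fun y => ?_)
  show g y * f y = f y * g y
  ring

theorem pairD {f : ℝ → ℝ} (hf : Integrable f mu) (s : ℝ) (a M : ℕ) (d : ℕ → ℝ) :
    ∑ j ∈ Finset.range (8 ^ (a + M)), cf (ΦD s a M) f j * d j =
      ∫ y, f y * ((M:ℝ) ^ (-1 / s) * WD a M d y) ∂mu := by
  rw [pair_sum (fun j => int_bdd hf (step_ΦD s a M j).measurable (ΦD_bdd s a M j))]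
  simp_rw [sum_ΦD]

theorem pairB {f : ℝ → ℝ} (hf : Integrable f mu) (a M : ℕ) (d : ℕ → ℝ) :
    ∑ j ∈ Finset.range (8 ^ (a + M)), cf (ΦB a M) f j * d j = ∫ y, f y * WB a M d y ∂mu := by
  rw [pair_sum (fun j => int_bdd hf (step_ΦB a M j).measurable (ΦB_bdd a M j))]
  simp_rw [sum_ΦB]

/-- normalised coefficients -/
noncomputable def nrm (a M : ℕ) (e : ℕ → ℝ) (j : ℕ) : ℝ := (Real.sqrt (S2 a M e))⁻¹ * e j

theorem nrm_S2 (a M : ℕ) (e : ℕ → ℝ) : S2 a M (nrm a M e) ≤ 1 := by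
  have hS := S2_nonneg a M e
  unfold nrm
  rw [S2_smul]
  rcases eq_or_lt_of_le hS with h0 | h0
  · rw [← h0, mul_zero]; exact zero_le_one
  · rw [inv_pow, Real.sq_sqrt hS, inv_mul_cancel₀ h0.ne']

theorem nrm_sum {a M : ℕ} {c e : ℕ → ℝ} (he : ∀ j, c j * e j = (e j) ^ 2) :
    Real.sqrt (S2 a M e) ≤ ∑ j ∈ Finset.range (8 ^ (a + M)), c j * nrm a M e j := by
  have hS := S2_nonneg a M e
  have h1 : ∑ j ∈ Finset.range (8 ^ (a + M)), c j * nrm a M e j = (Real.sqrt (S2 a M e))⁻¹ * S2 a M e := by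
    have h2 : S2 a M e = ∑ j ∈ Finset.range (8 ^ (a + M)), (e j) ^ 2 := rfl
    unfold nrm
    set x := (Real.sqrt (S2 a M e))⁻¹
    rw [h2, Finset.mul_sum]
    refine Finset.sum_congr rfl fun j _ => ?_
    rw [← he]
    ring
  rw [h1]
  rcases eq_or_lt_of_le hS with h0 | h0
  · rw [← h0]; simp
  · have h2 : 0 < Real.sqrt (S2 a M e) := Real.sqrt_pos.2 h0
    have h3 : S2 a M e = Real.sqrt (S2 a M e) * Real.sqrt (S2 a M e) := (Real.mul_self_sqrt hS).symm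
    set x := Real.sqrt (S2 a M e)
    rw [h3, inv_mul_cancel_left₀ h2.ne']

/-- the coefficients with respect to towers: the small ones have small norm -/
theorem low_small {s : ℝ} (hs : 0 < s) (hs2 : s < 2) {U : (ℝ → ℝ) → Prop}
    (hUi : ∀ f, U f → Integrable f mu)
    (hpair : ∀ δ : ℝ, 0 < δ → ∃ ε : ℝ, 0 < ε ∧ ∀ f g : ℝ → ℝ, U f → Measurable g →
      A 2 s (fun y => ‖g y‖ₑ) ≤ ENNReal.ofReal ε → ∫ y, f y * g y ∂mu ≤ δ)
    {δ : ℝ} (hδ : 0 < δ) (a : ℕ) {Λ : ℝ} (hΛ : 0 ≤ Λ) :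
    ∀ᶠ M : ℕ in atTop, ∀ f, U f → S2 a M (lw Λ M (cf (ΦD s a M) f)) ≤ δ := by
  have hδ' : 0 < Real.sqrt δ := Real.sqrt_pos.2 hδ
  obtain ⟨ε, hε, hp⟩ := hpair (Real.sqrt δ / 2) (by positivity)
  filter_upwards [star hs hs2 hε a (Λ := Λ / δ) (by positivity)] with M hM f hf
  by_contra hcon
  push Not at hcon
  set c := cf (ΦD s a M) f with hc
  set e := lw Λ M c with he
  set N := Real.sqrt (S2 a M e) with hN
  have hNN : N ^ 2 = S2 a M e := Real.sq_sqrt (S2_nonneg _ _ _)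
  have hNδ : Real.sqrt δ < N := Real.sqrt_lt_sqrt hδ.le hcon
  have hN0 : 0 < N := hδ'.trans hNδ
  have hNd : δ ≤ N ^ 2 := by rw [hNN]; exact hcon.le
  have h1 := hM (nrm a M e) (fun j _ => by
    unfold nrm
    rw [← hN, mul_pow, inv_pow, inv_mul_eq_div, div_le_iff₀ (by positivity)]
    calc (e j) ^ 2 ≤ Λ * ((8:ℝ) ^ M)⁻¹ := lw_sq hΛ M c j
      _ = Λ / δ * ((8:ℝ) ^ M)⁻¹ * δ := by field_simp
      _ ≤ _ := by gcongr)
  have h2 := hp f (fun y => (M:ℝ) ^ (-1 / s) * WD a M (nrm a M e) y) hf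
    ((step_WD a M _).measurable.const_mul _) h1
  rw [← pairD (hUi f hf)] at h2
  have h3 := nrm_sum (a := a) (M := M) (c := c) (e := e) (fun j => lw_mul Λ M c j)
  linarith

theorem WB_add (a M : ℕ) (c d : ℕ → ℝ) (y : ℝ) :
    WB a M (fun j => c j + d j) y = WB a M c y + WB a M d y := by
  unfold WB W
  rw [← Finset.sum_add_distrib]
  exact Finset.sum_congr rfl fun j _ => by ring

theorem WD_add (a M : ℕ) (c d : ℕ → ℝ) (y : ℝ) :
    WD a M (fun j => c j + d j) y = WD a M c y + WD a M d y := by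
  unfold WD W
  rw [← Finset.sum_add_distrib]
  exact Finset.sum_congr rfl fun j _ => by ring

/-- weak type smallness of the synthesis of bumps at low levels -/
theorem WB_weak_small {Λ : ℝ} (hΛ : 0 < Λ) {a M : ℕ} {c : ℕ → ℝ} {N δ : ℝ} (hc : S2 a M c ≤ N)
    (hδ : S2 a M (lw Λ M c) ≤ δ) {l S : ℝ} (hl : 0 < l) (hlS : l ≤ S) :
    mu {y | ENNReal.ofReal l < ‖WB a M c y‖ₑ} ≤ ENNReal.ofReal ((N / Λ * S ^ 2 + δ) * l ^ (-2:ℝ)) := by
  have hN0 : 0 ≤ N := (S2_nonneg _ _ _).trans hc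
  have hδ0 : 0 ≤ δ := (S2_nonneg _ _ _).trans hδ
  have hsub : {y | ENNReal.ofReal l < ‖WB a M c y‖ₑ} ⊆ {y | WB a M (hi Λ M c) y ≠ 0} ∪
      {y | ENNReal.ofReal l < ‖WB a M (lw Λ M c) y‖ₑ} := by
    intro y hy
    by_cases h : WB a M (hi Λ M c) y = 0
    · right
      have h1 : WB a M c y = WB a M (hi Λ M c) y + WB a M (lw Λ M c) y := by
        rw [← WB_add]
        congr 1
        funext j
        exact (hi_add_lw Λ M c j).symm
      have hy' : ENNReal.ofReal l < ‖WB a M c y‖ₑ := hy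
      rw [h1, h, zero_add] at hy'
      exact hy'
    · left
      exact h
  refine (measure_mono hsub).trans ((measure_union_le _ _).trans ?_)
  have h1 := WB_supp hΛ hc (d := hi Λ M c) (fun j _ h => h)
  have h2 := weak_of_L2 (step_WB a M (lw Λ M c)) (E := δ) (by rw [WB_L2]; exact hδ) hl
  refine (add_le_add h1 h2).trans ?_
  rw [← ENNReal.ofReal_add (by positivity) (by positivity)]
  apply ENNReal.ofReal_le_ofReal
  rw [add_mul]
  gcongr
  rw [Real.rpow_neg hl.le, Real.rpow_two, mul_assoc]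
  have h3 : 1 ≤ S ^ 2 * (l ^ 2)⁻¹ := by
    rw [← div_eq_mul_inv, one_le_div (by positivity)]
    gcongr
  have h4 : 0 ≤ N / Λ := by positivity
  nlinarith

/-- a quantitative pairing bound -/
theorem pair_small {p q p' q' : ℝ} (hp : p.HolderConjugate p') (hq : q.HolderConjugate q')
    {δ : ℝ} (hδ : 0 < δ) : ∃ ε : ℝ, 0 < ε ∧ ∀ f g : ℝ → ℝ, Measurable f → Measurable g →
      A p q (fun y => ‖f y‖ₑ) ≤ 1 → A p' q' (fun y => ‖g y‖ₑ) ≤ ENNReal.ofReal ε →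
      ∫ y, f y * g y ∂mu ≤ δ := by
  have hq0' := hq.symm.pos
  obtain ⟨N0, hN0, h⟩ := pair_bound hp hq 1
  set ε : ℝ := (δ / (N0 + 1)) ^ q' with hε
  have hε0 : 0 < ε := by positivity
  refine ⟨ε, hε0, fun f g hf hg hA hA' => ?_⟩
  have h1 := h f (fun y => ε ^ (-1 / q') * g y) hf (hg.const_mul _) hA (by
    rw [ENNReal.ofReal_one]
    exact Data.A_le_one_scale hp.symm.pos hq0' hε0 hA')
  have h2 : ∫ y, f y * (ε ^ (-1 / q') * g y) ∂mu = ε ^ (-1 / q') * ∫ y, f y * g y ∂mu := by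
    rw [← integral_const_mul]
    refine integral_congr_ae (Eventually.of_forall fun y => ?_)
    simp only
    ring
  rw [h2] at h1
  have h3 : ε ^ (-1 / q') = ((N0 + 1) / δ) := by
    rw [hε, ← Real.rpow_mul (by positivity), show q' * (-1 / q') = -1 by field_simp,
      Real.rpow_neg_one, inv_div]
  rw [h3, div_mul_eq_mul_div, div_le_iff₀ hδ] at h1
  by_contra hcon
  push Not at hcon
  nlinarith

theorem two_conj : (2:ℝ).HolderConjugate 2 := by
  rw [Real.holderConjugate_iff]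
  norm_num

end Pool.Agent.KS6_84.OB
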