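import Pool.Agent.KS6_84.OB.P2b

/-!
The case `p = 2`: boundedness of the operators.
-/

set_option autoImplicit false

open MeasureTheory Set Filter Topology
open scoped ENNReal NNReal

namespace Pool.Agent.KS6_84.OB

/-- operator from towers to bumps -/
noncomputable def dataDB (s : ℝ) (M : ℕ → ℕ)
    (hB : ∀ n, n + M n + 8 ^ (n + M n) ≤ n + 1 + M (n + 1)) : Data where
  B n := n + M n
  φ n j y := (M n : ℝ) ^ (-1 / s) * thD n (M n) j y
  ψ n j y := thB (M n) j y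
  hB := hB
  hφ n j := (step_thD n (M n) j).comp (fun x => (M n : ℝ) ^ (-1 / s) * x)
  hψ n j := step_thB n (M n) j
  hb n j := by
    obtain ⟨b, hb⟩ := ΦD_bdd s n (M n) j
    refine ⟨b, fun y => ?_⟩
    have := hb y
    unfold ΦD at this
    rwa [abs_mul, abs_rad, mul_one] at this

/-- operator from bumps to towers -/
noncomputable def dataBD (s : ℝ) (M : ℕ → ℕ)
    (hB : ∀ n, n + M n + 8 ^ (n + M n) ≤ n + 1 + M (n + 1)) : Data where
  B n := n + M n
  φ n j y := thB (M n) j y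
  ψ n j y := (M n : ℝ) ^ (-1 / s) * thD n (M n) j y
  hB := hB
  hφ n j := step_thB n (M n) j
  hψ n j := (step_thD n (M n) j).comp (fun x => (M n : ℝ) ^ (-1 / s) * x)
  hb n j := ⟨8 ^ (4 * M n), fun y => thB_abs (M n) j y⟩

/-- coefficients with respect to towers -/
theorem coefD {s : ℝ} (hs : 0 < s) (hs2 : s < 2) {U : (ℝ → ℝ) → Prop}
    (hUi : ∀ f, U f → Integrable f mu) {N0 : ℝ}
    (hN0 : ∀ f g : ℝ → ℝ, U f → Measurable g → A 2 s (fun y => ‖g y‖ₑ) ≤ ENNReal.ofReal (CD s) →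
      ∫ y, f y * g y ∂mu ≤ N0) {a M : ℕ} (hM : 1 ≤ M) (ha : a ≤ M) {f : ℝ → ℝ} (hf : U f) :
    Real.sqrt (S2 a M (cf (ΦD s a M) f)) ≤ N0 := by
  set c := cf (ΦD s a M) f with hc
  have h1 := nrm_sum (a := a) (M := M) (c := c) (e := c) (fun j => by ring)
  refine h1.trans ?_
  rw [pairD (hUi f hf)]
  exact hN0 f _ hf ((step_WD a M _).measurable.const_mul _) (WD_A_one hs hs2 hM ha (nrm_S2 a M c))

/-- coefficients with respect to bumps -/
theorem coefB {s : ℝ} (hs2 : 2 ≤ s) {U : (ℝ → ℝ) → Prop}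
    (hUi : ∀ f, U f → Integrable f mu) {N0 : ℝ}
    (hN0 : ∀ f g : ℝ → ℝ, U f → Measurable g → A 2 s (fun y => ‖g y‖ₑ) ≤ ENNReal.ofReal 1 →
      ∫ y, f y * g y ∂mu ≤ N0) {a M : ℕ} {f : ℝ → ℝ} (hf : U f) :
    Real.sqrt (S2 a M (cf (ΦB a M) f)) ≤ N0 := by
  set c := cf (ΦB a M) f with hc
  have h1 := nrm_sum (a := a) (M := M) (c := c) (e := c) (fun j => by ring)
  refine h1.trans ?_
  rw [pairB (hUi f hf)]
  refine hN0 f _ hf (step_WB a M _).measurable ((WB_A hs2 a M _).trans ?_)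
  apply ENNReal.ofReal_le_ofReal
  apply Real.rpow_le_one (Real.sqrt_nonneg _) _ (by linarith)
  rw [← Real.sqrt_one]
  exact Real.sqrt_le_sqrt (nrm_S2 a M c)

theorem Tg_DB (s : ℝ) (a M : ℕ) (f : ℝ → ℝ) (y : ℝ) :
    Tg (8 ^ (a + M)) (ΦD s a M) (ΦB a M) f y = WB a M (cf (ΦD s a M) f) y := by
  unfold Tg
  exact sum_ΦB a M _ y

theorem Tg_BD (s : ℝ) (a M : ℕ) (f : ℝ → ℝ) (y : ℝ) :
    Tg (8 ^ (a + M)) (ΦB a M) (ΦD s a M) f y = (M:ℝ) ^ (-1 / s) * WD a M (cf (ΦB a M) f) y := by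
  unfold Tg
  exact sum_ΦD s a M _ y

noncomputable def tau (q x : ℝ) (k : ℕ) : ℝ :=
  et 2 q k x * ((4 * 2 ^ (k + 1)) ^ (2:ℝ))⁻¹ * (1 / 2) ^ (k + 1)

theorem tau_pos {q x : ℝ} (hx : 1 ≤ x) (k : ℕ) : 0 < tau q x k := by
  unfold tau
  have := et_pos 2 q k hx
  positivity

theorem sum_L_le {L : ℕ → ℝ} (hmono : Monotone L) (k : ℕ) :
    ∑ i ∈ Finset.range (k + 1), L i ≤ (k + 1) * L k := by
  calc ∑ i ∈ Finset.range (k + 1), L i ≤ ∑ i ∈ Finset.range (k + 1), L k :=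
        Finset.sum_le_sum fun i hi => hmono (by rw [Finset.mem_range] at hi; omega)
    _ = _ := by rw [Finset.sum_const, Finset.card_range, nsmul_eq_mul]; push_cast; ring

theorem exists_gt {q q' : ℝ} (hq : q.HolderConjugate q') (hq2 : 2 < q) :
    ∃ (M : ℕ → ℕ) (hB : ∀ n, n + M n + 8 ^ (n + M n) ≤ n + 1 + M (n + 1)) (C : ℝ),
      (∀ n, 1 ≤ M n) ∧ (∀ n, n ≤ M n) ∧ 0 ≤ C ∧ (dataDB q' M hB).Bdd 2 q C := by
  have hq0 := hq.pos
  have hq0' := hq.symm.pos
  have hq2' : q' < 2 := by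
    have h := hq.inv_add_inv_eq_one
    have h1 : q⁻¹ < 1 / 2 := by
      rw [one_div]
      exact inv_strictAnti₀ two_pos hq2
    have h2 : 1 / 2 < q'⁻¹ := by linarith
    rw [one_div] at h2
    exact (inv_lt_inv₀ two_pos hq0').1 h2
  set U : (ℝ → ℝ) → Prop := fun f => Measurable f ∧ A 2 q (fun y => ‖f y‖ₑ) ≤ 1 with hU
  have hUi : ∀ f, U f → Integrable f mu := fun f hf =>
    A_integrable two_conj hq hf.1 (ne_top_of_le_ne_top (by norm_num) hf.2)
  obtain ⟨N0, hN0, hpair⟩ := pair_bound two_conj hq (CD q')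
  have hpair' : ∀ δ : ℝ, 0 < δ → ∃ ε : ℝ, 0 < ε ∧ ∀ f g : ℝ → ℝ, U f → Measurable g →
      A 2 q' (fun y => ‖g y‖ₑ) ≤ ENNReal.ofReal ε → ∫ y, f y * g y ∂mu ≤ δ := by
    intro δ hδ
    obtain ⟨ε, hε, h⟩ := pair_small two_conj hq hδ
    exact ⟨ε, hε, fun f g hf hg hA => h f g hf.1 hg hf.2 hA⟩
  have hcoef : ∀ {a M : ℕ}, 1 ≤ M → a ≤ M → ∀ {f : ℝ → ℝ}, U f →
      Real.sqrt (S2 a M (cf (ΦD q' a M) f)) ≤ N0 := fun {a M} hM ha {f} hf =>
    coefD hq0' hq2' hUi (fun f g hf hg hA => hpair f g hf.1 hg hf.2 hA) hM ha hf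
  have hcoef2 : ∀ {a M : ℕ}, 1 ≤ M → a ≤ M → ∀ {f : ℝ → ℝ}, U f →
      S2 a M (cf (ΦD q' a M) f) ≤ N0 ^ 2 := fun {a M} hM ha {f} hf => by
    have h := hcoef hM ha hf
    calc S2 a M (cf (ΦD q' a M) f) = (Real.sqrt (S2 a M (cf (ΦD q' a M) f))) ^ 2 :=
          (Real.sq_sqrt (S2_nonneg _ _ _)).symm
      _ ≤ N0 ^ 2 := pow_le_pow_left₀ (Real.sqrt_nonneg _) h 2
  set K1 : ℝ := N0 + 1 with hK1
  have hK1' : 1 ≤ K1 := by linarith
  have hC1 := C1_pos
  have hκ : 0 < 2 / q' - 1 := by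
    rw [sub_pos, lt_div_iff₀ hq0']; linarith
  set R : ℕ → ℕ → ℕ → Prop := fun k m m' =>
    k + m + 8 ^ (k + m) ≤ k + 1 + m' ∧ k + 1 ≤ m' ∧
    C1 * (m':ℝ) ^ (-(2 / q' - 1)) ≤ tau q' (8 ^ (6 * m)) k ∧
    ∀ f, U f → ∀ l : ℝ, 0 < l → l ≤ (k + 1) * (K1 * 8 ^ (6 * m)) →
      mu {y | ENNReal.ofReal l < ‖WB (k + 1) m' (cf (ΦD q' (k + 1) m') f) y‖ₑ} ≤
        ENNReal.ofReal (tau q (K1 * 8 ^ (6 * m)) k * l ^ (-2:ℝ)) with hR
  have h8 : ∀ m : ℕ, (1:ℝ) ≤ 8 ^ (6 * m) := fun m => one_le_pow₀ (by norm_num)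
  have hK8 : ∀ m : ℕ, (1:ℝ) ≤ K1 * 8 ^ (6 * m) := fun m => one_le_mul_of_one_le_of_one_le hK1' (h8 m)
  have hRex : ∀ k m, ∃ m', R k m m' := by
    intro k m
    have ht := tau_pos (q := q) (hK8 m) k
    set τ := tau q (K1 * 8 ^ (6 * m)) k with hτ
    set S : ℝ := (k + 1) * (K1 * 8 ^ (6 * m)) with hS
    have hS0 : 0 < S := by have := hK8 m; positivity
    set Λ : ℝ := (N0 ^ 2 + 1) * S ^ 2 * 2 / τ with hΛ
    have hΛ0 : 0 < Λ := by positivity
    have a1 : ∀ᶠ m' : ℕ in atTop, k + m + 8 ^ (k + m) ≤ k + 1 + m' := by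
      filter_upwards [eventually_ge_atTop (k + m + 8 ^ (k + m))] with m' hm'
      omega
    have a2 : ∀ᶠ m' : ℕ in atTop, k + 1 ≤ m' := eventually_ge_atTop _
    have a3 := eventually_pow_le (K := C1) (θ := 2 / q' - 1)
      (ε := tau q' (8 ^ (6 * m)) k) hκ (tau_pos (h8 m) k)
    have a4 := low_small hq0' hq2' hUi hpair' (δ := τ / 2) (by positivity) (k + 1) hΛ0.le
    obtain ⟨m', b1, b2, b3, b4⟩ := (a1.and (a2.and (a3.and a4))).exists
    refine ⟨m', b1, b2, b3, fun f hf l hl hlS => ?_⟩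
    refine (WB_weak_small hΛ0 (hcoef2 (by omega) b2 hf) (b4 f hf) hl hlS).trans ?_
    apply ENNReal.ofReal_le_ofReal
    have h1 : N0 ^ 2 / Λ * S ^ 2 ≤ τ / 2 := by
      rw [hΛ]
      have h2 : N0 ^ 2 / ((N0 ^ 2 + 1) * S ^ 2 * 2 / τ) * S ^ 2 = τ / 2 * (N0 ^ 2 / (N0 ^ 2 + 1)) := by
        field_simp
      rw [h2]
      have h3 : N0 ^ 2 / (N0 ^ 2 + 1) ≤ 1 := by
        rw [div_le_one (by positivity)]; linarith
      nlinarith
    gcongr
    linarith
  obtain ⟨M, hM0, hMR⟩ := exists_chain hRex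
  have hM : ∀ n, 1 ≤ M n := by
    intro n
    cases n with
    | zero => rw [hM0]
    | succ n => have := (hMR n).2.1; omega
  have hMn : ∀ n, n ≤ M n := by
    intro n
    cases n with
    | zero => exact Nat.zero_le _
    | succ n => exact (hMR n).2.1
  have hB : ∀ n, n + M n + 8 ^ (n + M n) ≤ n + 1 + M (n + 1) := fun n => (hMR n).1
  have hmono : Monotone M := monotone_nat_of_le_succ fun n => by
    have h1 := hB n
    have h2 : 0 < 8 ^ (n + M n) := by positivity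
    omega
  have hL'mono : Monotone (fun n => (8:ℝ) ^ (6 * M n)) := fun a b hab =>
    pow_le_pow_right₀ (by norm_num) (by have := hmono hab; omega)
  have hLmono : Monotone (fun n => K1 * (8:ℝ) ^ (6 * M n)) := fun a b hab =>
    mul_le_mul_of_nonneg_left (hL'mono hab) (by linarith)
  set ω : ℕ → ℝ := fun n => Nat.casesOn n 0 (fun k => tau q (K1 * 8 ^ (6 * M k)) k) with hω
  obtain ⟨η', hlac'⟩ := lacOK_of (p := 2) (q := q') two_pos hq0' (L := fun n => (8:ℝ) ^ (6 * M n))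
    (ω := fun n => C1 * (M n : ℝ) ^ (-(2 / q' - 1))) (fun k => h8 (M k)) hL'mono
    (fun k => by positivity) (fun k => (hMR k).2.2.1)
  obtain ⟨η, hlac⟩ := lacOK_of (p := 2) (q := q) two_pos hq0 (L := fun n => K1 * (8:ℝ) ^ (6 * M n))
    (ω := ω) (fun k => hK8 (M k)) hLmono
    (fun k => by
      cases k with
      | zero => exact le_rfl
      | succ k => exact (tau_pos (hK8 (M k)) k).le) (fun k => le_rfl)
  obtain ⟨C, hC0, hC⟩ := sum_bound (Φ := fun n => ΦD q' n (M n)) (Ψ := fun n => ΦB n (M n))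
    (J := fun n => 8 ^ (n + M n)) (N := fun n f => Real.sqrt (S2 n (M n) (cf (ΦD q' n (M n)) f)))
    (ε := fun _ => 0) (Ca := CD q') (Cb := 1) two_conj hq zero_le_one (fun _ => le_rfl) (by simp)
    (fun n f => Real.sqrt_nonneg _)
    (fun n j => (step_ΦD q' n (M n) j).measurable) (fun n j => ΦD_bdd q' n (M n) j) hlac' hlac
    (fun n f hf hA => by
      set c := cf (ΦD q' n (M n)) f with hc
      refine ⟨nrm n (M n) c, nrm_sum (fun j => by ring), fun l hl _ => ?_, ?_, fun y => ?_⟩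
      · simp_rw [sum_ΦD]
        refine weak_of_L2 ((step_WD n (M n) _).comp (fun x => (M n : ℝ) ^ (-1 / q') * x)) ?_ hl
        refine (WD_L2' (hM n) q' _).trans ?_
        have h1 := nrm_S2 n (M n) c
        have h2 : 0 ≤ C1 * (M n : ℝ) ^ (-(2 / q' - 1)) := by positivity
        nlinarith
      · simp_rw [sum_ΦD]
        exact WD_A_one hq0' hq2' (hM n) (hMn n) (nrm_S2 n (M n) c)
      · rw [sum_ΦD]
        have hMp : (0:ℝ) < M n := by exact_mod_cast hM n
        have h4 := W_sup (hMn n) (thD_abs (hM n) (hMn n)) (c := nrm n (M n) c) zero_le_one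
          (by rw [one_pow]; exact nrm_S2 n (M n) c) (t := (M n : ℝ) ^ (-1 / q')) (by positivity)
          (scale_le (hM n) hq0') y
        rwa [one_mul] at h4)
    (fun n f hf hA => by
      have hUf : U f := ⟨hf, hA⟩
      set c := cf (ΦD q' n (M n)) f with hc
      refine ⟨?_, fun l hl hl2 => ?_, fun y => ?_⟩
      · simp_rw [Tg_DB]
        rw [one_mul, add_zero]
        exact WB_A hq2.le n (M n) c
      · simp_rw [Tg_DB]
        cases n with
        | zero =>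
          simp only [Finset.range_zero, Finset.sum_empty] at hl2
          linarith
        | succ k =>
          refine (hMR k).2.2.2 f hUf l hl (hl2.trans ?_)
          exact sum_L_le hLmono k
      · rw [Tg_DB]
        have h4 := W_sup (hMn n) (thB_abs (M n)) (c := c) hN0 (hcoef2 (hM n) (hMn n) hUf)
          (t := 1) zero_le_one le_rfl y
        rw [one_mul] at h4
        refine h4.trans ?_
        apply ENNReal.ofReal_le_ofReal
        gcongr
        linarith)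
  exact ⟨M, hB, C, hM, hMn, hC0, hC⟩

theorem exists_lt {q q' : ℝ} (hq : q.HolderConjugate q') (hq2 : q < 2) :
    ∃ (M : ℕ → ℕ) (hB : ∀ n, n + M n + 8 ^ (n + M n) ≤ n + 1 + M (n + 1)) (C : ℝ),
      (∀ n, 1 ≤ M n) ∧ (∀ n, n ≤ M n) ∧ 0 ≤ C ∧ (dataBD q M hB).Bdd 2 q C := by
  have hq0 := hq.pos
  have hq0' := hq.symm.pos
  have hq2' : 2 < q' := by
    have h := hq.inv_add_inv_eq_one
    have h1 : 1 / 2 < q⁻¹ := by
      rw [one_div]
      exact inv_strictAnti₀ hq0 hq2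
    have h2 : q'⁻¹ < 1 / 2 := by linarith
    rw [one_div] at h2
    exact (inv_lt_inv₀ hq0' two_pos).1 h2
  set U : (ℝ → ℝ) → Prop := fun f => Measurable f ∧ A 2 q (fun y => ‖f y‖ₑ) ≤ 1 with hU
  have hUi : ∀ f, U f → Integrable f mu := fun f hf =>
    A_integrable two_conj hq hf.1 (ne_top_of_le_ne_top (by norm_num) hf.2)
  obtain ⟨N0, hN0, hpair⟩ := pair_bound two_conj hq 1
  have hcoef : ∀ {a M : ℕ}, ∀ {f : ℝ → ℝ}, U f →
      Real.sqrt (S2 a M (cf (ΦB a M) f)) ≤ N0 := fun {a M} {f} hf =>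
    coefB hq2'.le hUi (fun f g hf hg hA => hpair f g hf.1 hg hf.2 hA) hf
  have hcoef2 : ∀ {a M : ℕ}, ∀ {f : ℝ → ℝ}, U f →
      S2 a M (cf (ΦB a M) f) ≤ N0 ^ 2 := fun {a M} {f} hf => by
    have h := hcoef (a := a) (M := M) hf
    calc S2 a M (cf (ΦB a M) f) = (Real.sqrt (S2 a M (cf (ΦB a M) f))) ^ 2 :=
          (Real.sq_sqrt (S2_nonneg _ _ _)).symm
      _ ≤ N0 ^ 2 := pow_le_pow_left₀ (Real.sqrt_nonneg _) h 2
  set K1 : ℝ := N0 + 1 with hK1
  have hK1' : 1 ≤ K1 := by linarith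
  have hC1 := C1_pos
  have hκ : 0 < 2 / q - 1 := by
    rw [sub_pos, lt_div_iff₀ hq0]; linarith
  set Kq : ℝ := 2 ^ (q / 2) * 2 ^ q with hKq
  have hKq0 : 0 < Kq := by positivity
  have h8 : ∀ m : ℕ, (1:ℝ) ≤ 8 ^ (6 * m) := fun m => one_le_pow₀ (by norm_num)
  have hK8 : ∀ m : ℕ, (1:ℝ) ≤ K1 * 8 ^ (6 * m) := fun m => one_le_mul_of_one_le_of_one_le hK1' (h8 m)
  set R : ℕ → ℕ → ℕ → Prop := fun k m m' =>
    k + m + 8 ^ (k + m) ≤ k + 1 + m' ∧ k + 1 ≤ m' ∧
    (C1 * N0 ^ 2) * (m':ℝ) ^ (-(2 / q - 1)) ≤ tau q (K1 * 8 ^ (6 * m)) k ∧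
    ∃ Λ : ℝ, 0 < Λ ∧ N0 ^ 2 / Λ * ((k + 1) * 8 ^ (6 * m)) ^ 2 ≤ tau q' (8 ^ (6 * m)) k ∧
      ∀ d : ℕ → ℝ, (∀ j, j < 8 ^ (k + 1 + m') → (d j) ^ 2 ≤ Λ * ((8:ℝ) ^ m')⁻¹) →
        A 2 q (fun y => ‖(m':ℝ) ^ (-1 / q) * WD (k + 1) m' d y‖ₑ) ≤
          ENNReal.ofReal ((1 / 2) ^ (k + 1 + 1) / Kq) with hR
  have hRex : ∀ k m, ∃ m', R k m m' := by
    intro k m
    have ht := tau_pos (q := q') (h8 m) k
    set τ := tau q' (8 ^ (6 * m)) k with hτ
    set S : ℝ := (k + 1) * 8 ^ (6 * m) with hS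
    have hS0 : 0 < S := by have := h8 m; positivity
    set Λ : ℝ := (N0 ^ 2 + 1) * S ^ 2 / τ with hΛ
    have hΛ0 : 0 < Λ := by positivity
    have a1 : ∀ᶠ m' : ℕ in atTop, k + m + 8 ^ (k + m) ≤ k + 1 + m' := by
      filter_upwards [eventually_ge_atTop (k + m + 8 ^ (k + m))] with m' hm'
      omega
    have a2 : ∀ᶠ m' : ℕ in atTop, k + 1 ≤ m' := eventually_ge_atTop _
    have a3 := eventually_pow_le (K := C1 * N0 ^ 2) (θ := 2 / q - 1)
      (ε := tau q (K1 * 8 ^ (6 * m)) k) hκ (tau_pos (hK8 m) k)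
    have a4 := star hq0 hq2 (ε := (1 / 2) ^ (k + 1 + 1) / Kq) (by positivity) (k + 1) hΛ0.le
    obtain ⟨m', b1, b2, b3, b4⟩ := (a1.and (a2.and (a3.and a4))).exists
    refine ⟨m', b1, b2, b3, Λ, hΛ0, ?_, b4⟩
    rw [hΛ]
    have h2 : N0 ^ 2 / ((N0 ^ 2 + 1) * S ^ 2 / τ) * S ^ 2 = τ * (N0 ^ 2 / (N0 ^ 2 + 1)) := by
      field_simp
    rw [h2]
    have h3 : N0 ^ 2 / (N0 ^ 2 + 1) ≤ 1 := by
      rw [div_le_one (by positivity)]; linarith
    nlinarith
  obtain ⟨M, hM0, hMR⟩ := exists_chain hRex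
  have hM : ∀ n, 1 ≤ M n := by
    intro n
    cases n with
    | zero => rw [hM0]
    | succ n => have := (hMR n).2.1; omega
  have hMn : ∀ n, n ≤ M n := by
    intro n
    cases n with
    | zero => exact Nat.zero_le _
    | succ n => exact (hMR n).2.1
  have hB : ∀ n, n + M n + 8 ^ (n + M n) ≤ n + 1 + M (n + 1) := fun n => (hMR n).1
  have hmono : Monotone M := monotone_nat_of_le_succ fun n => by
    have h1 := hB n
    have h2 : 0 < 8 ^ (n + M n) := by positivity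
    omega
  choose Λ' hΛ'0 hΛ'1 hΛ'2 using fun n => (hMR n).2.2.2
  set Λ : ℕ → ℝ := fun n => Nat.casesOn n 0 Λ' with hΛ
  have hΛ0 : ∀ n, 0 ≤ Λ n := by
    intro n
    cases n with
    | zero => exact le_rfl
    | succ n => exact (hΛ'0 n).le
  have hstar : ∀ n (d : ℕ → ℝ), (∀ j, j < 8 ^ (n + M n) → (d j) ^ 2 ≤ Λ n * ((8:ℝ) ^ M n)⁻¹) →
        A 2 q (fun y => ‖(M n:ℝ) ^ (-1 / q) * WD n (M n) d y‖ₑ) ≤
          ENNReal.ofReal ((1 / 2) ^ (n + 1) / Kq) := by
    intro n d hd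
    cases n with
    | zero =>
      have hz : ∀ j, j < 8 ^ (0 + M 0) → d j = 0 := by
        intro j hj
        have h1 := hd j hj
        have h2 : Λ 0 = 0 := rfl
        rw [h2, zero_mul] at h1
        exact pow_eq_zero_iff (two_ne_zero) |>.1 (le_antisymm h1 (sq_nonneg _))
      have : (fun y => ‖(M 0:ℝ) ^ (-1 / q) * WD 0 (M 0) d y‖ₑ) = fun _ => 0 := by
        funext y
        unfold WD
        rw [W_zero hz]
        simp
      rw [this, A_zero two_pos hq0]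
      exact zero_le
    | succ n => exact hΛ'2 n d hd
  have hL'mono : Monotone (fun n => (8:ℝ) ^ (6 * M n)) := fun a b hab =>
    pow_le_pow_right₀ (by norm_num) (by have := hmono hab; omega)
  have hLmono : Monotone (fun n => K1 * (8:ℝ) ^ (6 * M n)) := fun a b hab =>
    mul_le_mul_of_nonneg_left (hL'mono hab) (by linarith)
  set ω : ℕ → ℝ := fun n => Nat.casesOn n 0 (fun k => tau q' (8 ^ (6 * M k)) k) with hω
  obtain ⟨η', hlac'⟩ := lacOK_of (p := 2) (q := q') two_pos hq0' (L := fun n => (8:ℝ) ^ (6 * M n))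
    (ω := ω) (fun k => h8 (M k)) hL'mono
    (fun k => by
      cases k with
      | zero => exact le_rfl
      | succ k => exact (tau_pos (h8 (M k)) k).le) (fun k => le_rfl)
  obtain ⟨η, hlac⟩ := lacOK_of (p := 2) (q := q) two_pos hq0 (L := fun n => K1 * (8:ℝ) ^ (6 * M n))
    (ω := fun n => (C1 * N0 ^ 2) * (M n : ℝ) ^ (-(2 / q - 1))) (fun k => hK8 (M k)) hLmono
    (fun k => by positivity) (fun k => (hMR k).2.2.1)
  have hCD := CD_nonneg hq0
  obtain ⟨C, hC0, hC⟩ := sum_bound (Φ := fun n => ΦB n (M n)) (Ψ := fun n => ΦD q n (M n))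
    (J := fun n => 8 ^ (n + M n))
    (N := fun n f => Real.sqrt (S2 n (M n) (hi (Λ n) (M n) (cf (ΦB n (M n)) f))))
    (ε := fun n => 1 * (1 / 2) ^ (n + 1)) (Ca := 1) (Cb := Kq * CD q) two_conj hq (by positivity)
    (fun _ => by positivity) (by rw [tsum_half 1 zero_le_one, ENNReal.ofReal_one])
    (fun n f => Real.sqrt_nonneg _)
    (fun n j => (step_ΦB n (M n) j).measurable) (fun n j => ΦB_bdd n (M n) j) hlac' hlac
    (fun n f hf hA => by
      have hUf : U f := ⟨hf, hA⟩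
      set c := cf (ΦB n (M n)) f with hc
      set e := hi (Λ n) (M n) c with he
      refine ⟨nrm n (M n) e, nrm_sum (fun j => hi_mul _ _ _ j), fun l hl hl2 => ?_, ?_, fun y => ?_⟩
      · simp_rw [sum_ΦB]
        cases n with
        | zero =>
          simp only [Finset.range_zero, Finset.sum_empty] at hl2
          linarith
        | succ k =>
          have h1 : l ≤ (k + 1) * 8 ^ (6 * M k) := hl2.trans (sum_L_le hL'mono k)
          have h2 := WB_supp (hΛ'0 k) (a := k + 1) (M := M (k + 1)) (c := c) (d := nrm (k + 1) (M (k + 1)) e)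
            (hcoef2 hUf) (fun j _ h => by
              unfold nrm
              have : e j = 0 := h
              rw [this, mul_zero])
          calc mu {y | ENNReal.ofReal l < ‖WB (k + 1) (M (k + 1)) (nrm (k + 1) (M (k + 1)) e) y‖ₑ}
              ≤ mu {y | WB (k + 1) (M (k + 1)) (nrm (k + 1) (M (k + 1)) e) y ≠ 0} := by
                refine measure_mono fun y hy => ?_
                have hy' : ENNReal.ofReal l < ‖WB (k + 1) (M (k + 1)) (nrm (k + 1) (M (k + 1)) e) y‖ₑ := hy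
                intro h0
                rw [h0] at hy'
                simp at hy'
            _ ≤ _ := h2
            _ ≤ _ := by
                apply ENNReal.ofReal_le_ofReal
                have h3 := hΛ'1 k
                show N0 ^ 2 / Λ' k ≤ tau q' (8 ^ (6 * M k)) k * l ^ (-2:ℝ)
                rw [Real.rpow_neg hl.le, Real.rpow_two, ← div_eq_mul_inv, le_div_iff₀ (by positivity)]
                refine le_trans ?_ h3
                have h4 := hΛ'0 k
                gcongr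
      · simp_rw [sum_ΦB]
        refine (WB_A hq2'.le n (M n) _).trans ?_
        apply ENNReal.ofReal_le_ofReal
        apply Real.rpow_le_one (Real.sqrt_nonneg _) _ (by linarith)
        rw [← Real.sqrt_one]
        exact Real.sqrt_le_sqrt (nrm_S2 n (M n) e)
      · rw [sum_ΦB]
        have h4 := W_sup (hMn n) (thB_abs (M n)) (c := nrm n (M n) e) zero_le_one
          (by rw [one_pow]; exact nrm_S2 n (M n) e) (t := 1) zero_le_one le_rfl y
        rw [one_mul, one_mul] at h4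
        exact h4)
    (fun n f hf hA => by
      have hUf : U f := ⟨hf, hA⟩
      set c := cf (ΦB n (M n)) f with hc
      have hMp : (0:ℝ) < M n := by exact_mod_cast hM n
      refine ⟨?_, fun l hl hl2 => ?_, fun y => ?_⟩
      · simp_rw [Tg_BD]
        have h1 : ∀ y, WD n (M n) c y = WD n (M n) (hi (Λ n) (M n) c) y + WD n (M n) (lw (Λ n) (M n) c) y := by
          intro y
          rw [← WD_add]
          congr 1
          funext j
          exact (hi_add_lw _ _ _ j).symm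
        have h2 : A 2 q (fun y => ‖(M n:ℝ) ^ (-1 / q) * WD n (M n) c y‖ₑ) ≤
            A 2 q (fun y => ‖(M n:ℝ) ^ (-1 / q) * WD n (M n) (hi (Λ n) (M n) c) y‖ₑ +
              ‖(M n:ℝ) ^ (-1 / q) * WD n (M n) (lw (Λ n) (M n) c) y‖ₑ) := by
          refine A_mono two_pos hq0 (Eventually.of_forall fun y => ?_)
          rw [h1, mul_add]
          exact enorm_add_le _ _
        refine h2.trans ((A_add two_pos hq0 _ _).trans ?_)
        have h3 := WD_A hq0 hq2 (hM n) (hMn n) (hi (Λ n) (M n) c)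
        have h4 := hstar n (lw (Λ n) (M n) c) (fun j _ => lw_sq (hΛ0 n) _ _ j)
        refine (mul_le_mul_right (add_le_add h3 h4) _).trans ?_
        rw [← ENNReal.ofReal_add (mul_nonneg hCD (by positivity)) (by positivity),
          ← ENNReal.ofReal_mul hKq0.le]
        apply ENNReal.ofReal_le_ofReal
        refine le_of_eq ?_
        field_simp
      · simp_rw [Tg_BD]
        refine weak_of_L2 ((step_WD n (M n) _).comp (fun x => (M n : ℝ) ^ (-1 / q) * x)) ?_ hl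
        refine (WD_L2' (hM n) q _).trans ?_
        have h1 := hcoef2 (a := n) (M := M n) hUf
        have h2 : 0 ≤ C1 * (M n : ℝ) ^ (-(2 / q - 1)) := by positivity
        calc C1 * (M n : ℝ) ^ (-(2 / q - 1)) * S2 n (M n) c ≤
              C1 * (M n : ℝ) ^ (-(2 / q - 1)) * N0 ^ 2 := by gcongr
          _ = _ := by ring
      · rw [Tg_BD]
        have h4 := W_sup (hMn n) (thD_abs (hM n) (hMn n)) (c := c) hN0 (hcoef2 hUf)
          (t := (M n : ℝ) ^ (-1 / q)) (by positivity) (scale_le (hM n) hq0) y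
        refine h4.trans ?_
        apply ENNReal.ofReal_le_ofReal
        gcongr
        linarith)
  exact ⟨M, hB, C, hM, hMn, hC0, hC⟩

end Pool.Agent.KS6_84.OB
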