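import Pool.Agent.KS6_84.OB.P2c
import Pool.Agent.KS6_84.OB.Final

/-!
The case `p = 2`: lower bounds for the blocks.
-/

set_option autoImplicit false

open MeasureTheory Set Filter Topology
open scoped ENNReal NNReal

namespace Pool.Agent.KS6_84.OB

/-- selection for `p = 2` -/
theorem selection2 {e F : Set ℝ} (he : MeasurableSet e) (hF : MeasurableSet F) (he0 : mu e ≠ 0)
    (hF0 : mu F ≠ 0) {δ : ℝ} (hδ : 0 < δ) :
    ∃ n0 : ℕ, ∀ a ≥ n0, ∀ M ≥ n0, ∃ j < 8 ^ (a + M),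
      mu.real ({y | idx M y = j % 8 ^ M} \ e) ≤ δ * ((8:ℝ) ^ M)⁻¹ ∧
      (∀ m, a ≤ m → m ≤ a + M →
        mu.real ({y | idx m y = j / 8 ^ (a + M - m)} \ F) ≤ δ * ((8:ℝ) ^ m)⁻¹) := by
  classical
  obtain ⟨l0, hl0⟩ := density he he0 (half_pos hδ)
  obtain ⟨ie, hie, hie2⟩ := hl0 l0 le_rfl
  have h8l : (0:ℝ) < 8 ^ l0 := by positivity
  obtain ⟨n1, hn1⟩ := density hF hF0 (show 0 < δ * (1 / 4 * ((8:ℝ) ^ l0)⁻¹) by positivity)
  refine ⟨max l0 n1, fun a ha M hM => ?_⟩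
  have hl0M : l0 ≤ M := (le_max_left _ _).trans hM
  have hn1a : n1 ≤ a := (le_max_right _ _).trans ha
  obtain ⟨P, hP, hP2⟩ := hn1 a hn1a
  -- the good descendants for `e`
  have hmax := maximal he hδ (δ := 1 / 2) hl0M hie (by
    refine hie2.trans (le_of_eq ?_)
    ring)
  set bad := (Finset.range (8 ^ (M - l0))).filter (fun x => ∃ m, l0 ≤ m ∧ m ≤ M ∧
      δ * ((8:ℝ) ^ m)⁻¹ < mu.real ({y | idx m y = (ie * 8 ^ (M - l0) + x) / 8 ^ (M - m)} \ e)) with hbad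
  set good := (Finset.range (8 ^ (M - l0))) \ bad with hgood
  have hgc : (1 / 2 : ℝ) * 8 ^ (M - l0) ≤ (good.card : ℝ) := by
    have h1 : good.card + bad.card = 8 ^ (M - l0) := by
      rw [hgood, Finset.card_sdiff_add_card_eq_card (Finset.filter_subset _ _), Finset.card_range]
    have h2 : (good.card : ℝ) + bad.card = 8 ^ (M - l0) := by exact_mod_cast h1
    linarith
  have hgm : ∀ x ∈ good, x < 8 ^ (M - l0) ∧
      mu.real ({y | idx M y = ie * 8 ^ (M - l0) + x} \ e) ≤ δ * ((8:ℝ) ^ M)⁻¹ := by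
    intro x hx
    rw [hgood, Finset.mem_sdiff, Finset.mem_range] at hx
    refine ⟨hx.1, ?_⟩
    by_contra hc
    push Not at hc
    refine hx.2 (Finset.mem_filter.2 ⟨Finset.mem_range.2 hx.1, M, hl0M, le_rfl, ?_⟩)
    rw [Nat.sub_self, pow_zero, Nat.div_one]
    exact hc
  have hM8 : 8 ^ M = 8 ^ l0 * 8 ^ (M - l0) := by rw [← pow_add]; congr 1; omega
  have hM8r : (8:ℝ) ^ M = 8 ^ l0 * 8 ^ (M - l0) := by exact_mod_cast hM8
  have hQlt : ∀ x < 8 ^ (M - l0), ie * 8 ^ (M - l0) + x < 8 ^ M := by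
    intro x hx
    rw [hM8]
    calc ie * 8 ^ (M - l0) + x < ie * 8 ^ (M - l0) + 8 ^ (M - l0) := by omega
      _ = (ie + 1) * 8 ^ (M - l0) := by ring
      _ ≤ 8 ^ l0 * 8 ^ (M - l0) := Nat.mul_le_mul_right _ hie
  -- few descendants of `P` are bad for `F`
  have hmax2 := maximal hF hδ (δ := 1 / 4 * ((8:ℝ) ^ l0)⁻¹) (show a ≤ a + M by omega) hP hP2
  rw [Nat.add_sub_cancel_left] at hmax2
  set bad2 := (Finset.range (8 ^ M)).filter (fun x => ∃ m, a ≤ m ∧ m ≤ a + M ∧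
      δ * ((8:ℝ) ^ m)⁻¹ < mu.real ({y | idx m y = (P * 8 ^ M + x) / 8 ^ (a + M - m)} \ F)) with hbad2
  obtain ⟨x, hx, hxF⟩ : ∃ x ∈ good, ie * 8 ^ (M - l0) + x ∉ bad2 := by
    by_contra hcon
    push Not at hcon
    have h1 : (good.image (fun x => ie * 8 ^ (M - l0) + x)) ⊆ bad2 := by
      intro Q hQ
      obtain ⟨x, hx, rfl⟩ := Finset.mem_image.1 hQ
      exact hcon x hx
    have h2 := Finset.card_le_card h1
    rw [Finset.card_image_of_injective _ (fun x y h => by simpa using h)] at h2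
    have h3 : (good.card : ℝ) ≤ bad2.card := by exact_mod_cast h2
    have h4 : 1 / 4 * ((8:ℝ) ^ l0)⁻¹ * 8 ^ M = 1 / 4 * 8 ^ (M - l0) := by
      rw [hM8r]
      field_simp
    rw [h4] at hmax2
    have h5 : (0:ℝ) < 8 ^ (M - l0) := by positivity
    linarith
  have hQ := hQlt x (hgm x hx).1
  have hgQ := (hgm x hx).2
  set Q := ie * 8 ^ (M - l0) + x with hQdef
  have hjlt : P * 8 ^ M + Q < 8 ^ (a + M) := by
    calc P * 8 ^ M + Q < P * 8 ^ M + 8 ^ M := by omega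
      _ = (P + 1) * 8 ^ M := by ring
      _ ≤ 8 ^ a * 8 ^ M := Nat.mul_le_mul_right _ hP
      _ = 8 ^ (a + M) := by rw [pow_add]
  have hj2 : (P * 8 ^ M + Q) % 8 ^ M = Q := by
    rw [mul_comm, Nat.mul_add_mod, Nat.mod_eq_of_lt hQ]
  refine ⟨P * 8 ^ M + Q, hjlt, ?_, ?_⟩
  · rw [hj2]
    exact hgQ
  · intro m hm1 hm2
    by_contra hc
    push Not at hc
    exact hxF (Finset.mem_filter.2 ⟨Finset.mem_range.2 hQ, m, hm1, hm2, hc⟩)

theorem r8pow_sq (M : ℕ) : (r8 ^ M) ^ 2 = 8 ^ M := by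
  rw [← pow_mul, mul_comm, pow_mul, r8_sq]

theorem r8pow_rpow (M : ℕ) (q : ℝ) : (r8 ^ M) ^ q * (((8:ℝ) ^ M)⁻¹) ^ (q / 2) = 1 := by
  have h0 : 0 ≤ r8 ^ M := pow_nonneg r8_pos.le _
  have h1 : ((8:ℝ) ^ M)⁻¹ ^ (q / 2) = ((r8 ^ M) ^ q)⁻¹ := by
    rw [← r8pow_sq, Real.inv_rpow (by positivity), ← Real.rpow_two, ← Real.rpow_mul h0]
    congr 2
    ring
  rw [h1, mul_inv_cancel₀]
  have := r8_pos
  positivity

/-- the functional of a bump restricted to a set -/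
theorem bump_ind {M j : ℕ} {κ : ℝ} (hκ : 0 ≤ κ) (G : Set ℝ) :
    (fun y => ‖G.indicator (fun y => κ * thB M j y) y‖ₑ) =
      fun y => ({y | idx M y = j % 8 ^ M} ∩ G).indicator (fun _ => ENNReal.ofReal (κ * r8 ^ M)) y := by
  have h0 := r8_pos
  funext y
  by_cases hG : y ∈ G
  · rw [indicator_of_mem hG]
    by_cases hy : idx M y = j % 8 ^ M
    · rw [indicator_of_mem (show y ∈ {y | idx M y = j % 8 ^ M} ∩ G from ⟨hy, hG⟩)]
      unfold thB ind
      rw [if_pos hy, mul_one, Real.enorm_of_nonneg (by positivity)]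
    · rw [indicator_of_notMem (fun h => hy h.1)]
      unfold thB ind
      rw [if_neg hy]
      simp
  · rw [indicator_of_notMem hG, indicator_of_notMem (fun h => hG h.2)]
    simp

theorem bump_A {q : ℝ} (hq : 0 < q) {M j : ℕ} {κ : ℝ} (hκ : 0 ≤ κ) (G : Set ℝ) :
    A 2 q (fun y => ‖G.indicator (fun y => κ * thB M j y) y‖ₑ) =
      ENNReal.ofReal ((κ * r8 ^ M) ^ q / q * (mu.real ({y | idx M y = j % 8 ^ M} ∩ G)) ^ (q / 2)) := by
  have h0 := r8_pos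
  rw [bump_ind hκ, A_ind two_pos hq (by positivity), ← ofReal_measureReal,
    ENNReal.ofReal_rpow_of_nonneg measureReal_nonneg (by positivity),
    ← ENNReal.ofReal_mul (by positivity)]

/-- upper bound on a thin set -/
theorem bump_up {q : ℝ} (hq : 0 < q) {M j : ℕ} {δ : ℝ} (hδ : 0 ≤ δ) {G : Set ℝ}
    (hG : mu.real ({y | idx M y = j % 8 ^ M} ∩ G) ≤ δ * ((8:ℝ) ^ M)⁻¹) :
    A 2 q (fun y => ‖G.indicator (fun y => thB M j y) y‖ₑ) ≤ ENNReal.ofReal (δ ^ (q / 2) * (1 / q)) := by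
  have h0 := r8_pos
  have h1 := bump_A (q := q) hq (M := M) (j := j) (κ := 1) zero_le_one G
  simp only [one_mul] at h1
  rw [h1]
  apply ENNReal.ofReal_le_ofReal
  calc (r8 ^ M) ^ q / q * (mu.real ({y | idx M y = j % 8 ^ M} ∩ G)) ^ (q / 2)
      ≤ (r8 ^ M) ^ q / q * (δ * ((8:ℝ) ^ M)⁻¹) ^ (q / 2) := by gcongr
    _ = ((r8 ^ M) ^ q * (((8:ℝ) ^ M)⁻¹) ^ (q / 2)) * (δ ^ (q / 2) * (1 / q)) := by
        rw [Real.mul_rpow hδ (by positivity)]
        ring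
    _ = _ := by rw [r8pow_rpow, one_mul]

/-- lower bound on a thick set -/
theorem bump_low {q : ℝ} (hq : 0 < q) {M j : ℕ} {κ : ℝ} (hκ : 1 ≤ κ) {e : Set ℝ} (he : MeasurableSet e)
    (hE : mu.real ({y | idx M y = j % 8 ^ M} \ e) ≤ 1 / 2 * ((8:ℝ) ^ M)⁻¹) :
    ENNReal.ofReal ((1 / 2) ^ (q / 2) * (1 / q)) ≤
      A 2 q (fun y => ‖e.indicator (fun y => κ * thB M j y) y‖ₑ) := by
  have h0 := r8_pos
  rw [bump_A hq (by linarith)]
  apply ENNReal.ofReal_le_ofReal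
  have hcell := mu_real_cell (n := M) (i := j % 8 ^ M) (Nat.mod_lt _ (by positivity))
  have h2 := measureReal_inter_add_sdiff (μ := mu) (s := {y | idx M y = j % 8 ^ M}) he
  have h3 : 1 / 2 * ((8:ℝ) ^ M)⁻¹ ≤ mu.real ({y | idx M y = j % 8 ^ M} ∩ e) := by linarith
  calc (1 / 2 : ℝ) ^ (q / 2) * (1 / q)
      = ((r8 ^ M) ^ q * (((8:ℝ) ^ M)⁻¹) ^ (q / 2)) * ((1 / 2) ^ (q / 2) * (1 / q)) := by
        rw [r8pow_rpow, one_mul]
    _ = (r8 ^ M) ^ q / q * (1 / 2 * ((8:ℝ) ^ M)⁻¹) ^ (q / 2) := by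
        rw [Real.mul_rpow (by norm_num) (by positivity)]
        ring
    _ ≤ (κ * r8 ^ M) ^ q / q * (mu.real ({y | idx M y = j % 8 ^ M} ∩ e)) ^ (q / 2) := by
        gcongr
        exact le_mul_of_one_le_left (by positivity) hκ

theorem int_thB_sq (M j : ℕ) : ∫ y, thB M j y * thB M j y ∂mu = 1 := by
  have h1 : ∀ y, thB M j y * thB M j y = 8 ^ M * ind M (j % 8 ^ M) y := by
    intro y
    unfold thB
    have := ind_sq M (j % 8 ^ M) y
    have h2 := r8pow_sq M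
    calc r8 ^ M * ind M (j % 8 ^ M) y * (r8 ^ M * ind M (j % 8 ^ M) y)
        = (r8 ^ M) ^ 2 * ind M (j % 8 ^ M) y ^ 2 := by ring
      _ = _ := by rw [this, h2]
  simp_rw [h1]
  rw [integral_const_mul, integral_ind (Nat.mod_lt _ (by positivity))]
  exact mul_inv_cancel₀ (by positivity)

theorem pair_thD {q q' : ℝ} (hq : q.HolderConjugate q') {a M j : ℕ} (hM : 1 ≤ M) (hj : j < 8 ^ (a + M)) :
    1 ≤ ∫ y, ((M:ℝ) ^ (-1 / q) * thD a M j y) * ((M:ℝ) ^ (-1 / q') * thD a M j y) ∂mu := by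
  have hM0 : (0:ℝ) < M := by exact_mod_cast hM
  have h1 := tower_pair r8_pos r8_pos (by rw [← sq]; exact r8_sq) (a := a) (b := a + M) (lo := a)
    (hi := a + M) (B := a + M) (j := j) le_rfl le_rfl le_rfl hj (by omega)
  have h2 : ∫ y, ((M:ℝ) ^ (-1 / q) * thD a M j y) * ((M:ℝ) ^ (-1 / q') * thD a M j y) ∂mu =
      (M:ℝ)⁻¹ * ∫ y, tw r8 a (a + M) (a + M) j y * tw r8 a (a + M) (a + M) j y ∂mu := by
    rw [← integral_const_mul]
    refine integral_congr_ae (Eventually.of_forall fun y => ?_)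
    have h3 : (M:ℝ) ^ (-1 / q) * (M:ℝ) ^ (-1 / q') = (M:ℝ)⁻¹ := by
      rw [← Real.rpow_add hM0]
      have : -1 / q + -1 / q' = -1 := by
        have := hq.inv_add_inv_eq_one
        rw [neg_div, neg_div, one_div, one_div]
        linarith
      rw [this, Real.rpow_neg_one]
    simp only
    unfold thD
    rw [← h3]
    ring
  rw [h2]
  rw [Nat.add_sub_cancel_left] at h1
  calc (1:ℝ) = (M:ℝ)⁻¹ * M := (inv_mul_cancel₀ hM0.ne').symm
    _ ≤ _ := by gcongr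

theorem low_DB {q q' : ℝ} (hq : q.HolderConjugate q') {M : ℕ → ℕ}
    {hB : ∀ n, n + M n + 8 ^ (n + M n) ≤ n + 1 + M (n + 1)} (hM : ∀ n, 1 ≤ M n) (hMn : ∀ n, n ≤ M n) :
    (dataDB q' M hB).Low 2 q ((1 / 2) ^ (q / 2) * (1 / q)) (Ct r8 q) := by
  have hq0 := hq.pos
  intro δ hδ e f he hf he0 hf0
  obtain ⟨δ', hδ'0, hδ'2, hδ'⟩ := choose_delta two_pos hq0 (Ct_pos r8_gt hq0) hδ
  obtain ⟨n, hsel⟩ := selection2 he hf he0 hf0 hδ'0
  obtain ⟨j, hj, hje, hjf⟩ := hsel n le_rfl (M n) (hMn n)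
  refine ⟨n, j, hj, fun y => (M n : ℝ) ^ (-1 / q) * thD n (M n) j y, ?_, ?_, ?_, ?_⟩
  · exact (step_thD n (M n) j).comp (fun x => (M n : ℝ) ^ (-1 / q) * x)
  · have h := tower_A (q := q) two_pos hq0 r8_gt r8_le r8_p (hM n) (a := n) (b := n + M n)
      (B := n + M n) (j := j) le_rfl (by have := hMn n; omega)
      (G := univ) (δ := 1) zero_le_one (fun m _ hm2 => by
        rw [inter_univ, one_mul, mu_real_cell (cell_lt (by omega) hj)])
    simpa [thD] using h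
  · refine (tower_A (q := q) two_pos hq0 r8_gt r8_le r8_p (hM n) (a := n) (b := n + M n)
      (B := n + M n) (j := j) le_rfl (by have := hMn n; omega) hδ'0.le (fun m hm1 hm2 => by
        rw [← Set.sdiff_eq]
        exact hjf m hm1 hm2.le)).trans (ENNReal.ofReal_le_ofReal hδ')
  · refine bump_low hq0 (pair_thD hq (hM n) hj) he (hje.trans ?_)
    gcongr

theorem low_BD {q q' : ℝ} (hq : q.HolderConjugate q') {M : ℕ → ℕ}
    {hB : ∀ n, n + M n + 8 ^ (n + M n) ≤ n + 1 + M (n + 1)} (hM : ∀ n, 1 ≤ M n) (hMn : ∀ n, n ≤ M n) :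
    (dataBD q M hB).Low 2 q (c0c r8 2 q) (1 / q) := by
  have hq0 := hq.pos
  intro δ hδ e f he hf he0 hf0
  obtain ⟨δ', hδ'0, hδ'2, hδ'⟩ := choose_delta two_pos hq0 (show 0 < 1 / q by positivity) hδ
  obtain ⟨n, hsel⟩ := selection2 hf he hf0 he0 hδ'0
  obtain ⟨j, hj, hjf, hje⟩ := hsel n le_rfl (M n) (hMn n)
  refine ⟨n, j, hj, fun y => thB (M n) j y, ?_, ?_, ?_, ?_⟩
  · exact step_thB n (M n) j
  · have h := bump_up (q := q) hq0 (M := M n) (j := j) (δ := 1) zero_le_one (G := univ) (by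
        rw [inter_univ, one_mul, mu_real_cell (Nat.mod_lt _ (by positivity))])
    simpa using h
  · refine (bump_up (q := q) hq0 (M := M n) (j := j) hδ'0.le (G := fᶜ) (by
        rw [← Set.sdiff_eq]
        exact hjf)).trans (ENNReal.ofReal_le_ofReal hδ')
  · have h1 : ∫ y, thB (M n) j y * (dataBD q M hB).φ n j y ∂mu = 1 := int_thB_sq (M n) j
    rw [h1]
    refine tower_low (q := q) (M := M n) (b0 := n) two_pos hq.lt.le r8_gt r8_p (hM n) le_rfl le_rfl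
      (by omega) hj he (fun m hm1 hm2 => ?_) (by norm_num)
    refine (hje m hm1 hm2.le).trans ?_
    gcongr

end Pool.Agent.KS6_84.OB

namespace Pool.Agent.KS6_84.OBL

open Pool.Agent.KS6_84.OB

theorem nonempty_two {q : ℝ} (hq : 1 < q) (hq2 : q ≠ 2) : (D 2 (ENNReal.ofReal q)).Nonempty := by
  have hqc := Real.HolderConjugate.conjExponent hq
  set q' := q.conjExponent with hq'
  have hq0 := hqc.pos
  rcases lt_or_gt_of_ne hq2 with h | h
  · obtain ⟨M, hB, C, hM, hMn, hC0, hC⟩ := exists_lt hqc h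
    exact nonempty_of two_conj hqc hC0 hC (c0c_pos r8_gt) (by positivity) (low_BD hqc hM hMn)
  · obtain ⟨M, hB, C, hM, hMn, hC0, hC⟩ := exists_gt hqc h
    exact nonempty_of two_conj hqc hC0 hC (by positivity) (Ct_pos r8_gt hq0) (low_DB hqc hM hMn)

end Pool.Agent.KS6_84.OBL
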