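import Pool.Agent.KS6_84.OB.WeakV
import Pool.Agent.KS6_84.OB.Oper

/-!
Synthesis bounds for one generation.
-/

set_option autoImplicit false

open MeasureTheory Set Filter Topology
open scoped ENNReal NNReal

namespace Pool.Agent.KS6_84.OB

/-- the `ℓ²` norm of the coefficients in a block -/
noncomputable def DJ (M : ℕ) (c : ℕ → ℝ) (J : ℕ) : ℝ :=
  Real.sqrt (∑ j ∈ (Finset.range (8 ^ (3 * M))).filter (fun j => j / 8 ^ M = J), (c j) ^ 2)

theorem DJ_nonneg (M : ℕ) (c : ℕ → ℝ) (J : ℕ) : 0 ≤ DJ M c J := Real.sqrt_nonneg _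

theorem DJ_sq (M : ℕ) (c : ℕ → ℝ) (J : ℕ) : (DJ M c J) ^ 2 =
    ∑ j ∈ (Finset.range (8 ^ (3 * M))).filter (fun j => j / 8 ^ M = J), (c j) ^ 2 :=
  Real.sq_sqrt (Finset.sum_nonneg fun _ _ => sq_nonneg _)

theorem abs_le_DJ {M : ℕ} (c : ℕ → ℝ) {j : ℕ} (hj : j < 8 ^ (3 * M)) : |c j| ≤ DJ M c (j / 8 ^ M) := by
  unfold DJ
  apply Real.abs_le_sqrt
  exact Finset.single_le_sum (f := fun j => (c j) ^ 2) (fun _ _ => sq_nonneg _)
    (Finset.mem_filter.2 ⟨Finset.mem_range.2 hj, rfl⟩)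

theorem DJ_scale (M : ℕ) (c : ℕ → ℝ) (J : ℕ) {a : ℕ → ℝ} (ha : ∀ J, 0 ≤ a J) :
    DJ M (fun j => a (j / 8 ^ M) * c j) J = a J * DJ M c J := by
  unfold DJ
  have h1 : ∑ j ∈ (Finset.range (8 ^ (3 * M))).filter (fun j => j / 8 ^ M = J),
      (a (j / 8 ^ M) * c j) ^ 2 = (a J) ^ 2 *
      ∑ j ∈ (Finset.range (8 ^ (3 * M))).filter (fun j => j / 8 ^ M = J), (c j) ^ 2 := by
    rw [Finset.mul_sum]
    refine Finset.sum_congr rfl fun j hj => ?_
    rw [(Finset.mem_filter.1 hj).2, mul_pow]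
  rw [h1, Real.sqrt_mul (sq_nonneg _), Real.sqrt_sq (ha J)]

/-- the sum of `p`-th powers -/
noncomputable def SP (M : ℕ) (p : ℝ) (c : ℕ → ℝ) : ℝ :=
  ∑ J ∈ Finset.range (8 ^ (2 * M)), (DJ M c J) ^ p

theorem SP_nonneg (M : ℕ) (p : ℝ) (c : ℕ → ℝ) : 0 ≤ SP M p c :=
  Finset.sum_nonneg fun J _ => by have := DJ_nonneg M c J; positivity

theorem abs_le_SP {M : ℕ} {p : ℝ} (hp : 0 < p) (c : ℕ → ℝ) {j : ℕ} (hj : j < 8 ^ (3 * M)) :
    |c j| ^ p ≤ SP M p c := by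
  calc |c j| ^ p ≤ (DJ M c (j / 8 ^ M)) ^ p :=
        Real.rpow_le_rpow (abs_nonneg _) (abs_le_DJ c hj) hp.le
    _ ≤ _ := Finset.single_le_sum (f := fun J => (DJ M c J) ^ p)
        (fun J _ => by have := DJ_nonneg M c J; positivity) (Finset.mem_range.2 (lt_sq hj))

/-- profiles with a weak type synthesis bound -/
structure Prof (p : ℝ) (θ : ℕ → ℕ → ℝ → ℝ) : Prop where
  step : ∀ M j, Step (3 * M) (θ M j)
  bound : ∀ M, 1 ≤ M → ∀ j y, |θ M j y| ≤ 8 ^ (4 * M)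
  weak : ∃ C : ℝ, 0 ≤ C ∧ ∀ (M : ℕ) (c : ℕ → ℝ) (l : ℝ), 0 < l →
    mu.real {y | l < |W (3 * M) (8 ^ (3 * M)) (fun j y => c j * θ M j y) y|} ≤
      C * (l ^ (-p) * SP M p c)

noncomputable def thU (ρ : ℝ) (M j : ℕ) (y : ℝ) : ℝ := tw ρ 0 M M (xp M j) y

noncomputable def thV (ρ : ℝ) (M j : ℕ) (y : ℝ) : ℝ := tw ρ (2 * M) (3 * M) (3 * M) j y

theorem tw_abs_le {ρ : ℝ} (hρ1 : 1 ≤ ρ) (hρ : ρ ≤ 8) {lo hi B j M : ℕ} (hhi : hi ≤ 3 * M) (hM : 1 ≤ M)
    (y : ℝ) : |tw ρ lo hi B j y| ≤ 8 ^ (4 * M) := by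
  rw [abs_of_nonneg (tw_nonneg (by linarith) _ _ _ _ _)]
  unfold tw
  calc ∑ m ∈ Finset.Ico lo hi, ρ ^ m * ind m (j / 8 ^ (B - m)) y
      ≤ ∑ m ∈ Finset.Ico lo hi, (8:ℝ) ^ (3 * M) := by
        refine Finset.sum_le_sum fun m hm => ?_
        rw [Finset.mem_Ico] at hm
        calc ρ ^ m * ind m (j / 8 ^ (B - m)) y ≤ ρ ^ m * 1 := by
              gcongr
              exact ind_le_one _ _ _
          _ = ρ ^ m := mul_one _
          _ ≤ 8 ^ m := by gcongr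
          _ ≤ 8 ^ (3 * M) := pow_le_pow_right₀ (by norm_num) (by omega)
    _ = ((hi - lo : ℕ) : ℝ) * 8 ^ (3 * M) := by
        rw [Finset.sum_const, Nat.card_Ico, nsmul_eq_mul]
    _ ≤ 8 ^ M * 8 ^ (3 * M) := by
        gcongr
        have h1 : hi - lo ≤ 8 ^ M := by
          have h2 : 3 * M ≤ 8 ^ M := by
            clear hhi
            induction M, hM using Nat.le_induction with
            | base => norm_num
            | succ k hk ih => rw [pow_succ]; omega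
          omega
        exact_mod_cast h1
    _ = _ := by rw [← pow_add]; congr 1; ring

theorem rho_le {p : ℝ} (hp : 1 < p) : (8:ℝ) ^ (1 / p) ≤ 8 := by
  calc (8:ℝ) ^ (1 / p) ≤ 8 ^ (1:ℝ) := by
        apply Real.rpow_le_rpow_of_exponent_le (by norm_num)
        rw [div_le_one (by linarith)]
        exact hp.le
    _ = 8 := Real.rpow_one _

theorem rho_gt {p : ℝ} (hp : 0 < p) : 1 < (8:ℝ) ^ (1 / p) :=
  Real.one_lt_rpow (by norm_num) (by positivity)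

theorem rho_p {p : ℝ} (hp : 0 < p) : ((8:ℝ) ^ (1 / p)) ^ p = 8 := by
  rw [← Real.rpow_mul (by norm_num), one_div_mul_cancel hp.ne', Real.rpow_one]

theorem profU {p : ℝ} (hp : 1 < p) (hp2 : p < 2) : Prof p (thU (8 ^ (1 / p))) := by
  have hp0 : 0 < p := by linarith
  refine ⟨fun M j => step_tw _ _ _ _ _ (by omega), fun M hM j y => ?_, ?_⟩
  · exact tw_abs_le (rho_gt hp0).le (rho_le hp) (by omega) hM y
  · have hQ : 1 < ((8:ℝ) ^ (1 / p)) ^ 2 / 8 := by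
      rw [rho_sq (by positivity) (rho_p hp0)]
      exact Real.one_lt_rpow (rho_gt hp0) (by linarith)
    refine ⟨CU (8 ^ (1 / p)), (CU_pos (rho_gt hp0) hQ).le, fun M c l hl => ?_⟩
    exact weakU hp0 hp2 (rho_gt hp0) (rho_p hp0) M c (DJ M c) (DJ_nonneg M c)
      (fun J _ => (DJ_sq M c J).ge) hl

theorem profV {p : ℝ} (hp2 : 2 < p) : Prof p (thV (8 ^ (1 / p))) := by
  have hp0 : 0 < p := by linarith
  refine ⟨fun M j => step_tw _ _ _ _ _ (by omega), fun M hM j y => ?_, ?_⟩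
  · exact tw_abs_le (rho_gt hp0).le (rho_le (by linarith)) (by omega) hM y
  · obtain ⟨C, hC, h⟩ := weakV hp2 (rho_gt hp0) (rho_p hp0)
    refine ⟨C, hC, fun M c l hl => ?_⟩
    exact h M c (DJ M c) (DJ_nonneg M c) (fun J _ => (DJ_sq M c J).ge) l hl

theorem W_smul (B n : ℕ) (a : ℝ) (c : ℕ → ℝ) (θ : ℕ → ℝ → ℝ) (y : ℝ) :
    W B n (fun j y => (a * c j) * θ j y) y = a * W B n (fun j y => c j * θ j y) y := by
  unfold W
  rw [Finset.mul_sum]
  exact Finset.sum_congr rfl fun j _ => by ring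

/-- weak bound for the normalised synthesis -/
theorem synth_weak {p C : ℝ} {θ : ℕ → ℝ → ℝ} {M : ℕ} {c : ℕ → ℝ}
    (h : ∀ l : ℝ, 0 < l → mu.real {y | l < |W (3 * M) (8 ^ (3 * M)) (fun j y => c j * θ j y) y|} ≤
      C * (l ^ (-p) * SP M p c)) {s : ℝ} (hs : 0 < s) {l : ℝ} (hl : 0 < l) :
    mu {y | ENNReal.ofReal l < ‖s * W (3 * M) (8 ^ (3 * M)) (fun j y => c j * θ j y) y‖ₑ} ≤
      ENNReal.ofReal ((C * s ^ p * SP M p c) * l ^ (-p)) := by
  have hset : {y | ENNReal.ofReal l < ‖s * W (3 * M) (8 ^ (3 * M)) (fun j y => c j * θ j y) y‖ₑ} =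
      {y | l / s < |W (3 * M) (8 ^ (3 * M)) (fun j y => c j * θ j y) y|} := by
    ext y
    simp only [mem_ofPred_eq]
    rw [Real.enorm_eq_ofReal_abs, ENNReal.ofReal_lt_ofReal_iff_of_nonneg hl.le, abs_mul,
      abs_of_pos hs, div_lt_iff₀ hs, mul_comm]
  rw [hset, ← ofReal_measureReal]
  apply ENNReal.ofReal_le_ofReal
  refine (h (l / s) (by positivity)).trans (le_of_eq ?_)
  rw [Real.div_rpow hl.le hs.le, Real.rpow_neg hs.le, div_inv_eq_mul]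
  ring

theorem synth_sup {θ : ℕ → ℝ → ℝ} {M : ℕ} (hθ : ∀ j y, |θ j y| ≤ 8 ^ (4 * M)) {c : ℕ → ℝ} {N s : ℝ}
    (hs0 : 0 ≤ s) (hs : s ≤ 1) (hN : 0 ≤ N) (hc : ∀ j, j < 8 ^ (3 * M) → |c j| ≤ N) (y : ℝ) :
    ‖s * W (3 * M) (8 ^ (3 * M)) (fun j y => c j * θ j y) y‖ₑ ≤ ENNReal.ofReal (N * 8 ^ (7 * M)) := by
  rw [Real.enorm_eq_ofReal_abs]
  apply ENNReal.ofReal_le_ofReal
  rw [abs_mul, abs_of_nonneg hs0]
  have h1 : |W (3 * M) (8 ^ (3 * M)) (fun j y => c j * θ j y) y| ≤ N * 8 ^ (7 * M) := by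
    unfold W
    calc _ ≤ ∑ j ∈ Finset.range (8 ^ (3 * M)), |c j * θ j y * rad (3 * M + j + 1) y| :=
          Finset.abs_sum_le_sum_abs _ _
      _ ≤ ∑ j ∈ Finset.range (8 ^ (3 * M)), N * 8 ^ (4 * M) := by
          refine Finset.sum_le_sum fun j hj => ?_
          rw [abs_mul, abs_rad, mul_one, abs_mul]
          exact mul_le_mul (hc j (Finset.mem_range.1 hj)) (hθ j y) (abs_nonneg _) hN
      _ = _ := by
          rw [Finset.sum_const, Finset.card_range, nsmul_eq_mul]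
          push_cast
          rw [show 7 * M = 3 * M + 4 * M by ring, pow_add]
          ring
  calc s * |W (3 * M) (8 ^ (3 * M)) (fun j y => c j * θ j y) y| ≤ 1 * (N * 8 ^ (7 * M)) := by
        gcongr
    _ = _ := one_mul _

/-- the constant of the normalised synthesis -/
noncomputable def Cs (p q C : ℝ) : ℝ := 1 / q + C ^ (q / p) * (7 * Real.log 8)

theorem Cs_nonneg {p q C : ℝ} (hq : 0 < q) (hC : 0 ≤ C) : 0 ≤ Cs p q C := by
  unfold Cs
  have : 0 ≤ Real.log 8 := Real.log_nonneg (by norm_num)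
  positivity

theorem synth_A_one {p q C : ℝ} (hp : 0 < p) (hq : 0 < q) (hC : 0 ≤ C) {θ : ℕ → ℝ → ℝ} {M : ℕ}
    (hM : 1 ≤ M) (hθ : ∀ j y, |θ j y| ≤ 8 ^ (4 * M)) {c : ℕ → ℝ}
    (h : ∀ l : ℝ, 0 < l → mu.real {y | l < |W (3 * M) (8 ^ (3 * M)) (fun j y => c j * θ j y) y|} ≤
      C * (l ^ (-p) * SP M p c)) (hc : SP M p c ≤ 1) :
    A p q (fun y => ‖(M:ℝ) ^ (-1 / q) * W (3 * M) (8 ^ (3 * M)) (fun j y => c j * θ j y) y‖ₑ) ≤
      ENNReal.ofReal (Cs p q C) := by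
  have hM0 : (0:ℝ) < M := by exact_mod_cast hM
  have hM1 : (1:ℝ) ≤ M := by exact_mod_cast hM
  have hs : 0 < (M:ℝ) ^ (-1 / q) := by positivity
  have hcj : ∀ j, j < 8 ^ (3 * M) → |c j| ≤ 1 := by
    intro j hj
    by_contra hcon
    push Not at hcon
    exact absurd ((abs_le_SP hp c hj).trans hc) (not_le.2 (Real.one_lt_rpow hcon hp))
  have h1 := A_of_weak (p := p) (q := q) hp hq
    (F := fun y => ‖(M:ℝ) ^ (-1 / q) * W (3 * M) (8 ^ (3 * M)) (fun j y => c j * θ j y) y‖ₑ)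
    (W := C * ((M:ℝ) ^ (-1 / q)) ^ p) (H := 8 ^ (7 * M)) (by positivity)
    (one_le_pow₀ (by norm_num)) (fun l hl => ?_) (Eventually.of_forall fun y => ?_)
  · refine h1.trans (le_of_eq ?_)
    unfold Cs
    congr 2
    rw [Real.mul_rpow hC (by positivity), ← Real.rpow_mul (by positivity),
      ← Real.rpow_mul (by positivity), Real.log_pow]
    have e1 : -1 / q * (p * (q / p)) = -1 := by field_simp
    rw [e1, Real.rpow_neg_one]
    push_cast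
    field_simp
  · refine (synth_weak h hs hl).trans ?_
    apply ENNReal.ofReal_le_ofReal
    have : C * ((M:ℝ) ^ (-1 / q)) ^ p * SP M p c ≤ C * ((M:ℝ) ^ (-1 / q)) ^ p * 1 := by gcongr
    rw [mul_one] at this
    gcongr
  · have := synth_sup hθ hs.le (by
      rw [show (-1 / q) = -(1 / q) by ring, Real.rpow_neg hM0.le]
      exact inv_le_one_of_one_le₀ (Real.one_le_rpow hM1 (by positivity))) zero_le_one hcj y
    rwa [one_mul] at this

theorem SP_smul (M : ℕ) {p : ℝ} {a : ℝ} (ha : 0 ≤ a) (c : ℕ → ℝ) :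
    SP M p (fun j => a * c j) = a ^ p * SP M p c := by
  unfold SP
  rw [Finset.mul_sum]
  refine Finset.sum_congr rfl fun J _ => ?_
  rw [DJ_scale M c J (a := fun _ => a) (fun _ => ha), Real.mul_rpow ha (DJ_nonneg _ _ _)]

theorem synth_A {p q C : ℝ} (hp : 0 < p) (hq : 0 < q) (hC : 0 ≤ C) {θ : ℕ → ℝ → ℝ} {M : ℕ}
    (hM : 1 ≤ M) (hθ : ∀ j y, |θ j y| ≤ 8 ^ (4 * M))
    (h : ∀ (c : ℕ → ℝ) (l : ℝ), 0 < l →
      mu.real {y | l < |W (3 * M) (8 ^ (3 * M)) (fun j y => c j * θ j y) y|} ≤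
      C * (l ^ (-p) * SP M p c)) (c : ℕ → ℝ) :
    A p q (fun y => ‖(M:ℝ) ^ (-1 / q) * W (3 * M) (8 ^ (3 * M)) (fun j y => c j * θ j y) y‖ₑ) ≤
      ENNReal.ofReal (Cs p q C * ((SP M p c) ^ (1 / p)) ^ q) := by
  have hS := SP_nonneg M p c
  rcases eq_or_lt_of_le hS with h0 | h0
  · have hz : ∀ j, j < 8 ^ (3 * M) → c j = 0 := by
      intro j hj
      have h1 := abs_le_SP hp c hj
      rw [← h0] at h1
      by_contra hne
      have : 0 < |c j| ^ p := by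
        have : 0 < |c j| := abs_pos.2 hne
        positivity
      linarith
    have : (fun y => ‖(M:ℝ) ^ (-1 / q) * W (3 * M) (8 ^ (3 * M)) (fun j y => c j * θ j y) y‖ₑ) =
        fun _ => 0 := by
      funext y
      have hW : W (3 * M) (8 ^ (3 * M)) (fun j y => c j * θ j y) y = 0 := by
        unfold W
        refine Finset.sum_eq_zero fun j hj => ?_
        simp only
        rw [hz j (Finset.mem_range.1 hj)]
        ring
      rw [hW]
      simp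
    rw [this, A_zero hp hq]
    exact zero_le
  · set N := (SP M p c) ^ (1 / p) with hN
    have hN0 : 0 < N := by positivity
    set c' : ℕ → ℝ := fun j => N⁻¹ * c j with hc'
    have hSP' : SP M p c' ≤ 1 := by
      rw [hc', SP_smul M (by positivity), Real.inv_rpow hN0.le, hN, ← Real.rpow_mul hS,
        one_div_mul_cancel hp.ne', Real.rpow_one, inv_mul_cancel₀ h0.ne']
    have h1 := synth_A_one hp hq hC hM hθ (h c') hSP'
    have h2 : ∀ y, ‖(M:ℝ) ^ (-1 / q) * W (3 * M) (8 ^ (3 * M)) (fun j y => c j * θ j y) y‖ₑ =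
        ‖N * ((M:ℝ) ^ (-1 / q) * W (3 * M) (8 ^ (3 * M)) (fun j y => c' j * θ j y) y)‖ₑ := by
      intro y
      rw [hc', W_smul]
      congr 1
      field_simp
    simp_rw [h2]
    rw [Data.A_enorm_smul hp hq hN0, ENNReal.ofReal_mul (Cs_nonneg hq hC), mul_comm]
    gcongr

/-- pairing bound -/
theorem pair_bound {p q p' q' : ℝ} (hp : p.HolderConjugate p') (hq : q.HolderConjugate q')
    (Ca : ℝ) : ∃ N0 : ℝ, 0 ≤ N0 ∧ ∀ f g : ℝ → ℝ, Measurable f → Measurable g →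
      A p q (fun y => ‖f y‖ₑ) ≤ 1 → A p' q' (fun y => ‖g y‖ₑ) ≤ ENNReal.ofReal Ca →
      ∫ y, f y * g y ∂mu ≤ N0 := by
  have hq0 := hq.pos
  have hq0' := hq.symm.pos
  set B : ℝ≥0∞ := (ENNReal.ofReal p * 1) ^ (1 / q) * (ENNReal.ofReal p' * ENNReal.ofReal Ca) ^ (1 / q')
    with hB
  have hBt : B ≠ ∞ := by
    rw [hB]
    exact ENNReal.mul_ne_top (ENNReal.rpow_ne_top_of_nonneg (by positivity)
      (ENNReal.mul_ne_top ENNReal.ofReal_ne_top (by norm_num)))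
      (ENNReal.rpow_ne_top_of_nonneg (by positivity)
        (ENNReal.mul_ne_top ENNReal.ofReal_ne_top ENNReal.ofReal_ne_top))
  refine ⟨B.toReal, ENNReal.toReal_nonneg, fun f g hf hg hA hA' => ?_⟩
  refine (ENNReal.ofReal_le_iff_le_toReal hBt).1 ?_
  calc ENNReal.ofReal (∫ y, f y * g y ∂mu) ≤ ‖∫ y, f y * g y ∂mu‖ₑ := by
        rw [Real.enorm_eq_ofReal_abs]
        exact ENNReal.ofReal_le_ofReal (le_abs_self _)
    _ ≤ ∫⁻ y, ‖f y * g y‖ₑ ∂mu := enorm_integral_le_lintegral_enorm _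
    _ = ∫⁻ y, ‖f y‖ₑ * ‖g y‖ₑ ∂mu := by simp_rw [enorm_mul]
    _ ≤ _ := hoelder hp hq hf.enorm hg.enorm
    _ ≤ B := by
        rw [LF_eq hp.pos hq0, LF_eq hp.symm.pos hq0', hB]
        gcongr

end Pool.Agent.KS6_84.OB
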