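import Pool.Agent.KS6_84.OB.Orth

/-!
Weak type estimate for signed sums of shallow towers, `p < 2`.
-/

set_option autoImplicit false

open MeasureTheory Set Filter Topology
open scoped ENNReal NNReal

namespace Pool.Agent.KS6_84.OB

theorem rho_pow {ρ p : ℝ} (hρ : 0 < ρ) (hρp : ρ ^ p = 8) (m : ℕ) : (ρ ^ m) ^ p = 8 ^ m := by
  rw [← Real.rpow_natCast ρ m, ← Real.rpow_mul hρ.le, mul_comm, Real.rpow_mul hρ.le, hρp,
    Real.rpow_natCast]

theorem rho_sq {ρ p : ℝ} (hρ : 0 < ρ) (hρp : ρ ^ p = 8) : ρ ^ 2 / 8 = ρ ^ (2 - p) := by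
  rw [Real.rpow_sub hρ, hρp, Real.rpow_two]

theorem rho_pow_n {ρ p : ℝ} (hρ : 0 < ρ) (hρp : ρ ^ p = 8) (n m : ℕ) :
    (ρ ^ n / 8) ^ m = (ρ ^ m) ^ ((n:ℝ) - p) := by
  rw [Real.rpow_sub (by positivity), rho_pow hρ hρp, div_pow, Real.rpow_natCast, ← pow_mul, ← pow_mul,
    mul_comm]

/-- position of the shallow tower -/
def xp (M j : ℕ) : ℕ := (j / 8 ^ M) % 8 ^ M

theorem xp_lt (M j : ℕ) : xp M j < 8 ^ M := Nat.mod_lt _ (by positivity)

theorem lt_sq {M j : ℕ} (hj : j < 8 ^ (3 * M)) : j / 8 ^ M < 8 ^ (2 * M) := by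
  rw [Nat.div_lt_iff_lt_mul (by positivity), ← pow_add]
  rwa [show 2 * M + M = 3 * M by ring]

theorem sum_blocks (M : ℕ) (f : ℕ → ℝ) (g : ℕ → ℝ) :
    ∑ j ∈ Finset.range (8 ^ (3 * M)), f j * g (j / 8 ^ M) =
      ∑ J ∈ Finset.range (8 ^ (2 * M)),
        (∑ j ∈ (Finset.range (8 ^ (3 * M))).filter (fun j => j / 8 ^ M = J), f j) * g J := by
  rw [← Finset.sum_fiberwise_of_maps_to (s := Finset.range (8 ^ (3 * M)))
    (t := Finset.range (8 ^ (2 * M))) (g := fun j => j / 8 ^ M)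
    (fun j hj => Finset.mem_range.2 (lt_sq (Finset.mem_range.1 hj)))]
  refine Finset.sum_congr rfl fun J _ => ?_
  rw [Finset.sum_mul]
  refine Finset.sum_congr rfl fun j hj => ?_
  rw [(Finset.mem_filter.1 hj).2]

theorem tw_split {ρ : ℝ} {lo mid hi B j : ℕ} (h1 : lo ≤ mid) (h2 : mid ≤ hi) (y : ℝ) :
    tw ρ lo hi B j y = tw ρ lo mid B j y + tw ρ mid hi B j y := by
  unfold tw
  rw [Finset.sum_Ico_consecutive _ h1 h2]

theorem tw_zero_of {ρ : ℝ} {mid hi B j : ℕ} (hB : hi ≤ B) {y : ℝ}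
    (h : mid < hi → ind mid (j / 8 ^ (B - mid)) y = 0) : tw ρ mid hi B j y = 0 := by
  unfold tw
  refine Finset.sum_eq_zero fun m hm => ?_
  rw [Finset.mem_Ico] at hm
  have h1 := ind_anti (j := j) hm.1 (show m ≤ B by omega) y
  rw [h (by omega)] at h1
  rw [le_antisymm h1 (ind_nonneg _ _ _), mul_zero]

/-- the constant in the weak type estimate -/
noncomputable def CU (ρ : ℝ) : ℝ :=
  1 + (2 * (ρ / (ρ - 1))) * ((ρ ^ 2 / 8) / (ρ ^ 2 / 8 - 1))

theorem CU_pos {ρ : ℝ} (h1 : 1 < ρ) (h2 : 1 < ρ ^ 2 / 8) : 0 < CU ρ := by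
  unfold CU
  have : 0 < ρ - 1 := by linarith
  have h3 : 0 < ρ ^ 2 / 8 - 1 := by linarith
  positivity

/-- weak type estimate, `p < 2` -/
theorem weakU {p ρ : ℝ} (hp : 0 < p) (hp2 : p < 2) (hρ : 1 < ρ) (hρp : ρ ^ p = 8) (M : ℕ)
    (c D : ℕ → ℝ) (hD : ∀ J, 0 ≤ D J)
    (hcD : ∀ J < 8 ^ (2 * M), ∑ j ∈ (Finset.range (8 ^ (3 * M))).filter (fun j => j / 8 ^ M = J),
      (c j) ^ 2 ≤ (D J) ^ 2) {l : ℝ} (hl : 0 < l) :
    mu.real {y | l < |W (3 * M) (8 ^ (3 * M)) (fun j y => c j * tw ρ 0 M M (xp M j) y) y|} ≤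
      CU ρ * (l ^ (-p) * ∑ J ∈ Finset.range (8 ^ (2 * M)), (D J) ^ p) := by
  classical
  have hρ0 : 0 < ρ := by linarith
  have hρ1 : 0 < ρ - 1 := by linarith
  have hQ1 : 1 < ρ ^ 2 / 8 := by
    rw [rho_sq hρ0 hρp]
    exact Real.one_lt_rpow hρ (by linarith)
  have hex : ∀ J, ∃ m, m = M ∨ l ≤ D J * ρ ^ m := fun J => ⟨M, Or.inl rfl⟩
  set mJ : ℕ → ℕ := fun J => Nat.find (hex J) with hmJ
  have hmle : ∀ J, mJ J ≤ M := fun J => Nat.find_min' (hex J) (Or.inl rfl)
  have hspec : ∀ J, mJ J = M ∨ l ≤ D J * ρ ^ (mJ J) := fun J => Nat.find_spec (hex J)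
  have hmin : ∀ J m, m < mJ J → D J * ρ ^ m < l := by
    intro J m hm
    have := Nat.find_min (hex J) hm
    push Not at this
    exact this.2
  set I := (Finset.range (8 ^ (2 * M))).filter (fun J => mJ J < M) with hI
  set E : Set ℝ := ⋃ J ∈ I, {y | idx (mJ J) y = (J % 8 ^ M) / 8 ^ (M - mJ J)} with hE
  -- measure of the exceptional set
  have hmE : mu.real E ≤ l ^ (-p) * ∑ J ∈ Finset.range (8 ^ (2 * M)), (D J) ^ p := by
    calc mu.real E ≤ ∑ J ∈ I, mu.real {y | idx (mJ J) y = (J % 8 ^ M) / 8 ^ (M - mJ J)} :=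
          measureReal_biUnion_finset_le _ _
      _ ≤ ∑ J ∈ I, l ^ (-p) * (D J) ^ p := by
          refine Finset.sum_le_sum fun J hJ => ?_
          rw [hI, Finset.mem_filter] at hJ
          have hlt := hJ.2
          have h1 : (J % 8 ^ M) / 8 ^ (M - mJ J) < 8 ^ (mJ J) := by
            rw [Nat.div_lt_iff_lt_mul (by positivity), ← pow_add,
              show mJ J + (M - mJ J) = M by omega]
            exact Nat.mod_lt _ (by positivity)
          rw [mu_real_cell h1]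
          have h2 : l ≤ D J * ρ ^ (mJ J) := (hspec J).resolve_left (by omega)
          have h3 : l ^ p ≤ (D J) ^ p * 8 ^ (mJ J) := by
            rw [← rho_pow hρ0 hρp, ← Real.mul_rpow (hD J) (by positivity)]
            exact Real.rpow_le_rpow hl.le h2 hp.le
          rw [Real.rpow_neg hl.le, inv_mul_eq_div, le_div_iff₀ (by positivity), inv_mul_le_iff₀ (by positivity)]
          linarith
      _ ≤ ∑ J ∈ Finset.range (8 ^ (2 * M)), l ^ (-p) * (D J) ^ p := by
          refine Finset.sum_le_sum_of_subset_of_nonneg (Finset.filter_subset _ _) fun J _ _ => ?_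
          have := hD J
          positivity
      _ = _ := by rw [Finset.mul_sum]
  -- the truncated function
  set G : ℕ → ℝ → ℝ := fun j y => c j * tw ρ 0 (mJ (j / 8 ^ M)) M (xp M j) y with hG
  have hsub : {y | l < |W (3 * M) (8 ^ (3 * M)) (fun j y => c j * tw ρ 0 M M (xp M j) y) y|} ⊆
      E ∪ {y | l < |W (3 * M) (8 ^ (3 * M)) G y|} := by
    intro y hy
    by_cases hyE : y ∈ E
    · exact Or.inl hyE
    · right
      have heq : W (3 * M) (8 ^ (3 * M)) (fun j y => c j * tw ρ 0 M M (xp M j) y) y =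
          W (3 * M) (8 ^ (3 * M)) G y := by
        unfold W
        refine Finset.sum_congr rfl fun j hj => ?_
        rw [hG]
        simp only
        rw [tw_split (zero_le (a := mJ (j / 8 ^ M))) (hmle (j / 8 ^ M)),
          tw_zero_of (mid := mJ (j / 8 ^ M)) le_rfl, add_zero]
        intro hlt
        unfold ind
        rw [if_neg]
        intro hcon
        apply hyE
        rw [hE, mem_iUnion₂]
        exact ⟨j / 8 ^ M, Finset.mem_filter.2 ⟨Finset.mem_range.2 (lt_sq (Finset.mem_range.1 hj)), hlt⟩,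
          hcon⟩
      show l < |W (3 * M) (8 ^ (3 * M)) G y|
      rw [← heq]
      exact hy
  have hstepG : ∀ j, Step (3 * M) (G j) := fun j =>
    (step_tw ρ 0 (mJ (j / 8 ^ M)) M (xp M j) (by have := hmle (j / 8 ^ M); omega)).comp
      (fun x => c j * x)
  -- second moment of the truncated function
  have hgeo : ∀ J, (D J) ^ 2 * ∑ m ∈ Finset.Ico 0 (mJ J), (ρ ^ 2 / 8) ^ m ≤
      ((ρ ^ 2 / 8) / (ρ ^ 2 / 8 - 1)) * (l ^ (2 - p) * (D J) ^ p) := by
    intro J
    have hq : 0 < ρ ^ 2 / 8 - 1 := by linarith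
    rcases Nat.eq_zero_or_pos (mJ J) with h0 | h0
    · rw [h0, Finset.Ico_self, Finset.sum_empty, mul_zero]
      have := hD J
      positivity
    · obtain ⟨m', hm'⟩ : ∃ m', mJ J = m' + 1 := ⟨mJ J - 1, by omega⟩
      rcases eq_or_lt_of_le (hD J) with hD0 | hD0
      · rw [← hD0]
        simp only [ne_eq, OfNat.ofNat_ne_zero, not_false_eq_true, zero_pow, zero_mul]
        positivity
      · have h1 := hmin J m' (by omega)
        have h2 : (ρ ^ m') ^ (2 - p) ≤ (l / D J) ^ (2 - p) := by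
          apply Real.rpow_le_rpow (by positivity) _ (by linarith)
          rw [le_div_iff₀ hD0]
          linarith
        have h3 : (ρ ^ 2 / 8) ^ m' = (ρ ^ m') ^ (2 - p) := by
          have := rho_pow_n hρ0 hρp 2 m'
          exact_mod_cast this
        calc (D J) ^ 2 * ∑ m ∈ Finset.Ico 0 (mJ J), (ρ ^ 2 / 8) ^ m
            ≤ (D J) ^ 2 * ((ρ ^ 2 / 8) ^ (m' + 1) / (ρ ^ 2 / 8 - 1)) := by
              gcongr
              rw [hm']
              exact geo_le hQ1 0 (m' + 1)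
          _ = (D J) ^ 2 * (((ρ ^ 2 / 8) / (ρ ^ 2 / 8 - 1)) * (ρ ^ m') ^ (2 - p)) := by
              rw [pow_succ, ← h3]; ring
          _ ≤ (D J) ^ 2 * (((ρ ^ 2 / 8) / (ρ ^ 2 / 8 - 1)) * (l / D J) ^ (2 - p)) := by gcongr
          _ = _ := by
              rw [Real.div_rpow hl.le hD0.le]
              have h4 : (D J) ^ 2 = (D J) ^ p * (D J) ^ (2 - p) := by
                rw [← Real.rpow_add hD0, ← Real.rpow_two]
                congr 1
                ring
              have h5 : (D J) ^ (2 - p) ≠ 0 := by positivity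
              rw [h4]
              field_simp
  have hL2 : ∫ y, (W (3 * M) (8 ^ (3 * M)) G y) ^ (2 * 1) ∂mu ≤
      (2 * (ρ / (ρ - 1))) * (((ρ ^ 2 / 8) / (ρ ^ 2 / 8 - 1)) * (l ^ (2 - p) *
        ∑ J ∈ Finset.range (8 ^ (2 * M)), (D J) ^ p)) := by
    have h1 := tower_L2 hρ (B := 3 * M) (B' := M) (n := 8 ^ (3 * M)) (by omega)
      (lo := fun _ => 0) (hi := fun j => mJ (j / 8 ^ M)) (fun j => hmle _) (fun j => xp M j)
      (fun j _ => xp_lt M j) c
    rw [mul_one]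
    refine h1.trans ?_
    rw [sum_blocks M (fun j => (c j) ^ 2) (fun J => ∑ m ∈ Finset.Ico 0 (mJ J), (ρ ^ 2 / 8) ^ m)]
    gcongr
    rw [Finset.mul_sum, Finset.mul_sum]
    refine Finset.sum_le_sum fun J hJ => ?_
    refine le_trans ?_ (hgeo J)
    gcongr
    exact hcD J (Finset.mem_range.1 hJ)
  have hch := cheb (step_W hstepG (8 ^ (3 * M))) hl 1
  have hS0 : 0 ≤ ∑ J ∈ Finset.range (8 ^ (2 * M)), (D J) ^ p :=
    Finset.sum_nonneg fun J _ => by have := hD J; positivity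
  calc _ ≤ mu.real (E ∪ {y | l < |W (3 * M) (8 ^ (3 * M)) G y|}) :=
        measureReal_mono hsub (measure_ne_top _ _)
    _ ≤ mu.real E + mu.real {y | l < |W (3 * M) (8 ^ (3 * M)) G y|} := measureReal_union_le _ _
    _ ≤ l ^ (-p) * (∑ J ∈ Finset.range (8 ^ (2 * M)), (D J) ^ p) +
        ((2 * (ρ / (ρ - 1))) * (((ρ ^ 2 / 8) / (ρ ^ 2 / 8 - 1)) * (l ^ (2 - p) *
        ∑ J ∈ Finset.range (8 ^ (2 * M)), (D J) ^ p))) / l ^ (2 * 1) := by
        refine add_le_add hmE (hch.trans ?_)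
        gcongr
    _ = _ := by
        unfold CU
        have h1 : l ^ (2 - p) / l ^ (2 * 1) = l ^ (-p) := by
          rw [mul_one, ← Real.rpow_two, ← Real.rpow_sub hl]
          congr 1
          ring
        rw [← h1]
        ring

end Pool.Agent.KS6_84.OB
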