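import Pool.Agent.KS6_84.OB.WeakU

/-!
Weak type estimate for signed sums of deep towers, `p > 2`.
-/

set_option autoImplicit false

open MeasureTheory Set Filter Topology
open scoped ENNReal NNReal

namespace Pool.Agent.KS6_84.OB

theorem W_add (B n : ℕ) (G H : ℕ → ℝ → ℝ) (y : ℝ) :
    W B n (fun j y => G j y + H j y) y = W B n G y + W B n H y := by
  unfold W
  rw [← Finset.sum_add_distrib]
  exact Finset.sum_congr rfl fun j _ => by ring

/-- estimate for a single block -/
theorem blockV {p ρ : ℝ} (hp2 : 2 < p) (hρ : 1 < ρ) (hρp : ρ ^ p = 8) :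
    ∃ C : ℝ, 0 ≤ C ∧ ∀ (M : ℕ) (d : ℕ → ℝ) (D : ℝ), 0 ≤ D →
      ∑ j ∈ Finset.range (8 ^ (3 * M)), (d j) ^ 2 ≤ D ^ 2 → ∀ J < 8 ^ (2 * M), ∀ l : ℝ, 0 < l →
      mu.real ({y | idx (2 * M) y = J} ∩
        {y | l < |W (3 * M) (8 ^ (3 * M)) (fun j y => d j * tw ρ (2 * M) (3 * M) (3 * M) j y) y|}) ≤
        C * (l ^ (-p) * D ^ p) := by
  have hρ0 : 0 < ρ := by linarith
  have hρ1 : 0 < ρ - 1 := by linarith
  have hp : 0 < p := by linarith
  obtain ⟨L, hL⟩ := exists_nat_gt p
  -- constants
  have hQ : 1 < ρ ^ (2 * (L + 1)) / 8 := by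
    have h1 := rho_pow_n hρ0 hρp (2 * (L + 1)) 1
    rw [pow_one, pow_one] at h1
    rw [h1]
    apply Real.one_lt_rpow hρ
    push_cast
    linarith
  have hq1 : ρ ^ 2 / 8 < 1 := by
    rw [rho_sq hρ0 hρp]
    exact Real.rpow_lt_one_of_one_lt_of_neg hρ (by linarith)
  have hq0 : 0 < ρ ^ 2 / 8 := by positivity
  set Q := ρ ^ (2 * (L + 1)) / 8 with hQdef
  set qq := ρ ^ 2 / 8 with hqdef
  have hρ2 : 1 < ρ ^ 2 := by nlinarith
  have hKc : 0 ≤ Kc ρ L := by
    unfold Kc
    have : 0 ≤ ρ ^ 2 / (ρ ^ 2 - 1) := div_nonneg (by positivity) (by linarith)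
    positivity
  set C1 := 2 ^ (2 * (L + 1)) * (Kc ρ L / (Q - 1)) with hC1
  set C2 := 4 * ((2 * (ρ / (ρ - 1))) * (ρ ^ (p - 2) / (1 - qq))) with hC2
  have hC1n : 0 ≤ C1 := by
    rw [hC1]
    have : 0 < Q - 1 := by linarith
    positivity
  have hC2n : 0 ≤ C2 := by
    rw [hC2]
    have : 0 < 1 - qq := by linarith
    positivity
  refine ⟨8 + C1 + C2, by positivity, ?_⟩
  intro M d D hD hd J hJ l hl
  have hstep : ∀ lo hi, hi ≤ 3 * M → ∀ j, Step (3 * M) (fun y => d j * tw ρ lo hi (3 * M) j y) :=
    fun lo hi hhi j => (step_tw ρ lo hi (3 * M) j hhi).comp (fun x => d j * x)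
  rcases eq_or_lt_of_le hD with hD0 | hD0
  · -- all coefficients vanish
    have hdz : ∀ j ∈ Finset.range (8 ^ (3 * M)), d j = 0 := by
      intro j hj
      have h1 : (d j) ^ 2 ≤ 0 := by
        refine le_trans (Finset.single_le_sum (f := fun j => (d j) ^ 2) (fun _ _ => sq_nonneg _) hj) ?_
        rw [← hD0] at hd
        simpa using hd
      exact pow_eq_zero_iff (two_ne_zero) |>.1 (le_antisymm h1 (sq_nonneg _))
    have hemp : {y | idx (2 * M) y = J} ∩
        {y | l < |W (3 * M) (8 ^ (3 * M)) (fun j y => d j * tw ρ (2 * M) (3 * M) (3 * M) j y) y|} = ∅ := by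
      ext y
      simp only [mem_inter_iff, mem_ofPred_eq, mem_empty_iff_false, iff_false, not_and, not_lt]
      intro _
      have : W (3 * M) (8 ^ (3 * M)) (fun j y => d j * tw ρ (2 * M) (3 * M) (3 * M) j y) y = 0 := by
        unfold W
        refine Finset.sum_eq_zero fun j hj => ?_
        simp only
        rw [hdz j hj]; ring
      rw [this, abs_zero]
      exact hl.le
    rw [hemp, measureReal_empty]
    positivity
  · have hex : ∃ k, k = M ∨ l / D < ρ ^ (2 * M + k + 1) := ⟨M, Or.inl rfl⟩
    classical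
    set k0 := Nat.find hex with hk0
    have hk0le : k0 ≤ M := Nat.find_min' hex (Or.inl rfl)
    have hspec : k0 = M ∨ l / D < ρ ^ (2 * M + k0 + 1) := Nat.find_spec hex
    have hlD : 0 < l / D := by positivity
    have hgoal0 : l ^ (-p) * D ^ p = (l / D) ^ (-p) := by
      rw [Real.div_rpow hl.le hD0.le, Real.rpow_neg hD0.le, div_inv_eq_mul]
    rw [hgoal0]
    have hz0 : 0 ≤ (l / D) ^ (-p) := by positivity
    rcases Nat.eq_zero_or_pos k0 with h0 | h0
    · rcases Nat.eq_zero_or_pos M with hM0 | hM0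
      · have hemp : {y | idx (2 * M) y = J} ∩
            {y | l < |W (3 * M) (8 ^ (3 * M)) (fun j y => d j * tw ρ (2 * M) (3 * M) (3 * M) j y) y|} = ∅ := by
          ext y
          simp only [mem_inter_iff, mem_ofPred_eq, mem_empty_iff_false, iff_false, not_and, not_lt]
          intro _
          have : W (3 * M) (8 ^ (3 * M)) (fun j y => d j * tw ρ (2 * M) (3 * M) (3 * M) j y) y = 0 := by
            unfold W
            refine Finset.sum_eq_zero fun j hj => ?_
            unfold tw
            rw [hM0]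
            simp
          rw [this, abs_zero]
          exact hl.le
        rw [hemp, measureReal_empty]
        positivity
      · have h1 : l / D < ρ ^ (2 * M + 1) := by
          rcases hspec with h | h
          · omega
          · rw [h0] at h
            simpa using h
        have h2 : (l / D) ^ p ≤ 8 ^ (2 * M + 1) := by
          rw [← rho_pow hρ0 hρp]
          exact Real.rpow_le_rpow hlD.le h1.le hp.le
        calc _ ≤ mu.real {y | idx (2 * M) y = J} := measureReal_mono inter_subset_left (measure_ne_top _ _)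
          _ = ((8:ℝ) ^ (2 * M))⁻¹ := mu_real_cell hJ
          _ ≤ 8 * (l / D) ^ (-p) := by
              rw [Real.rpow_neg hlD.le, ← div_eq_mul_inv, le_div_iff₀ (by positivity),
                inv_mul_le_iff₀ (by positivity)]
              rw [pow_succ] at h2
              linarith
          _ ≤ _ := by nlinarith
    · obtain ⟨k', hk'⟩ : ∃ k', k0 = k' + 1 := ⟨k0 - 1, by omega⟩
      have hmin : ρ ^ (2 * M + k0) ≤ l / D := by
        have := Nat.find_min hex (m := k') (by omega)
        push Not at this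
        have h2 := this.2
        rw [hk', ← add_assoc]
        exact h2
      set m0 := 2 * M + k0 with hm0
      have hm03 : m0 ≤ 3 * M := by omega
      have hsplit : ∀ y, W (3 * M) (8 ^ (3 * M)) (fun j y => d j * tw ρ (2 * M) (3 * M) (3 * M) j y) y =
          W (3 * M) (8 ^ (3 * M)) (fun j y => d j * tw ρ (2 * M) m0 (3 * M) j y) y +
          W (3 * M) (8 ^ (3 * M)) (fun j y => d j * tw ρ m0 (3 * M) (3 * M) j y) y := by
        intro y
        rw [← W_add]
        unfold W
        refine Finset.sum_congr rfl fun j _ => ?_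
        simp only
        rw [tw_split (mid := m0) (by omega) hm03]
        ring
      have hsub : {y | idx (2 * M) y = J} ∩
          {y | l < |W (3 * M) (8 ^ (3 * M)) (fun j y => d j * tw ρ (2 * M) (3 * M) (3 * M) j y) y|} ⊆
          {y | l / 2 < |W (3 * M) (8 ^ (3 * M)) (fun j y => d j * tw ρ (2 * M) m0 (3 * M) j y) y|} ∪
          {y | l / 2 < |W (3 * M) (8 ^ (3 * M)) (fun j y => d j * tw ρ m0 (3 * M) (3 * M) j y) y|} := by
        rintro y ⟨_, hy⟩
        have hy' : l < |W (3 * M) (8 ^ (3 * M)) (fun j y => d j * tw ρ (2 * M) (3 * M) (3 * M) j y) y| := hy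
        rw [hsplit] at hy'
        by_contra hcon
        rw [mem_union, not_or] at hcon
        have a1 : |W (3 * M) (8 ^ (3 * M)) (fun j y => d j * tw ρ (2 * M) m0 (3 * M) j y) y| ≤ l / 2 :=
          not_lt.1 hcon.1
        have a2 : |W (3 * M) (8 ^ (3 * M)) (fun j y => d j * tw ρ m0 (3 * M) (3 * M) j y) y| ≤ l / 2 :=
          not_lt.1 hcon.2
        have := abs_add_le (W (3 * M) (8 ^ (3 * M)) (fun j y => d j * tw ρ (2 * M) m0 (3 * M) j y) y)
          (W (3 * M) (8 ^ (3 * M)) (fun j y => d j * tw ρ m0 (3 * M) (3 * M) j y) y)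
        linarith
      -- the low levels
      have hlow : mu.real {y | l / 2 <
          |W (3 * M) (8 ^ (3 * M)) (fun j y => d j * tw ρ (2 * M) m0 (3 * M) j y) y|} ≤
          C1 * (l / D) ^ (-p) := by
        refine (cheb (step_W (hstep (2 * M) m0 hm03) (8 ^ (3 * M))) (half_pos hl) (L + 1)).trans ?_
        have h1 := tower_L2l hρ (lo := 2 * M) hm03 le_rfl d hD0 hd L
        have h2 : ∑ m ∈ Finset.Ico (2 * M) m0, Q ^ m ≤ (l / D) ^ (((2 * (L + 1) : ℕ) : ℝ) - p) / (Q - 1) := by
          refine (geo_le hQ _ _).trans ?_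
          rw [hQdef, rho_pow_n hρ0 hρp]
          have : 0 < Q - 1 := by linarith
          gcongr
          push_cast
          linarith
        calc _ ≤ (Kc ρ L * D ^ (2 * (L + 1)) * ((l / D) ^ (((2 * (L + 1) : ℕ) : ℝ) - p) / (Q - 1))) /
              (l / 2) ^ (2 * (L + 1)) := by
              gcongr
              exact h1.trans (by gcongr)
          _ = C1 * (l / D) ^ (-p) := by
              rw [Real.rpow_sub hlD, Real.rpow_natCast, Real.rpow_neg hlD.le, hC1, div_pow l D,
                div_pow l 2]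
              have : Q - 1 ≠ 0 := by
                have : 0 < Q - 1 := by linarith
                exact this.ne'
              have h3 : (l / D) ^ p ≠ 0 := by positivity
              field_simp
      have hhigh : mu.real {y | l / 2 <
          |W (3 * M) (8 ^ (3 * M)) (fun j y => d j * tw ρ m0 (3 * M) (3 * M) j y) y|} ≤
          C2 * (l / D) ^ (-p) := by
        rcases Nat.lt_or_ge k0 M with hlt | hge
        · refine (cheb (step_W (hstep m0 (3 * M) le_rfl) (8 ^ (3 * M))) (half_pos hl) 1).trans ?_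
          have h1 := tower_L2 hρ (B := 3 * M) (B' := 3 * M) (n := 8 ^ (3 * M)) le_rfl
            (lo := fun _ => m0) (hi := fun _ => 3 * M) (fun _ => le_rfl) (fun j => j)
            (fun j hj => hj) d
          rw [← Finset.sum_mul] at h1
          have h2 : ∑ m ∈ Finset.Ico m0 (3 * M), qq ^ m ≤ (l / D) ^ (2 - p) * ρ ^ (p - 2) / (1 - qq) := by
            refine (geo_le' hq0 hq1 _ _).trans ?_
            have h3 := rho_pow_n hρ0 hρp 2 m0
            rw [← hqdef] at h3
            rw [h3]
            have : 0 < 1 - qq := by linarith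
            gcongr
            have h4 : l / D / ρ < ρ ^ m0 := by
              have h5 := hspec.resolve_left (by omega)
              rw [div_lt_iff₀ hρ0, ← pow_succ]
              exact h5
            have h6 : (ρ ^ m0) ^ (2 - p) ≤ (l / D / ρ) ^ (2 - p) :=
              Real.rpow_le_rpow_of_nonpos (by positivity) h4.le (by linarith)
            refine le_trans (by exact_mod_cast h6) (le_of_eq ?_)
            rw [Real.div_rpow hlD.le hρ0.le, div_eq_mul_inv, ← Real.rpow_neg hρ0.le, neg_sub]
          have hS : 0 ≤ ∑ m ∈ Finset.Ico m0 (3 * M), qq ^ m := Finset.sum_nonneg fun _ _ => by positivity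
          calc _ ≤ ((2 * (ρ / (ρ - 1))) * (D ^ 2 * ((l / D) ^ (2 - p) * ρ ^ (p - 2) / (1 - qq)))) /
                (l / 2) ^ (2 * 1) := by
                gcongr
                rw [mul_one]
                refine h1.trans ?_
                gcongr
            _ = C2 * (l / D) ^ (-p) := by
                rw [Real.rpow_sub hlD, Real.rpow_two, Real.rpow_neg hlD.le, hC2, div_pow l D,
                  mul_one, div_pow l 2]
                have : 1 - qq ≠ 0 := by
                  have : 0 < 1 - qq := by linarith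
                  exact this.ne'
                have h3 : (l / D) ^ p ≠ 0 := by positivity
                field_simp
                ring
        · have hemp : {y | l / 2 <
              |W (3 * M) (8 ^ (3 * M)) (fun j y => d j * tw ρ m0 (3 * M) (3 * M) j y) y|} = ∅ := by
            ext y
            simp only [mem_ofPred_eq, mem_empty_iff_false, iff_false, not_lt]
            have : W (3 * M) (8 ^ (3 * M)) (fun j y => d j * tw ρ m0 (3 * M) (3 * M) j y) y = 0 := by
              unfold W
              refine Finset.sum_eq_zero fun j hj => ?_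
              unfold tw
              rw [Finset.Ico_eq_empty (by omega)]
              simp
            rw [this, abs_zero]
            positivity
          rw [hemp, measureReal_empty]
          positivity
      calc _ ≤ mu.real ({y | l / 2 < |W (3 * M) (8 ^ (3 * M)) (fun j y => d j * tw ρ (2 * M) m0 (3 * M) j y) y|} ∪
          {y | l / 2 < |W (3 * M) (8 ^ (3 * M)) (fun j y => d j * tw ρ m0 (3 * M) (3 * M) j y) y|}) :=
            measureReal_mono hsub (measure_ne_top _ _)
        _ ≤ _ := measureReal_union_le _ _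
        _ ≤ C1 * (l / D) ^ (-p) + C2 * (l / D) ^ (-p) := add_le_add hlow hhigh
        _ ≤ _ := by nlinarith

/-- weak type estimate, `p > 2` -/
theorem weakV {p ρ : ℝ} (hp2 : 2 < p) (hρ : 1 < ρ) (hρp : ρ ^ p = 8) :
    ∃ C : ℝ, 0 ≤ C ∧ ∀ (M : ℕ) (d D : ℕ → ℝ), (∀ J, 0 ≤ D J) →
      (∀ J < 8 ^ (2 * M), ∑ j ∈ (Finset.range (8 ^ (3 * M))).filter (fun j => j / 8 ^ M = J),
        (d j) ^ 2 ≤ (D J) ^ 2) → ∀ l : ℝ, 0 < l →
      mu.real {y | l < |W (3 * M) (8 ^ (3 * M)) (fun j y => d j * tw ρ (2 * M) (3 * M) (3 * M) j y) y|} ≤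
        C * (l ^ (-p) * ∑ J ∈ Finset.range (8 ^ (2 * M)), (D J) ^ p) := by
  classical
  obtain ⟨C, hC, hblock⟩ := blockV hp2 hρ hρp
  refine ⟨C, hC, fun M d D hD hd l hl => ?_⟩
  set dJ : ℕ → ℕ → ℝ := fun J j => if j / 8 ^ M = J then d j else 0 with hdJ
  set S : ℕ → Set ℝ := fun J => {y | idx (2 * M) y = J} ∩
    {y | l < |W (3 * M) (8 ^ (3 * M)) (fun j y => dJ J j * tw ρ (2 * M) (3 * M) (3 * M) j y) y|} with hS
  have hloc : ∀ y, W (3 * M) (8 ^ (3 * M)) (fun j y => d j * tw ρ (2 * M) (3 * M) (3 * M) j y) y =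
      W (3 * M) (8 ^ (3 * M)) (fun j y => dJ (idx (2 * M) y) j * tw ρ (2 * M) (3 * M) (3 * M) j y) y := by
    intro y
    unfold W
    refine Finset.sum_congr rfl fun j hj => ?_
    rw [hdJ]
    simp only
    by_cases h : j / 8 ^ M = idx (2 * M) y
    · rw [if_pos h]
    · rw [if_neg h]
      have : tw ρ (2 * M) (3 * M) (3 * M) j y = 0 := by
        refine tw_zero_of le_rfl fun _ => ?_
        unfold ind
        rw [if_neg]
        intro hcon
        rw [show 3 * M - 2 * M = M by omega] at hcon
        exact h hcon.symm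
      rw [this]
      ring
  have hsub : ({y | l < |W (3 * M) (8 ^ (3 * M)) (fun j y => d j * tw ρ (2 * M) (3 * M) (3 * M) j y) y|} :
      Set ℝ) ≤ᵐ[mu] (⋃ J ∈ Finset.range (8 ^ (2 * M)), S J : Set ℝ) := by
    filter_upwards [ae_idx_lt (2 * M)] with y hy hy2
    have hy3 : l < |W (3 * M) (8 ^ (3 * M)) (fun j y => d j * tw ρ (2 * M) (3 * M) (3 * M) j y) y| := hy2
    rw [hloc] at hy3
    show y ∈ ⋃ J ∈ Finset.range (8 ^ (2 * M)), S J
    rw [mem_iUnion₂]
    exact ⟨idx (2 * M) y, Finset.mem_range.2 hy, rfl, hy3⟩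
  calc _ ≤ mu.real (⋃ J ∈ Finset.range (8 ^ (2 * M)), S J) := by
        unfold Measure.real
        exact ENNReal.toReal_mono (measure_ne_top _ _) (measure_mono_ae hsub)
    _ ≤ ∑ J ∈ Finset.range (8 ^ (2 * M)), mu.real (S J) := measureReal_biUnion_finset_le _ _
    _ ≤ ∑ J ∈ Finset.range (8 ^ (2 * M)), C * (l ^ (-p) * (D J) ^ p) := by
        refine Finset.sum_le_sum fun J hJ => ?_
        refine hblock M (dJ J) (D J) (hD J) ?_ J (Finset.mem_range.1 hJ) l hl
        refine le_trans (le_of_eq ?_) (hd J (Finset.mem_range.1 hJ))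
        rw [Finset.sum_filter]
        refine Finset.sum_congr rfl fun j _ => ?_
        rw [hdJ]
        simp only
        split_ifs <;> simp
    _ = _ := by
        rw [← Finset.mul_sum, ← Finset.mul_sum]

end Pool.Agent.KS6_84.OB
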